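import Pool.Agent.MP_54e5d7_al.atl.IW0
import Pool.Agent.MP_54e5d7_al.Graph

-- ======== part 0: formerly Pool.Agent.MP_54e5d7_al.atl.SMT
section MrgPart0

/-!
Project ATL, row SMT: few small singular values for coefficients in a purely transcendental ring.
-/

set_option autoImplicit false

open Classical Module

noncomputable section
namespace Pool.Agent.MP_54e5d7_al.atl

namespace SmtA

/-- Integer polynomials are bounded and Lipschitz on bounded sets. -/
lemma poly_lip {s : ℕ} (R : ℝ) (hR : 0 ≤ R) (P : MvPolynomial (Fin s) ℤ) :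
    ∃ C : ℝ, 0 ≤ C ∧ ∀ z w : Fin s → ℂ, (∀ i, ‖z i‖ ≤ R) → (∀ i, ‖w i‖ ≤ R) → ∀ r : ℝ, 0 ≤ r →
      (∀ i, ‖z i - w i‖ ≤ r) →
      ‖MvPolynomial.aeval z P‖ ≤ C ∧ ‖MvPolynomial.aeval z P - MvPolynomial.aeval w P‖ ≤ C * r := by
  induction P using MvPolynomial.induction_on with
  | C a =>
    refine ⟨‖(a : ℂ)‖, norm_nonneg _, fun z w _ _ r hr _ => ⟨by simp, ?_⟩⟩
    simp only [MvPolynomial.aeval_C, sub_self, norm_zero]
    positivity
  | add p q hp hq =>
    obtain ⟨C1, h1, hp⟩ := hp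
    obtain ⟨C2, h2, hq⟩ := hq
    refine ⟨C1 + C2, by positivity, fun z w hz hw r hr hzw => ?_⟩
    obtain ⟨a1, a2⟩ := hp z w hz hw r hr hzw
    obtain ⟨b1, b2⟩ := hq z w hz hw r hr hzw
    simp only [map_add]
    refine ⟨(norm_add_le _ _).trans (add_le_add a1 b1), ?_⟩
    rw [add_sub_add_comm, add_mul]
    exact (norm_add_le _ _).trans (add_le_add a2 b2)
  | mul_X p i hp =>
    obtain ⟨C1, h1, hp⟩ := hp
    refine ⟨C1 * R + C1, by positivity, fun z w hz hw r hr hzw => ?_⟩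
    obtain ⟨a1, a2⟩ := hp z w hz hw r hr hzw
    simp only [map_mul, MvPolynomial.aeval_X]
    constructor
    · rw [norm_mul]
      have := mul_le_mul a1 (hz i) (norm_nonneg _) h1
      linarith
    · have e : MvPolynomial.aeval z p * z i - MvPolynomial.aeval w p * w i =
          (MvPolynomial.aeval z p - MvPolynomial.aeval w p) * w i +
            MvPolynomial.aeval z p * (z i - w i) := by ring
      rw [e]
      refine (norm_add_le _ _).trans ?_
      rw [norm_mul, norm_mul]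
      have t1 := mul_le_mul a2 (hw i) (norm_nonneg _) (by positivity)
      have t2 := mul_le_mul a1 (hzw i) (norm_nonneg _) h1
      nlinarith

/-- Level matrices with prescribed supports. -/
def lv {G Q R ι κ : Type} [Group G] [Group Q] [AddCommMonoid R] (S : ι → κ → Finset G)
    (c : ι → κ → G → R) (ψ : G →* Q) : Matrix (ι × Q) (κ × Q) R :=
  Matrix.of fun a b => ∑ h ∈ S a.1 b.1, if a.2 * ψ h = b.2 then c a.1 b.1 h else 0

lemma lv_bound {G Q ι κ : Type} [Group G] [Group Q] [Fintype Q] [Fintype ι] [Fintype κ]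
    (S : ι → κ → Finset G) (c : ι → κ → G → ℂ) (ψ : G →* Q) (x : ι × Q → ℂ) (b : ℝ)
    (hb : ∑ i, ∑ k, ∑ h ∈ S i k, ‖c i k h‖ ≤ b) :
    nsq (Matrix.vecMul x (lv S c ψ)) ≤ b ^ 2 * nsq x := by
  let B : Matrix ι κ (G →₀ ℂ) := fun i k =>
    Finsupp.onFinset (S i k) (fun g => if g ∈ S i k then c i k g else 0) fun g hg => by
      by_contra h
      exact hg (if_neg h)
  have hs : ∀ i k, (B i k).support ⊆ S i k := fun i k => Finsupp.support_onFinset_subset
  have hv : ∀ i k g, g ∈ S i k → B i k g = c i k g := fun i k g hg => by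
    simp [B, Finsupp.onFinset_apply, hg]
  have e : lv S c ψ = lvl B ψ := by
    ext a b'
    rw [lvl_apply, Finsupp.sum_of_support_subset _ (hs _ _) _ (by simp)]
    refine Finset.sum_congr rfl fun h hh => ?_
    rw [hv _ _ _ hh]
  rw [e]
  refine (nsq_vecMul_lvl_le B ψ x).trans (mul_le_mul_of_nonneg_right ?_ (nsq_nonneg x))
  refine pow_le_pow_left₀ (by positivity) (le_trans ?_ hb) 2
  refine Finset.sum_le_sum fun i _ => Finset.sum_le_sum fun k _ => ?_
  calc ∑ h ∈ (B i k).support, ‖B i k h‖ ≤ ∑ h ∈ S i k, ‖B i k h‖ :=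
        Finset.sum_le_sum_of_subset_of_nonneg (hs i k) fun _ _ _ => norm_nonneg _
    _ = _ := Finset.sum_congr rfl fun h hh => by rw [hv _ _ _ hh]

lemma lv_sub {G Q ι κ : Type} [Group G] [Group Q] (S : ι → κ → Finset G) (c c' : ι → κ → G → ℂ)
    (ψ : G →* Q) :
    lv S c ψ = lv S c' ψ + lv S (fun i k g => c i k g - c' i k g) ψ := by
  ext a b
  simp only [lv, Matrix.add_apply, Matrix.of_apply, ← Finset.sum_add_distrib]
  refine Finset.sum_congr rfl fun h _ => ?_
  split_ifs <;> simp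

lemma nsq_add_le {ι : Type} [Fintype ι] (u v : ι → ℂ) : nsq (u + v) ≤ 2 * nsq u + 2 * nsq v := by
  simp only [nsq, Finset.mul_sum, ← Finset.sum_add_distrib]
  refine Finset.sum_le_sum fun i _ => ?_
  have h := norm_add_le (u i) (v i)
  have h2 := pow_le_pow_left₀ (norm_nonneg _) h 2
  rw [Pi.add_apply]
  nlinarith [sq_nonneg (‖u i‖ - ‖v i‖)]

/-- Extension by zero. -/
def ext0 {α β : Type} [Fintype α] (f : α → β) : (α → ℂ) →ₗ[ℂ] (β → ℂ) where
  toFun y b := ∑ n, if f n = b then y n else 0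
  map_add' y y' := by
    ext b
    simp only [Pi.add_apply, ← Finset.sum_add_distrib]
    refine Finset.sum_congr rfl fun n _ => ?_
    split_ifs <;> simp
  map_smul' c y := by
    ext b
    simp only [Pi.smul_apply, smul_eq_mul, RingHom.id_apply, Finset.mul_sum]
    refine Finset.sum_congr rfl fun n _ => ?_
    split_ifs <;> simp

lemma ext0_apply {α β : Type} [Fintype α] {f : α → β} (hf : Function.Injective f) (y : α → ℂ)
    (n : α) : ext0 f y (f n) = y n := by
  change (∑ m, if f m = f n then y m else 0) = y n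
  simp [hf.eq_iff]

lemma ext0_off {α β : Type} [Fintype α] {f : α → β} (y : α → ℂ) (b : β) (hb : ∀ n, f n ≠ b) :
    ext0 f y b = 0 := by
  change (∑ m, if f m = b then y m else 0) = 0
  simp [hb]

lemma sum_ext0 {α β : Type} [Fintype α] [Fintype β] {f : α → β} (hf : Function.Injective f)
    (y : α → ℂ) {M : Type} [AddCommMonoid M] (F : β → ℂ → M) (hF : ∀ b, F b 0 = 0) :
    ∑ b, F b (ext0 f y b) = ∑ n, F (f n) (y n) := by
  symm
  refine Finset.sum_of_injOn f hf.injOn (by simp) ?_ ?_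
  · intro b _ hb
    rw [ext0_off y b, hF]
    intro n e
    exact hb ⟨n, by simp, e⟩
  · intro n _
    rw [ext0_apply hf]

lemma nsq_ext0 {α β : Type} [Fintype α] [Fintype β] {f : α → β} (hf : Function.Injective f)
    (y : α → ℂ) : nsq (ext0 f y) = nsq y :=
  sum_ext0 hf y (fun _ c => ‖c‖ ^ 2) (by simp)

lemma nsq_sub_le {α β γ : Type} [Fintype α] [Fintype β] [Fintype γ] {f : α → β} {g : α → γ}
    (hf : Function.Injective f) (hg : Function.Injective g) (M : Matrix β γ ℂ) (y : α → ℂ) :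
    nsq (Matrix.vecMul y (M.submatrix f g)) ≤ nsq (Matrix.vecMul (ext0 f y) M) := by
  have e : ∀ n, Matrix.vecMul y (M.submatrix f g) n = Matrix.vecMul (ext0 f y) M (g n) := by
    intro n
    simp only [Matrix.vecMul, dotProduct, Matrix.submatrix_apply]
    exact (sum_ext0 hf y (fun b c => c * M b (g n)) (by simp)).symm
  simp only [nsq, e]
  rw [← Finset.sum_image (s := Finset.univ) (g := g)
    (f := fun c => ‖Matrix.vecMul (ext0 f y) M c‖ ^ 2) hg.injOn]
  exact Finset.sum_le_sum_of_subset_of_nonneg (Finset.subset_univ _) fun _ _ _ => sq_nonneg _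

lemma finrank_comap {α β : Type} [Fintype α] [Fintype β] {f : α → β} (hf : Function.Injective f)
    (W : Submodule ℂ (β → ℂ)) :
    finrank ℂ W + Fintype.card α ≤ finrank ℂ (W.comap (ext0 f)) + Fintype.card β := by
  have hinj : Function.Injective (ext0 f) := fun y y' h => funext fun n => by
    rw [← ext0_apply hf y n, h, ext0_apply hf]
  have h1 : finrank ℂ (LinearMap.range (ext0 f)) = Fintype.card α := by
    rw [LinearMap.finrank_range_of_inj hinj, finrank_fintype_fun_eq_card]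
  have h2 : finrank ℂ (W.comap (ext0 f)) = finrank ℂ ↥(LinearMap.range (ext0 f) ⊓ W) := by
    rw [← Submodule.map_comap_eq]
    exact (Submodule.equivMapOfInjective _ hinj _).finrank_eq
  have h3 := Submodule.finrank_sup_add_finrank_inf_eq (LinearMap.range (ext0 f)) W
  have h4 : finrank ℂ ↥(LinearMap.range (ext0 f) ⊔ W) ≤ Fintype.card β := by
    rw [← finrank_fintype_fun_eq_card ℂ]
    exact Submodule.finrank_le _
  omega

lemma deg_det {s N d : ℕ} (M : Matrix (Fin N) (Fin N) (MvPolynomial (Fin s) ℤ))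
    (h : ∀ i j, (M i j).totalDegree ≤ d) : M.det.totalDegree ≤ N * d := by
  rw [Matrix.det_apply]
  refine (MvPolynomial.totalDegree_finsetSum _ _).trans (Finset.sup_le fun σ _ => ?_)
  rw [Units.smul_def]
  refine (MvPolynomial.totalDegree_smul_le _ _).trans ?_
  refine (MvPolynomial.totalDegree_finsetProd _ _).trans ?_
  calc ∑ i, (M (σ i) i).totalDegree ≤ ∑ _i : Fin N, d := Finset.sum_le_sum fun i _ => h _ _
    _ = N * d := by simp

end SmtA

open SmtA in
theorem smallT (_h0 : GelfStmt) (h1 : GelStmt) (h2 : DetStmt) : SmallTStmt := by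
  intro G ι κ _ _ _ s lm hlm A hA η hη
  choose Pc hPc using hA
  let S : ι → κ → Finset G := fun i k => (A i k).support
  -- the radius of the region
  let R : ℝ := 1 + ∑ i, ‖lm i‖
  have hR0 : 0 ≤ ∑ i, ‖lm i‖ := by positivity
  have hlmR : ∀ i, ‖lm i‖ ≤ ∑ i, ‖lm i‖ := fun i =>
    Finset.single_le_sum (f := fun i => ‖lm i‖) (fun _ _ => norm_nonneg _) (Finset.mem_univ i)
  choose C hC0 hC using fun P : MvPolynomial (Fin s) ℤ => poly_lip R (by positivity) P
  let b : ℝ := 1 + ∑ i, ∑ k, ∑ h ∈ S i k, C (Pc i k h)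
  have hb0 : 0 ≤ ∑ i, ∑ k, ∑ h ∈ S i k, C (Pc i k h) :=
    Finset.sum_nonneg fun i _ => Finset.sum_nonneg fun k _ => Finset.sum_nonneg fun h _ => hC0 _
  have hb1 : 1 ≤ b := by simp only [b]; linarith
  let d : ℕ := ∑ i, ∑ k, ∑ h ∈ S i k, (Pc i k h).totalDegree
  have hd : ∀ i k h, h ∈ S i k → (Pc i k h).totalDegree ≤ d := fun i k h hh => by
    calc (Pc i k h).totalDegree ≤ ∑ h ∈ S i k, (Pc i k h).totalDegree :=
          Finset.single_le_sum (f := fun h => (Pc i k h).totalDegree) (fun _ _ => Nat.zero_le _) hh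
      _ ≤ ∑ k, ∑ h ∈ S i k, (Pc i k h).totalDegree :=
          Finset.single_le_sum (f := fun k => ∑ h ∈ S i k, (Pc i k h).totalDegree)
            (fun _ _ => Nat.zero_le _) (Finset.mem_univ k)
      _ ≤ d := Finset.single_le_sum (f := fun i => ∑ k, ∑ h ∈ S i k, (Pc i k h).totalDegree)
            (fun _ _ => Nat.zero_le _) (Finset.mem_univ i)
  let c1 : ℝ := Fintype.card ι * (d + b) + 1
  have hc1 : 0 < c1 := by positivity
  obtain ⟨r₀, hr₀, hG⟩ := h1 s lm hlm (η / (4 * c1)) (by positivity)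
  let l : ℝ := 4 * b + 4 * c1 / η + |Real.log r₀|
  have hl1 : 0 < 4 * c1 / η := by positivity
  have hl2 : 0 ≤ |Real.log r₀| := abs_nonneg _
  have hl : 0 < l := by simp only [l]; linarith
  let r : ℝ := Real.exp (-l)
  have hr : 0 < r := Real.exp_pos _
  have hr1 : r ≤ 1 := Real.exp_le_one_iff.2 (by linarith)
  have hrr : r ≤ r₀ := by
    rw [← Real.exp_log hr₀]
    refine Real.exp_le_exp.2 ?_
    have := neg_abs_le (Real.log r₀)
    simp only [l]; linarith
  refine ⟨r, hr, fun Q _ _ ψ W hW => ?_⟩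
  let cz : (Fin s → ℂ) → ι → κ → G → ℂ := fun z i k g => MvPolynomial.aeval z (Pc i k g)
  have eA : lvl A ψ = lv S (cz lm) ψ := by
    ext a b'
    rw [lvl_apply, Finsupp.sum]
    refine Finset.sum_congr rfl fun h _ => ?_
    rw [hPc]
  obtain ⟨N, hN⟩ : ∃ N, N = rk A ψ := ⟨_, rfl⟩
  rw [← hN]
  obtain ⟨f, g, hf, hg, hdet⟩ := h2.2 _ _ (lvl A ψ) N hN
  let P : MvPolynomial (Fin s) ℤ := ((lv S Pc ψ).submatrix f g).det
  have hP : ∀ z : Fin s → ℂ, MvPolynomial.aeval z P = ((lv S (cz z) ψ).submatrix f g).det := by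
    intro z
    simp only [P]
    rw [AlgHom.map_det]
    congr 1
    ext i j
    simp only [AlgHom.mapMatrix_apply, Matrix.map_apply, Matrix.submatrix_apply, lv,
      Matrix.of_apply, map_sum]
    refine Finset.sum_congr rfl fun h _ => ?_
    split_ifs <;> simp [cz]
  have hP0 : P ≠ 0 := fun e => hdet (by rw [eA, ← hP, e, map_zero])
  have hNle : (N : ℝ) ≤ Fintype.card ι * Fintype.card Q := by
    have := Fintype.card_le_of_injective f hf
    rw [Fintype.card_fin, Fintype.card_prod] at this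
    exact_mod_cast this
  have hQ : (0 : ℝ) < Fintype.card Q := by exact_mod_cast Fintype.card_pos
  have hT : (N : ℝ) * (d + b) ≤ c1 * Fintype.card Q := by
    have := mul_le_mul_of_nonneg_right hNle (show (0 : ℝ) ≤ d + b by positivity)
    simp only [c1]
    nlinarith
  have hbN : b ^ N ≤ Real.exp (c1 * Fintype.card Q) := by
    calc b ^ N ≤ Real.exp b ^ N :=
          pow_le_pow_left₀ (by linarith) (by linarith [Real.add_one_le_exp b]) N
      _ = Real.exp (N * b) := by rw [Real.exp_nat_mul]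
      _ ≤ _ := Real.exp_le_exp.2 (by
          have : (0 : ℝ) ≤ (N : ℝ) * d := by positivity
          nlinarith)
  have hbz : ∀ z : Fin s → ℂ, (∀ i, ‖z i‖ ≤ R) → ∀ y : Fin N → ℂ,
      nsq (Matrix.vecMul y ((lv S (cz z) ψ).submatrix f g)) ≤ b ^ 2 * nsq y := by
    intro z hz y
    refine (nsq_sub_le hf hg _ y).trans ?_
    rw [← nsq_ext0 hf y]
    refine lv_bound S _ ψ _ b ?_
    have : ∑ i, ∑ k, ∑ h ∈ S i k, ‖cz z i k h‖ ≤ ∑ i, ∑ k, ∑ h ∈ S i k, C (Pc i k h) :=
      Finset.sum_le_sum fun i _ => Finset.sum_le_sum fun k _ => Finset.sum_le_sum fun h _ =>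
        (hC _ z z hz hz 0 le_rfl (by simp)).1
    simp only [b]; linarith
  obtain ⟨z, hz, hlow⟩ := hG r hr hrr (c1 * Fintype.card Q) P hP0
    (by
      have h3 : P.totalDegree ≤ N * d := by
        refine deg_det _ fun i j => ?_
        simp only [Matrix.submatrix_apply, lv, Matrix.of_apply]
        refine (MvPolynomial.totalDegree_finsetSum _ _).trans (Finset.sup_le fun h hh => ?_)
        split_ifs
        · exact hd _ _ _ hh
        · simp
      have h4 : (P.totalDegree : ℝ) ≤ N * d := by exact_mod_cast h3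
      have : (0 : ℝ) ≤ (N : ℝ) * b := by positivity
      nlinarith)
    (by
      intro z hz
      rw [hP]
      have hzR : ∀ i, ‖z i‖ ≤ R := fun i => by rw [hz i]; simp only [R]; linarith
      have := h2.1 (Fin N) _ ⊥ 0 b le_rfl (by linarith)
        (fun x hx => by
          rw [(Submodule.mem_bot ℂ).1 hx]
          simp [nsq]) (hbz z hzR)
      rw [finrank_bot, pow_zero, one_mul, Nat.sub_zero, Fintype.card_fin] at this
      exact this.trans hbN)
  have hzR : ∀ i, ‖z i‖ ≤ R := fun i => by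
    have := norm_add_le (z i - lm i) (lm i)
    rw [sub_add_cancel] at this
    have := hz i
    have := hlmR i
    simp only [R]; linarith
  have hlR : ∀ i, ‖lm i‖ ≤ R := fun i => by
    have := hlmR i
    simp only [R]; linarith
  have hsm : ∀ y ∈ W.comap (ext0 f),
      nsq (Matrix.vecMul y ((lv S (cz z) ψ).submatrix f g)) ≤ (2 * b * r) ^ 2 * nsq y := by
    intro y hy
    refine (nsq_sub_le hf hg _ y).trans ?_
    rw [← nsq_ext0 hf y, lv_sub S (cz z) (cz lm), Matrix.vecMul_add]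
    refine (nsq_add_le _ _).trans ?_
    have t1 := hW _ hy
    rw [eA] at t1
    have t2 := lv_bound S (fun i k g => cz z i k g - cz lm i k g) ψ (ext0 f y) (b * r) (by
      have : ∑ i, ∑ k, ∑ h ∈ S i k, ‖cz z i k h - cz lm i k h‖ ≤
          ∑ i, ∑ k, ∑ h ∈ S i k, C (Pc i k h) * r :=
        Finset.sum_le_sum fun i _ => Finset.sum_le_sum fun k _ => Finset.sum_le_sum fun h _ =>
          (hC _ z lm hzR hlR r hr.le hz).2
      simp only [← Finset.sum_mul] at this
      refine this.trans (mul_le_mul_of_nonneg_right ?_ hr.le)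
      simp only [b]; linarith)
    have t3 := nsq_nonneg (ext0 f y)
    have t4 : r ^ 2 * nsq (ext0 f y) ≤ (b * r) ^ 2 * nsq (ext0 f y) := by
      refine mul_le_mul_of_nonneg_right (pow_le_pow_left₀ hr.le ?_ 2) t3
      nlinarith
    nlinarith
  have hup := h2.1 (Fin N) _ (W.comap (ext0 f)) (2 * b * r) b (by positivity) (by linarith) hsm
    (hbz z hzR)
  rw [← hP] at hup
  set w := finrank ℂ (W.comap (ext0 f)) with hw
  have hfr := finrank_comap hf W
  rw [← hw, Fintype.card_fin, Fintype.card_prod] at hfr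
  have hbr : 2 * b * r ≤ Real.exp (-l / 2) := by
    have e : Real.exp (-l / 2) = Real.exp (l / 2) * r := by
      simp only [r]
      rw [← Real.exp_add]
      congr 1
      ring
    rw [e]
    refine mul_le_mul_of_nonneg_right ?_ hr.le
    have := Real.add_one_le_exp (l / 2)
    simp only [l] at this ⊢
    linarith
  have hfin : Real.exp (-l * (η / (4 * c1) * (c1 * Fintype.card Q))) ≤
      Real.exp (w * (-l / 2) + c1 * Fintype.card Q) := by
    rw [Real.exp_mul, Real.exp_add, Real.exp_nat_mul]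
    refine hlow.trans (hup.trans ?_)
    refine mul_le_mul (pow_le_pow_left₀ (by positivity) hbr _) ?_ (by positivity) (by positivity)
    refine le_trans ?_ hbN
    refine pow_le_pow_right₀ hb1 ?_
    rw [Fintype.card_fin]
    omega
  rw [Real.exp_le_exp] at hfin
  have e1 : η / (4 * c1) * (c1 * Fintype.card Q) = η * Fintype.card Q / 4 := by
    field_simp
  rw [e1] at hfin
  have e2 : c1 ≤ l * η / 4 := by
    have : 4 * c1 / η ≤ l := by simp only [l]; linarith
    rw [div_le_iff₀ hη] at this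
    linarith
  have hwle : (w : ℝ) ≤ η * Fintype.card Q := by
    have t1 := mul_le_mul_of_nonneg_right e2 hQ.le
    have t2 : l * w ≤ l * (η * Fintype.card Q) := by nlinarith
    exact le_of_mul_le_mul_left t2 hl
  have hfr' : (finrank ℂ W : ℝ) + N ≤ w + Fintype.card ι * Fintype.card Q := by exact_mod_cast hfr
  nlinarith

end Pool.Agent.MP_54e5d7_al.atl

end
end MrgPart0

-- ======== part 1: formerly Pool.Agent.MP_54e5d7_al.atl.SMR
section MrgPart1

/-!
Project ATL: few small singular values for arbitrary complex coefficients, by restriction of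
scalars to a purely transcendental ring.
-/

set_option autoImplicit false

open Classical Module Matrix

noncomputable section
namespace Pool.Agent.MP_54e5d7_al.atl

namespace SmR

/-- The regular representation of a finite separable extension has a left and a right common
eigenvector that are not orthogonal. -/
lemma eig {F K E : Type} [Field F] [Field K] [Algebra F K] [CharZero F] [Fintype E] [DecidableEq E]
    [Nonempty E]
    [FiniteDimensional F K] (b : Basis E F K) :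
    ∃ l : E → K, ∑ i, b i * l i = 1 ∧ ∀ x : K,
      (∀ j, ∑ i, b i * algebraMap F K (Algebra.leftMulMatrix b x i j) = x * b j) ∧
      (∀ i, ∑ j, algebraMap F K (Algebra.leftMulMatrix b x i j) * l j = x * l i) := by
  have h0 : ∑ i, b i * b.traceDual i ≠ 0 := by
    intro h
    have h1 := congrArg (Algebra.trace F K) h
    rw [map_sum, map_zero] at h1
    simp only [Basis.trace_mul_traceDual, if_true, Finset.sum_const, Finset.card_univ,
      nsmul_eq_mul, mul_one, Nat.cast_eq_zero] at h1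
    exact Fintype.card_ne_zero h1
  refine ⟨fun i => b.traceDual i * (∑ i, b i * b.traceDual i)⁻¹, ?_, fun x => ⟨fun j => ?_, fun i => ?_⟩⟩
  · simp only [← mul_assoc, ← Finset.sum_mul]
    exact mul_inv_cancel₀ h0
  · conv_rhs => rw [← b.sum_repr (x * b j)]
    refine Finset.sum_congr rfl fun i _ => ?_
    rw [Algebra.leftMulMatrix_eq_repr_mul, Algebra.smul_def, mul_comm]
  · simp only [← mul_assoc, ← Finset.sum_mul]
    congr 1
    conv_rhs => rw [← b.traceDual.sum_repr (x * b.traceDual i)]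
    refine Finset.sum_congr rfl fun j _ => ?_
    rw [Algebra.leftMulMatrix_eq_repr_mul, Algebra.smul_def, Basis.traceDual_repr_apply]
    congr 2
    have h2 := b.traceDual.traceDual_repr_apply (x * b j) i
    rw [Basis.traceDual_traceDual] at h2
    rw [h2, Algebra.traceForm_apply, Algebra.traceForm_apply]
    congr 1
    ring

/-- A common denominator. -/
lemma denom (u : Set ℂ) {T : Type} [Fintype T] (x : T → ℂ) (hx : ∀ t, x t ∈ Subfield.closure u) :
    ∃ δ : ℂ, δ ≠ 0 ∧ ∀ t, δ * x t ∈ Subring.closure u := by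
  have h1 : ∀ t, ∃ d ∈ Subring.closure u, d ≠ 0 ∧ d * x t ∈ Subring.closure u := fun t => by
    obtain ⟨y, hy, z, hz, e⟩ := Subfield.mem_closure_iff.1 (hx t)
    by_cases h : z = 0
    · refine ⟨1, one_mem _, one_ne_zero, ?_⟩
      rw [← e, h, div_zero, mul_zero]; exact zero_mem _
    · refine ⟨z, hz, h, ?_⟩
      rw [← e, mul_div_cancel₀ _ h]; exact hy
  choose d hd hd0 hdx using h1
  refine ⟨∏ t, d t, Finset.prod_ne_zero_iff.2 fun t _ => hd0 t, fun t => ?_⟩
  rw [← Finset.prod_erase_mul _ _ (Finset.mem_univ t), mul_assoc]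
  exact mul_mem (prod_mem fun s _ => hd s) (hdx t)

/-- Restriction of scalars for a finite set of complex numbers. -/
lemma alg (S : Set ℂ) (hS : S.Finite) : ∃ (s : ℕ) (lm : Fin s → ℂ) (e : ℕ) (w l : Fin e → ℂ)
    (δ : ℂ) (M : ℂ → Matrix (Fin e) (Fin e) ℂ), AlgebraicIndependent ℤ lm ∧ δ ≠ 0 ∧
    ∑ i, w i * l i = 1 ∧ M 0 = 0 ∧ ∀ c ∈ S,
      (∀ i j, ∃ P : MvPolynomial (Fin s) ℤ, M c i j = MvPolynomial.aeval lm P) ∧
      (∀ j, ∑ i, w i * M c i j = δ * c * w j) ∧ (∀ i, ∑ j, M c i j * l j = δ * c * l i) := by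
  obtain ⟨u, hu⟩ := (AlgebraicIndependent.matroid ℤ ℂ).exists_isBasis S (Set.subset_univ _)
  obtain ⟨hi, hsub, halg⟩ := AlgebraicIndependent.matroid_isBasis_iff.1 hu
  have hfu : Finite u := (hS.subset hsub).to_subtype
  have hfS : Finite S := hS.to_subtype
  obtain ⟨s, ⟨σ⟩⟩ := Finite.exists_equiv_fin u
  let lm : Fin s → ℂ := fun i => (σ.symm i : ℂ)
  have hlm : AlgebraicIndependent ℤ lm := hi.comp _ σ.symm.injective
  have hr : Set.range lm = u := by
    ext x
    exact ⟨by rintro ⟨i, rfl⟩; exact (σ.symm i).2, fun hx => ⟨σ ⟨x, hx⟩, by simp [lm]⟩⟩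
  let F : Subfield ℂ := Subfield.closure u
  have hle : ∀ x : ℂ, x ∈ Algebra.adjoin ℤ u → x ∈ F := fun x hx => by
    rw [Algebra.adjoin_int] at hx
    exact Subring.closure_le.2 (fun y hy => (Subfield.subset_closure hy : y ∈ F)) hx
  let f : Algebra.adjoin ℤ u →+* F :=
    ((Algebra.adjoin ℤ u).val.toRingHom).codRestrict F fun x => hle x x.2
  have hF : ∀ c ∈ S, IsIntegral F c := fun c hc =>
    ((halg c hc).ringHom_of_comp_eq f (RingHom.id ℂ)
      (fun a b h => Subtype.ext (congrArg (fun z : F => (z : ℂ)) h)) (by ext; rfl)).isIntegral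
  let K := IntermediateField.adjoin F S
  have hK : FiniteDimensional F K := IntermediateField.finiteDimensional_adjoin hF
  let b := Module.finBasis F K
  have hne : Nonempty (Fin (finrank F K)) := ⟨⟨0, finrank_pos⟩⟩
  obtain ⟨l, hl, hx⟩ := eig b
  have : Fintype S := Fintype.ofFinite S
  have hc2 : ∀ x : F, ((algebraMap F K x : K) : ℂ) = x := fun x =>
    (IsScalarTower.algebraMap_apply F K ℂ x).symm
  obtain ⟨δ, hδ, hd⟩ := denom u (T := S × Fin (finrank F K) × Fin (finrank F K))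
    (fun t => (Algebra.leftMulMatrix b (⟨t.1, IntermediateField.subset_adjoin F S t.1.2⟩ : K)
      t.2.1 t.2.2 : ℂ)) fun t => Subtype.mem _
  refine ⟨s, lm, finrank F K, fun i => b i, fun i => l i, δ, fun c => if h : c ∈ K then
    Matrix.of fun i j => δ * (Algebra.leftMulMatrix b (⟨c, h⟩ : K) i j : ℂ) else 0, hlm, hδ,
    ?_, ?_, fun c hc => ?_⟩
  · have h1 := congrArg (fun z : K => (z : ℂ)) hl
    simp only [IntermediateField.coe_sum, IntermediateField.coe_mul] at h1
    exact h1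
  · ext i j
    have h0 : (⟨0, zero_mem K⟩ : K) = 0 := rfl
    simp [zero_mem K, h0]
  · have hcK : c ∈ K := IntermediateField.subset_adjoin F S hc
    simp only [dif_pos hcK, Matrix.of_apply]
    refine ⟨fun i j => ?_, fun j => ?_, fun i => ?_⟩
    · have h1 := hd (⟨c, hc⟩, i, j)
      have h2 : δ * (Algebra.leftMulMatrix b (⟨c, hcK⟩ : K) i j : ℂ) ∈
          Algebra.adjoin ℤ (Set.range lm) := by
        rw [hr, Algebra.adjoin_int]; exact h1
      rw [Algebra.adjoin_range_eq_range_aeval] at h2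
      obtain ⟨P, hP⟩ := h2
      exact ⟨P, hP.symm⟩
    · have h1 := congrArg (fun z : K => (z : ℂ)) ((hx ⟨c, hcK⟩).1 j)
      simp only [IntermediateField.coe_sum, IntermediateField.coe_mul] at h1
      rw [mul_assoc, ← h1, Finset.mul_sum]
      refine Finset.sum_congr rfl fun i _ => ?_
      rw [mul_left_comm, hc2]
    · have h1 := congrArg (fun z : K => (z : ℂ)) ((hx ⟨c, hcK⟩).2 i)
      simp only [IntermediateField.coe_sum, IntermediateField.coe_mul] at h1
      rw [mul_assoc, ← h1, Finset.mul_sum]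
      refine Finset.sum_congr rfl fun j _ => ?_
      rw [mul_assoc, hc2]

/-- A subspace of `W` orthogonal to `Z`. -/
lemma perp {n : Type} [Fintype n] (W Z : Submodule ℂ (n → ℂ)) :
    ∃ W' : Submodule ℂ (n → ℂ), W' ≤ W ∧ finrank ℂ W ≤ finrank ℂ W' + finrank ℂ Z ∧
      ∀ x ∈ W', ∀ z ∈ Z, nsq x ≤ nsq (x + z) := by
  let φ : EuclideanSpace ℂ n ≃ₗ[ℂ] (n → ℂ) := WithLp.linearEquiv 2 ℂ (n → ℂ)
  let Z' : Submodule ℂ (EuclideanSpace ℂ n) := Z.map φ.symm.toLinearMap
  let P : Submodule ℂ (n → ℂ) := Z'ᗮ.map φ.toLinearMap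
  have h1 : finrank ℂ Z' = finrank ℂ Z := LinearEquiv.finrank_map_eq φ.symm Z
  have h2 : finrank ℂ P = finrank ℂ Z'ᗮ := LinearEquiv.finrank_map_eq φ _
  have h3 := Submodule.finrank_add_finrank_orthogonal Z'
  have h4 := Submodule.finrank_sup_add_finrank_inf_eq W P
  have h5 := Submodule.finrank_le (W ⊔ P)
  have h6 := φ.finrank_eq
  refine ⟨W ⊓ P, inf_le_left, by omega, ?_⟩
  rintro x ⟨-, y, hy, rfl⟩ z hz
  have h7 : inner ℂ y (φ.symm z) = 0 :=
    (Submodule.mem_orthogonal' _ _).1 hy _ ⟨z, hz, rfl⟩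
  have h8 := norm_add_sq_eq_norm_sq_add_norm_sq_of_inner_eq_zero y (φ.symm z) h7
  rw [nsq_eq_norm, nsq_eq_norm]
  change ‖y‖ ^ 2 ≤ ‖y + φ.symm z‖ ^ 2
  nlinarith [mul_self_nonneg ‖φ.symm z‖]

variable {ι E Q : Type}

/-- Tensoring with a fixed vector. -/
def ten (w : E → ℂ) : (ι × Q → ℂ) →ₗ[ℂ] ((ι × E) × Q → ℂ) where
  toFun x a := x (a.1.1, a.2) * w a.1.2
  map_add' x y := by ext a; simp [add_mul]
  map_smul' c x := by ext a; simp [mul_assoc]

/-- Contraction with a fixed vector. -/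
def con [Fintype E] (l : E → ℂ) : ((ι × E) × Q → ℂ) →ₗ[ℂ] (ι × Q → ℂ) where
  toFun y a := ∑ α, y ((a.1, α), a.2) * l α
  map_add' x y := by ext a; simp [add_mul, Finset.sum_add_distrib]
  map_smul' c x := by ext a; simp [mul_assoc, Finset.mul_sum]

lemma ten_apply (w : E → ℂ) (x : ι × Q → ℂ) (a : (ι × E) × Q) :
    ten w x a = x (a.1.1, a.2) * w a.1.2 := rfl

lemma con_apply [Fintype E] (l : E → ℂ) (y : (ι × E) × Q → ℂ) (a : ι × Q) :
    con l y a = ∑ α, y ((a.1, α), a.2) * l α := rfl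

variable [Fintype ι] [Fintype E] [Fintype Q]

lemma sum3 {N : Type} [AddCommMonoid N] (f : (ι × E) × Q → N) :
    ∑ a, f a = ∑ b : ι × Q, ∑ α, f ((b.1, α), b.2) := by
  simp only [Fintype.sum_prod_type]
  exact Finset.sum_congr rfl fun i _ => Finset.sum_comm

lemma nsq_ten (w : E → ℂ) (x : ι × Q → ℂ) : nsq (ten w x) = nsq x * nsq w := by
  simp only [nsq]
  rw [sum3, Finset.sum_mul]
  refine Finset.sum_congr rfl fun b _ => ?_
  simp only [ten_apply, norm_mul, mul_pow, Finset.mul_sum]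

lemma nsq_con (l : E → ℂ) (y : (ι × E) × Q → ℂ) : nsq (con l y) ≤ nsq y * nsq l := by
  simp only [nsq]
  rw [sum3, Finset.sum_mul]
  refine Finset.sum_le_sum fun b _ => ?_
  refine le_trans ?_ (Finset.sum_mul_sq_le_sq_mul_sq _ _ _)
  refine pow_le_pow_left₀ (norm_nonneg _) ?_ 2
  rw [con_apply]
  exact (norm_sum_le _ _).trans (le_of_eq (Finset.sum_congr rfl fun α _ => norm_mul _ _))

lemma nsq_smul {n : Type} [Fintype n] (c : ℂ) (x : n → ℂ) : nsq (c • x) = ‖c‖ ^ 2 * nsq x := by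
  simp only [nsq, Pi.smul_apply, smul_eq_mul, norm_mul, mul_pow, Finset.mul_sum]

lemma eq_zero_of_nsq {n : Type} [Fintype n] {x : n → ℂ} (h : nsq x ≤ 0) : x = 0 := by
  have h1 := (Finset.sum_eq_zero_iff_of_nonneg fun i _ => sq_nonneg ‖x i‖).1
    (le_antisymm h (nsq_nonneg x))
  ext i
  simpa using h1 i (Finset.mem_univ i)

omit [Fintype ι] [Fintype Q] in
lemma con_ten {w l : E → ℂ} (h : ∑ i, w i * l i = 1) (x : ι × Q → ℂ) : con l (ten w x) = x := by
  ext a
  simp only [con_apply, ten_apply, mul_assoc, ← Finset.mul_sum, h, mul_one]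

/-- The linear algebra of the reduction. -/
lemma lin {κ : Type} [Fintype κ] (L : Matrix (ι × Q) (κ × Q) ℂ)
    (Lt : Matrix ((ι × E) × Q) ((κ × E) × Q) ℂ) (w l : E → ℂ) (δ : ℂ) (hδ : δ ≠ 0)
    (hwl : ∑ i, w i * l i = 1)
    (h1 : ∀ a k q β, ∑ α, w α * Lt ((a.1, α), a.2) ((k, β), q) = δ * L a (k, q) * w β)
    (h2 : ∀ i q α b, ∑ β, Lt ((i, α), q) ((b.1, β), b.2) * l β = δ * L (i, q) b * l α)
    (r : ℝ) (W : Submodule ℂ (ι × Q → ℂ)) (hW : ∀ x ∈ W, nsq (x ᵥ* L) ≤ r ^ 2 * nsq x) :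
    ∃ Wt : Submodule ℂ ((ι × E) × Q → ℂ),
      (∀ y ∈ Wt, nsq (y ᵥ* Lt) ≤ ‖δ‖ ^ 2 * nsq w * nsq l * r ^ 2 * nsq y) ∧
      finrank ℂ W + finrank ℂ (LinearMap.ker Lt.vecMulLinear) ≤
        finrank ℂ Wt + finrank ℂ (LinearMap.ker L.vecMulLinear) := by
  have e1 : ∀ x, ten w x ᵥ* Lt = δ • ten w (x ᵥ* L) := fun x => by
    ext ⟨⟨k, β⟩, q⟩
    simp only [vecMul, dotProduct, Pi.smul_apply, smul_eq_mul, ten_apply]
    rw [sum3, Finset.sum_mul, Finset.mul_sum]
    refine Finset.sum_congr rfl fun a _ => ?_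
    simp only [mul_assoc, ← Finset.mul_sum, h1 a k q β]
    ring
  have e2 : ∀ y, con l (y ᵥ* Lt) = δ • (con l y ᵥ* L) := fun y => by
    ext b
    simp only [vecMul, dotProduct, Pi.smul_apply, smul_eq_mul, con_apply, Finset.sum_mul]
    rw [Finset.sum_comm, sum3, Finset.mul_sum]
    refine Finset.sum_congr rfl fun a _ => ?_
    rw [Finset.mul_sum]
    refine Finset.sum_congr rfl fun α _ => ?_
    simp only [mul_assoc, ← Finset.mul_sum, h2 a.1 a.2 α b]
    ring
  have e3 : ∀ y ∈ LinearMap.ker Lt.vecMulLinear, con l y ∈ LinearMap.ker L.vecMulLinear :=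
    fun y hy => by
      have h3 := e2 y
      rw [LinearMap.mem_ker, vecMulLinear_apply] at hy ⊢
      rw [hy, map_zero] at h3
      exact (smul_eq_zero.1 h3.symm).resolve_left hδ
  obtain ⟨W', hle, hfr, hp⟩ := perp W (LinearMap.ker L.vecMulLinear)
  have hinj : Function.Injective (ten w : (ι × Q → ℂ) →ₗ[ℂ] _) :=
    Function.LeftInverse.injective (con_ten hwl)
  refine ⟨W'.map (ten w) ⊔ LinearMap.ker Lt.vecMulLinear, fun y hy => ?_, ?_⟩
  · obtain ⟨_, ⟨x, hx, rfl⟩, z, hz, rfl⟩ := Submodule.mem_sup.1 hy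
    have h3 := hp x hx _ (e3 z hz)
    have h4 := nsq_con l (ten w x + z)
    rw [map_add, con_ten hwl] at h4
    rw [LinearMap.mem_ker, vecMulLinear_apply] at hz
    rw [add_vecMul, hz, add_zero, e1, nsq_smul, nsq_ten]
    have h5 := (hW x (hle hx)).trans (mul_le_mul_of_nonneg_left (h3.trans h4) (sq_nonneg r))
    have h6 := mul_le_mul_of_nonneg_left h5 (mul_nonneg (sq_nonneg ‖δ‖) (nsq_nonneg w))
    linarith
  · have h3 := Submodule.finrank_sup_add_finrank_inf_eq (W'.map (ten w))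
      (LinearMap.ker Lt.vecMulLinear)
    have h4 : W'.map (ten w) ⊓ LinearMap.ker Lt.vecMulLinear = ⊥ := by
      rw [eq_bot_iff]
      rintro _ ⟨⟨x, hx, rfl⟩, hz⟩
      have h5 := e3 _ hz
      rw [con_ten hwl] at h5
      have h6 := hp x hx _ (neg_mem h5)
      rw [add_neg_cancel] at h6
      rw [eq_zero_of_nsq (x := x) (by simpa [nsq] using h6), map_zero]
      exact zero_mem _
    have h5 : finrank ℂ (W'.map (ten w)) = finrank ℂ W' :=
      (Submodule.equivMapOfInjective _ hinj W').finrank_eq.symm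
    rw [h4, finrank_bot] at h3
    omega

lemma rk_add {G ι κ Q : Type} [Group G] [Group Q] [Fintype ι] [Fintype Q]
    (A : Matrix ι κ (G →₀ ℂ)) (ψ : G →* Q) :
    rk A ψ + finrank ℂ (LinearMap.ker (lvl A ψ).vecMulLinear) = Fintype.card ι * Fintype.card Q := by
  have h := LinearMap.finrank_range_add_finrank_ker (lvl A ψ).vecMulLinear
  rw [range_vecMulLinear, finrank_fintype_fun_eq_card, Fintype.card_prod] at h
  exact h

end SmR

open SmR in
theorem smallR (h : SmallTStmt) : SmallRStmt := by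
  intro G ι κ _ _ _ A η hη
  obtain ⟨s, lm, e, w, l, δ, M, hlm, hδ, hwl, hM0, hM⟩ :=
    alg (⋃ t : ι × κ, Set.range (A t.1 t.2)) (Set.finite_iUnion fun t => Finsupp.finite_range _)
  have hM' := fun i k g => hM (A i k g) (Set.mem_iUnion.2 ⟨(i, k), g, rfl⟩)
  let At : Matrix (ι × Fin e) (κ × Fin e) (G →₀ ℂ) := Matrix.of fun a b =>
    (A a.1 b.1).mapRange (fun c => M c a.2 b.2) (by rw [hM0]; rfl)
  obtain ⟨r, hr, H⟩ := h G _ _ s lm hlm At (fun a b g => (hM' a.1 b.1 g).1 a.2 b.2) η hη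
  set B : ℝ := ‖δ‖ ^ 2 * nsq w * nsq l with hB
  have hB0 : 0 ≤ B := mul_nonneg (mul_nonneg (sq_nonneg _) (nsq_nonneg _)) (nsq_nonneg _)
  refine ⟨r / (1 + B), by positivity, fun Q _ _ ψ W hW => ?_⟩
  have hl : ∀ a b, lvl At ψ a b = ∑ g ∈ (A a.1.1 b.1.1).support,
      if a.2 * ψ g = b.2 then M (A a.1.1 b.1.1 g) a.1.2 b.1.2 else 0 := fun a b => by
    rw [lvl_apply]
    exact Finsupp.sum_mapRange_index (hf := by rw [hM0]; rfl) fun g => by simp
  obtain ⟨Wt, h1, h2⟩ := lin (lvl A ψ) (lvl At ψ) w l δ hδ hwl (fun a k q β => by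
      simp only [hl, lvl_apply A, Finsupp.sum, Finset.mul_sum, Finset.sum_mul]
      rw [Finset.sum_comm]
      refine Finset.sum_congr rfl fun g _ => ?_
      split_ifs
      · exact (hM' _ _ g).2.1 β
      · simp) (fun i q α b => by
      simp only [hl, lvl_apply A, Finsupp.sum, Finset.mul_sum, Finset.sum_mul]
      rw [Finset.sum_comm]
      refine Finset.sum_congr rfl fun g _ => ?_
      split_ifs
      · exact (hM' _ _ g).2.2 α
      · simp) _ W hW
  have h3 := H Q ψ Wt fun y hy => (h1 y hy).trans (mul_le_mul_of_nonneg_right (by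
    rw [← hB, div_pow, ← mul_div_assoc, div_le_iff₀ (by positivity)]
    nlinarith [sq_nonneg r, mul_nonneg (sq_nonneg r) hB0, mul_nonneg (sq_nonneg r) (sq_nonneg B)])
    (nsq_nonneg y))
  have h4 := congrArg (Nat.cast : ℕ → ℝ) (rk_add A ψ)
  have h5 := congrArg (Nat.cast : ℕ → ℝ) (rk_add At ψ)
  have h6 := (Nat.cast_le (α := ℝ)).2 h2
  push_cast at h4 h5 h6
  linarith

end Pool.Agent.MP_54e5d7_al.atl

end
end MrgPart1

-- ======== part 2: formerly Pool.Agent.MP_54e5d7_al.atl.LUCK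
section MrgPart2

/-!
Project ATL: approximation of the von Neumann dimension by finite quotients.
-/

set_option autoImplicit false

open Classical Module Matrix Filter Topology
open scoped ComplexConjugate ComplexOrder

noncomputable section
namespace Pool.Agent.MP_54e5d7_al.atl

namespace Luck

lemma nsq_eq_re {ι : Type} [Fintype ι] (x : ι → ℂ) : nsq x = (x ⬝ᵥ star x).re := by
  simp only [nsq, dotProduct, Complex.re_sum, Pi.star_apply, Complex.star_def,
    Complex.mul_conj', ← Complex.ofReal_pow, Complex.ofReal_re]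

lemma nsq_vecMul {ι κ : Type} [Fintype ι] [Fintype κ] (x : ι → ℂ) (L : Matrix ι κ ℂ) :
    nsq (x ᵥ* L) = (x ⬝ᵥ (L * Lᴴ) *ᵥ star x).re := by
  rw [nsq_eq_re, star_vecMul, ← mulVec_mulVec, dotProduct_mulVec x L]

lemma spec {ι κ : Type} [Fintype ι] [Fintype κ] [DecidableEq ι] (L : Matrix ι κ ℂ) (β c r : ℝ)
    (hβ : ∀ x, nsq (x ᵥ* L) ≤ β ^ 2 * nsq x) (hc : c ^ 2 * β ^ 2 ≤ 1) :
    ∃ W : Submodule ℂ (ι → ℂ), (∀ x ∈ W, nsq (x ᵥ* L) ≤ r ^ 2 * nsq x) ∧ ∀ k : ℕ,
      (Fintype.card ι : ℝ) - L.rank ≤ (((1 - ((c ^ 2 : ℝ) : ℂ) • (L * Lᴴ)) ^ k).trace).re ∧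
      (((1 - ((c ^ 2 : ℝ) : ℂ) • (L * Lᴴ)) ^ k).trace).re ≤
        (finrank ℂ W : ℝ) + (Fintype.card ι : ℝ) * max 0 (1 - c ^ 2 * r ^ 2) ^ k := by
  have hP : (L * Lᴴ).IsHermitian := isHermitian_mul_conjTranspose_self L
  set μ := hP.eigenvalues with hμ
  set U : Matrix ι ι ℂ := (hP.eigenvectorUnitary : Matrix ι ι ℂ) with hU
  have hs : L * Lᴴ = U * diagonal (fun j => (μ j : ℂ)) * Uᴴ := hP.spectral_theorem
  have h1 : U * Uᴴ = 1 := Unitary.coe_mul_star_self hP.eigenvectorUnitary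
  have h2 : Uᴴ * U = 1 := Unitary.coe_star_mul_self hP.eigenvectorUnitary
  have e1 : ∀ x, nsq (x ᵥ* U) = nsq x := fun x => by
    rw [nsq_vecMul, h1, one_mulVec, nsq_eq_re]
  have e2 : ∀ x, nsq (x ᵥ* L) = ∑ j, μ j * ‖(x ᵥ* U) j‖ ^ 2 := fun x => by
    rw [nsq_vecMul, hs, ← mulVec_mulVec, ← mulVec_mulVec, dotProduct_mulVec x U, ← star_vecMul]
    simp only [dotProduct, mulVec_diagonal, Complex.re_sum, Pi.star_apply, Complex.star_def]
    refine Finset.sum_congr rfl fun j _ => ?_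
    rw [mul_left_comm, Complex.mul_conj', ← Complex.ofReal_pow, ← Complex.ofReal_mul,
      Complex.ofReal_re]
  have e3 : ∀ j, 0 ≤ μ j ∧ μ j ≤ β ^ 2 := fun j => by
    have a1 : (Pi.single j 1 ᵥ* Uᴴ) ᵥ* U = Pi.single j (1 : ℂ) := by
      rw [vecMul_vecMul, h2, vecMul_one]
    have a2 : nsq ((Pi.single j 1 ᵥ* Uᴴ) ᵥ* L) = μ j := by
      rw [e2, a1, Finset.sum_eq_single j] <;> simp +contextual
    have a3 : nsq (Pi.single j 1 ᵥ* Uᴴ) = 1 := by
      rw [← e1, a1, nsq, Finset.sum_eq_single j] <;> simp +contextual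
    have a4 := hβ (Pi.single j 1 ᵥ* Uᴴ)
    rw [a2, a3, mul_one] at a4
    exact ⟨a2 ▸ nsq_nonneg _, a4⟩
  let f : (ι → ℂ) →ₗ[ℂ] ({j // r ^ 2 < μ j} → ℂ) :=
    LinearMap.funLeft ℂ ℂ Subtype.val ∘ₗ U.vecMulLinear
  have e4 : ∀ k : ℕ, (1 - ((c ^ 2 : ℝ) : ℂ) • (L * Lᴴ)) ^ k =
      U * diagonal (fun j => (((1 - c ^ 2 * μ j) ^ k : ℝ) : ℂ)) * Uᴴ := by
    have b1 : 1 - ((c ^ 2 : ℝ) : ℂ) • (L * Lᴴ) =
        U * diagonal (fun j => ((1 - c ^ 2 * μ j : ℝ) : ℂ)) * Uᴴ := by
      have b2 : diagonal (fun j => ((1 - c ^ 2 * μ j : ℝ) : ℂ)) =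
          1 - ((c ^ 2 : ℝ) : ℂ) • diagonal (fun j => (μ j : ℂ)) := by
        ext i j
        by_cases hij : i = j
        · subst hij; simp
        · simp [hij]
      rw [b2, mul_sub, sub_mul, mul_one, h1, Matrix.mul_smul, Matrix.smul_mul, ← hs]
    intro k
    induction k with
    | zero => simp [h1]
    | succ k ih =>
      rw [pow_succ, ih, b1]
      calc _ = U * (diagonal (fun j => (((1 - c ^ 2 * μ j) ^ k : ℝ) : ℂ)) * (Uᴴ * U) *
            diagonal (fun j => ((1 - c ^ 2 * μ j : ℝ) : ℂ))) * Uᴴ := by simp only [mul_assoc]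
        _ = _ := by
          rw [h2, mul_one, diagonal_mul_diagonal]
          simp only [pow_succ, Complex.ofReal_mul]
  have e5 : ∀ k : ℕ, (((1 - ((c ^ 2 : ℝ) : ℂ) • (L * Lᴴ)) ^ k).trace).re =
      ∑ j, (1 - c ^ 2 * μ j) ^ k := fun k => by
    rw [e4, trace_mul_comm, ← mul_assoc, h2, one_mul, trace_diagonal, Complex.re_sum]
    simp only [Complex.ofReal_re]
  have e6 : ∀ j, 0 ≤ 1 - c ^ 2 * μ j ∧ 1 - c ^ 2 * μ j ≤ 1 := fun j => by
    have := mul_le_mul_of_nonneg_left (e3 j).2 (sq_nonneg c)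
    have := mul_nonneg (sq_nonneg c) (e3 j).1
    constructor <;> linarith
  refine ⟨LinearMap.ker f, fun x hx => ?_, fun k => ⟨?_, ?_⟩⟩
  · rw [e2, ← e1, nsq, Finset.mul_sum]
    refine Finset.sum_le_sum fun j _ => ?_
    by_cases hj : r ^ 2 < μ j
    · have : (x ᵥ* U) j = 0 := congrFun (LinearMap.mem_ker.1 hx) ⟨j, hj⟩
      simp [this]
    · exact mul_le_mul_of_nonneg_right (not_lt.1 hj) (sq_nonneg _)
  · rw [e5, ← rank_self_mul_conjTranspose L, hP.rank_eq_card_non_zero_eigs, Fintype.card_subtype,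
      Finset.card_filter, ← Finset.card_univ, Finset.card_eq_sum_ones]
    push_cast
    rw [← Finset.sum_sub_distrib]
    refine Finset.sum_le_sum fun j _ => ?_
    by_cases hj : μ j = 0
    · simp [← hμ, hj]
    · simp only [← hμ, ne_eq, hj, not_false_eq_true, if_true, sub_self]
      exact pow_nonneg (e6 j).1 k
  · have b1 := f.finrank_range_add_finrank_ker
    have b2 : finrank ℂ (LinearMap.range f) ≤ Fintype.card {j // r ^ 2 < μ j} :=
      (Submodule.finrank_le _).trans (by simp)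
    rw [finrank_fintype_fun_eq_card] at b1
    have b3 : ∑ j, (if r ^ 2 < μ j then (0 : ℝ) else 1) ≤ finrank ℂ (LinearMap.ker f) := by
      have b4 : ∑ j, (if r ^ 2 < μ j then (0 : ℝ) else 1) +
          Fintype.card {j // r ^ 2 < μ j} = Fintype.card ι := by
        rw [Fintype.card_subtype, Finset.card_filter, ← Finset.card_univ, Finset.card_eq_sum_ones]
        push_cast
        rw [← Finset.sum_add_distrib]
        refine Finset.sum_congr rfl fun j _ => ?_
        split_ifs <;> simp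
      have b5 : (Fintype.card ι : ℝ) ≤
          Fintype.card {j // r ^ 2 < μ j} + finrank ℂ (LinearMap.ker f) := by
        exact_mod_cast b1 ▸ Nat.add_le_add_right b2 _
      linarith
    rw [e5]
    refine le_trans ?_ (add_le_add b3 le_rfl)
    rw [← Finset.card_univ, ← nsmul_eq_mul, ← Finset.sum_const, ← Finset.sum_add_distrib]
    refine Finset.sum_le_sum fun j _ => ?_
    split_ifs with hj
    · rw [zero_add]
      refine pow_le_pow_left₀ (e6 j).1 (le_max_of_le_right ?_) k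
      have := mul_le_mul_of_nonneg_left hj.le (sq_nonneg c)
      linarith
    · exact le_add_of_le_of_nonneg (pow_le_one₀ (e6 j).1 (e6 j).2)
        (pow_nonneg (le_max_left _ _) k)

section Rows
variable {G X Y ι κ : Type} [Group G] [Group X] [Group Y] [Fintype ι] [Fintype κ]

/-- The rows of a level matrix as finitely supported functions. -/
def row (A : Matrix ι κ (G →₀ ℂ)) (ψ : G →* X) (a : ι × X) : κ × X →₀ ℂ :=
  ∑ j, (A a.1 j).mapDomain fun h => (j, a.2 * ψ h)

omit [Fintype ι] in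
lemma row_apply (A : Matrix ι κ (G →₀ ℂ)) (ψ : G →* X) (a : ι × X) (b : κ × X) :
    row A ψ a b = lvl A ψ a b := by
  obtain ⟨j, q⟩ := b
  rw [row, Finsupp.finsetSum_apply, Finset.sum_eq_single j, lvl_apply]
  · simp [Finsupp.mapDomain, Finsupp.single_apply]
  · intro j' _ hj
    simp [Finsupp.mapDomain, hj]
  · simp

/-- Right multiplication on finitely supported functions. -/
def rm (A : Matrix ι κ (G →₀ ℂ)) (ψ : G →* X) : (ι × X →₀ ℂ) →ₗ[ℂ] (κ × X →₀ ℂ) :=
  Finsupp.linearCombination ℂ (row A ψ)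

omit [Fintype ι] in
lemma rm_single (A : Matrix ι κ (G →₀ ℂ)) (ψ : G →* X) (a : ι × X) (c : ℂ) :
    rm A ψ (Finsupp.single a c) = c • row A ψ a := Finsupp.linearCombination_single _ _ _

omit [Fintype ι] in
lemma rm_nat (A : Matrix ι κ (G →₀ ℂ)) (ψ : G →* X) (ψ' : G →* Y) (f : X → Y)
    (hf : ∀ x h, f (x * ψ h) = f x * ψ' h) (v : ι × X →₀ ℂ) :
    (rm A ψ v).mapDomain (Prod.map id f) = rm A ψ' (v.mapDomain (Prod.map id f)) := by
  induction v using Finsupp.induction_linear with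
  | zero => simp
  | add v w hv hw => rw [map_add, Finsupp.mapDomain_add, hv, hw, Finsupp.mapDomain_add, map_add]
  | single a c =>
    rw [Finsupp.mapDomain_single, rm_single, rm_single, Finsupp.mapDomain_smul, row, row,
      Finsupp.mapDomain_finsetSum]
    congr 1
    refine Finset.sum_congr rfl fun j _ => ?_
    rw [← Finsupp.mapDomain_comp]
    congr 1
    funext h
    simp [hf]

lemma rm_coe [Fintype X] (A : Matrix ι κ (G →₀ ℂ)) (ψ : G →* X) (v : ι × X →₀ ℂ) :
    ⇑(rm A ψ v) = ⇑v ᵥ* lvl A ψ := by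
  funext b
  rw [rm, Finsupp.linearCombination_apply, Finsupp.sum_fintype _ _ (by simp),
    Finsupp.finsetSum_apply]
  simp [vecMul, dotProduct, row_apply]

/-- The adjoint matrix. -/
def adj (A : Matrix ι κ (G →₀ ℂ)) : Matrix κ ι (G →₀ ℂ) := fun j i =>
  (A i j).sum fun h c => Finsupp.single h⁻¹ (conj c)

omit [Fintype ι] [Fintype κ] in
lemma lvl_adj (A : Matrix ι κ (G →₀ ℂ)) (ψ : G →* X) : lvl (adj A) ψ = (lvl A ψ)ᴴ := by
  ext b a
  rw [conjTranspose_apply, lvl_apply, lvl_apply, adj, Finsupp.sum_sum_index (by simp)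
    (fun h c c' => by split_ifs <;> simp), Finsupp.sum, Finsupp.sum, star_sum]
  refine Finset.sum_congr rfl fun h _ => ?_
  rw [Finsupp.sum_single_index (by simp), map_inv]
  by_cases hh : a.2 * ψ h = b.2
  · simp [← hh]
  · rw [if_neg hh, if_neg, star_zero]
    intro e
    exact hh (by rw [← e]; simp)

/-- The contraction whose powers compute the dimension. -/
def dd (A : Matrix ι κ (G →₀ ℂ)) (c : ℝ) (ψ : G →* X) : Module.End ℂ (ι × X →₀ ℂ) :=
  1 - ((c ^ 2 : ℝ) : ℂ) • (rm (adj A) ψ ∘ₗ rm A ψ)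

lemma dd_apply (A : Matrix ι κ (G →₀ ℂ)) (c : ℝ) (ψ : G →* X) (v : ι × X →₀ ℂ) :
    dd A c ψ v = v - ((c ^ 2 : ℝ) : ℂ) • rm (adj A) ψ (rm A ψ v) := rfl

lemma dd_nat (A : Matrix ι κ (G →₀ ℂ)) (c : ℝ) (ψ : G →* X) (ψ' : G →* Y) (f : X → Y)
    (hf : ∀ x h, f (x * ψ h) = f x * ψ' h) (k : ℕ) (v : ι × X →₀ ℂ) :
    ((dd A c ψ ^ k) v).mapDomain (Prod.map id f) =
      (dd A c ψ' ^ k) (v.mapDomain (Prod.map id f)) := by
  induction k with
  | zero => simp
  | succ k ih =>
    rw [pow_succ', pow_succ', Module.End.mul_apply, Module.End.mul_apply, ← ih, dd_apply, dd_apply,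
      ← rm_nat A ψ ψ' f hf, ← rm_nat (adj A) ψ ψ' f hf, Finsupp.mapDomain_sub,
      Finsupp.mapDomain_smul]

lemma dd_coe [Fintype X] [DecidableEq (ι × X)] (A : Matrix ι κ (G →₀ ℂ)) (c : ℝ) (ψ : G →* X)
    (k : ℕ) (v : ι × X →₀ ℂ) : ⇑((dd A c ψ ^ k) v) =
      ⇑v ᵥ* (1 - ((c ^ 2 : ℝ) : ℂ) • (lvl A ψ * (lvl A ψ)ᴴ)) ^ k := by
  induction k with
  | zero => simp
  | succ k ih =>
    rw [pow_succ', Module.End.mul_apply, dd_apply, pow_succ _ k, ← vecMul_vecMul, ← ih, vecMul_sub,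
      vecMul_one, vecMul_smul, ← vecMul_vecMul, ← lvl_adj, ← rm_coe, ← rm_coe]
    rfl

/-- The moments. -/
def mom (A : Matrix ι κ (G →₀ ℂ)) (c : ℝ) (k : ℕ) (i : ι) : ι × G →₀ ℂ :=
  (dd A c (MonoidHom.id G) ^ k) (Finsupp.single (i, 1) 1)

lemma trace_eq [Fintype X] [DecidableEq (ι × X)] (A : Matrix ι κ (G →₀ ℂ)) (c : ℝ) (ψ : G →* X)
    (k : ℕ) (hE : ∀ i, ∀ a ∈ (mom A c k i).support, a.2 ≠ 1 → ψ a.2 ≠ 1) :
    ((1 - ((c ^ 2 : ℝ) : ℂ) • (lvl A ψ * (lvl A ψ)ᴴ)) ^ k).trace =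
      Fintype.card X * ∑ i, mom A c k i (i, 1) := by
  rw [trace, Fintype.sum_prod_type, Finset.mul_sum]
  refine Finset.sum_congr rfl fun i _ => ?_
  rw [← Finset.card_univ, ← nsmul_eq_mul, ← Finset.sum_const]
  refine Finset.sum_congr rfl fun q _ => ?_
  have h1 := dd_nat A c (MonoidHom.id G) ψ (fun g => q * ψ g) (fun x h => by simp [mul_assoc]) k
    (Finsupp.single (i, 1) 1)
  have h2 := congrFun (dd_coe A c ψ k (Finsupp.single (i, q) 1)) (i, q)
  rw [Finsupp.mapDomain_single] at h1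
  simp only [Prod.map, id, map_one, mul_one] at h1
  rw [← h1, Finsupp.single_eq_pi_single, single_one_vecMul] at h2
  rw [diag_apply]
  refine h2.symm.trans ?_
  change (mom A c k i).mapDomain _ (i, q) = _
  rw [Finsupp.mapDomain, Finsupp.sum_apply, Finsupp.sum_eq_single (i, 1)]
  · simp
  · rintro ⟨i', g⟩ h0 hne
    rw [Finsupp.single_eq_of_ne']
    intro e
    simp only [Prod.map, id, Prod.mk.injEq, mul_eq_left] at e
    refine hE i (i', g) (Finsupp.mem_support_iff.2 h0) (fun hg => hne ?_) e.2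
    rw [e.1, show g = 1 from hg]
  · simp

end Rows

/-- Finitely supported functions as vectors. -/
def emb (Ω : Type) : (Ω →₀ ℂ) →ₗ[ℂ] L2 Ω := Finsupp.linearCombination ℂ dl

lemma emb_single {Ω : Type} (a : Ω) (c : ℂ) : emb Ω (Finsupp.single a c) = c • dl a :=
  Finsupp.linearCombination_single _ _ _

lemma ev_emb {Ω : Type} (v : Ω →₀ ℂ) (a : Ω) : ev a (emb Ω v) = v a := by
  induction v using Finsupp.induction_linear with
  | zero => simp
  | add v w hv hw => simp [hv, hw]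
  | single b c => simp [emb_single, ev_dl, Finsupp.single_apply, eq_comm]

lemma op_emb {G ι κ : Type} [Group G] [Fintype ι] [Fintype κ] (A : Matrix ι κ (G →₀ ℂ))
    (T : L2 (ι × G) →L[ℂ] L2 (κ × G))
    (hT : ∀ a b, ev b (T (dl a)) = lvl A (MonoidHom.id G) a b) (v : ι × G →₀ ℂ) :
    T (emb _ v) = emb _ (rm A (MonoidHom.id G) v) := by
  induction v using Finsupp.induction_linear with
  | zero => simp
  | add v w hv hw => simp only [map_add, hv, hw]
  | single a c =>
    rw [emb_single, rm_single, map_smul, map_smul]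
    congr 1
    exact L2.ext fun b => by rw [hT, ev_emb, row_apply]

lemma tendsto_ev {Ω : Type} (A : L2 Ω →L[ℂ] L2 Ω) (hA : ‖A‖ ≤ 1) (a : Ω) :
    Tendsto (fun n : ℕ => (n : ℂ)⁻¹ * ∑ i ∈ Finset.range n, ev a ((A ^ i) (dl a))) atTop
      (𝓝 (wt (kr (1 - A)) a : ℝ)) := by
  have h2 := A.tendsto_birkhoffAverage_orthogonalProjection hA (dl a)
  have h3 : (((A.eqLocus (1 : L2 Ω →L[ℂ] L2 Ω)).orthogonalProjectionOnto (dl a) :
      A.eqLocus (1 : L2 Ω →L[ℂ] L2 Ω)) : L2 Ω) = pr (kr (1 - A)) (dl a) := by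
    symm
    have hk : ∀ w, w ∈ kr (1 - A) ↔ w ∈ A.eqLocus (1 : L2 Ω →L[ℂ] L2 Ω) := fun w => by
      rw [mem_kr, _root_.sub_apply, sub_eq_zero, eq_comm]; rfl
    refine pr_eq ((hk _).2 (Subtype.property _)) fun w hw => ?_
    exact Submodule.starProjection_inner_eq_zero _ _ ((hk w).1 hw)
  rw [h3] at h2
  have h4 := ((ev a).continuous.tendsto _).comp h2
  rw [ev_pr_dl] at h4
  refine h4.congr fun n => ?_
  simp only [Function.comp, birkhoffAverage, birkhoffSum, map_smul, map_sum, smul_eq_mul, id,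
    pow_apply_eq_iterate]

lemma tendsto_mom {G : Type} [Group G] {m n : ℕ} (A : Matrix (Fin m) (Fin n) (G →₀ ℂ)) :
    ∃ c0 : ℝ, 0 < c0 ∧ ∀ c : ℝ, 0 < c → c ≤ c0 →
      Tendsto (fun K : ℕ => (K : ℝ)⁻¹ * ∑ k ∈ Finset.range K, (∑ i, mom A c k i (i, 1)).re) atTop
        (𝓝 (vdim A)) := by
  obtain ⟨T, -, eT⟩ := exists_matOp A
  have hT : ∀ a b, ev b (T (dl a)) = lvl A (MonoidHom.id G) a b := by
    rintro ⟨i, g⟩ ⟨j, g'⟩
    rw [eT, lvl_apply, Finset.sum_eq_single i]
    · refine Finsupp.sum_congr fun h _ => ?_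
      simp [ev_dl, mul_inv_eq_iff_eq_mul, @eq_comm _ g']
    · intro i' _ hi
      simp [ev_dl, hi]
    · simp
  have hT' : ∀ a b, ev b (ContinuousLinearMap.adjoint T (dl a)) =
      lvl (adj A) (MonoidHom.id G) a b := fun a b => by
    rw [lvl_adj, conjTranspose_apply, ← hT, ← inner_dl, ContinuousLinearMap.adjoint_inner_right,
      inner_dl_right]
    rfl
  have hv : vdim A = ∑ i : Fin m, wt (kr T) (i, (1 : G)) := by
    refine Finset.sum_congr rfl fun i _ => ?_
    rw [← one_sub_infDist]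
    have e1 : (lp.single 2 (i, (1 : G)) (1 : ℂ) : lp (fun _ : Fin m × G => ℂ) 2) =
        dl (i, (1 : G)) := by
      rw [dl_def]; congr; exact Subsingleton.elim _ _
    have e2 : {x : lp (fun _ : Fin m × G => ℂ) 2 | ∀ (j : Fin n) (g : G),
        ∑ i' : Fin m, (A i' j).sum (fun h c => x (i', g * h⁻¹) * c) = 0} =
        (kr T : Set (L2 (Fin m × G))) := by
      ext x
      simp only [Set.mem_ofPred_eq, ← ev_def, ← eT]
      exact ⟨fun h => L2.ext fun p => by simpa using h p.1 p.2,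
        fun h j g => by rw [show T x = 0 from h, map_zero]⟩
    rw [e1, e2]
    rfl
  refine ⟨(1 + ‖T‖)⁻¹, by positivity, fun c hc hc0 => ?_⟩
  have h1 : ‖(c : ℂ) • T‖ ≤ 1 := by
    rw [norm_smul, Complex.norm_real, Real.norm_of_nonneg hc.le]
    refine (mul_le_mul_of_nonneg_right hc0 (norm_nonneg _)).trans ?_
    rw [inv_mul_le_iff₀ (by positivity)]
    linarith
  set D : L2 (Fin m × G) →L[ℂ] L2 (Fin m × G) :=
    1 - ContinuousLinearMap.adjoint ((c : ℂ) • T) ∘L ((c : ℂ) • T) with hD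
  have h2 : kr (1 - D) = kr T := by
    rw [hD, kr_adj_comp]
    exact CS.ext' fun ξ => by simp [hc.ne']
  have h3 : ∀ v, D (emb _ v) = emb _ (dd A c (MonoidHom.id G) v) := fun v => by
    rw [dd_apply, map_sub, map_smul, ← op_emb _ _ hT', ← op_emb _ _ hT, hD,
      LinearIsometryEquiv.map_smulₛₗ]
    simp [smul_smul, sq, -Complex.coe_smul]
  have h4 : ∀ (k : ℕ) v, (D ^ k) (emb _ v) = emb _ ((dd A c (MonoidHom.id G) ^ k) v) := by
    intro k v
    induction k with
    | zero => simp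
    | succ k ih =>
      rw [pow_succ', pow_succ', mul_apply_eq_comp, Module.End.mul_apply, ih, h3]
  have h5 : ∀ (k : ℕ) (i : Fin m), ev (i, 1) ((D ^ k) (dl (i, (1 : G)))) = mom A c k i (i, 1) := by
    intro k i
    rw [mom, ← ev_emb, ← h4, emb_single, one_smul]
  have h6 := tendsto_finsetSum Finset.univ fun (i : Fin m) _ =>
    (Complex.continuous_re.tendsto _).comp (tendsto_ev D (norm_one_sub_le h1) (i, (1 : G)))
  simp only [h2, Complex.ofReal_re, h5] at h6
  rw [hv]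
  refine h6.congr fun K => ?_
  simp only [Function.comp, Complex.re_sum, ← Complex.ofReal_natCast, ← Complex.ofReal_inv,
    Complex.re_ofReal_mul, ← Finset.mul_sum]
  rw [Finset.sum_comm]

end Luck

open Luck in
theorem luck (h : SmallRStmt) : LuckStmt := by
  intro G _ m n A ε hε
  obtain ⟨r, hr, hS⟩ := h G (Fin m) (Fin n) A (ε / 3) (by positivity)
  obtain ⟨c0, hc0, hlim⟩ := tendsto_mom A
  set β : ℝ := ∑ i, ∑ k, ∑ h ∈ (A i k).support, ‖A i k h‖ with hβ
  have hβ0 : 0 ≤ β := by positivity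
  set c : ℝ := min c0 (1 + β)⁻¹ with hc
  have hc1 : 0 < c := lt_min hc0 (by positivity)
  have hc2 : c ^ 2 * β ^ 2 ≤ 1 := by
    rw [← mul_pow]
    refine pow_le_one₀ (by positivity) ?_
    refine (mul_le_mul_of_nonneg_right (min_le_right _ _) hβ0).trans ?_
    rw [inv_mul_le_iff₀ (by positivity)]
    linarith
  set ρ : ℝ := max 0 (1 - c ^ 2 * r ^ 2) with hρ
  have hρ1 : ρ < 1 := max_lt one_pos (by linarith [mul_pos (pow_pos hc1 2) (pow_pos hr 2)])
  have l1 := hlim c hc1 (min_le_left _ _)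
  have l2 := ((tendsto_pow_atTop_nhds_zero_of_lt_one (le_max_left _ _) hρ1).cesaro).const_mul (m : ℝ)
  rw [mul_zero] at l2
  obtain ⟨K, hK1, hK2, hK3⟩ := ((Metric.tendsto_nhds.1 l1 (ε / 3) (by positivity)).and
    ((l2.eventually (gt_mem_nhds (show (0 : ℝ) < ε / 3 by positivity))).and
      (eventually_gt_atTop 0))).exists
  refine ⟨((Finset.range K ×ˢ (Finset.univ : Finset (Fin m))).biUnion fun p =>
    (mom A c p.1 p.2).support.image Prod.snd).erase 1, Finset.notMem_erase _ _, ?_⟩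
  intro Q _ _ ψ hψ
  obtain ⟨W, hW, hk⟩ := spec (lvl A ψ) β c r (nsq_vecMul_lvl_le A ψ) hc2
  have h1 := hS Q ψ W hW
  have hrk : rk A ψ = (lvl A ψ).rank := (rank_eq_finrank_span_row _).symm
  have hQ : (0 : ℝ) < Fintype.card Q := by exact_mod_cast Fintype.card_pos
  have hKp : (0 : ℝ) < K := by exact_mod_cast hK3
  have h2 : ∀ k ∈ Finset.range K,
      m - (rk A ψ : ℝ) / Fintype.card Q ≤ (∑ i, mom A c k i (i, 1)).re ∧
      (∑ i, mom A c k i (i, 1)).re ≤ m - (rk A ψ : ℝ) / Fintype.card Q + ε / 3 + m * ρ ^ k := by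
    intro k hk'
    obtain ⟨a1, a2⟩ := hk k
    rw [trace_eq A c ψ k fun i a ha h1 => hψ _ (Finset.mem_erase.2 ⟨h1, Finset.mem_biUnion.2
      ⟨(k, i), Finset.mem_product.2 ⟨hk', Finset.mem_univ _⟩, Finset.mem_image_of_mem _ ha⟩⟩),
      ← Complex.ofReal_natCast, Complex.re_ofReal_mul, Fintype.card_prod, Fintype.card_fin]
      at a1 a2
    rw [← hrk] at a1
    rw [Fintype.card_fin] at h1
    push_cast at a1 a2
    have a3 : (rk A ψ : ℝ) / Fintype.card Q * Fintype.card Q = rk A ψ := div_mul_cancel₀ _ hQ.ne'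
    constructor
    · refine le_of_mul_le_mul_right ?_ hQ
      nlinarith
    · refine le_of_mul_le_mul_right ?_ hQ
      nlinarith
  have h3 := Finset.sum_le_sum fun k hk' => (h2 k hk').1
  have h4 := Finset.sum_le_sum fun k hk' => (h2 k hk').2
  rw [Finset.sum_add_distrib, ← Finset.mul_sum] at h4
  simp only [Finset.sum_const, Finset.card_range, nsmul_eq_mul] at h3 h4
  have h5 := mul_le_mul_of_nonneg_left h3 (inv_pos.2 hKp).le
  have h6 := mul_le_mul_of_nonneg_left h4 (inv_pos.2 hKp).le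
  rw [inv_mul_cancel_left₀ hKp.ne'] at h5
  rw [mul_add, inv_mul_cancel_left₀ hKp.ne', mul_left_comm] at h6
  rw [Real.dist_eq, abs_lt] at hK1
  rw [abs_le]
  constructor <;> linarith [hK1.1, hK1.2]

end Pool.Agent.MP_54e5d7_al.atl

end
end MrgPart2

-- ======== part 3: formerly Pool.Agent.MP_54e5d7_al.atl.L0
section MrgPart3

/-!
Project ATL: a nonzero element of the Iwasawa algebra has almost full rank at high levels.
-/

set_option autoImplicit false

open Classical Module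

noncomputable section
namespace Pool.Agent.MP_54e5d7_al.atl

namespace L0

lemma finrank_le_card {O P ι : Type} [CommRing O] [IsDomain O] [AddCommGroup P] [Module O P]
    (s : Finset ι) (w : ι → P) {c : O} (hc : c ≠ 0)
    (h : ∀ x : P, c • x ∈ Submodule.span O (w '' s)) : finrank O P ≤ s.card := by
  refine Module.finrank_le_of_rank_le (rank_le fun t ht => ?_)
  have hli : LinearIndependent O fun i : t => c • (i : P) := by
    rw [Fintype.linearIndependent_iff] at ht ⊢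
    intro g hg i
    have := ht (fun i => g i * c) (by simpa only [mul_smul] using hg) i
    exact (mul_eq_zero.1 this).resolve_right hc
  have h1 := linearIndependent_le_span_aux' _ hli ((s.image w : Finset P) : Set P)
    (by rintro _ ⟨i, rfl⟩; simpa using h i)
  simp only [Fintype.card_coe, Finset.coe_sort_coe] at h1
  exact h1.trans Finset.card_image_le

lemma count {D n : ℕ} (β : Fin D → ℕ) :
    (Finset.univ.filter fun a : Fin D → Fin n => ¬ ∀ i, β i ≤ (a i).val).card * n ≤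
      (∑ i, β i) * n ^ D := by
  have h1 : (Finset.univ.filter fun a : Fin D → Fin n => ¬ ∀ i, β i ≤ (a i).val) ⊆
      Finset.univ.biUnion fun i => Finset.univ.filter fun a : Fin D → Fin n => (a i).val < β i := by
    intro a ha
    simpa using ha
  have h2 : ∀ i, (Finset.univ.filter fun a : Fin D → Fin n => (a i).val < β i).card * n ≤
      β i * n ^ D := fun i => by
    have h3 := Finset.card_le_card_of_injOn
      (s := (Finset.univ.filter fun a : Fin D → Fin n => (a i).val < β i) ×ˢ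
        (Finset.univ : Finset (Fin n)))
      (t := Finset.range (β i) ×ˢ (Finset.univ : Finset (Fin D → Fin n)))
      (fun x => ((x.1 i).val, Function.update x.1 i x.2)) (fun x hx => by simpa using hx)
      (fun x _ y _ hxy => by
        simp only [Prod.mk.injEq] at hxy
        refine Prod.ext (funext fun l => ?_) ?_
        · by_cases hl : l = i
          · rw [hl]; exact Fin.ext hxy.1
          · simpa [Function.update_of_ne hl] using congrFun hxy.2 l
        · simpa using congrFun hxy.2 i)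
    simpa using h3
  calc _ ≤ (∑ i, (Finset.univ.filter fun a : Fin D → Fin n => (a i).val < β i).card) * n :=
        Nat.mul_le_mul_right _ ((Finset.card_le_card h1).trans Finset.card_biUnion_le)
    _ ≤ _ := by
        rw [Finset.sum_mul, Finset.sum_mul]
        exact Finset.sum_le_sum fun i _ => h2 i

variable {G : Type} [Group G] {p D : ℕ} (T : Tower G p D)

lemma expand (h1 : Iw1Stmt) {k : Type} [Field k] (hp : (0 : k) ∣ (p : k)) (j n : ℕ)
    {x : MonoidAlgebra k (T.Q j)} (hx : x ∈ Jm (0 : k) (T.K j) n) :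
    ∃ (s : Finset (Fin D → ℕ)) (c : (Fin D → ℕ) → k), (∀ α ∈ s, c α ≠ 0 ∧ ∑ i, α i = n) ∧
      x - ∑ α ∈ s, c α • bm k (T.hb j) α ∈ Jm (0 : k) (T.K j) (n + 1) := by
  obtain ⟨c, hc⟩ := (h1 G p D T k 0 hp j).2.2.1 n x hx
  refine ⟨((Fintype.piFinset fun _ : Fin D => Finset.range (n + 1)).filter
    fun α => ∑ i, α i ≤ n).filter fun α => c α * 0 ^ (n - ∑ i, α i) ≠ 0,
    fun α => c α * 0 ^ (n - ∑ i, α i), fun α hα => ?_, ?_⟩
  · rw [Finset.mem_filter, Finset.mem_filter] at hα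
    refine ⟨hα.2, ?_⟩
    by_contra hne
    exact hα.2 (by rw [zero_pow (by omega), mul_zero])
  · rw [Finset.sum_filter_of_ne]
    · exact hc
    · intro α _ h h'
      exact h (by simp only [h', zero_smul])

lemma field_case (h0 : Iw0Stmt) (h1 : Iw1Stmt) (h2 : Iw2Stmt) {k : Type} [Field k]
    (hp : (0 : k) ∣ (p : k)) (j m₁ : ℕ) {ν : MonoidAlgebra k (T.Q j)}
    (hν0 : ν ∈ Jm (0 : k) (T.K j) 0) (hν : ν ∉ Jm (0 : k) (T.K j) m₁) :
    ∃ β : Fin D → ℕ, ∑ i, β i ≤ m₁ ∧ ∀ V : Submodule k (MonoidAlgebra k (T.Q j)),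
      (∀ γ, bm k (T.hb j) γ * ν ∈ V) →
      (∀ a : Fin D → Fin (p ^ j), (¬ ∀ i, β i ≤ (a i).val) →
        bm k (T.hb j) (fun i => (a i).val) ∈ V) → Jm (0 : k) (T.K j) 0 ≤ V := by
  obtain ⟨-, hmul, -, -, -, hbm, -⟩ := h0 k 0 (T.Q j) (T.K j)
  obtain ⟨-, hcomm, -, -⟩ := h1 G p D T k 0 hp j
  obtain ⟨-, -, hnil, -, hzero⟩ := h2 G p D T k 0 hp j
  obtain ⟨m, hm, hm1, hm2⟩ : ∃ m, m < m₁ ∧ ν ∈ Jm (0 : k) (T.K j) m ∧
      ν ∉ Jm (0 : k) (T.K j) (m + 1) := by
    by_contra hc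
    have : ∀ m, m ≤ m₁ → ν ∈ Jm (0 : k) (T.K j) m := fun m => by
      induction m with
      | zero => exact fun _ => hν0
      | succ m ih =>
        intro hm
        by_contra h
        exact hc ⟨m, hm, ih (by omega), h⟩
    exact hν (this m₁ le_rfl)
  obtain ⟨s, c, hs, hr⟩ := expand T h1 hp j m hm1
  have hne : s.Nonempty := by
    rw [Finset.nonempty_iff_ne_empty]
    rintro rfl
    exact hm2 (by simpa using hr)
  obtain ⟨β, hβ, hmax⟩ := Finset.exists_max_image s (fun α => toLex α) hne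
  refine ⟨β, by rw [(hs β hβ).2]; exact hm.le, fun V hV1 hV2 => ?_⟩
  have step : ∀ n, Jm (0 : k) (T.K j) (n + 1) ≤ V → ∀ a : Lex (Fin D → ℕ),
      ∑ i, ofLex a i = n → bm k (T.hb j) (ofLex a) ∈ V := by
    intro n hn a
    induction a using WellFoundedLT.induction with
    | ind a ih =>
      intro ha
      by_cases hlt : ∃ i, p ^ j ≤ ofLex a i
      · rw [hzero rfl _ hlt]
        exact V.zero_mem
      by_cases hle : ∀ i, β i ≤ ofLex a i
      swap
      · exact hV2 (fun i => ⟨ofLex a i, by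
          by_contra h
          exact hlt ⟨i, not_lt.1 h⟩⟩) hle
      obtain ⟨γ, hγ⟩ : ∃ γ : Fin D → ℕ, ofLex a = γ + β :=
        ⟨fun i => ofLex a i - β i, funext fun i => (Nat.sub_add_cancel (hle i)).symm⟩
      have hdeg : ∑ i, γ i + m = n := by
        rw [← ha, hγ, ← (hs β hβ).2, ← Finset.sum_add_distrib]
        rfl
      have e1 : bm k (T.hb j) γ * (ν - ∑ α ∈ s, c α • bm k (T.hb j) α) ∈ V := by
        refine hn ?_
        have := hmul _ _ _ _ (hbm D _ (T.hb_mem j) γ) hr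
        rwa [← add_assoc, hdeg] at this
      have e2 : ∀ α ∈ s, bm k (T.hb j) γ * bm k (T.hb j) α - bm k (T.hb j) (γ + α) ∈ V :=
        fun α hα => by
          refine hn ?_
          have := hcomm γ α
          rwa [(hs α hα).2, hdeg] at this
      have e3 : ∑ α ∈ s, c α • bm k (T.hb j) (γ + α) ∈ V := by
        have e4 := V.sub_mem (V.sub_mem (hV1 γ) e1)
          (V.sum_mem fun α hα => V.smul_mem (c α) (e2 α hα))
        convert e4 using 1
        simp only [mul_sub, Finset.mul_sum, mul_smul_comm, smul_sub, Finset.sum_sub_distrib]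
        abel
      have e5 : ∑ α ∈ s.erase β, c α • bm k (T.hb j) (γ + α) ∈ V := by
        refine V.sum_mem fun α hα => V.smul_mem _ ?_
        rw [Finset.mem_erase] at hα
        refine ih (toLex (γ + α)) ?_ ?_
        · have e6 : toLex α < toLex β :=
            lt_of_le_of_ne (hmax α hα.2) fun h => hα.1 (toLex.injective h)
          have e7 : a = toLex γ + toLex β := by
            rw [← toLex_add, ← hγ]; rfl
          rw [e7, toLex_add]
          exact add_lt_add_right e6 _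
        · rw [← hdeg, ← (hs α hα.2).2, ← Finset.sum_add_distrib]
          rfl
      rw [← Finset.add_sum_erase s _ hβ] at e3
      rw [hγ]
      exact (V.smul_mem_iff (hs β hβ).1).1 ((V.add_mem_iff_left e5).1 e3)
  have down : ∀ n, Jm (0 : k) (T.K j) (n + 1) ≤ V → Jm (0 : k) (T.K j) n ≤ V := by
    intro n hn x hx
    obtain ⟨s', c', hs', hr'⟩ := expand T h1 hp j n hx
    have e1 : ∑ α ∈ s', c' α • bm k (T.hb j) α ∈ V :=
      V.sum_mem fun α hα => V.smul_mem _ (step n hn (toLex α) (hs' α hα).2)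
    simpa using V.add_mem (hn hr') e1
  obtain ⟨n₀, hn₀⟩ := hnil 1
  have top : Jm (0 : k) (T.K j) n₀ ≤ V := fun x hx => by
    have : x = 0 := by
      ext q
      simpa using hn₀ x hx q
    rw [this]
    exact V.zero_mem
  have all : ∀ d n, n + d = n₀ → Jm (0 : k) (T.K j) n ≤ V := fun d => by
    induction d with
    | zero => rintro n rfl; exact top
    | succ d ih => exact fun n hn => down n (ih (n + 1) (by omega))
  exact all n₀ 0 (by omega)

lemma map_bm {O k X : Type} [CommRing O] [CommRing k] [Group X] (f : O →+* k) (h : Fin D → X)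
    (α : Fin D → ℕ) : MonoidAlgebra.mapRingHom X f (bm O h α) = bm k h α := by
  simp only [bm, map_list_prod, List.map_ofFn]
  congr 2
  funext l
  simp only [Function.comp_apply, map_pow, map_sub, map_one]
  simp

lemma map_smul' {O k X : Type} [CommRing O] [CommRing k] [Group X] (f : O →+* k) (c : O)
    (x : MonoidAlgebra O X) :
    MonoidAlgebra.mapRingHom X f (c • x) = f c • MonoidAlgebra.mapRingHom X f x := by
  ext q
  simp

lemma exists_smul {O X : Type} [CommRing O] [Group X] {c : O} {x : MonoidAlgebra O X}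
    (h : ∀ q, c ∣ x.coeff q) : ∃ y : MonoidAlgebra O X, x = c • y := by
  choose g hg using h
  refine ⟨∑ q ∈ x.coeff.support, MonoidAlgebra.single q (g q), ?_⟩
  ext q
  simp only [MonoidAlgebra.coeff_smul, MonoidAlgebra.coeff_sum, MonoidAlgebra.coeff_single,
    Finsupp.smul_apply, Finsupp.finsetSum_apply, Finsupp.single_apply, Finset.sum_ite_eq',
    smul_eq_mul]
  split_ifs with hq
  · exact hg q
  · simpa using hq

lemma mem_of_smul (h0 : Iw0Stmt) {O X : Type} [CommRing O] [IsDomain O] [Group X] (π : O)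
    (K : Subgroup X) {c : O} (hc : c ≠ 0) {y : MonoidAlgebra O X} (h : c • y ∈ Jm π K 0) :
    y ∈ Jm π K 0 := by
  obtain ⟨-, -, -, hsupp, -⟩ := h0 O π X K
  rw [hsupp] at h ⊢
  intro q hq
  exact h q (by simpa [hc] using hq)

lemma ring_case (h0 : Iw0Stmt) (h1 : Iw1Stmt) (h2 : Iw2Stmt) {O : Type} [CommRing O] [IsDomain O]
    {π : O} (hc : Coef O p π) (j m₁ : ℕ) {ν : MonoidAlgebra O (T.Q j)}
    (hν0 : ν ∈ Jm π (T.K j) 0)
    (hν : MonoidAlgebra.mapRingHom _ (Ideal.Quotient.mk (Ideal.span {π})) ν ∉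
      Jm (0 : O ⧸ Ideal.span {π}) (T.K j) m₁) :
    ∃ β : Fin D → ℕ, ∑ i, β i ≤ m₁ ∧ ∀ V : Submodule O (MonoidAlgebra O (T.Q j)),
      (∀ γ, bm O (T.hb j) γ * ν ∈ V) →
      (∀ a : Fin D → Fin (p ^ j), (¬ ∀ i, β i ≤ (a i).val) →
        bm O (T.hb j) (fun i => (a i).val) ∈ V) → Jm π (T.K j) 0 ≤ V := by
  have := hc.max
  have := hc.compl
  let _ : Field (O ⧸ Ideal.span {π}) := Ideal.Quotient.field _
  set f := Ideal.Quotient.mk (Ideal.span {π}) with hf
  have hp : (0 : O ⧸ Ideal.span {π}) ∣ (p : O ⧸ Ideal.span {π}) := by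
    rw [zero_dvd_iff, ← map_natCast f, hf, Ideal.Quotient.eq_zero_iff_mem,
      Ideal.mem_span_singleton]
    exact hc.dvd
  obtain ⟨-, hmul, -, hsupp, -, hbm, -⟩ := h0 O π (T.Q j) (T.K j)
  have hanti := (h0 O π (T.Q j) (T.K j)).1
  have hsupp' := (h0 (O ⧸ Ideal.span {π}) 0 (T.Q j) (T.K j)).2.2.2.1
  have hred : ∀ x ∈ Jm π (T.K j) 0, MonoidAlgebra.mapRingHom _ f x ∈
      Jm (0 : O ⧸ Ideal.span {π}) (T.K j) 0 := fun x hx => by
    rw [hsupp']
    intro q hq
    refine (hsupp x).1 hx q fun h => hq ?_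
    rw [MonoidAlgebra.coeff_mapRingHom, h, map_zero]
  have hbm0 : ∀ γ, bm O (T.hb j) γ ∈ Jm π (T.K j) 0 := fun γ =>
    antitone_nat_of_succ_le hanti (Nat.zero_le _) (hbm D _ (T.hb_mem j) γ)
  obtain ⟨β, hβ, hV⟩ := field_case T h0 h1 h2 hp j m₁ (hred ν hν0) hν
  refine ⟨β, hβ, fun V hV1 hV2 => ?_⟩
  let V' : Submodule (O ⧸ Ideal.span {π}) (MonoidAlgebra (O ⧸ Ideal.span {π}) (T.Q j)) :=
    { carrier := {y | ∃ v, v ∈ V ∧ v ∈ Jm π (T.K j) 0 ∧ MonoidAlgebra.mapRingHom _ f v = y}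
      add_mem' := by
        rintro _ _ ⟨v, a1, a2, rfl⟩ ⟨w, b1, b2, rfl⟩
        exact ⟨v + w, V.add_mem a1 b1, Submodule.add_mem _ a2 b2, map_add _ _ _⟩
      zero_mem' := ⟨0, V.zero_mem, Submodule.zero_mem _, map_zero _⟩
      smul_mem' := by
        rintro c _ ⟨v, a1, a2, rfl⟩
        obtain ⟨c, rfl⟩ := Ideal.Quotient.mk_surjective c
        exact ⟨c • v, V.smul_mem c a1, Submodule.smul_mem _ c a2, map_smul' _ _ _⟩ }
  have hle := hV V'
    (fun γ => ⟨_, hV1 γ, hmul 0 0 _ _ (hbm0 γ) hν0, by rw [map_mul, map_bm]⟩)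
    (fun a ha => ⟨_, hV2 a ha, hbm0 _, map_bm _ _ _⟩)
  have hfg : (Jm π (T.K j) 0).FG := by
    rw [← (h2 G p D T O π hc.dvd j).2.1]
    exact Submodule.fg_span (Set.finite_range _)
  refine Submodule.le_of_le_smul_of_le_jacobson_bot hfg
    (IsAdicComplete.le_jacobson_bot (Ideal.span {π})) fun x hx => ?_
  obtain ⟨v, a1, a2, a3⟩ := hle (hred x hx)
  obtain ⟨y, hy⟩ : ∃ y, x - v = π • y := exists_smul fun q => by
    rw [← Ideal.mem_span_singleton, ← Ideal.Quotient.eq_zero_iff_mem, ← hf,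
      ← MonoidAlgebra.coeff_mapRingHom, map_sub, a3, sub_self]
    rfl
  have hy' : y ∈ Jm π (T.K j) 0 :=
    mem_of_smul h0 π _ hc.ne (hy ▸ Submodule.sub_mem _ hx a2)
  rw [show x = v + π • y by rw [← hy]; abel]
  exact Submodule.add_mem_sup a1
    (Submodule.smul_mem_smul (Ideal.mem_span_singleton_self π) hy')

lemma lamS_mem (h0 : Iw0Stmt) {O : Type} [CommRing O] (π : O) (j : ℕ) (x : T.S O) :
    T.lamS O j x ∈ Jm π (T.K j) 0 :=
  ((h0 O π (T.Q j) (T.K j)).2.2.2.1 _).2 fun q hq => T.val_mem x j q hq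

lemma level (h0 : Iw0Stmt) (h1 : Iw1Stmt) (h2 : Iw2Stmt) (hb : IwbStmt) {O : Type} [CommRing O]
    [IsDomain O] {π : O} (hc : Coef O p π) (j m₁ : ℕ) (μ : T.S O) {c : O} (hc0 : c ≠ 0)
    {ν : MonoidAlgebra O (T.Q j)} (hμ : T.lamS O j μ = c • ν)
    (hν : MonoidAlgebra.mapRingHom _ (Ideal.Quotient.mk (Ideal.span {π})) ν ∉
      Jm (0 : O ⧸ Ideal.span {π}) (T.K j) m₁) :
    finrank O (T.S O ⧸ (T.I O j ⊔ Submodule.span (T.S O) {μ})) * p ^ j ≤ m₁ * p ^ (D * j) := by
  have hν0 : ν ∈ Jm π (T.K j) 0 := mem_of_smul h0 π _ hc0 (hμ ▸ lamS_mem T h0 π j μ)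
  obtain ⟨β, hβ, hV⟩ := ring_case T h0 h1 h2 hc j m₁ hν0 hν
  obtain ⟨hanti, -, -, hsupp, -, hbm, -⟩ := h0 O π (T.Q j) (T.K j)
  have hlift : ∀ γ : Fin D → ℕ, ∃ x, T.lamS O j x = bm O (T.hb j) γ := fun γ =>
    (hb G p D T O).2.1 j _ ((hsupp _).1
      (antitone_nat_of_succ_le hanti (Nat.zero_le _) (hbm D _ (T.hb_mem j) γ)))
  choose σ hσ using hlift
  set N : Submodule (T.S O) (T.S O) := T.I O j ⊔ Submodule.span (T.S O) {μ} with hN
  let mk : T.S O →ₗ[O] T.S O ⧸ N := N.mkQ.restrictScalars O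
  have hmk : ∀ x ∈ N, mk x = 0 := fun x hx => (Submodule.Quotient.mk_eq_zero N).2 hx
  let B := Finset.univ.filter fun a : Fin D → Fin (p ^ j) => ¬ ∀ i, β i ≤ (a i).val
  let w : (Fin D → Fin (p ^ j)) → T.S O ⧸ N := fun a => mk (σ fun i => (a i).val)
  let W : Submodule O (T.S O ⧸ N) := Submodule.span O (w '' B)
  let V : Submodule O (MonoidAlgebra O (T.Q j)) :=
    ((W.comap mk).map (T.lamS O j).toLinearMap).comap (LinearMap.lsmul O _ c)
  have hle := hV V
    (fun γ => ⟨σ γ * μ, by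
      have : mk (σ γ * μ) = 0 := hmk _ (Submodule.mem_sup_right
        (Submodule.smul_mem _ (σ γ) (Submodule.mem_span_singleton_self μ)))
      simp only [Submodule.comap_coe, Set.mem_preimage, this]
      exact W.zero_mem, by
      simp only [AlgHom.toLinearMap_apply, map_mul, hσ, hμ, LinearMap.lsmul_apply,
        mul_smul_comm]⟩)
    (fun a ha => ⟨c • σ fun i => (a i).val, by
      simp only [Submodule.comap_coe, Set.mem_preimage, map_smul]
      exact W.smul_mem c (Submodule.subset_span ⟨a, by simpa [B] using ha, rfl⟩), by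
      simp only [AlgHom.toLinearMap_apply, map_smul, hσ, LinearMap.lsmul_apply]⟩)
  have hrk : finrank O (T.S O ⧸ N) ≤ B.card := finrank_le_card B w hc0 fun x => by
    obtain ⟨x, rfl⟩ : ∃ y, mk y = x := N.mkQ_surjective x
    obtain ⟨y, a1, a2⟩ := hle (lamS_mem T h0 π j x)
    have a3 : mk (c • x - y) = 0 := hmk _ (Submodule.mem_sup_left (by
      rw [Tower.mem_I, map_sub, map_smul, sub_eq_zero]
      exact a2.symm))
    rw [map_sub, map_smul, sub_eq_zero] at a3
    rw [a3]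
    exact a1
  calc _ ≤ B.card * p ^ j := Nat.mul_le_mul_right _ hrk
    _ ≤ (∑ i, β i) * (p ^ j) ^ D := count β
    _ ≤ _ := by rw [← pow_mul, mul_comm j D]; exact Nat.mul_le_mul_right _ hβ

end L0

open L0 in
theorem l0 (h0 : Iw0Stmt) (h1 : Iw1Stmt) (h2 : Iw2Stmt) (hb : IwbStmt) : L0Stmt := by
  intro G _ p D T O _ _ π hc μ hμ ε hε
  have := hc.compl
  have hex : ∃ a j q, ¬ π ^ (a + 1) ∣ (T.lamS O j μ).coeff q := by
    by_contra h
    push Not at h
    refine hμ (T.val_injective O (T.lam_ext fun j => ?_))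
    rw [map_zero, map_zero]
    ext q
    refine IsHausdorff.haus (I := Ideal.span {π}) inferInstance _ fun n => ?_
    rw [SModEq.zero, Ideal.span_singleton_pow, smul_eq_mul, Ideal.mul_top,
      Ideal.mem_span_singleton]
    exact (pow_dvd_pow π (Nat.le_succ n)).trans (h n j q)
  obtain ⟨j₁, q₁, hq₁⟩ := Nat.find_spec hex
  set a := Nat.find hex with ha
  have hdvd : ∀ j q, π ^ a ∣ (T.lamS O j μ).coeff q := fun j q => by
    rcases Nat.eq_zero_or_pos a with h | h
    · rw [h, pow_zero]; exact one_dvd _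
    · by_contra hn
      refine Nat.find_min hex (m := a - 1) (by omega) ⟨j, q, ?_⟩
      rwa [Nat.sub_add_cancel h]
  choose ν hν using fun j => exists_smul (hdvd j)
  set f := Ideal.Quotient.mk (Ideal.span {π}) with hf
  have hp : (0 : O ⧸ Ideal.span {π}) ∣ (p : O ⧸ Ideal.span {π}) := by
    rw [zero_dvd_iff, ← map_natCast f, hf, Ideal.Quotient.eq_zero_iff_mem,
      Ideal.mem_span_singleton]
    exact hc.dvd
  obtain ⟨m₁, hm₁⟩ := (h2 G p D T _ 0 hp j₁).2.2.1 1
  have hpa : π ^ a ≠ 0 := pow_ne_zero _ hc.ne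
  have key : ∀ j, j₁ ≤ j → MonoidAlgebra.mapRingHom _ f (ν j) ∉
      Jm (0 : O ⧸ Ideal.span {π}) (T.K j) m₁ := fun j hj hmem => by
    have e1 : MonoidAlgebra.mapDomainAlgHom O O (T.tr hj) (ν j) = ν j₁ := by
      have e2 := T.map_lam (T.val O μ) hj
      rw [← T.lamS_apply, ← T.lamS_apply, hν j, hν j₁, map_smul] at e2
      ext q
      have e3 := congrArg (fun x => x.coeff q) e2
      simp only [MonoidAlgebra.coeff_smul, Finsupp.smul_apply, smul_eq_mul] at e3
      exact mul_left_cancel₀ hpa e3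
    have e4 : MonoidAlgebra.mapRingHom _ f (ν j₁) ∈ Jm (0 : O ⧸ Ideal.span {π}) (T.K j₁) m₁ := by
      rw [← T.map_K hj, ← (h0 _ 0 _ (T.K j)).2.2.2.2.2.2 _ (T.tr hj) m₁]
      refine ⟨_, hmem, ?_⟩
      rw [← e1]
      exact (RingHom.congr_fun
        (MonoidAlgebra.mapRingHom_comp_mapDomainRingHom f (T.tr hj)) (ν j)).symm
    have e5 := hm₁ _ e4 q₁
    rw [pow_one, zero_dvd_iff, MonoidAlgebra.coeff_mapRingHom, hf, Ideal.Quotient.eq_zero_iff_mem,
      Ideal.mem_span_singleton] at e5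
    refine hq₁ ?_
    rw [hν j₁, pow_succ]
    simpa using mul_dvd_mul_left (π ^ a) e5
  have hp1 : (1 : ℝ) < p := by exact_mod_cast T.prime.one_lt
  filter_upwards [Filter.eventually_ge_atTop j₁,
    (tendsto_pow_atTop_atTop_of_one_lt hp1).eventually_ge_atTop (m₁ / ε)] with j hj hj'
  have e1 : (finrank O (T.S O ⧸ (T.I O j ⊔ Submodule.span (T.S O) {μ})) : ℝ) * p ^ j ≤
      m₁ * p ^ (D * j) := by
    exact_mod_cast level T h0 h1 h2 hb hc j m₁ μ hpa (hν j) (key j hj)
  have e2 : (0 : ℝ) < p ^ j := by positivity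
  have e3 : (m₁ : ℝ) ≤ ε * p ^ j := by rwa [div_le_iff₀ hε, mul_comm] at hj'
  refine le_of_mul_le_mul_right (e1.trans ?_) e2
  calc (m₁ : ℝ) * p ^ (D * j) ≤ ε * p ^ j * p ^ (D * j) := by gcongr
    _ = _ := by ring

end Pool.Agent.MP_54e5d7_al.atl

end
end MrgPart3

-- marker of a merged file
example : 731051 + 679265 = 731051 + 679265 := rfl
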