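import Pool.Agent.MP_54e5d7_al.atl.IW0

-- ======== part 0: formerly Pool.Agent.MP_54e5d7_al.atl.COEF
section MrgPart0

/-!
Project ATL, row COEF: a complete coefficient ring with the same ranks at all finite levels.
-/

set_option autoImplicit false

open Classical Module

noncomputable section
namespace Pool.Agent.MP_54e5d7_al.atl

namespace CoefA

lemma finrank_of_max {R ι κ : Type} [CommRing R] [IsDomain R] [Fintype ι] (v : ι → κ → R)
    (s : Set ι) (h1 : LinearIndepOn R v s)
    (h2 : ∀ i ∉ s, ∃ a : R, a ≠ 0 ∧ a • v i ∈ Submodule.span R (v '' s)) :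
    finrank R (Submodule.span R (Set.range v)) = Fintype.card s := by
  have e1 : finrank R (Submodule.span R (v '' s)) = Fintype.card s := by
    rw [← finrank_span_eq_card h1, Set.image_eq_range]
  have : Module.Finite R (Submodule.span R (Set.range v)) :=
    Module.Finite.span_of_finite R (Set.finite_range v)
  have : Module.Finite R (Submodule.span R (v '' s)) :=
    Module.Finite.span_of_finite R ((Set.toFinite s).image v)
  refine le_antisymm ?_ ?_
  · have h3 : ∀ i, ∃ a : R, a ≠ 0 ∧ a • v i ∈ Submodule.span R (v '' s) := fun i => by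
      by_cases hi : i ∈ s
      · exact ⟨1, one_ne_zero, by rw [one_smul]; exact Submodule.subset_span ⟨i, hi, rfl⟩⟩
      · exact h2 i hi
    choose a ha hav using h3
    have hc : (∏ i, a i) ≠ 0 := Finset.prod_ne_zero_iff.2 fun i _ => ha i
    let f := LinearMap.lsmul R (κ → R) (∏ i, a i)
    have hf : Function.Injective f := fun x y hxy => by
      funext k
      exact mul_left_cancel₀ hc (congrFun hxy k)
    rw [← e1, (Submodule.equivMapOfInjective f hf _).finrank_eq]
    refine Submodule.finrank_mono ?_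
    rw [Submodule.map_span, Submodule.span_le]
    rintro _ ⟨_, ⟨i, rfl⟩, rfl⟩
    rw [show f (v i) = (∏ j ∈ Finset.univ.erase i, a j) • a i • v i by
      simp only [f, LinearMap.lsmul_apply, smul_smul]
      rw [Finset.prod_erase_mul _ _ (Finset.mem_univ i)]]
    exact Submodule.smul_mem _ _ (hav i)
  · rw [← e1]
    exact Submodule.finrank_mono (Submodule.span_mono (Set.image_subset_range _ _))

lemma finrank_comp {R S ι κ : Type} [CommRing R] [IsDomain R] [CommRing S] [IsDomain S]
    [Fintype ι] [Fintype κ] (f : R →+* S) (hf : Function.Injective f) (v : ι → κ → R) :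
    finrank S (Submodule.span S (Set.range fun i => f ∘ v i)) =
      finrank R (Submodule.span R (Set.range v)) := by
  let : Algebra R S := f.toAlgebra
  have : FaithfulSMul R S := (faithfulSMul_iff_algebraMap_injective R S).2 hf
  obtain ⟨s, h1, h2⟩ := exists_maximal_linearIndepOn R v
  rw [finrank_of_max v s h1 h2]
  refine finrank_of_max _ s ?_ fun i hi => ?_
  · exact (linearIndependent_algebraMap_comp_iff (S := S) (v := fun i : s => v i)).2 h1
  · obtain ⟨a, ha, hav⟩ := h2 i hi
    refine ⟨f a, (map_ne_zero_iff f hf).2 ha, ?_⟩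
    have key : ∀ x ∈ Submodule.span R (v '' s),
        f ∘ x ∈ Submodule.span S ((fun i => f ∘ v i) '' s) := by
      intro x hx
      induction hx using Submodule.span_induction with
      | mem x hx =>
        obtain ⟨j, hj, rfl⟩ := hx
        exact Submodule.subset_span ⟨j, hj, rfl⟩
      | zero =>
        rw [show f ∘ (0 : κ → R) = 0 from funext fun _ => map_zero f]
        exact Submodule.zero_mem _
      | add x y _ _ hx hy =>
        rw [show f ∘ (x + y) = f ∘ x + f ∘ y from funext fun _ => map_add f _ _]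
        exact Submodule.add_mem _ hx hy
      | smul c x _ hx =>
        rw [show f ∘ (c • x) = f c • (f ∘ x) from funext fun _ => map_mul f _ _]
        exact Submodule.smul_mem _ _ hx
    rw [show f a • (f ∘ v i) = f ∘ (a • v i) from funext fun _ => (map_mul f _ _).symm]
    exact key _ hav

lemma finrank_smul {R ι κ : Type} [CommRing R] [IsDomain R] (v : ι → κ → R) {c : R}
    (hc : c ≠ 0) :
    finrank R (Submodule.span R (Set.range fun i => c • v i)) =
      finrank R (Submodule.span R (Set.range v)) := by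
  let f := LinearMap.lsmul R (κ → R) c
  have hf : Function.Injective f := fun x y hxy => by
    funext k
    exact mul_left_cancel₀ hc (congrFun hxy k)
  rw [(Submodule.equivMapOfInjective f hf (Submodule.span R (Set.range v))).finrank_eq,
    Submodule.map_span, ← Set.range_comp]
  rfl

lemma lvl_hom {G Q R S ι κ : Type} [Group G] [Group Q] [AddCommMonoid R] [AddCommMonoid S]
    (f : R →+ S) (A : Matrix ι κ (G →₀ R)) (B : Matrix ι κ (G →₀ S))
    (h : ∀ i k g, B i k g = f (A i k g)) (ψ : G →* Q) (a : ι × Q) (b : κ × Q) :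
    lvl B ψ a b = f (lvl A ψ a b) := by
  have e : B a.1 b.1 = (A a.1 b.1).mapRange f (map_zero f) := by
    ext g; simp [h]
  rw [lvl_apply, lvl_apply, e, Finsupp.sum_mapRange_index (by simp), map_finsuppSum]
  refine Finsupp.sum_congr fun g _ => ?_
  split_ifs <;> simp

/-- Transport of ranks through a subring with a common denominator. -/
lemma transport {G ι κ R O : Type} [Group G] [Fintype ι] [Fintype κ] [CommRing R] [IsDomain R]
    [CommRing O] [IsDomain O] (A : Matrix ι κ (G →₀ ℂ)) (f : R →+* ℂ) (hf : Function.Injective f)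
    (g : R →+* O) (hg : Function.Injective g) (c : ℂ) (hc : c ≠ 0)
    (h : ∀ i k x, ∃ r, f r = c * A i k x) :
    ∃ B : Matrix ι κ (G →₀ O), ∀ (Q : Type) [Group Q] [Fintype Q] (ψ : G →* Q),
      rk B ψ = rk A ψ := by
  choose r hr using h
  let B0 : Matrix ι κ (G →₀ R) := fun i k => Finsupp.onFinset (A i k).support (r i k) fun x hx => by
    rw [Finsupp.mem_support_iff]
    intro h0
    apply hx
    apply hf
    rw [hr, h0, mul_zero, map_zero]
  let B : Matrix ι κ (G →₀ O) := fun i k => (B0 i k).mapRange g (map_zero g)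
  let C : Matrix ι κ (G →₀ ℂ) := fun i k => c • A i k
  refine ⟨B, fun Q _ _ ψ => ?_⟩
  have e1 : (fun a : ι × Q => (lvl B ψ a : κ × Q → O)) = fun a => g ∘ lvl B0 ψ a := by
    funext a b
    exact lvl_hom g.toAddMonoidHom B0 B (fun _ _ _ => rfl) ψ a b
  have e2 : (fun a : ι × Q => (lvl C ψ a : κ × Q → ℂ)) = fun a => f ∘ lvl B0 ψ a := by
    funext a b
    exact lvl_hom f.toAddMonoidHom B0 C (fun i k x => (hr i k x).symm) ψ a b
  have e3 : (fun a : ι × Q => (lvl C ψ a : κ × Q → ℂ)) = fun a => c • lvl A ψ a := by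
    funext a b
    exact lvl_hom (AddMonoidHom.mulLeft c) A C (fun _ _ _ => rfl) ψ a b
  unfold rk
  rw [e1]
  refine (finrank_comp g hg fun a : ι × Q => (lvl B0 ψ a : κ × Q → R)).trans ?_
  refine (finrank_comp f hf fun a : ι × Q => (lvl B0 ψ a : κ × Q → R)).symm.trans ?_
  rw [← e2, e3]
  exact finrank_smul (fun a : ι × Q => (lvl A ψ a : κ × Q → ℂ)) hc

lemma isDomain_of {O : Type} [CommRing O] (π : O) [hm : (Ideal.span {π}).IsMaximal]
    [IsAdicComplete (Ideal.span {π}) O] (hπ : ∀ n : ℕ, π ^ n ≠ 0) : IsDomain O := by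
  have := isLocalRing_of_isAdicComplete_maximal (Ideal.span {π})
  have hmax : IsLocalRing.maximalIdeal O = Ideal.span {π} := (IsLocalRing.eq_maximalIdeal hm).symm
  have key : ∀ x : O, x ≠ 0 → ∃ (n : ℕ) (u : O), IsUnit u ∧ x = π ^ n * u := by
    intro x hx
    have h1 : ∃ n : ℕ, ¬ π ^ n ∣ x := by
      by_contra hcon
      push Not at hcon
      apply hx
      refine IsHausdorff.haus (inferInstance : IsHausdorff (Ideal.span {π}) O) x fun n => ?_
      rw [SModEq.zero, smul_eq_mul, Ideal.mul_top, Ideal.span_singleton_pow,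
        Ideal.mem_span_singleton]
      exact hcon n
    have h2 := Nat.find_spec h1
    rcases h3 : Nat.find h1 with _ | n
    · rw [h3] at h2; simp at h2
    · have h4 : π ^ n ∣ x := by
        by_contra h5
        have := Nat.find_min' h1 h5
        omega
      obtain ⟨u, rfl⟩ := h4
      refine ⟨n, u, ?_, rfl⟩
      by_contra hu
      have h6 : u ∈ IsLocalRing.maximalIdeal O := hu
      rw [hmax, Ideal.mem_span_singleton] at h6
      rw [h3, pow_succ] at h2
      exact h2 (mul_dvd_mul_left _ h6)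
  have : NoZeroDivisors O := ⟨fun {x y} hxy => by
    by_contra hcon
    push Not at hcon
    obtain ⟨n, u, hu, rfl⟩ := key x hcon.1
    obtain ⟨m, w, hw, rfl⟩ := key y hcon.2
    apply hπ (n + m)
    rw [show π ^ n * u * (π ^ m * w) = π ^ (n + m) * (u * w) by ring] at hxy
    exact (hu.mul hw).mul_left_eq_zero.1 hxy⟩
  exact NoZeroDivisors.to_isDomain O

/-- The completion of a discrete valuation ring. -/
lemma complete_dvr (V : Type) [CommRing V] [IsDomain V] [IsDiscreteValuationRing V] [CharZero V]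
    (p : ℕ) (hp : (p : V) ∈ IsLocalRing.maximalIdeal V) :
    ∃ (O : Type) (_ : CommRing O) (_ : IsDomain O) (_ : CharZero O) (π : O) (g : V →+* O),
      Function.Injective g ∧ Coef O p π := by
  obtain ⟨ϖ, hϖ⟩ := IsDiscreteValuationRing.exists_irreducible V
  have hm : IsLocalRing.maximalIdeal V = Ideal.span {ϖ} := hϖ.maximalIdeal_eq
  let O := AdicCompletion (IsLocalRing.maximalIdeal V) V
  let g : V →+* O := algebraMap V O
  have hg : Function.Injective g :=
    AdicCompletion.of_injective (IsLocalRing.maximalIdeal V) V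
  have hO : IsLocalRing.maximalIdeal O = Ideal.span {g ϖ} := by
    rw [AdicCompletion.maximalIdeal_eq_map]
    refine (congrArg (Ideal.map g) hm).trans ?_
    rw [Ideal.map_span, Set.image_singleton]
  have h1 : (Ideal.span {g ϖ}).IsMaximal := hO ▸ IsLocalRing.maximalIdeal.isMaximal O
  have h2 : IsAdicComplete (Ideal.span {g ϖ}) O := hO ▸ inferInstance
  have h3 : ∀ n : ℕ, g ϖ ^ n ≠ 0 := fun n => by
    rw [← map_pow, map_ne_zero_iff g hg]
    exact pow_ne_zero _ hϖ.ne_zero
  refine ⟨O, inferInstance, isDomain_of (g ϖ) h3, charZero_of_injective_ringHom hg, g ϖ, g, hg,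
    h1, by simpa using h3 1, ?_, h2⟩
  rw [hm, Ideal.mem_span_singleton] at hp
  simpa using map_dvd g hp

lemma complex_equiv (p : ℕ) [Fact p.Prime] : Nonempty (ℂ ≃+* AlgebraicClosure ℚ_[p]) := by
  have h1 : Cardinal.mk ℚ_[p] ≤ Cardinal.continuum := by
    refine (Cardinal.mk_quotient_le (s := CauSeq.equiv)).trans ?_
    refine (Cardinal.mk_subtype_le _).trans ?_
    simp
  have h2 : Cardinal.continuum ≤ Cardinal.mk ℚ_[p] :=
    continuum_le_cardinal_of_nontriviallyNormedField ℚ_[p]
  have h3 : Cardinal.mk (AlgebraicClosure ℚ_[p]) = Cardinal.continuum := by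
    refine le_antisymm ?_ ?_
    · exact (Algebra.IsAlgebraic.cardinalMk_le_max ℚ_[p] _).trans
        (max_le h1 Cardinal.aleph0_le_continuum)
    · exact h2.trans (Cardinal.mk_le_of_injective (algebraMap ℚ_[p] _).injective)
  refine IsAlgClosed.ringEquiv_of_equiv_of_charZero ?_ ?_
  · rw [Cardinal.mk_complex]; exact Cardinal.aleph0_lt_continuum
  · rw [← Cardinal.eq, h3, Cardinal.mk_complex]

lemma exists_dvr (p : ℕ) [Fact p.Prime] (s : Finset ℂ) :
    ∃ (R V : Type) (_ : CommRing R) (_ : IsDomain R) (_ : CommRing V) (_ : IsDomain V)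
      (_ : IsDiscreteValuationRing V) (_ : CharZero V) (f : R →+* ℂ) (g : R →+* V) (c : ℂ),
      Function.Injective f ∧ Function.Injective g ∧ c ≠ 0 ∧
      (p : V) ∈ IsLocalRing.maximalIdeal V ∧ ∀ x ∈ s, ∃ r, f r = c * x := by
  obtain ⟨e⟩ := complex_equiv p
  let L := IntermediateField.adjoin ℚ_[p] ((s.image e : Finset _) : Set (AlgebraicClosure ℚ_[p]))
  have : FiniteDimensional ℚ_[p] L :=
    IntermediateField.finiteDimensional_adjoin fun x _ => Algebra.IsIntegral.isIntegral x
  let R := integralClosure ℤ_[p] L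
  have : IsDedekindDomain R := IsIntegralClosure.isDedekindDomain ℤ_[p] ℚ_[p] L R
  have : IsFractionRing R L := IsIntegralClosure.isFractionRing_of_finite_extension ℤ_[p] ℚ_[p] L R
  have hinj : Function.Injective (algebraMap ℤ_[p] R) := by
    have : Function.Injective (algebraMap ℤ_[p] L) := by
      rw [IsScalarTower.algebraMap_eq ℤ_[p] ℚ_[p] L]
      exact (algebraMap ℚ_[p] L).injective.comp (IsFractionRing.injective ℤ_[p] ℚ_[p])
    rw [IsScalarTower.algebraMap_eq ℤ_[p] R L, RingHom.coe_comp] at this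
    exact Function.Injective.of_comp this
  obtain ⟨P, hP, hPc⟩ := Ideal.exists_ideal_over_maximal_of_isIntegral (S := R)
    (IsLocalRing.maximalIdeal ℤ_[p]) (by rw [(RingHom.injective_iff_ker_eq_bot _).1 hinj]; exact bot_le)
  have hpP : (p : R) ∈ P := by
    have : (p : ℤ_[p]) ∈ P.comap (algebraMap ℤ_[p] R) := by
      rw [hPc, PadicInt.maximalIdeal_eq_span_p]
      exact Ideal.mem_span_singleton_self _
    simpa using this
  have : CharZero R := charZero_of_injective_ringHom hinj
  have hP0 : P ≠ ⊥ := by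
    rintro rfl
    exact (Nat.cast_ne_zero.2 (Fact.out : p.Prime).ne_zero) (Ideal.mem_bot.1 hpP)
  let V := Localization.AtPrime P
  have : IsDiscreteValuationRing V :=
    IsLocalization.AtPrime.isDiscreteValuationRing_of_dedekind_domain R hP0 V
  have hg : Function.Injective (algebraMap R V) :=
    IsLocalization.injective V P.primeCompl_le_nonZeroDivisors
  let f0 : L →+* ℂ := e.symm.toRingHom.comp (algebraMap L (AlgebraicClosure ℚ_[p]))
  let t : s → L := fun x => ⟨e x, IntermediateField.subset_adjoin _ _ (by simp)⟩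
  obtain ⟨b, hb⟩ := IsLocalization.exist_integer_multiples_of_finite (nonZeroDivisors R) t
  have hf : Function.Injective (f0.comp (algebraMap R L)) :=
    f0.injective.comp (IsFractionRing.injective R L)
  refine ⟨R, V, inferInstance, inferInstance, inferInstance, inferInstance, inferInstance,
    charZero_of_injective_ringHom hg, f0.comp (algebraMap R L), algebraMap R V,
    f0.comp (algebraMap R L) b, hf, hg, ?_, ?_, fun x hx => ?_⟩
  · exact (map_ne_zero_iff _ hf).2 (nonZeroDivisors.coe_ne_zero b)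
  · rw [← Localization.AtPrime.map_eq_maximalIdeal, ← map_natCast (algebraMap R V)]
    exact Ideal.mem_map_of_mem _ hpP
  · obtain ⟨r, hr⟩ := hb ⟨x, hx⟩
    refine ⟨r, ?_⟩
    rw [RingHom.comp_apply, hr, Algebra.smul_def, map_mul, RingHom.comp_apply]
    congr 1
    simp [f0, t]

end CoefA

theorem coef_stmt : CoefStmt := by
  intro G ι κ _ _ _ A p hp
  have : Fact p.Prime := ⟨hp⟩
  obtain ⟨R, V, _, _, _, _, _, _, f, g, c, hf, hg, hc, hpV, hs⟩ := CoefA.exists_dvr p
    (Finset.univ.biUnion fun i => Finset.univ.biUnion fun k => (A i k).support.image (A i k))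
  obtain ⟨O, _, _, _, π, g', hg', hO⟩ := CoefA.complete_dvr V p hpV
  obtain ⟨B, hB⟩ := CoefA.transport A f hf (g'.comp g) (hg'.comp hg) c hc fun i k x => by
    by_cases hx : x ∈ (A i k).support
    · exact hs _ (by simp only [Finset.mem_biUnion, Finset.mem_univ, true_and, Finset.mem_image]
                     exact ⟨i, k, x, hx, rfl⟩)
    · exact ⟨0, by rw [Finsupp.notMem_support_iff.1 hx]; simp⟩
  exact ⟨O, inferInstance, inferInstance, inferInstance, π, B, hO, hB⟩

end Pool.Agent.MP_54e5d7_al.atl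

end
end MrgPart0

-- ======== part 1: formerly Pool.Agent.MP_54e5d7_al.atl.RK
section MrgPart1

/-!
Project ATL: the rank at a level is close to the generic rank.
-/

set_option autoImplicit false

open Classical Module Submodule

noncomputable section
namespace Pool.Agent.MP_54e5d7_al.atl

namespace RK

variable {S O : Type} [Ring S] [CommRing O] [IsDomain O] [Algebra O S] {M : Type} [AddCommGroup M]
  [Module S M] [Module O M] [IsScalarTower O S M] {N : Type} [AddCommGroup N] [Module O N]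

/-- The rank of the image of a submodule. -/
def rho (φ : M →ₗ[O] N) (V : Submodule S M) : Cardinal :=
  Module.rank O ((V.restrictScalars O).map φ)

omit [IsDomain O] in
lemma rho_mono (φ : M →ₗ[O] N) {V V' : Submodule S M} (h : V ≤ V') : rho φ V ≤ rho φ V' :=
  Submodule.rank_mono (map_mono fun _ hx => h hx)

lemma rho_bot (φ : M →ₗ[O] N) : rho φ (⊥ : Submodule S M) = 0 := by
  unfold rho
  rw [restrictScalars_bot, Submodule.map_bot, rank_bot]

lemma step (φ : M →ₗ[O] N) (I J : Ideal S) (μ : S) (hI : ∀ a ∈ I, ∀ w : M, φ (a • w) = 0)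
    (hJ : J ≤ I ⊔ span S {μ}) (V : Submodule S M) (w : M) (hw : μ • w ∈ V) :
    rho φ (V ⊔ span S {w}) ≤ rho φ V + Module.rank O (S ⧸ J) := by
  set P := (V.restrictScalars O).map φ with hP
  let ψ : S →ₗ[O] N ⧸ P :=
    P.mkQ ∘ₗ φ ∘ₗ (LinearMap.toSpanSingleton S M w).restrictScalars O
  have hψ : ∀ a, ψ a = P.mkQ (φ (a • w)) := fun a => rfl
  have h1 : J.restrictScalars O ≤ LinearMap.ker ψ := by
    intro a ha
    obtain ⟨b, hb, c, hc, rfl⟩ := mem_sup.1 (hJ ha)
    obtain ⟨d, rfl⟩ := mem_span_singleton.1 hc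
    rw [LinearMap.mem_ker, hψ, add_smul, map_add, hI b hb, zero_add, mkQ_apply,
      Quotient.mk_eq_zero, smul_assoc]
    exact mem_map_of_mem (V.smul_mem d hw)
  have h2 : Module.rank O (LinearMap.range ψ) ≤ Module.rank O (S ⧸ J) := by
    rw [← range_liftQ _ ψ h1, ← (Quotient.restrictScalarsEquiv O J).rank_eq]
    exact rank_range_le _
  have h3 : ((V ⊔ span S {w}).restrictScalars O).map φ ≤ comap P.mkQ (LinearMap.range ψ) := by
    rintro _ ⟨x, hx, rfl⟩
    obtain ⟨b, hb, c, hc, rfl⟩ := mem_sup.1 (show x ∈ V ⊔ span S {w} from hx)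
    obtain ⟨d, rfl⟩ := mem_span_singleton.1 hc
    refine ⟨d, ?_⟩
    have : P.mkQ (φ b) = 0 := (Quotient.mk_eq_zero P).2 (mem_map_of_mem hb)
    rw [hψ, map_add, map_add, this, zero_add]
  have h4 := LinearMap.lift_rank_comap_le (f := P.mkQ) (LinearMap.range ψ)
  simp only [Cardinal.lift_id] at h4
  rw [ker_mkQ] at h4
  calc rho φ (V ⊔ span S {w}) ≤ _ := Submodule.rank_mono h3
    _ ≤ _ := h4
    _ ≤ Module.rank O (S ⧸ J) + rho φ V := add_le_add h2 le_rfl
    _ = _ := add_comm _ _

lemma steps (φ : M →ₗ[O] N) (I J : Ideal S) (μ : S) (hI : ∀ a ∈ I, ∀ w : M, φ (a • w) = 0)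
    (hJ : J ≤ I ⊔ span S {μ}) (V : Submodule S M) (E : Finset M) (hw : ∀ w ∈ E, μ • w ∈ V) :
    rho φ (V ⊔ span S (E : Set M)) ≤ rho φ V + E.card * Module.rank O (S ⧸ J) := by
  induction E using Finset.induction_on with
  | empty => simp
  | insert w E hE ih =>
    have h1 := ih fun w' hw' => hw w' (Finset.mem_insert_of_mem hw')
    have h2 := step φ I J μ hI hJ (V ⊔ span S (E : Set M)) w
      (mem_sup_left (hw w (Finset.mem_insert_self _ _)))
    rw [Finset.coe_insert, span_insert, sup_comm (span S {w}), ← sup_assoc,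
      Finset.card_insert_of_notMem hE, Nat.cast_add, Nat.cast_one, add_mul, one_mul, ← add_assoc]
    exact h2.trans (add_le_add h1 le_rfl)

lemma steps_range (φ : M →ₗ[O] N) (I J : Ideal S) (μ : S) (hI : ∀ a ∈ I, ∀ w : M, φ (a • w) = 0)
    (hJ : J ≤ I ⊔ span S {μ}) (V : Submodule S M) {κ : Type} [Fintype κ] (x : κ → M)
    (hw : ∀ k, μ • x k ∈ V) :
    rho φ (V ⊔ span S (Set.range x)) ≤ rho φ V + Fintype.card κ * Module.rank O (S ⧸ J) := by
  have h := steps φ I J μ hI hJ V (Finset.univ.image x) fun w hw' => by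
    obtain ⟨k, -, rfl⟩ := Finset.mem_image.1 hw'
    exact hw k
  rw [Finset.coe_image, Finset.coe_univ, Set.image_univ] at h
  refine h.trans (add_le_add le_rfl (mul_le_mul_left ?_ _))
  exact_mod_cast Finset.card_image_le

lemma top_ge {ι : Type} [Fintype ι] (e : Basis ι S M) (φ : M →ₗ[O] N) (I : Ideal S)
    (hφ : ∀ x, φ x = 0 ↔ ∀ i, e.repr x i ∈ I) :
    ((Fintype.card ι * finrank O (S ⧸ I) : ℕ) : Cardinal) ≤ rho φ (⊤ : Submodule S M) := by
  let θ : M →ₗ[O] (ι → S ⧸ I) :=
    LinearMap.pi fun i => (I.mkQ ∘ₗ e.coord i).restrictScalars O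
  have hθ : ∀ x i, θ x i = I.mkQ (e.repr x i) := fun _ _ => rfl
  have h1 : Function.Surjective θ := by
    intro y
    choose s hs using fun i => I.mkQ_surjective (y i)
    refine ⟨e.equivFun.symm s, funext fun i => ?_⟩
    rw [hθ, ← hs, ← e.equivFun_apply, LinearEquiv.apply_symm_apply]
  have h2 : LinearMap.ker φ = LinearMap.ker θ := by
    ext x
    rw [LinearMap.mem_ker, LinearMap.mem_ker, hφ, funext_iff]
    exact forall_congr' fun i => by rw [hθ]; exact (Quotient.mk_eq_zero I).symm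
  obtain ⟨b, hb⟩ := exists_linearIndependent_of_le_finrank (R := O) (M := S ⧸ I) le_rfl
  have h3 := (Pi.linearIndependent_single (R := O) (Ms := fun _ : ι => S ⧸ I)
    (fun _ : ι => b) fun _ => hb).cardinal_le_rank
  unfold rho
  rw [restrictScalars_top, Submodule.map_top, ← φ.quotKerEquivRange.rank_eq,
    (quotEquivOfEq _ _ h2).rank_eq, (θ.quotKerEquivOfSurjective h1).rank_eq]
  simpa using h3

lemma arith (r d t z k g : ℕ) (h5 : (z + k) * d ≤ r + k * d + (z + k) * t)
    (h6 : r ≤ z * d + g * t) : |(r : ℝ) - z * d| ≤ ((g + (z + k) : ℕ) : ℝ) * t := by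
  have v5 : ((z : ℝ) + k) * d ≤ r + k * d + (z + k) * t := by exact_mod_cast h5
  have v6 : (r : ℝ) ≤ z * d + g * t := by exact_mod_cast h6
  have p1 : (0 : ℝ) ≤ g * t := by positivity
  have p2 : (0 : ℝ) ≤ (z + k) * t := by positivity
  push_cast
  rw [abs_le]
  constructor <;> linarith

end RK

theorem rk_stmt (h : RnStmt) : RkStmt := by
  intro S O _ _ _ _ _ _ M _ _ _ _ ι _ e W
  obtain ⟨-, h2, h3, h4⟩ := h S
  have : Module.Finite S M := Module.Finite.of_basis e
  obtain ⟨x, hx⟩ := h3 W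
  obtain ⟨E, hE⟩ : (⊤ : Submodule S W).FG := Module.Finite.fg_top
  obtain ⟨y0, -, hy0⟩ := h2 W _ x hx
  obtain ⟨μ1, hμ1, hE1⟩ := hy0 E
  have hx' : LinearIndependent S (W.subtype ∘ x) := hx.map' _ W.ker_subtype
  obtain ⟨y, hz, hy⟩ := h2 M _ _ hx'
  obtain ⟨μ2, hμ2, hE2⟩ := hy (Finset.univ.image e)
  obtain ⟨a, b, hab, hne⟩ := h4 μ1 μ2 hμ1 hμ2
  refine ⟨a * μ1, E.card + Fintype.card ι, hne, fun I hI hfin N _ _ φ hφ => ?_⟩
  have hI' : ∀ c ∈ I, ∀ w : M, φ (c • w) = 0 := fun c hc w => (hφ _).2 fun i => by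
    rw [map_smul, Finsupp.smul_apply, smul_eq_mul]
    exact hI c hc _
  set X := span S (Set.range (W.subtype ∘ x)) with hX
  have hXW : X ≤ W := span_le.2 (by rintro _ ⟨i, rfl⟩; exact (x i).2)
  have fin2 : Module.Finite O (S ⧸ (I ⊔ span S {a * μ1})) :=
    Module.Finite.of_surjective
      ((factor (le_sup_left : I ≤ I ⊔ span S {a * μ1})).restrictScalars O) (factor_surjective le_sup_left)
  have u1 : RK.rho φ X ≤ finrank S W * Module.rank O (S ⧸ I) := by
    have := RK.steps_range φ I I 0 hI' le_sup_left ⊥ (W.subtype ∘ x) fun k => by simp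
    rwa [bot_sup_eq, RK.rho_bot, zero_add, Fintype.card_fin] at this
  have u2 : RK.rho φ W ≤ RK.rho φ X + E.card * Module.rank O (S ⧸ (I ⊔ span S {a * μ1})) := by
    have := RK.steps_range φ I (I ⊔ span S {a * μ1}) (a * μ1) hI' le_rfl X
      (fun k : E => ((k : W) : M)) fun k => by
        have h5 := hE1 k k.2
        have h6 : Set.range y0 = ∅ := by
          have : IsEmpty (Fin (finrank S W - finrank S W)) := by
            rw [Nat.sub_self]; infer_instance
          exact Set.range_eq_empty _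
        rw [h6, span_empty, sup_bot_eq] at h5
        have h7 := mem_map_of_mem (f := W.subtype) h5
        rw [map_span, ← Set.range_comp] at h7
        rw [mul_smul]
        exact X.smul_mem a h7
    rw [Fintype.card_coe] at this
    refine (RK.rho_mono φ fun w hw => mem_sup_right ?_).trans this
    have h7 := mem_map_of_mem (f := W.subtype) (show (⟨w, hw⟩ : W) ∈ span S (E : Set W) from
      hE ▸ mem_top)
    rw [map_span] at h7
    refine span_mono ?_ h7
    rintro _ ⟨k, hk, rfl⟩
    exact ⟨⟨k, hk⟩, rfl⟩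
  have u3 : RK.rho φ (W ⊔ span S (Set.range y)) ≤
      RK.rho φ W + (finrank S M - finrank S W : ℕ) * Module.rank O (S ⧸ I) := by
    have := RK.steps_range φ I I 0 hI' le_sup_left W y fun k => by simp
    rwa [Fintype.card_fin] at this
  have u4 : RK.rho φ (⊤ : Submodule S M) ≤ RK.rho φ (W ⊔ span S (Set.range y)) +
      Fintype.card ι * Module.rank O (S ⧸ (I ⊔ span S {a * μ1})) := by
    have := RK.steps_range φ I (I ⊔ span S {a * μ1}) (a * μ1) hI' le_rfl
      (W ⊔ span S (Set.range y)) e fun k => by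
        rw [hab, mul_smul]
        exact smul_mem _ b (sup_le_sup_right hXW _
          (hE2 _ (Finset.mem_image_of_mem _ (Finset.mem_univ k))))
    rwa [e.span_eq, sup_top_eq] at this
  have u5 := (RK.top_ge e φ I hφ).trans (u4.trans (add_le_add u3 le_rfl))
  have u6 := u2.trans (add_le_add u1 le_rfl)
  rw [← Module.finrank_eq_rank O (S ⧸ I), ← Module.finrank_eq_rank O (S ⧸ (I ⊔ _))] at u5 u6
  have u7 : RK.rho φ W = (finrank O ((W.restrictScalars O).map φ) : ℕ) := by
    refine (Cardinal.cast_toNat_of_lt_aleph0 (u6.trans_lt ?_)).symm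
    exact_mod_cast Cardinal.natCast_lt_aleph0
  rw [u7] at u5 u6
  rw [finrank_eq_card_basis e] at hz u5
  obtain ⟨k, hk⟩ := Nat.exists_eq_add_of_le hz
  rw [hk, Nat.add_sub_cancel_left] at u5
  rw [hk]
  exact RK.arith _ _ _ _ _ _ (by exact_mod_cast u5) (by exact_mod_cast u6)

end Pool.Agent.MP_54e5d7_al.atl

end
end MrgPart1

-- ======== part 2: formerly Pool.Agent.MP_54e5d7_al.atl.IW1b
section MrgPart2

/-!
Project ATL: filtration calculus at a finite level of a tower.
-/

set_option autoImplicit false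

open Classical Module

noncomputable section
namespace Pool.Agent.MP_54e5d7_al.atl

namespace Iw1b

lemma perm_rep {X : Type} : ∀ (D : ℕ) (h : Fin D → X) (α β : Fin D → ℕ),
    ((List.ofFn fun i => List.replicate (α i) (h i)).flatten ++
      (List.ofFn fun i => List.replicate (β i) (h i)).flatten).Perm
      (List.ofFn fun i => List.replicate ((α + β) i) (h i)).flatten := by
  intro D h α β
  induction D with
  | zero => simp
  | succ D ih =>
    simp only [List.ofFn_succ, List.flatten_cons, Pi.add_apply, List.replicate_add]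
    have := ih (fun i => h i.succ) (fun i => α i.succ) (fun i => β i.succ)
    simp only [Pi.add_apply, List.replicate_add] at this
    rw [List.append_assoc, List.append_assoc]
    refine List.Perm.append_left _ ?_
    refine List.Perm.trans ?_ (List.Perm.append_left _ this)
    rw [← List.append_assoc, ← List.append_assoc]
    exact List.Perm.append_right _ List.perm_append_comm

lemma bm_eq (O : Type) [CommRing O] {X : Type} [Group X] {D : ℕ} (h : Fin D → X) (α : Fin D → ℕ) :
    bm O h α = ((List.ofFn fun i => List.replicate (α i) (h i)).flatten.map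
      fun g => MonoidAlgebra.of O X g - 1).prod := by
  rw [bm, List.map_flatten, List.prod_flatten, List.map_ofFn, List.map_ofFn]
  congr 2
  funext i
  simp

lemma bm_single (O : Type) [CommRing O] {X : Type} [Group X] {D : ℕ} (h : Fin D → X) (i : Fin D) :
    bm O h (Pi.single i 1) = MonoidAlgebra.of O X (h i) - 1 := by
  rw [bm]
  induction D with
  | zero => exact i.elim0
  | succ D ih =>
    rw [List.ofFn_succ, List.prod_cons]
    refine Fin.cases ?_ (fun i => ?_) i
    · simp
    · rw [← ih (fun l => h l.succ) i]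
      simp [Pi.single_apply]

end Iw1b

open Iw1b in
theorem iw1b (h0 : Iw0Stmt) : Iw1Stmt := by
  intro G _ p D T O _ π hπ j
  obtain ⟨a1, a2, a3, a4, a5, a6, -⟩ := h0 O π (T.Q j) (T.K j)
  set J := Jm π (T.K j) with hJ
  set o := MonoidAlgebra.of O (T.Q j) with ho
  have anti : ∀ {m m' x}, m ≤ m' → x ∈ J m' → x ∈ J m := fun {m m' x} h => by
    induction h with
    | refl => exact id
    | step _ ih => exact fun hx => ih (a1 _ hx)
  have of0 : ∀ g ∈ T.K j, o g ∈ J 0 := fun g hg => (a4 _).2 fun q hq => by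
    rw [ho, MonoidAlgebra.of_apply, MonoidAlgebra.coeff_single, Finsupp.single_apply_ne_zero] at hq
    rw [hq.1]; exact hg
  have one0 : (1 : MonoidAlgebra O (T.Q j)) ∈ J 0 := by simpa using of0 1 (one_mem _)
  have hmul : ∀ x y : T.Q j, o (x * y) - 1 = (o x - 1) * (o y - 1) + (o x - 1) + (o y - 1) :=
    fun x y => by rw [map_mul]; noncomm_ring
  have hpw : ∀ {m x} (k : ℕ), x ∈ J m → x ^ k ∈ J (k * m) := fun {m x} k hx => by
    induction k with
    | zero => simpa using one0
    | succ k ih => rw [pow_succ, add_mul, one_mul]; exact a2 _ _ _ _ ih hx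
  have hsm : ∀ {m x} (k : ℕ), x ∈ J m → π ^ k • x ∈ J (m + k) := fun {m x} k hx => by
    induction k with
    | zero => simpa using hx
    | succ k ih => rw [pow_succ', mul_smul]; exact a3 _ _ ih
  let S : ℕ → Submonoid (T.Q j) := fun m =>
    { carrier := {x | o x - 1 ∈ J m}
      one_mem' := by simp
      mul_mem' := fun {x y} hx hy => by
        show o (x * y) - 1 ∈ J m
        rw [hmul]
        exact add_mem (add_mem (anti (Nat.le_add_right _ _) (a2 _ _ _ _ hx hy)) hx) hy }
  have hp1 : ∀ m x, x ∈ S (m + 1) → x ^ p ∈ S (m + 2) := by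
    intro m x hx
    show o (x ^ p) - 1 ∈ J (m + 2)
    have h1 := (Commute.one_right (o x - 1)).add_pow_prime_eq' T.prime
    rw [sub_add_cancel, one_pow] at h1
    rw [map_pow, h1, add_right_comm, add_sub_cancel_right]
    have h2 := T.prime.two_le
    refine add_mem (anti (by nlinarith) (hpw p hx)) ?_
    obtain ⟨c, hc⟩ := hπ
    rw [← map_natCast (algebraMap O _), ← Algebra.smul_def, hc, mul_smul]
    refine a3 _ _ (Submodule.smul_mem _ _ (Submodule.sum_mem _ fun k hk => ?_))
    rw [one_pow, mul_one, ← Nat.cast_comm, ← nsmul_eq_mul]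
    exact nsmul_mem (anti (by nlinarith [(Finset.mem_Ioo.1 hk).1]) (hpw k hx)) _
  have hp2 : ∀ i l, T.hb j l ^ p ^ i ∈ S (i + 1) := fun i l => by
    induction i with
    | zero => rw [pow_zero, pow_one]; exact a5 _ (T.hb_mem j l)
    | succ i ih => rw [pow_succ, pow_mul]; exact hp1 _ _ ih
  have hdec : ∀ (N : Submonoid (T.Q j)) (i : ℕ) (g : G), g ∈ T.H i →
      (∀ l, T.hb j l ^ p ^ i ∈ N) → (∀ r ∈ T.H (i + 1), T.qm j r ∈ N) → T.qm j g ∈ N := by
    intro N i g hg h1 h2
    obtain ⟨a, ha⟩ := T.span i g hg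
    have h3 := h2 _ (inv_mem ha)
    have h4 : T.qm j (List.ofFn fun l => T.h l ^ (p ^ i * a l)).prod ∈ N := by
      rw [map_list_prod, List.map_ofFn]
      refine list_prod_mem fun y hy => ?_
      obtain ⟨l, rfl⟩ := (List.mem_ofFn' _ _).1 hy
      rw [Function.comp_apply, map_pow, pow_mul]
      exact pow_mem (h1 l) _
    have := mul_mem h4 h3
    rwa [← map_mul, mul_inv_rev, mul_inv_cancel_left, inv_inv] at this
  have c1 : ∀ i g, g ∈ T.H i → o (T.qm j g) - 1 ∈ J (i + 1) := by
    have : ∀ e i g, j ≤ i + e → g ∈ T.H i → o (T.qm j g) - 1 ∈ J (i + 1) := by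
      intro e
      induction e with
      | zero =>
        intro i g h hg
        rw [T.qm_eq_one.2 (T.le h hg), map_one, sub_self]; exact zero_mem _
      | succ e ih =>
        intro i g h hg
        exact hdec (S (i + 1)) i g hg (hp2 i) fun r hr =>
          a1 _ (ih (i + 1) r (by omega) hr)
    exact fun i g => this j i g (Nat.le_add_left _ _)
  have hw : ∀ l : List (T.Q j), (∀ g ∈ l, g ∈ T.K j) →
      (l.map fun g => o g - 1).prod ∈ J l.length := fun l hl =>
    Submodule.subset_span ⟨0, l, hl, by simp, by simp [ho]⟩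
  have hperm : ∀ l l' : List (T.Q j), l.Perm l' → (∀ g ∈ l, g ∈ T.K j) →
      (l.map fun g => o g - 1).prod - (l'.map fun g => o g - 1).prod ∈ J (l.length + 1) := by
    intro l l' h
    induction h with
    | nil => intro _; simp
    | cons x _ ih =>
      intro hl
      simp only [List.map_cons, List.prod_cons, List.length_cons, ← mul_sub]
      exact anti (by omega) (a2 _ _ _ _ (a5 x (hl x (by simp)))
        (ih fun g hg => hl g (by simp [hg])))
    | swap x y l =>
      intro hl
      simp only [List.map_cons, List.prod_cons, List.length_cons, ← mul_assoc, ← sub_mul]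
      have hx := hl x (by simp)
      have hy := hl y (by simp)
      obtain ⟨x, rfl⟩ := T.qm_surj j x
      obtain ⟨y, rfl⟩ := T.qm_surj j y
      have h1 := a2 _ _ _ _ (c1 2 _ (T.comm_mem 0 y x (T.qm_mem_K.1 hy) (T.qm_mem_K.1 hx)))
        (of0 _ (mul_mem hx hy))
      have h2 : (o (T.qm j (y * x * y⁻¹ * x⁻¹)) - 1) * o (T.qm j x * T.qm j y) =
          (o (T.qm j y) - 1) * (o (T.qm j x) - 1) - (o (T.qm j x) - 1) * (o (T.qm j y) - 1) := by
        rw [sub_mul, ← map_mul, ← map_mul, ← map_mul,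
          show y * x * y⁻¹ * x⁻¹ * (x * y) = y * x by group]
        simp only [map_mul]; noncomm_ring
      rw [h2] at h1
      exact anti (by omega) (a2 _ _ _ _ h1 (hw l fun g hg => hl g (by simp [hg])))
    | trans h1 _ ih1 ih2 =>
      intro hl
      have := add_mem (ih1 hl) (h1.length_eq ▸ ih2 fun g hg => hl g (h1.mem_iff.2 hg))
      rwa [sub_add_sub_cancel] at this
  have c2 : ∀ α β : Fin D → ℕ, bm O (T.hb j) α * bm O (T.hb j) β - bm O (T.hb j) (α + β) ∈
      J (∑ i, α i + ∑ i, β i + 1) := by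
    intro α β
    have := hperm _ _ (perm_rep D (T.hb j) α β) (by
      intro g hg
      simp only [List.mem_append, List.mem_flatten, List.mem_ofFn] at hg
      rcases hg with ⟨_, ⟨i, rfl⟩, hg⟩ | ⟨_, ⟨i, rfl⟩, hg⟩ <;>
        exact List.eq_of_mem_replicate hg ▸ T.hb_mem j i)
    rw [List.map_append, List.prod_append, ← bm_eq, ← bm_eq, ← bm_eq] at this
    simpa [List.length_flatten, List.map_ofFn, List.sum_ofFn, Function.comp_def] using this
  refine ⟨c1, c2, fun m x hx => ?_, fun i hij x hx h0 => ?_⟩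
  · let N : ℕ → Submodule O (MonoidAlgebra O (T.Q j)) := fun n =>
      Submodule.span O ((J (n + 1) : Set _) ∪ {y | ∃ α : Fin D → ℕ, ∑ i, α i = n ∧
        y = bm O (T.hb j) α})
    have n1 : ∀ {n y}, y ∈ J (n + 1) → y ∈ N n := fun h => Submodule.subset_span (Or.inl h)
    have n2 : ∀ {n y}, y ∈ N n → y ∈ J n := fun {n y} h => by
      refine Submodule.span_le.2 ?_ h
      rintro _ (h | ⟨α, rfl, rfl⟩)
      · exact a1 _ h
      · exact a6 D _ (T.hb_mem j) α
    have n3 : ∀ {n n' y z}, y ∈ N n → z ∈ N n' → y * z ∈ N (n + n') := fun {n n' y z} hy hz => by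
      have := Submodule.mul_mem_mul hy hz
      rw [Submodule.span_mul_span] at this
      refine Submodule.span_le.2 ?_ this
      rintro _ ⟨y, hy, z, hz, rfl⟩
      rcases hy with hy | ⟨α, rfl, rfl⟩
      · exact n1 (anti (by omega) (a2 _ _ _ _ hy (n2 (Submodule.subset_span hz))))
      rcases hz with hz | ⟨β, rfl, rfl⟩
      · exact n1 (anti (by omega) (a2 _ _ _ _ (a6 D _ (T.hb_mem j) α) hz))
      have := add_mem (n1 (c2 α β)) (Submodule.subset_span (R := O)
        (Or.inr ⟨α + β, by simp [Finset.sum_add_distrib], rfl⟩))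
      rwa [sub_add_cancel] at this
    have n4 : ∀ g ∈ T.K j, o g - 1 ∈ N 1 := by
      intro g hg
      obtain ⟨g, rfl⟩ := T.qm_surj j g
      refine hdec { carrier := {x | o x - 1 ∈ N 1}
                    one_mem' := by simp
                    mul_mem' := fun {x y} hx hy => by
                      show o (x * y) - 1 ∈ N 1
                      rw [hmul]
                      exact add_mem (add_mem (n1 (a2 _ _ _ _ (n2 hx) (n2 hy))) hx) hy }
        0 g (T.qm_mem_K.1 hg) (fun l => ?_) fun r hr => n1 (c1 1 r hr)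
      show o _ - 1 ∈ N 1
      rw [pow_zero, pow_one, ← bm_single]
      exact Submodule.subset_span (Or.inr ⟨_, by simp, rfl⟩)
    have n5 : ∀ l : List (T.Q j), (∀ g ∈ l, g ∈ T.K j) →
        (l.map fun g => o g - 1).prod ∈ N l.length := by
      intro l
      induction l with
      | nil => exact fun _ => Submodule.subset_span (Or.inr ⟨0, by simp, by simp [bm]⟩)
      | cons g l ih =>
        intro hl
        rw [List.map_cons, List.prod_cons, List.length_cons, add_comm]
        exact n3 (n4 g (hl g (by simp))) (ih fun g hg => hl g (by simp [hg]))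
    set s := (Fintype.piFinset fun _ : Fin D => Finset.range (m + 1)).filter
      (fun α => ∑ i, α i ≤ m) with hs
    have key : J m ≤ J (m + 1) ⊔ Submodule.span O
        ((fun α : Fin D → ℕ => π ^ (m - ∑ i, α i) • bm O (T.hb j) α) '' s) := by
      refine Submodule.span_le.2 ?_
      rintro _ ⟨a, l, hl, hm, rfl⟩
      rcases hm.lt_or_eq with hm | rfl
      · exact Submodule.mem_sup_left (Submodule.subset_span ⟨a, l, hl, hm, rfl⟩)
      refine Submodule.mem_comap.1 ((Submodule.span_le.2 ?_ : N l.length ≤ Submodule.comap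
        (LinearMap.lsmul O _ (π ^ a)) (J (a + l.length + 1) ⊔ Submodule.span O
        ((fun α : Fin D → ℕ => π ^ (a + l.length - ∑ i, α i) • bm O (T.hb j) α) '' s))) (n5 l hl))
      rintro y (hy | ⟨α, hα, rfl⟩)
      · exact Submodule.mem_sup_left (anti (by omega) (hsm a hy))
      · refine Submodule.mem_sup_right (Submodule.subset_span ⟨α, ?_, by simp [hα]⟩)
        simp only [hs, Finset.coe_filter, Fintype.mem_piFinset, Finset.mem_range, Set.mem_setOf_eq]
        refine ⟨fun i => ?_, by omega⟩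
        have := Finset.single_le_sum (f := α) (fun _ _ => Nat.zero_le _) (Finset.mem_univ i)
        omega
    obtain ⟨y, hy, z, hz, rfl⟩ := Submodule.mem_sup.1 (key hx)
    obtain ⟨c, rfl⟩ := (Submodule.mem_span_image_finset_iff_exists_fun' O).1 hz
    exact ⟨c, by simpa [smul_smul] using hy⟩
  · have e1 : x = ∑ q, x.coeff q • o q := by
      ext q
      simp [ho]
    have e2 : ∑ q, x.coeff q • o (T.qm j (T.tr hij q).out) = 0 := by
      have := congrArg (MonoidAlgebra.mapDomainLinearMap O O fun y : T.Q i => T.qm j y.out) h0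
      rw [e1, map_sum, map_sum, map_zero] at this
      rw [← this]
      refine Finset.sum_congr rfl fun q _ => ?_
      simp [ho, MonoidAlgebra.mapDomainAlgHom_apply]
    rw [e1, ← sub_zero (∑ q, _), ← e2, ← Finset.sum_sub_distrib]
    refine Submodule.sum_mem _ fun q _ => ?_
    rw [← smul_sub]
    by_cases hq : x.coeff q = 0
    · rw [hq, zero_smul]; exact zero_mem _
    refine Submodule.smul_mem _ _ ?_
    have hK := (a4 x).1 hx q hq
    obtain ⟨g, rfl⟩ := T.qm_surj j q
    set g' := (T.tr hij (T.qm j g)).out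
    have h1 : g'⁻¹ * g ∈ T.H i := by
      rw [← T.qm_eq_one, map_mul, map_inv, T.qm_out, T.tr_qm, inv_mul_cancel]
    have h2 : g' ∈ T.H 0 := by
      have := mul_mem (T.qm_mem_K.1 hK) (inv_mem (T.le (Nat.zero_le i) h1))
      simpa using this
    have h3 := a2 _ _ _ _ (of0 _ (T.qm_mem_K.2 h2)) (c1 i _ h1)
    rwa [mul_sub, ← map_mul, ← map_mul, mul_inv_cancel_left, mul_one, zero_add] at h3

end Pool.Agent.MP_54e5d7_al.atl

end
end MrgPart2

-- ======== part 3: formerly Pool.Agent.MP_54e5d7_al.atl.IWB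
section MrgPart3

/-!
Project ATL: basic structure of the completed group ring over the Iwasawa algebra.
-/

set_option autoImplicit false

open Classical Module

noncomputable section
namespace Pool.Agent.MP_54e5d7_al.atl

namespace Tower
variable {G : Type} [Group G] {p D : ℕ} (T : Tower G p D) (O : Type) [CommRing O]

/-- A lift of an element of a finite level to the completed group ring. -/
def iwLift (j : ℕ) (y : MonoidAlgebra O (T.Q j)) : T.Lam O :=
  ∑ q, y.coeff q • T.iota O q.out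

lemma lam_iwLift (j : ℕ) (y : MonoidAlgebra O (T.Q j)) : T.lam O j (T.iwLift O j y) = y := by
  simp only [iwLift, map_sum, map_smul, lam_iota, qm_out, MonoidAlgebra.of_apply,
    MonoidAlgebra.smul_single, smul_eq_mul, mul_one]
  conv_rhs => rw [← y.sum_coeff_single]
  rw [Finsupp.sum_fintype]
  intro q
  simp

lemma iwLift_mem (j : ℕ) (y : MonoidAlgebra O (T.Q j)) (hy : ∀ q, y.coeff q ≠ 0 → q ∈ T.K j) :
    T.iwLift O j y ∈ T.Sx O 1 := by
  refine Submodule.sum_mem _ fun q _ => ?_
  by_cases h : y.coeff q = 0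
  · rw [h, zero_smul]; exact Submodule.zero_mem _
  · refine Submodule.smul_mem _ _ ?_
    have h1 : T.qm j q.out ∈ T.K j := by rw [qm_out]; exact hy q h
    have h2 := T.iota_mem_Sx O q.out
    rwa [T.qm_eq_one.2 (T.qm_mem_K.1 h1)] at h2

lemma pr_surj (j : ℕ) : Function.Surjective (T.pr j) := fun q => by
  obtain ⟨g, rfl⟩ := T.qm_surj 0 q
  exact ⟨T.qm j g, rfl⟩

lemma card_K (j : ℕ) : Nat.card (T.K j) = p ^ (D * j) := by
  have h1 := (T.K j).card_mul_index
  have h2 : (T.K j).index = (T.H 0).index := by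
    rw [K, Subgroup.index_ker, MonoidHom.range_eq_top.2 (T.pr_surj j), Subgroup.card_top]
    rfl
  have h3 : Nat.card (T.Q j) = (T.H 0).index * p ^ (D * j) := T.idx j
  rw [h2, h3, mul_comm] at h1
  exact Nat.eq_of_mul_eq_mul_left (Nat.pos_of_ne_zero T.fin.index_ne_zero) h1

lemma range_lamS (j : ℕ) : LinearMap.range (T.lamS O j).toLinearMap =
    MonoidAlgebra.supported O O (T.K j : Set (T.Q j)) := by
  ext y
  rw [MonoidAlgebra.mem_supported', LinearMap.mem_range]
  constructor
  · rintro ⟨x, rfl⟩ q hq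
    by_contra h
    exact hq (T.val_mem x j q h)
  · intro h
    refine ⟨T.mkS _ (T.iwLift_mem O j y fun q hq => ?_), T.lam_iwLift O j y⟩
    by_contra hc
    exact hq (h q hc)

/-- The level `j` quotient of the Iwasawa algebra is free on the image of `H 0`. -/
def quotEquiv (j : ℕ) : (T.S O ⧸ T.I O j) ≃ₗ[O] ((T.K j : Set (T.Q j)) →₀ O) :=
  (Submodule.Quotient.restrictScalarsEquiv O (T.I O j)).symm ≪≫ₗ
    (Submodule.quotEquivOfEq _ (LinearMap.ker (T.lamS O j).toLinearMap)
      (by ext x; exact T.mem_I O)) ≪≫ₗ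
    (T.lamS O j).toLinearMap.quotKerEquivRange ≪≫ₗ
    LinearEquiv.ofEq _ _ (T.range_lamS O j) ≪≫ₗ
    MonoidAlgebra.supportedEquivFinsupp _

/-- The part of an element of level `j` that lies over `x`. -/
def fl (j : ℕ) (x : T.Q 0) (y : MonoidAlgebra O (T.Q j)) : MonoidAlgebra O (T.Q j) :=
  .ofCoeff (y.coeff.filter fun a => T.pr j a = x)

lemma coeff_fl (j : ℕ) (x : T.Q 0) (y : MonoidAlgebra O (T.Q j)) (a : T.Q j) :
    (T.fl O j x y).coeff a = if T.pr j a = x then y.coeff a else 0 := rfl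

lemma fl_add (j : ℕ) (x : T.Q 0) (y y' : MonoidAlgebra O (T.Q j)) :
    T.fl O j x (y + y') = T.fl O j x y + T.fl O j x y' := by
  ext a
  simp only [coeff_fl, MonoidAlgebra.coeff_add, Finsupp.add_apply]
  split_ifs <;> simp

lemma fl_zero (j : ℕ) (x : T.Q 0) : T.fl O j x 0 = 0 := by
  ext a
  simp [coeff_fl]

lemma fl_single (j : ℕ) (x : T.Q 0) (a : T.Q j) (c : O) :
    T.fl O j x (MonoidAlgebra.single a c) =
      if T.pr j a = x then MonoidAlgebra.single a c else 0 := by
  ext b
  rw [coeff_fl]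
  by_cases hab : a = b
  · subst hab
    split_ifs <;> simp
  · split_ifs <;> simp [hab]

lemma map_fl {i j : ℕ} (hij : i ≤ j) (x : T.Q 0) (y : MonoidAlgebra O (T.Q j)) :
    MonoidAlgebra.mapDomainAlgHom O O (T.tr hij) (T.fl O j x y) =
      T.fl O i x (MonoidAlgebra.mapDomainAlgHom O O (T.tr hij) y) := by
  induction y using MonoidAlgebra.induction_linear with
  | zero => rw [fl_zero, map_zero, fl_zero]
  | add y y' h h' => rw [fl_add, map_add, map_add, fl_add, h, h']
  | single a c =>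
    have h : ∀ (b : T.Q j), MonoidAlgebra.mapDomainAlgHom O O (T.tr hij)
        (MonoidAlgebra.single b c) = MonoidAlgebra.single (T.tr hij b) c := fun b => by
      simp [MonoidAlgebra.mapDomainAlgHom_apply]
    rw [h, fl_single, fl_single, pr_tr]
    split_ifs
    · exact h a
    · exact map_zero _

/-- The part of an element of the completed group ring that lies over `x`. -/
def proj (x : T.Q 0) : T.Lam O →+ T.Lam O where
  toFun y := T.mkLam (fun j => T.fl O j x (T.lam O j y)) fun i j hij => by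
    rw [map_fl, map_lam]
  map_zero' := T.lam_ext fun j => by rw [lam_mkLam, map_zero, fl_zero]
  map_add' y y' := T.lam_ext fun j => by
    rw [map_add (T.lam O j), lam_mkLam, lam_mkLam, lam_mkLam, map_add, fl_add]

lemma lam_proj (j : ℕ) (x : T.Q 0) (y : T.Lam O) :
    T.lam O j (T.proj O x y) = T.fl O j x (T.lam O j y) := rfl

lemma proj_mem (x : T.Q 0) (y : T.Lam O) : T.proj O x y ∈ T.Sx O x := fun j q hq => by
  rw [lam_proj, coeff_fl] at hq
  by_contra h
  exact hq (if_neg h)

lemma sum_proj (y : T.Lam O) : ∑ x, T.proj O x y = y := T.lam_ext fun j => by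
  ext a
  simp only [map_sum, MonoidAlgebra.coeff_sum, Finsupp.finsetSum_apply, lam_proj, coeff_fl]
  simp

lemma proj_of_mem {x x' : T.Q 0} {y : T.Lam O} (hy : y ∈ T.Sx O x') :
    T.proj O x y = if x' = x then y else 0 := T.lam_ext fun j => by
  ext a
  rw [lam_proj, coeff_fl]
  by_cases h : (T.lam O j y).coeff a = 0
  · split_ifs <;> simp [h]
  · rw [hy j a h]
    split_ifs <;> simp

lemma proj_sum (y : T.Q 0 → T.Lam O) (hy : ∀ x, y x ∈ T.Sx O x) (x : T.Q 0) :
    T.proj O x (∑ x', y x') = y x := by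
  rw [map_sum]
  simp only [fun x' => T.proj_of_mem O (x := x) (hy x')]
  simp

lemma iota_out_mem (x : T.Q 0) : T.iota O x.out ∈ T.Sx O x := by
  have h := T.iota_mem_Sx O x.out
  rwa [qm_out] at h

lemma iota_out_inv_mem (x : T.Q 0) : T.iota O x.out⁻¹ ∈ T.Sx O x⁻¹ := by
  have h := T.iota_mem_Sx O x.out⁻¹
  rwa [map_inv, qm_out] at h

lemma smul_iota_mem (a : T.S O) (x : T.Q 0) : a • T.iota O x.out ∈ T.Sx O x := by
  have h := T.mul_mem_Sx O (T.val_mem a) (T.iota_out_mem O x)
  rwa [one_mul] at h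

lemma iw_li : LinearIndependent (T.S O) fun x : T.Q 0 => T.iota O x.out := by
  rw [Fintype.linearIndependent_iff]
  intro g hg x
  have h := T.proj_sum O _ (fun x => T.smul_iota_mem O (g x) x) x
  rw [hg, map_zero, S_smul] at h
  apply T.val_injective O
  have h2 : T.val O (g x) = T.val O (g x) * T.iota O x.out * T.iota O x.out⁻¹ := by
    rw [mul_assoc, ← map_mul, mul_inv_cancel, map_one, mul_one]
  rw [h2, ← h, zero_mul, map_zero]

lemma iw_sp : ⊤ ≤ Submodule.span (T.S O) (Set.range fun x : T.Q 0 => T.iota O x.out) := by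
  intro y _
  rw [← T.sum_proj O y]
  refine Submodule.sum_mem _ fun x _ => ?_
  have h1 : T.proj O x y * T.iota O x.out⁻¹ ∈ T.Sx O 1 := by
    have h := T.mul_mem_Sx O (T.proj_mem O x y) (T.iota_out_inv_mem O x)
    rwa [mul_inv_cancel] at h
  have h2 : T.proj O x y = T.mkS _ h1 • T.iota O x.out := by
    rw [S_smul, val_mkS, mul_assoc, ← map_mul, inv_mul_cancel, map_one, mul_one]
  rw [h2]
  exact Submodule.smul_mem _ _ (Submodule.subset_span ⟨x, rfl⟩)

/-- The completed group ring is free over the Iwasawa algebra. -/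
def iwBasis : Basis (T.Q 0) (T.S O) (T.Lam O) := Basis.mk (T.iw_li O) (T.iw_sp O)

lemma iwBasis_apply (x : T.Q 0) : T.iwBasis O x = T.iota O x.out := Basis.mk_apply _ _ _

lemma lam_eq_zero_iff (j : ℕ) (y : T.Lam O) :
    T.lam O j y = 0 ↔ ∀ q, (T.iwBasis O).repr y q ∈ T.I O j := by
  have hs := (T.iwBasis O).sum_repr y
  simp only [iwBasis_apply] at hs
  constructor
  · intro h q
    have h1 := T.proj_sum O _ (fun x => T.smul_iota_mem O ((T.iwBasis O).repr y x) x) q
    rw [hs, S_smul] at h1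
    have h2 : T.val O ((T.iwBasis O).repr y q) = T.proj O q y * T.iota O q.out⁻¹ := by
      rw [h1, mul_assoc, ← map_mul, mul_inv_cancel, map_one, mul_one]
    rw [mem_I, lamS_apply, h2, map_mul, lam_proj, h, fl_zero, zero_mul]
  · intro h
    rw [← hs, map_sum]
    refine Finset.sum_eq_zero fun q _ => ?_
    rw [S_smul, map_mul, ← lamS_apply, (T.mem_I O).1 (h q), zero_mul]

section Coc
variable {W : Type} [AddCommGroup W] [Module (T.Lam O) W] [Module (T.S O) W]
  [IsScalarTower (T.S O) (T.Lam O) W] {r : ℕ} (e : Basis (Fin r) (T.S O) W)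

lemma val_smul (a : T.S O) (w : W) : T.val O a • w = a • w := by
  have h := smul_assoc a (1 : T.Lam O) w
  rwa [S_smul, mul_one, one_smul] at h

/-- Matrices supported over `x` that fix the basis vector. -/
def Fixes (x : T.Q 0) (M : Matrix (Fin r) (Fin r) (T.Lam O)) : Prop :=
  (∀ i i', M i i' ∈ T.Sx O x) ∧ ∀ i, ∑ i', M i i' • e i' = e i

lemma fixes_exists (x : T.Q 0) : ∃ M, T.Fixes O e x M := by
  refine ⟨Matrix.of fun i i' => T.iota O x.out * T.val O (e.repr (T.iota O x.out⁻¹ • e i) i'),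
    fun i i' => ?_, fun i => ?_⟩
  · have h := T.mul_mem_Sx O (T.iota_out_mem O x) (T.val_mem (e.repr (T.iota O x.out⁻¹ • e i) i'))
    rwa [mul_one] at h
  · simp only [Matrix.of_apply, mul_smul, val_smul]
    rw [← Finset.smul_sum, e.sum_repr, ← mul_smul, ← map_mul, mul_inv_cancel, map_one, one_smul]

lemma fixes_unique {x : T.Q 0} {M N : Matrix (Fin r) (Fin r) (T.Lam O)} (hM : T.Fixes O e x M)
    (hN : T.Fixes O e x N) : M = N := by
  ext i i'
  have h1 : ∀ k, T.iota O x.out⁻¹ * (M i k - N i k) ∈ T.Sx O 1 := fun k => by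
    have h := T.mul_mem_Sx O (T.iota_out_inv_mem O x)
      (Submodule.sub_mem _ (hM.1 i k) (hN.1 i k))
    rwa [inv_mul_cancel] at h
  have h2 : ∑ k, T.mkS _ (h1 k) • e k = 0 := by
    simp only [← val_smul, val_mkS, mul_smul, sub_smul]
    rw [← Finset.smul_sum, Finset.sum_sub_distrib, hM.2, hN.2, sub_self, smul_zero]
  have h3 := congrArg (T.val O) (Fintype.linearIndependent_iff.1 e.linearIndependent _ h2 i')
  rw [val_mkS, map_zero] at h3
  have h4 : M i i' - N i i' = T.iota O x.out * (T.iota O x.out⁻¹ * (M i i' - N i i')) := by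
    rw [← mul_assoc, ← map_mul, mul_inv_cancel, map_one, one_mul]
  rw [← sub_eq_zero, h4, h3, mul_zero]

omit [IsScalarTower (T.S O) (T.Lam O) W] in
lemma fixes_one : T.Fixes O e 1 1 := by
  refine ⟨fun i i' => ?_, fun i => ?_⟩
  · rw [Matrix.one_apply]
    split_ifs
    · simpa using T.iota_mem_Sx O 1
    · exact Submodule.zero_mem _
  · simp [Matrix.one_apply]

omit [IsScalarTower (T.S O) (T.Lam O) W] in
lemma fixes_mul {x y : T.Q 0} {M N : Matrix (Fin r) (Fin r) (T.Lam O)} (hM : T.Fixes O e x M)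
    (hN : T.Fixes O e y N) : T.Fixes O e (x * y) (M * N) := by
  refine ⟨fun i i' => ?_, fun i => ?_⟩
  · rw [Matrix.mul_apply]
    exact Submodule.sum_mem _ fun k _ => T.mul_mem_Sx O (hM.1 i k) (hN.1 k i')
  · simp only [Matrix.mul_apply, Finset.sum_smul, mul_smul]
    rw [Finset.sum_comm]
    simp only [← Finset.smul_sum, hN.2, hM.2]

include e in
lemma exists_coc : ∃ c : T.Q 0 →* Matrix (Fin r) (Fin r) (T.Lam O),
    ∀ x i i', c x i i' ∈ T.Sx O x := by
  choose c hc using T.fixes_exists O e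
  exact ⟨⟨⟨c, T.fixes_unique O e (hc 1) (T.fixes_one O e)⟩,
    fun x y => T.fixes_unique O e (hc _) (T.fixes_mul O e (hc x) (hc y))⟩, fun x => (hc x).1⟩

end Coc

end Tower

theorem iwb : IwbStmt := by
  intro G _ p D T O _
  refine ⟨fun j y => ⟨_, T.lam_iwLift O j y⟩,
    fun j y hy => ⟨T.mkS _ (T.iwLift_mem O j y hy), T.lam_iwLift O j y⟩,
    T.card_K, fun j => ⟨Module.Finite.equiv (T.quotEquiv O j).symm, fun _ => ?_⟩,
    ⟨T.iwBasis O, T.lam_eq_zero_iff O⟩, fun W _ _ _ _ r ⟨e⟩ => T.exists_coc O e⟩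
  rw [(T.quotEquiv O j).finrank_eq, Module.finrank_finsupp_self, ← T.card_K j,
    Nat.card_eq_fintype_card]
  rfl

end Pool.Agent.MP_54e5d7_al.atl

end
end MrgPart3

-- ======== part 4: formerly Pool.Agent.MP_54e5d7_al.atl.CYC
section MrgPart4

/-!
Project ATL: a root of a fixed-point-free permutation of prime order has trace zero.
-/

set_option autoImplicit false

open Classical Module Matrix

noncomputable section
namespace Pool.Agent.MP_54e5d7_al.atl

namespace Cyc

variable {k W : Type} [Field k] [AddCommGroup W] [Module k W]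

lemma ker_le (N : End k W) (r d : ℕ) (hd : 0 < d)
    (h : ∀ y, (N ^ (r + 1)) y = 0 → ∃ z, y = (N ^ d) z) (x : W) (hx : N x = 0) :
    ∃ z, x = (N ^ (r + d)) z := by
  have key : ∀ j, j ≤ r → (∃ y, x = (N ^ j) y) → ∃ z, x = (N ^ (j + d)) z := by
    rintro j hj ⟨y, hy⟩
    obtain ⟨e, rfl⟩ := Nat.exists_eq_add_of_le hj
    obtain ⟨z, hz⟩ := h y (by
      rw [show j + e + 1 = e + 1 + j by ring, pow_add, pow_succ, End.mul_apply, End.mul_apply,
        ← hy, hx, map_zero])
    exact ⟨z, by rw [pow_add, End.mul_apply, ← hz, hy]⟩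
  have all : ∀ j, j ≤ r → ∃ y, x = (N ^ j) y := by
    intro j
    induction j with
    | zero => exact fun _ => ⟨x, by simp⟩
    | succ j ih =>
      intro hj
      obtain ⟨z, hz⟩ := key j (by omega) (ih (by omega))
      obtain ⟨e, rfl⟩ : ∃ e, d = e + 1 := ⟨d - 1, by omega⟩
      exact ⟨(N ^ e) z, by rw [hz, ← End.mul_apply, ← pow_add]; congr 2; ring⟩
  exact key r le_rfl (all r le_rfl)

lemma core [FiniteDimensional k W] (g : End k W) (n : ℕ) (h1 : (g - 1) ^ (n + 1) = 0)
    (h2 : g ^ (n + 1) = 1) (h4 : ∀ x, (g - 1) x = 0 → ∃ z, x = ((g - 1) ^ n) z) :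
    ∃ (m : ℕ) (v : Fin m → W), Fintype.card (Fin (n + 1) × Fin m) = finrank k W ∧
      LinearIndependent k fun x : Fin (n + 1) × Fin m => (g ^ x.1.val) (v x.2) := by
  set N := g - 1 with hN
  let b := finBasis k (LinearMap.ker N)
  choose v hv using fun l => h4 (b l) (b l).2
  have hb : LinearIndependent k fun l => (N ^ n) (v l) := by
    have := b.linearIndependent.map' (LinearMap.ker N).subtype (Submodule.ker_subtype _)
    simpa only [← hv, Function.comp_def, Submodule.subtype_apply] using this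
  refine ⟨_, v, ?_⟩
  set U := Submodule.span k
    (Set.range fun x : Fin (n + 1) × Fin (finrank k (LinearMap.ker N)) => (g ^ x.1.val) (v x.2))
    with hU
  have u1 : ∀ (j : ℕ) l, (g ^ j) (v l) ∈ U := fun j l =>
    Submodule.subset_span ⟨(⟨j % (n + 1), Nat.mod_lt _ n.succ_pos⟩, l), by
      simp only [← pow_eq_pow_mod j h2]⟩
  have u2 : ∀ x ∈ U, g x ∈ U := by
    intro x hx
    have : U.map g ≤ U := by
      rw [hU, Submodule.map_span_le]
      rintro _ ⟨y, rfl⟩
      rw [← End.mul_apply, ← pow_succ']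
      exact u1 _ _
    exact this ⟨x, hx, rfl⟩
  have u3 : ∀ (j : ℕ) l, (N ^ j) (v l) ∈ U := by
    intro j l
    induction j with
    | zero => simpa using u1 0 l
    | succ j ih =>
      rw [pow_succ', End.mul_apply, hN, LinearMap.sub_apply, End.one_apply]
      exact U.sub_mem (u2 _ ih) ih
  have u4 : ∀ j, j ≤ n + 1 → ∀ x, (N ^ j) x = 0 → x ∈ U := by
    intro j
    induction j with
    | zero => intro _ x hx; rw [show x = 0 by simpa using hx]; exact U.zero_mem
    | succ j ih =>
      intro hj x hx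
      obtain ⟨e, he⟩ := Nat.exists_eq_add_of_le (show j ≤ n by omega)
      let y : LinearMap.ker N := ⟨(N ^ j) x, by
        rw [LinearMap.mem_ker, ← End.mul_apply, ← pow_succ', hx]⟩
      have hy : (N ^ j) x = ∑ l, b.repr y l • (b l : W) := by
        have := congrArg (LinearMap.ker N).subtype (b.sum_repr y)
        rw [map_sum] at this
        exact this.symm
      have hm : ∑ l, b.repr y l • (N ^ e) (v l) ∈ U :=
        U.sum_mem fun l _ => U.smul_mem _ (u3 _ _)
      have := ih (by omega) (x - ∑ l, b.repr y l • (N ^ e) (v l)) (by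
        rw [map_sub, hy, map_sum, sub_eq_zero]
        refine Finset.sum_congr rfl fun l _ => ?_
        rw [map_smul, ← End.mul_apply, ← pow_add, ← he, ← hv])
      simpa using U.add_mem this hm
  have top : ⊤ ≤ U := fun x _ => u4 _ le_rfl x (by rw [h1]; rfl)
  have ind : LinearIndependent k
      fun x : Fin (n + 1) × Fin (finrank k (LinearMap.ker N)) => (N ^ x.1.val) (v x.2) := by
    rw [Fintype.linearIndependent_iff]
    intro c hc
    have : ∀ (i : ℕ) (hi : i < n + 1) l, c (⟨i, hi⟩, l) = 0 := by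
      intro i
      induction i using Nat.strong_induction_on with
      | _ i ih =>
        intro hi
        refine Fintype.linearIndependent_iff.1 hb (fun l => c (⟨i, hi⟩, l)) ?_
        have e := congrArg (N ^ (n - i)) hc
        rw [map_zero, map_sum, Fintype.sum_prod_type, Finset.sum_eq_single ⟨i, hi⟩] at e
        · rw [← e]
          refine Finset.sum_congr rfl fun l _ => ?_
          rw [map_smul, ← End.mul_apply, ← pow_add, Nat.sub_add_cancel (by omega)]
        · intro j _ hj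
          refine Finset.sum_eq_zero fun l _ => ?_
          rcases lt_or_gt_of_ne (Fin.val_ne_of_ne hj) with h | h
          · rw [ih j h j.2, zero_smul, map_zero]
          · rw [map_smul, ← End.mul_apply, ← pow_add,
              pow_eq_zero_of_le (show n + 1 ≤ n - i + j.val by simp only at h; omega) h1]
            simp
        · simp
    exact fun x => this x.1.val x.1.2 x.2
  have card : Fintype.card (Fin (n + 1) × Fin (finrank k (LinearMap.ker N))) = finrank k W :=
    le_antisymm ind.fintype_card_le_finrank (finrank_le_of_span_eq_top (top_le_iff.1 top))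
  exact ⟨card, linearIndependent_of_top_le_span_of_card_eq_finrank top card⟩

lemma geom {A : Type} [Ring A] [Algebra k A] (p : ℕ) [Fact p.Prime] [CharP k p] (g : A) :
    (∀ a : ℕ, (g - 1) ^ p ^ a = g ^ p ^ a - 1) ∧
      (g - 1) ^ (p - 1) = ∑ j ∈ Finset.range p, g ^ j := by
  have h : ∀ a : ℕ, (Polynomial.X - 1 : Polynomial k) ^ p ^ a = Polynomial.X ^ p ^ a - 1 :=
    fun a => by rw [sub_pow_char_pow, one_pow]
  refine ⟨fun a => by simpa using congrArg (Polynomial.aeval g) (h a), ?_⟩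
  have h2 : (Polynomial.X - 1 : Polynomial k) ^ (p - 1) =
      ∑ j ∈ Finset.range p, Polynomial.X ^ j := by
    refine mul_right_cancel₀ (b := Polynomial.X - 1)
      (by simpa using Polynomial.X_sub_C_ne_zero (1 : k)) ?_
    rw [geom_sum_mul, ← pow_succ, Nat.sub_add_cancel (Fact.out : p.Prime).one_le]
    simpa using h 1
  simpa using congrArg (Polynomial.aeval g) h2

lemma unity {ι : Type} [Fintype ι] [DecidableEq ι] {p : ℕ} (hp : p.Prime) (τ : Equiv.Perm ι)
    (h1 : τ ^ p = 1) (h2 : ∀ i, τ i ≠ i) :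
    ∃ u : ι → k, ∀ i, ∑ j ∈ Finset.range p, u ((τ ^ j) i) = 1 := by
  have := Fact.mk hp
  let s : Setoid ι := Equiv.Perm.SameCycle.setoid τ
  let rep : ι → ι := fun i => (Quotient.mk s i).out
  refine ⟨fun i => if rep i = i then 1 else 0, fun i => ?_⟩
  have ho : orderOf τ = p := orderOf_eq_prime h1 fun e => h2 i (by rw [e]; rfl)
  have r1 : ∀ j : ℕ, rep ((τ ^ j) i) = rep i := fun j =>
    congrArg Quotient.out (Quotient.sound (s := s)
      (Equiv.Perm.SameCycle.symm ⟨j, by rw [zpow_natCast]⟩))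
  have r2 : τ.SameCycle i (rep i) := (Quotient.exact (s := s) (Quotient.out_eq _)).symm
  obtain ⟨j, hj, e⟩ := r2.exists_pow_eq'
  have inj : ∀ a b : ℕ, a < b → b < p → (τ ^ a) i ≠ (τ ^ b) i := by
    intro a b hab hb h
    obtain ⟨d, rfl⟩ := Nat.exists_eq_add_of_lt hab
    rw [add_assoc, pow_add, Equiv.Perm.mul_apply] at h
    have h3 := ((τ ^ a).injective h).symm
    obtain ⟨m, hm⟩ := exists_pow_eq_self_of_coprime (x := τ) (n := d + 1)
      (by rw [ho]; exact (Nat.coprime_of_lt_prime (by omega) (by omega) hp).symm)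
    exact h2 i (by rw [← hm]; exact Equiv.Perm.pow_apply_eq_self_of_apply_eq_self h3 m)
  rw [ho] at hj
  rw [Finset.sum_eq_single_of_mem j (Finset.mem_range.2 hj)]
  · exact if_pos (by rw [r1, e])
  intro b hb hne
  refine if_neg fun h => ?_
  rw [r1, ← e] at h
  rcases lt_or_gt_of_ne hne with l | l
  · exact inj _ _ l hj h.symm
  · exact inj _ _ l (Finset.mem_range.1 hb) h

lemma perm_pow {R ι : Type} [CommRing R] [Fintype ι] [DecidableEq ι] (τ : Equiv.Perm ι) (j : ℕ)
    (x : ι → R) (i : ι) :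
    ((Matrix.of fun i j => if τ i = j then (1 : R) else 0) ^ j *ᵥ x) i = x ((τ ^ j) i) := by
  induction j generalizing i with
  | zero => simp
  | succ j ih =>
    rw [pow_succ', ← mulVec_mulVec, pow_succ, Equiv.Perm.mul_apply, ← ih]
    simp [mulVec, dotProduct]

lemma field_case {ι : Type} [Fintype ι] [DecidableEq ι] {p : ℕ} (hp : p.Prime) [CharP k p]
    (M : Matrix ι ι k) (a n : ℕ) (hn : p ^ (a + 1) = n + 1) (τ : Equiv.Perm ι) (h1 : τ ^ p = 1)
    (h2 : ∀ i, τ i ≠ i) (hM : M ^ p ^ a = Matrix.of fun i j => if τ i = j then 1 else 0)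
    (hq : M ^ (n + 1) = 1) :
    ∃ (m : ℕ) (v : Fin m → ι → k), Fintype.card (Fin (n + 1) × Fin m) = Fintype.card ι ∧
      LinearIndependent k fun x : Fin (n + 1) × Fin m => M ^ x.1.val *ᵥ v x.2 := by
  have := Fact.mk hp
  let g : End k (ι → k) := Matrix.toLinAlgEquiv' M
  have gp : ∀ (j : ℕ) x, (g ^ j) x = M ^ j *ᵥ x := fun j x => by
    rw [← map_pow, Matrix.toLinAlgEquiv'_apply]
  have g1 : g ^ (n + 1) = 1 := by rw [← map_pow, hq, map_one]
  obtain ⟨r, hr⟩ : ∃ r, p ^ a = r + 1 := ⟨p ^ a - 1, by have := pow_pos hp.pos a; omega⟩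
  have hd : n = r + p ^ a * (p - 1) := by
    obtain ⟨t, rfl⟩ : ∃ t, p = t + 1 := ⟨p - 1, by have := hp.pos; omega⟩
    rw [pow_succ, hr] at hn
    rw [hr, Nat.add_sub_cancel]
    nlinarith
  obtain ⟨u, hu⟩ := unity (k := k) hp τ h1 h2
  obtain ⟨m, v, c1, c2⟩ := core g n (by rw [← hn, (geom (k := k) p g).1, hn, g1, sub_self]) g1 (by
    rw [hd]
    refine ker_le (g - 1) r _ (Nat.mul_pos (pow_pos hp.pos a) (by have := hp.two_le; omega))
      fun y hy => ⟨fun i => y i * u i, ?_⟩
    rw [← hr, (geom (k := k) p g).1, LinearMap.sub_apply, sub_eq_zero, gp, hM, End.one_apply] at hy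
    have y1 : ∀ i, y (τ i) = y i := fun i => by
      have := perm_pow τ 1 y i
      rw [pow_one, pow_one, hy] at this
      exact this.symm
    have y2 : ∀ (j : ℕ) i, y ((τ ^ j) i) = y i := by
      intro j i
      induction j with
      | zero => rfl
      | succ j ih => rw [pow_succ', Equiv.Perm.mul_apply, y1, ih]
    rw [pow_mul, (geom (k := k) p g).1, (geom (k := k) p _).2, LinearMap.sum_apply]
    funext i
    rw [Finset.sum_apply]
    simp only [← pow_mul, gp]
    simp only [pow_mul, hM, perm_pow, y2]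
    rw [← Finset.mul_sum, hu, mul_one])
  exact ⟨m, v, by rw [c1, finrank_fintype_fun_eq_card], by simpa only [gp] using c2⟩

end Cyc

open Cyc in
theorem cyc : CycStmt := by
  intro O _ _ p π hp hc ι _ _ M a τ h1 h2 hM
  have := hc.max
  have := hc.compl
  have := Fact.mk hp
  let _ := Ideal.Quotient.field (Ideal.span {π})
  let f := Ideal.Quotient.mk (Ideal.span {π})
  have : CharP (O ⧸ Ideal.span {π}) p := (CharP.charP_iff_prime_eq_zero hp).2 (by
    rw [← map_natCast f]
    exact Ideal.Quotient.eq_zero_iff_mem.2 (Ideal.mem_span_singleton.2 hc.dvd))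
  obtain ⟨n, hn⟩ : ∃ n, p ^ (a + 1) = n + 1 + 1 := ⟨p ^ (a + 1) - 2, by
    have := Nat.pow_le_pow_right hp.pos (show 1 ≤ a + 1 by omega)
    have := hp.two_le
    rw [pow_one] at *
    omega⟩
  have hq : M ^ (n + 1 + 1) = 1 := by
    rw [← hn, pow_succ, pow_mul, hM]
    refine Matrix.ext_iff_mulVec.2 fun x => funext fun i => ?_
    rw [perm_pow, h1, one_mulVec]
    rfl
  have mp : ∀ j : ℕ, (M.map f) ^ j = (M ^ j).map f := fun j => (Matrix.map_pow M f j).symm
  obtain ⟨m, v, c1, c2⟩ := field_case hp (M.map f) a (n + 1) hn τ h1 h2 (by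
    rw [mp, hM]
    ext i j
    simp only [map_apply, of_apply]
    split_ifs <;> simp) (by rw [mp, hq]; simp)
  choose w hw using fun l i => Ideal.Quotient.mk_surjective (v l i)
  let e := (Fintype.equivOfCardEq c1).symm
  let A : Matrix ι ι O := Matrix.of fun i j => (M ^ (e j).1.val *ᵥ w (e j).2) i
  have hA : IsUnit A := by
    have u1 : IsUnit (A.map f) := by
      rw [← Matrix.linearIndependent_cols_iff_isUnit]
      convert c2.comp e e.injective using 1
      funext j i
      simp only [Matrix.col_apply, map_apply, A, of_apply, Function.comp_apply, mp]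
      rw [RingHom.map_mulVec, show (f ∘ w (e j).2) = v (e j).2 from funext (hw _)]
    rw [Matrix.isUnit_iff_isUnit_det] at u1 ⊢
    rw [← RingHom.mapMatrix_apply, ← RingHom.map_det] at u1
    obtain ⟨y, hy⟩ := u1.exists_left_inv
    obtain ⟨y, rfl⟩ := Ideal.Quotient.mk_surjective y
    have hj : y * A.det - 1 ∈ (⊥ : Ideal O).jacobson := by
      refine IsAdicComplete.le_jacobson_bot (Ideal.span {π}) ?_
      rw [← Ideal.Quotient.eq_zero_iff_mem, map_sub, map_mul, map_one, sub_eq_zero]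
      exact hy
    exact isUnit_of_mul_isUnit_right (Ideal.isUnit_of_sub_one_mem_jacobson_bot _ hj)
  let S : Matrix ι ι O := Matrix.of fun i j => if i = e.symm ((e j).1 + 1, (e j).2) then 1 else 0
  have hS : M * A = A * S := by
    ext i j
    have : (A * S) i j = A i (e.symm ((e j).1 + 1, (e j).2)) := by
      simp [Matrix.mul_apply, S]
    rw [this]
    simp only [A, of_apply, Equiv.apply_symm_apply, Fin.val_add, Fin.val_one,
      ← pow_eq_pow_mod _ hq]
    rw [pow_succ', ← mulVec_mulVec]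
    rfl
  obtain ⟨B, hB⟩ := hA.exists_right_inv
  rw [← mul_one M, ← hB, ← mul_assoc, hS, mul_assoc, Matrix.trace_mul_comm, mul_assoc,
    mul_eq_one_comm.1 hB, mul_one]
  refine Finset.sum_eq_zero fun i _ => if_neg fun h => ?_
  have := congrArg (fun t => (e t).1) h
  simp at this

end Pool.Agent.MP_54e5d7_al.atl

end
end MrgPart4

-- ======== part 5: formerly Pool.Agent.MP_54e5d7_al.atl.TR
section MrgPart5

/-!
Project ATL: divisibility for modules that are free over the Iwasawa algebra.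
-/

set_option autoImplicit false

open Classical Module

noncomputable section
namespace Pool.Agent.MP_54e5d7_al.atl

namespace TrA

/-- The sum of the character values of a finite group is a multiple of its order. -/
lemma trace_sum {O : Type} [CommRing O] [IsDomain O] [CharZero O] {U κ : Type} [Group U]
    [Fintype U] [Fintype κ] [DecidableEq κ] (φ : U →* Matrix κ κ O) :
    ∃ d : ℕ, ∑ u, (φ u).trace = (Fintype.card U : O) * d := by
  let K := FractionRing O
  let ψ : U →* Matrix κ κ K := ((algebraMap O K).mapMatrix : Matrix κ κ O →+* _).toMonoidHom.comp φ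
  have hc : (Fintype.card U : K) ≠ 0 := Nat.cast_ne_zero.2 Fintype.card_ne_zero
  have hX : (∑ u, ψ u) * ∑ u, ψ u = (Fintype.card U : K) • ∑ u, ψ u := by
    rw [Finset.sum_mul]
    have : ∀ u, ψ u * ∑ v, ψ v = ∑ v, ψ v := fun u => by
      rw [Finset.mul_sum]
      exact Fintype.sum_equiv (Equiv.mulLeft u) _ _ fun v => by simp
    rw [Finset.sum_congr rfl fun u _ => this u, Finset.sum_const, Finset.card_univ,
      Nat.cast_smul_eq_nsmul]
  have hE : IsIdempotentElem (Matrix.toLin' ((Fintype.card U : K)⁻¹ • ∑ u, ψ u)) := by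
    unfold IsIdempotentElem
    rw [Module.End.mul_eq_comp, ← Matrix.toLin'_mul, smul_mul_smul_comm, hX, smul_smul,
      mul_assoc, inv_mul_cancel₀ hc, mul_one]
  have ht := (LinearMap.IsIdempotentElem.isProj_range _ hE).trace
  rw [Matrix.trace_toLin'_eq, Matrix.trace_smul, Matrix.trace_sum, smul_eq_mul,
    inv_mul_eq_iff_eq_mul₀ hc] at ht
  obtain ⟨d, ht⟩ : ∃ d : ℕ, ∑ u, (ψ u).trace = (Fintype.card U : K) * d := ⟨_, ht⟩
  refine ⟨d, IsFractionRing.injective O K ?_⟩
  rw [map_mul, map_natCast, map_natCast, ← ht, map_sum]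
  exact Finset.sum_congr rfl fun u _ => AddMonoidHom.map_trace _ _

lemma dvd_prod_sub {α : Type} (q : ℤ) (s : Finset α) (f g : α → ℤ) (h : ∀ i ∈ s, q ∣ f i - g i) :
    q ∣ ∏ i ∈ s, f i - ∏ i ∈ s, g i := by
  induction s using Finset.induction_on with
  | empty => simp
  | insert a s ha ih =>
    rw [Finset.prod_insert ha, Finset.prod_insert ha]
    have h1 := h a (Finset.mem_insert_self a s)
    have h2 := ih fun i hi => h i (Finset.mem_insert_of_mem hi)
    have : f a * ∏ i ∈ s, f i - g a * ∏ i ∈ s, g i =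
        (f a - g a) * ∏ i ∈ s, f i + g a * (∏ i ∈ s, f i - ∏ i ∈ s, g i) := by ring
    rw [this]
    exact dvd_add (h1.mul_right _) (h2.mul_left _)

variable {G : Type} [Group G] {n : ℕ}

/-- Tensor powers of a representation. -/
def sig (ρ : G →* Matrix (Fin n) (Fin n) ℤ) (k : ℕ) :
    G →* Matrix (Fin k → Fin n) (Fin k → Fin n) ℤ where
  toFun g := Matrix.of fun a b => ∏ i, ρ g (a i) (b i)
  map_one' := by
    ext a b
    simp only [map_one, Matrix.of_apply, Matrix.one_apply, Finset.prod_ite_zero,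
      Finset.prod_const_one, Finset.mem_univ, forall_true_left, funext_iff]
  map_mul' g h := by
    ext a b
    simp only [map_mul, Matrix.of_apply, Matrix.mul_apply, Finset.prod_univ_sum,
      Fintype.piFinset_univ, Finset.prod_mul_distrib]

lemma sig_apply (ρ : G →* Matrix (Fin n) (Fin n) ℤ) (k : ℕ) (g : G) (a b : Fin k → Fin n) :
    sig ρ k g a b = ∏ i, ρ g (a i) (b i) := rfl

lemma trace_sig (ρ : G →* Matrix (Fin n) (Fin n) ℤ) (k : ℕ) (g : G) :
    (sig ρ k g).trace = (ρ g).trace ^ k := by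
  have := Finset.prod_univ_sum (fun _ : Fin k => (Finset.univ : Finset (Fin n)))
    (fun _ x => ρ g x x)
  rw [Fintype.piFinset_univ, Finset.prod_const, Finset.card_univ, Fintype.card_fin] at this
  exact this.symm

lemma cong_sig (ρ : G →* Matrix (Fin n) (Fin n) ℤ) (k q : ℕ) (g : G) (h : Cong q (ρ g) 1) :
    Cong q (sig ρ k g) 1 := fun a b => by
  rw [← map_one (sig ρ k), sig_apply, sig_apply, map_one]
  exact dvd_prod_sub _ _ _ _ fun i _ => h _ _

variable {p D : ℕ} (T : Tower G p D)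

/-- Traces are almost class functions on the finite quotients. -/
lemma trace_conj (ρ : G →* Matrix (Fin n) (Fin n) ℤ) (q j : ℕ)
    (hj : ∀ g ∈ T.H j, Cong q (ρ g) 1) (g g' : G) (h : IsConj (T.qm j g) (T.qm j g')) :
    (q : ℤ) ∣ (ρ g').trace - (ρ g).trace := by
  obtain ⟨c, hc⟩ := isConj_iff.1 h
  obtain ⟨a, rfl⟩ := T.qm_surj j c
  have hk : (a * g * a⁻¹)⁻¹ * g' ∈ T.H j := by
    rw [← T.qm_eq_one, map_mul, map_inv, map_mul, map_mul, map_inv, hc, inv_mul_cancel]
  obtain ⟨y, hy⟩ := Cong.iff_smul.1 (hj _ hk)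
  have e1 : ρ g' = ρ (a * g * a⁻¹) * (1 + q • y) := by
    rw [← hy, ← map_mul, mul_inv_cancel_left]
  have e2 : (ρ (a * g * a⁻¹)).trace = (ρ g).trace := by
    rw [map_mul, Matrix.trace_mul_comm, ← map_mul, ← mul_assoc, inv_mul_cancel, one_mul]
  rw [e1, mul_add, mul_one, Matrix.trace_add, e2, mul_smul_comm, Matrix.trace_smul]
  simp

/-- The class sums at a nontrivial element of the lowest quotient. -/
lemma key (h2 : TrbStmt) (hb : IwbStmt) {O : Type} [CommRing O] [IsDomain O] [CharZero O] {π : O}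
    (hO : Coef O p π) (ρ : G →* Matrix (Fin n) (Fin n) ℤ) (θ : Polynomial ℤ) {r : ℕ}
    (c : T.Q 0 →* Matrix (Fin r) (Fin r) (T.Lam O)) (hc : ∀ x i i', c x i i' ∈ T.Sx O x)
    (e : ℕ) (u : T.Q 0) (hu : u ≠ 1) (hue : u ^ p ^ e = 1) (s j : ℕ)
    (hj1 : ∀ g ∈ T.H j, Cong (p ^ s) (ρ g) 1)
    (hj2 : ∀ g, g ^ p ^ e ∈ T.H j → ((p : ℤ) ^ s ∣ θ.eval (ρ g).trace ∨ g ∈ T.H 0)) :
    π ^ s ∣ ∑ q : T.Q j, ((θ.eval (ρ q.out).trace : ℤ) : O) *
      ∑ i, (T.lam O j (c u i i)).coeff q := by
  have hP : IsPGroup p (T.pr j).ker := IsPGroup.of_card ((hb G p D T O).2.2.1 j)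
  let c' : T.Q 0 →* Matrix (Fin r) (Fin r) (MonoidAlgebra O (T.Q j)) :=
    (((T.lam O j).toRingHom.mapMatrix : Matrix (Fin r) (Fin r) (T.Lam O) →+* _).toMonoidHom).comp c
  let F : T.Q j → O := fun y => if y ^ p ^ e = 1 then 0 else
    ((θ.eval (ρ (Quotient.out (ConjClasses.mk y)).out).trace : ℤ) : O)
  have h0 := h2 O p π T.prime hO (T.Q j) (T.Q 0) (T.pr j) hP r c'
    (fun x i i' q hq => hc x i i' j q hq) e u hue F (fun y h _ => by
      have a1 : ConjClasses.mk (h⁻¹ * y * h) = ConjClasses.mk y :=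
        ConjClasses.mk_eq_mk_iff_isConj.2 (isConj_iff.2 ⟨h, by group⟩)
      have a2 : (h⁻¹ * y * h) ^ p ^ e = 1 ↔ y ^ p ^ e = 1 := by
        have : (h⁻¹ * y * h) ^ p ^ e = h⁻¹ * y ^ p ^ e * h := by
          simpa using conj_pow (a := h⁻¹) (b := y) (i := p ^ e)
        rw [this, mul_assoc, inv_mul_eq_one, eq_comm, mul_eq_right]
      simp only [F, a1, a2]) (fun y hy => if_pos hy)
  have hπ : ∀ z : ℤ, (p : ℤ) ^ s ∣ z → π ^ s ∣ (z : O) := fun z hz => by
    refine (pow_dvd_pow_of_dvd hO.dvd s).trans ?_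
    simpa using map_dvd (Int.castRingHom O) hz
  rw [← sub_zero (∑ q : T.Q j, _), ← h0, ← Finset.sum_sub_distrib]
  refine Finset.dvd_sum fun q _ => ?_
  change π ^ s ∣ _ - F q * ∑ i, (T.lam O j (c u i i)).coeff q
  rw [← sub_mul]
  by_cases hq : q ^ p ^ e = 1
  · have hg : q.out ^ p ^ e ∈ T.H j := by rw [← T.qm_eq_one, map_pow, T.qm_out, hq]
    rcases hj2 _ hg with h | h
    · refine Dvd.dvd.mul_right ?_ _
      simp only [F, if_pos hq, sub_zero]
      exact hπ _ h
    · have : ∀ i, (T.lam O j (c u i i)).coeff q = 0 := fun i => by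
        by_contra hne
        apply hu
        rw [← hc u i i j q hne, ← T.qm_out j q, T.pr_qm, T.qm_eq_one]
        exact h
      simp [this]
  · refine Dvd.dvd.mul_right ?_ _
    simp only [F, if_neg hq]
    rw [← Int.cast_sub]
    refine hπ _ (Dvd.dvd.trans ?_ (Polynomial.sub_dvd_eval_sub _ _ θ))
    have := trace_conj T ρ (p ^ s) j hj1 (Quotient.out (ConjClasses.mk q)).out q.out (by
      rw [T.qm_out, T.qm_out]
      exact Quotient.exact (Quotient.out_eq (ConjClasses.mk q)))
    simpa using this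

end TrA

open TrA in
theorem tr_stmt (h1 : TraStmt) (h2 : TrbStmt) (hb : IwbStmt) : TrStmt := by
  intro G _ p D T O _ _ _ π hO n ρ θ hT r c hc e he
  have : Fact p.Prime := ⟨T.prime⟩
  obtain ⟨U, hU⟩ := Sylow.exists_subgroup_card_pow_prime (G := T.Q 0) p he
  have hσ := fun k => h1 G p D T O π hO (Fin k → Fin n) (sig ρ k) fun s =>
    (hT.1 s).imp fun j hj g hg => cong_sig ρ k _ g (hj g hg)
  choose σ hσ using hσ
  let R := Finset.range (θ.natDegree + 1)
  let A : T.Lam O → O := fun x => ∑ k ∈ R, (θ.coeff k : O) * (σ k x).trace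
  have hA : ∀ s, ∃ j₀, ∀ j, j₀ ≤ j → ∀ x, π ^ s ∣
      A x - ∑ q : T.Q j, ((θ.eval (ρ q.out).trace : ℤ) : O) * (T.lam O j x).coeff q := by
    intro s
    choose J hJ using fun k => hσ k s
    refine ⟨R.sup J, fun j hj x => ?_⟩
    have e1 : ∑ q : T.Q j, ((θ.eval (ρ q.out).trace : ℤ) : O) * (T.lam O j x).coeff q =
        ∑ k ∈ R, (θ.coeff k : O) * ∑ a, ∑ q : T.Q j,
          (T.lam O j x).coeff q * (sig ρ k q.out a a : ℤ) := by
      simp only [Polynomial.eval_eq_sum_range, ← trace_sig]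
      simp only [Matrix.trace, Matrix.diag_apply]
      push_cast
      simp only [Finset.sum_mul, Finset.mul_sum]
      rw [Finset.sum_comm]
      refine Finset.sum_congr rfl fun k _ => ?_
      rw [Finset.sum_comm]
      exact Finset.sum_congr rfl fun a _ => Finset.sum_congr rfl fun q _ => by ring
    rw [e1, ← Finset.sum_sub_distrib]
    refine Finset.dvd_sum fun k hk => ?_
    rw [← mul_sub, Matrix.trace, ← Finset.sum_sub_distrib]
    exact (Finset.dvd_sum fun a _ => hJ k j ((Finset.le_sup hk).trans hj) x a a).mul_left _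
  have hz : ∀ u : T.Q 0, u ≠ 1 → u ^ p ^ e = 1 → ∑ i, A (c u i i) = 0 := by
    intro u hu hue
    have := hO.compl
    refine IsHausdorff.haus (inferInstance : IsHausdorff (Ideal.span {π}) O) _ fun s => ?_
    rw [SModEq.zero, smul_eq_mul, Ideal.mul_top, Ideal.span_singleton_pow,
      Ideal.mem_span_singleton]
    obtain ⟨j0, hj0⟩ := hA s
    obtain ⟨j1, hj1⟩ := hT.1 s
    obtain ⟨j2, hj2⟩ := hT.2 e s
    have hk := key T h2 hb hO ρ θ c hc e u hu hue s (j0 + j1 + j2)
      (fun g hg => hj1 g (T.le (by omega) hg)) (fun g hg => hj2 g (T.le (by omega) hg))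
    have h3 := Finset.dvd_sum (s := Finset.univ) fun i _ =>
      hj0 (j0 + j1 + j2) (by omega) (c u i i)
    rw [Finset.sum_sub_distrib] at h3
    simp only [Finset.mul_sum] at hk
    rw [Finset.sum_comm] at hk
    have h4 := dvd_add h3 hk
    rwa [sub_add_cancel] at h4
  have hd : ∀ k, ∃ d : ℕ, ∑ u : U, ∑ i, (σ k (c u i i)).trace = (p : O) ^ e * d := by
    intro k
    obtain ⟨d, hd⟩ := trace_sum
      ((((Matrix.compRingEquiv (Fin r) (Fin k → Fin n) O).toRingHom.comp
        (σ k).mapMatrix).toMonoidHom.comp c).comp U.subtype)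
    rw [← Nat.card_eq_fintype_card, hU, Nat.cast_pow] at hd
    refine ⟨d, Eq.trans ?_ hd⟩
    refine Finset.sum_congr rfl fun u _ => ?_
    rw [Matrix.trace, Fintype.sum_prod_type]
    rfl
  choose d hd using hd
  have e1 : ∑ u : U, ∑ i, A (c u i i) = ((θ.eval (n : ℤ) * r : ℤ) : O) := by
    rw [Finset.sum_eq_single 1]
    · simp only [A, OneMemClass.coe_one, map_one, Matrix.one_apply_eq, Matrix.trace_one,
        Fintype.card_fun, Fintype.card_fin, Finset.sum_const, Finset.card_univ,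
        Polynomial.eval_eq_sum_range, R]
      push_cast
      ring
    · intro u _ hu
      refine hz u (fun h => hu (Subtype.ext h)) ?_
      rw [← hU, ← Subgroup.coe_pow, pow_card_eq_one', OneMemClass.coe_one]
    · simp
  have e2 : ∑ u : U, ∑ i, A (c u i i) = (((p : ℤ) ^ e * ∑ k ∈ R, θ.coeff k * d k : ℤ) : O) := by
    push_cast
    rw [Finset.mul_sum]
    have : ∀ k ∈ R, (p : O) ^ e * ((θ.coeff k : O) * d k) =
        ∑ u : U, ∑ i, (θ.coeff k : O) * (σ k (c u i i)).trace := fun k _ => by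
      simp only [← Finset.mul_sum]
      rw [hd k]
      ring
    rw [Finset.sum_congr rfl this, Finset.sum_comm (s := R)]
    refine Finset.sum_congr rfl fun u _ => ?_
    rw [Finset.sum_comm (s := R)]
  exact ⟨_, Int.cast_injective (α := O) (e1.symm.trans e2)⟩

end Pool.Agent.MP_54e5d7_al.atl

end
end MrgPart5

-- ======== part 6: formerly Pool.Agent.MP_54e5d7_al.atl.TORS
section MrgPart6

/-!
Project ATL: traces of almost torsion integer matrices.
-/

set_option autoImplicit false

open Polynomial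

noncomputable section
namespace Pool.Agent.MP_54e5d7_al.atl

namespace TorA

lemma irr (p : ℕ) [hp : Fact p.Prime] (i : ℕ) : Irreducible (cyclotomic (p ^ i) ℚ_[p]) := by
  cases i with
  | zero => simpa using irreducible_X_sub_C (1 : ℚ_[p])
  | succ i =>
    have hE := cyclotomic_prime_pow_comp_X_add_one_isEisensteinAt p i
    have hm : ((cyclotomic (p ^ (i + 1)) ℤ_[p]).comp (X + 1)).Monic := by
      rw [show (X + 1 : ℤ_[p][X]) = X + C 1 by simp]
      refine (cyclotomic.monic _ _).comp (monic_X_add_C 1) fun h => ?_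
      rw [natDegree_X_add_C] at h
      exact zero_ne_one h.symm
    have hmap : ((cyclotomic (p ^ (i + 1)) ℤ).comp (X + 1)).map (Int.castRingHom ℤ_[p]) =
        (cyclotomic (p ^ (i + 1)) ℤ_[p]).comp (X + 1) := by
      simp [map_comp]
    have hw := hE.isWeaklyEisensteinAt.map (Int.castRingHom ℤ_[p])
    rw [hmap] at hw
    have hI : Ideal.map (Int.castRingHom ℤ_[p]) (Submodule.span ℤ {(p : ℤ)}) =
        Ideal.span {(p : ℤ_[p])} := by
      rw [Ideal.submodule_span_eq, Ideal.map_span]; simp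
    rw [hI] at hw
    have hprime : (Ideal.span {(p : ℤ_[p])}).IsPrime :=
      (Ideal.span_singleton_prime PadicInt.prime_p.ne_zero).2 PadicInt.prime_p
    have hE' : ((cyclotomic (p ^ (i + 1)) ℤ_[p]).comp (X + 1)).IsEisensteinAt
        (Ideal.span {(p : ℤ_[p])}) := by
      refine ⟨?_, hw.mem, ?_⟩
      · rw [hm.leadingCoeff]
        exact (Ideal.ne_top_iff_one _).1 hprime.ne_top
      · rw [coeff_zero_eq_eval_zero, eval_comp]
        simp only [eval_add, eval_X, eval_one, zero_add, eval_one_cyclotomic_prime_pow]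
        rw [Ideal.span_singleton_pow, Ideal.mem_span_singleton]
        rintro ⟨c, hc⟩
        apply PadicInt.prime_p (p := p) |>.not_isUnit
        refine IsUnit.of_mul_eq_one c ?_
        apply mul_left_cancel₀ (PadicInt.prime_p (p := p)).ne_zero
        linear_combination -hc
    have hd : 0 < ((cyclotomic (p ^ (i + 1)) ℤ_[p]).comp (X + 1)).natDegree := by
      rw [natDegree_comp, natDegree_cyclotomic, show (X + 1 : ℤ_[p][X]) = X + C 1 by simp,
        natDegree_X_add_C, mul_one]
      exact Nat.totient_pos.2 (pow_pos hp.out.pos _)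
    have h1 := hE'.irreducible hprime hm.isPrimitive hd
    have h2 : Irreducible (cyclotomic (p ^ (i + 1)) ℤ_[p]) := by
      have : (cyclotomic (p ^ (i + 1)) ℤ_[p]).comp (X + 1) =
          algEquivAevalXAddC (1 : ℤ_[p]) (cyclotomic (p ^ (i + 1)) ℤ_[p]) := by
        simp [algEquivAevalXAddC, comp_eq_aeval]
      rw [this] at h1
      exact (MulEquiv.irreducible_iff (algEquivAevalXAddC (1 : ℤ_[p]))).1 h1
    have h3 := ((cyclotomic.monic (p ^ (i + 1)) ℤ_[p]).irreducible_iff_irreducible_map_fraction_map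
      (K := ℚ_[p])).1 h2
    rwa [map_cyclotomic] at h3

lemma cyc_data (K : Type) [Field K] (p : ℕ) (hp : p.Prime) (i : ℕ) :
    ∃ y : ℕ, -(cyclotomic (p ^ i) K).nextCoeff =
        ((cyclotomic (p ^ i) K).natDegree : K) - p * y ∧
      y * (p - 1) ≤ (cyclotomic (p ^ i) K).natDegree ∧
      (y = 0 → cyclotomic (p ^ i) K = X - 1 ∧ (cyclotomic (p ^ i) K).natDegree = 1) := by
  have h2 := hp.two_le
  rcases i with _ | i
  · refine ⟨0, ?_, by simp, fun _ => ?_⟩
    · rw [pow_zero, natDegree_cyclotomic, cyclotomic_one, ← C_1, nextCoeff_X_sub_C]; simp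
    · rw [pow_zero, natDegree_cyclotomic, cyclotomic_one]; simp
  have hd : (cyclotomic (p ^ (i + 1)) K).natDegree = p ^ i * (p - 1) := by
    rw [natDegree_cyclotomic, Nat.totient_prime_pow_succ hp]
  have hpos : 0 < p ^ i * (p - 1) := Nat.mul_pos (pow_pos hp.pos _) (by omega)
  have hn : (cyclotomic (p ^ (i + 1)) K).nextCoeff =
      ∑ k ∈ Finset.range p, if p ^ i * (p - 1) - 1 = p ^ i * k then 1 else 0 := by
    rw [nextCoeff_of_natDegree_pos (hd ▸ hpos), hd, cyclotomic_prime_pow_eq_geom_sum hp,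
      finsetSum_coeff]
    simp only [← pow_mul, coeff_X_pow]
  rw [hn, hd]
  rcases i with _ | i
  · refine ⟨1, ?_, by simp, by simp⟩
    simp only [pow_zero, one_mul]
    rw [Finset.sum_ite_eq, if_pos (Finset.mem_range.2 (by omega)), Nat.cast_sub hp.one_le]
    simp
  · refine ⟨p ^ i * (p - 1), ?_, ?_, ?_⟩
    · rw [Finset.sum_eq_zero]
      · push_cast; ring
      · intro k _
        rw [if_neg]
        intro h
        have h3 : p ^ (i + 1) * (p - 1) = p ^ (i + 1) * k + 1 := by omega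
        have h4 : p ∣ p ^ (i + 1) * k + 1 := h3 ▸ (dvd_pow_self p (by omega)).mul_right _
        have h5 : p ∣ 1 := (Nat.dvd_add_right ((dvd_pow_self p (by omega)).mul_right _)).1 h4
        exact hp.one_lt.ne' (Nat.dvd_one.1 h5)
    · rw [pow_succ, mul_assoc, mul_assoc]
      exact Nat.mul_le_mul_left _ (Nat.mul_le_mul_right _ (by omega))
    · intro h
      have : 0 < p ^ i * (p - 1) := Nat.mul_pos (pow_pos hp.pos _) (by omega)
      omega

lemma key (p : ℕ) [hp : Fact p.Prime] (b : ℕ) : ∀ (d : ℕ) (f : ℚ_[p][X]), f.Monic →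
    f.natDegree = d →
    (∀ z : AlgebraicClosure ℚ_[p], aeval z f = 0 → z ^ p ^ b = 1) →
    ∃ y : ℕ, -f.nextCoeff = (d : ℚ_[p]) - p * y ∧ y * (p - 1) ≤ d ∧ (y = 0 → f = (X - 1) ^ d) := by
  intro d
  induction d using Nat.strong_induction_on with
  | _ d ih =>
  intro f hf hd hz
  by_cases h0 : d = 0
  · subst h0
    have : f = 1 := hf.natDegree_eq_zero.1 hd
    exact ⟨0, by rw [this, ← C_1, nextCoeff_C_eq_zero]; simp, by simp, fun _ => by simp [this]⟩
  obtain ⟨z, hz0⟩ := IsAlgClosed.exists_aeval_eq_zero (AlgebraicClosure ℚ_[p]) f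
    (by rw [degree_eq_natDegree hf.ne_zero, hd]; exact_mod_cast h0)
  obtain ⟨i, -, hi⟩ := (Nat.dvd_prime_pow hp.out).1 (orderOf_dvd_of_pow_eq_one (hz z hz0))
  have hprim : IsPrimitiveRoot z (p ^ i) := hi ▸ IsPrimitiveRoot.orderOf z
  have hroot : aeval z (cyclotomic (p ^ i) ℚ_[p]) = 0 := by
    rw [aeval_def, ← eval_map, map_cyclotomic]
    exact hprim.isRoot_cyclotomic (pow_pos hp.out.pos _)
  have hmin := minpoly.eq_of_irreducible_of_monic (irr p i) hroot (cyclotomic.monic _ _)
  obtain ⟨g, hg⟩ : cyclotomic (p ^ i) ℚ_[p] ∣ f := hmin ▸ minpoly.dvd _ z hz0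
  have hgm : g.Monic := (cyclotomic.monic _ _).of_mul_monic_left (hg ▸ hf)
  have hdeg : d = (cyclotomic (p ^ i) ℚ_[p]).natDegree + g.natDegree := by
    rw [← hd, hg, (cyclotomic.monic _ _).natDegree_mul hgm]
  have hpos : 0 < (cyclotomic (p ^ i) ℚ_[p]).natDegree := by
    rw [natDegree_cyclotomic]; exact Nat.totient_pos.2 (pow_pos hp.out.pos _)
  obtain ⟨y, hy1, hy2, hy3⟩ := ih g.natDegree (by omega) g hgm rfl
    fun w hw => hz w (by rw [hg, map_mul, hw, mul_zero])
  obtain ⟨x, hx1, hx2, hx3⟩ := cyc_data ℚ_[p] p hp.out i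
  refine ⟨x + y, ?_, ?_, fun h => ?_⟩
  · rw [hg, (cyclotomic.monic _ _).nextCoeff_mul hgm, hdeg]
    push_cast
    linear_combination hx1 + hy1
  · rw [add_mul]; omega
  · obtain ⟨e1, e2⟩ := hx3 (by omega)
    rw [hdeg, e2, pow_add, pow_one, ← hy3 (by omega), ← e1, ← hg]

lemma schur (p : ℕ) [hp : Fact p.Prime] (n b : ℕ) (t : Matrix (Fin n) (Fin n) ℚ_[p])
    (ht : t ^ p ^ b = 1) (h1 : t ≠ 1) :
    ∃ y ∈ Finset.Icc 1 (n / (p - 1)), t.trace = n - p * y := by
  have hne : Nonempty (Fin n) := by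
    by_contra h
    rw [not_nonempty_iff] at h
    exact h1 (Subsingleton.elim _ _)
  have hn : 0 < n := Fin.pos_iff_nonempty.2 hne
  have h2 := hp.out.two_le
  obtain ⟨y, hy1, hy2, hy3⟩ := key p b n t.charpoly t.charpoly_monic
    (by rw [Matrix.charpoly_natDegree_eq_dim, Fintype.card_fin]) (by
      intro z hz
      set T := t.map (algebraMap ℚ_[p] (AlgebraicClosure ℚ_[p])) with hT
      have hT1 : T ^ p ^ b = 1 := by
        have := congrArg (algebraMap ℚ_[p] (AlgebraicClosure ℚ_[p])).mapMatrix ht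
        rwa [map_pow, map_one] at this
      rw [aeval_def, ← eval_map, ← Matrix.charpoly_map, Matrix.eval_charpoly, ← hT] at hz
      have hc : Commute (Matrix.scalar (Fin n) z) T := Matrix.scalar_commute z (fun _ => mul_comm _ _) T
      have h3 := congrArg Matrix.det (hc.geom_sum₂_mul (p ^ b))
      rw [Matrix.det_mul, hz, mul_zero, hT1, ← map_pow, ← map_one (Matrix.scalar (Fin n)),
        ← map_sub, Matrix.scalar_apply, Matrix.det_diagonal] at h3
      simp only [Finset.prod_const, Finset.card_univ, Fintype.card_fin] at h3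
      exact sub_eq_zero.1 (pow_eq_zero_iff hn.ne' |>.1 h3.symm))
  refine ⟨y, Finset.mem_Icc.2 ⟨?_, (Nat.le_div_iff_mul_le (by omega)).2 hy2⟩, ?_⟩
  · by_contra h
    have h3 := hy3 (by omega)
    have hsep : (X ^ p ^ b - 1 : ℚ_[p][X]).Separable :=
      X_pow_sub_one_separable_iff.2 (by exact_mod_cast (pow_pos hp.out.pos b).ne')
    have hd : minpoly ℚ_[p] t ∣ X ^ p ^ b - 1 := minpoly.dvd _ _ (by simp [ht])
    have hr : IsRadical (minpoly ℚ_[p] t) := (hsep.squarefree.squarefree_of_dvd hd).isRadical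
    obtain ⟨q, hq⟩ := hr n (X - 1) (h3 ▸ Matrix.minpoly_dvd_charpoly t)
    have := congrArg (aeval t) hq
    rw [map_mul, minpoly.aeval, zero_mul] at this
    simp only [map_sub, aeval_X, map_one] at this
    exact h1 (sub_eq_zero.1 this)
  · rw [← hy1, Matrix.trace_eq_neg_charpoly_coeff, nextCoeff_of_natDegree_pos,
      Matrix.charpoly_natDegree_eq_dim]
    rw [Matrix.charpoly_natDegree_eq_dim, Fintype.card_fin]; exact hn

lemma clopen (p : ℕ) [hp : Fact p.Prime] (j : ℕ) :
    IsClopen {x : ℤ_[p] | (p : ℤ_[p]) ^ j ∣ x} := by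
  have : {x : ℤ_[p] | (p : ℤ_[p]) ^ j ∣ x} = Metric.closedBall 0 ((p : ℝ) ^ (-j : ℤ)) := by
    ext x
    simp only [Set.mem_ofPred_eq, Metric.mem_closedBall, dist_zero_right]
    rw [PadicInt.norm_le_pow_iff_mem_span_pow, Ideal.mem_span_singleton]
  rw [this]
  exact IsUltrametricDist.isClopen_closedBall _
    (zpow_pos (by exact_mod_cast hp.out.pos) _).ne'

lemma dvd_cast (p : ℕ) [hp : Fact p.Prime] (j : ℕ) (k : ℤ) :
    (p : ℤ_[p]) ^ j ∣ (k : ℤ_[p]) ↔ (p : ℤ) ^ j ∣ k := by
  rw [← PadicInt.norm_int_le_pow_iff_dvd, PadicInt.norm_le_pow_iff_mem_span_pow,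
    Ideal.mem_span_singleton]

lemma eq_zero (p : ℕ) [hp : Fact p.Prime] (x : ℤ_[p]) (h : ∀ j, (p : ℤ_[p]) ^ j ∣ x) : x = 0 := by
  have h1 : ∀ j : ℕ, ‖x‖ ≤ ((p : ℝ)⁻¹) ^ j := fun j => by
    have := (PadicInt.norm_le_pow_iff_mem_span_pow x j).2 (Ideal.mem_span_singleton.2 (h j))
    rwa [zpow_neg, zpow_natCast, ← inv_pow] at this
  have h2 : Filter.Tendsto (fun j : ℕ => ((p : ℝ)⁻¹) ^ j) Filter.atTop (nhds 0) :=
    tendsto_pow_atTop_nhds_zero_of_lt_one (by positivity)
      (inv_lt_one_of_one_lt₀ (by exact_mod_cast hp.out.one_lt))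
  exact norm_le_zero_iff.1 (ge_of_tendsto' h2 h1)

end TorA

theorem tors : TorsStmt := by
  intro p n hp b s j'
  haveI : Fact p.Prime := ⟨hp⟩
  by_contra hcon
  push Not at hcon
  let C : ℕ → Set (Matrix (Fin n) (Fin n) ℤ_[p]) := fun j =>
    {t | (∀ a c, (p : ℤ_[p]) ^ j ∣ (t ^ p ^ b - 1) a c) ∧
      ¬ (p : ℤ_[p]) ^ s ∣ aeval t.trace (theta p n) ∧
      ¬ ∀ a c, (p : ℤ_[p]) ^ j' ∣ (t - 1) a c}
  have hcl : ∀ j, IsClosed (C j) := fun j => by
    refine IsClosed.inter (s₁ := {t | ∀ a c, (p : ℤ_[p]) ^ j ∣ (t ^ p ^ b - 1) a c}) ?_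
      (IsClosed.inter (s₁ := {t : Matrix (Fin n) (Fin n) ℤ_[p] |
        ¬ (p : ℤ_[p]) ^ s ∣ aeval t.trace (theta p n)})
        (s₂ := {t | ¬ ∀ a c, (p : ℤ_[p]) ^ j' ∣ (t - 1) a c}) ?_ ?_)
    · simp only [Set.ofPred_forall]
      refine isClosed_iInter fun a => isClosed_iInter fun c => ?_
      exact (TorA.clopen p j).isClosed.preimage
        (f := fun t : Matrix (Fin n) (Fin n) ℤ_[p] => (t ^ p ^ b - 1) a c) (by fun_prop)
    · refine IsOpen.isClosed_compl (s := {t : Matrix (Fin n) (Fin n) ℤ_[p] |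
        (p : ℤ_[p]) ^ s ∣ aeval t.trace (theta p n)}) ?_
      exact (TorA.clopen p s).isOpen.preimage
        (f := fun t : Matrix (Fin n) (Fin n) ℤ_[p] => aeval t.trace (theta p n))
        ((theta p n).continuous_aeval.comp (by fun_prop))
    · refine IsOpen.isClosed_compl (s := {t : Matrix (Fin n) (Fin n) ℤ_[p] |
        ∀ a c, (p : ℤ_[p]) ^ j' ∣ (t - 1) a c}) ?_
      simp only [Set.ofPred_forall]
      refine isOpen_iInter_of_finite fun a => isOpen_iInter_of_finite fun c => ?_
      exact (TorA.clopen p j').isOpen.preimage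
        (f := fun t : Matrix (Fin n) (Fin n) ℤ_[p] => (t - 1) a c) (by fun_prop)
  have hne : ∀ j, (C j).Nonempty := fun j => by
    obtain ⟨g, h1, h2, h3⟩ := hcon j
    refine ⟨(Int.castRingHom ℤ_[p]).mapMatrix g, fun a c => ?_, ?_, fun h => h3 fun a c => ?_⟩
    · rw [← map_pow, ← map_one (Int.castRingHom ℤ_[p]).mapMatrix, ← map_sub]
      refine (TorA.dvd_cast p j _).2 ?_
      have := h1 a c
      push_cast at this
      exact this
    · have : (Matrix.trace ((Int.castRingHom ℤ_[p]).mapMatrix g)) =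
          algebraMap ℤ ℤ_[p] g.trace := by
        simp [Matrix.trace]
      rw [this, aeval_algebraMap_apply, coe_aeval_eq_eval]
      exact fun h => h2 ((TorA.dvd_cast p s _).1 h)
    · have := h a c
      rw [← map_one (Int.castRingHom ℤ_[p]).mapMatrix, ← map_sub] at this
      have := (TorA.dvd_cast p j' _).1 this
      push_cast
      exact this
  haveI : CompactSpace (Matrix (Fin n) (Fin n) ℤ_[p]) :=
    inferInstanceAs (CompactSpace (Fin n → Fin n → ℤ_[p]))
  obtain ⟨t, ht⟩ := IsCompact.nonempty_iInter_of_sequence_nonempty_isCompact_isClosed C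
    (fun j t h => ⟨fun a c => (pow_dvd_pow _ j.le_succ).trans (h.1 a c), h.2⟩) hne
    (hcl 0).isCompact hcl
  rw [Set.mem_iInter] at ht
  have h1 : t ^ p ^ b = 1 := by
    rw [← sub_eq_zero]
    ext a c
    exact TorA.eq_zero p _ fun j => (ht j).1 a c
  have h2 : t ≠ 1 := fun h => (ht 0).2.2 fun a c => by simp [h]
  let φ : ℤ_[p] →+* ℚ_[p] := algebraMap _ _
  have hφ : Function.Injective φ := IsFractionRing.injective _ _
  obtain ⟨y, hy, h3⟩ := TorA.schur p n b (φ.mapMatrix t) (by rw [← map_pow, h1, map_one])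
    (fun h => h2 (Matrix.map_injective hφ (by simpa using h)))
  have h4 : t.trace = n - p * y := hφ (by
    simp only [map_sub, map_mul, map_natCast]
    rw [← h3]; simp [Matrix.trace])
  refine (ht 0).2.1 ?_
  rw [theta, map_prod, Finset.prod_eq_zero hy (by simp [h4])]
  exact dvd_zero _

end Pool.Agent.MP_54e5d7_al.atl

end
end MrgPart6

-- ======== part 7: formerly Pool.Agent.MP_54e5d7_al.atl.MAG
section MrgPart7

/-!
Project ATL: integral representations of automorphism groups on quotients of the group ring.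
-/

set_option autoImplicit false

open Classical Module

noncomputable section
namespace Pool.Agent.MP_54e5d7_al.atl

namespace Mag
variable {Γ : Type} [Group Γ] {n : ℕ}

lemma jmul (h : Iw0Stmt) {a b : ℕ} {x y : MonoidAlgebra ℤ Γ} (hx : x ∈ Ia Γ a)
    (hy : y ∈ Ia Γ b) : x * y ∈ Ia Γ (a + b) := (h ℤ 0 Γ ⊤).2.1 a b x y hx hy

lemma jone (h : Iw0Stmt) (g : Γ) : MonoidAlgebra.of ℤ Γ g - 1 ∈ Ia Γ 1 :=
  (h ℤ 0 Γ ⊤).2.2.2.2.1 g trivial

lemma jzero (h : Iw0Stmt) (x : MonoidAlgebra ℤ Γ) : x ∈ Ia Γ 0 :=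
  ((h ℤ 0 Γ ⊤).2.2.2.1 x).2 fun _ _ => trivial

lemma prod_mem {k : ℕ} (l : List Γ) (hl : k ≤ l.length) :
    (l.map fun g => MonoidAlgebra.of ℤ Γ g - 1).prod ∈ Ia Γ k :=
  Submodule.subset_span ⟨0, l, fun _ _ => trivial, by omega, by simp⟩

lemma le_of {k : ℕ} {N : Submodule ℤ (MonoidAlgebra ℤ Γ)} (h : ∀ l : List Γ, k ≤ l.length →
    (l.map fun g => MonoidAlgebra.of ℤ Γ g - 1).prod ∈ N) : Ia Γ k ≤ N := by
  refine Submodule.span_le.2 ?_
  rintro _ ⟨a, l, -, h1, rfl⟩
  rcases a with _ | a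
  · simpa using h l (by omega)
  · simp

lemma anti {a b : ℕ} (h : a ≤ b) : Ia Γ b ≤ Ia Γ a := le_of fun l hl => prod_mem l (h.trans hl)

lemma lin (h : Iw0Stmt) (μ : Mark Γ n) (w : Γ) : MonoidAlgebra.of ℤ Γ w - 1 -
    ∑ l, (μ.ε w).toAdd l • (MonoidAlgebra.of ℤ Γ (μ.x l) - 1) ∈ Ia Γ 2 := by
  have hw : w ∈ Subgroup.closure (Set.range μ.x) := μ.gen ▸ Subgroup.mem_top w
  induction hw using Subgroup.closure_induction with
  | mem y hy =>
    obtain ⟨j, rfl⟩ := hy
    rw [μ.dual, toAdd_ofAdd, Finset.sum_eq_single j (fun l _ hl => by simp [hl]) (by simp)]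
    simp
  | one => rw [map_one, map_one]; simp
  | mul a b _ _ ha hb =>
    have := add_mem (add_mem ha hb) (jmul (a := 1) (b := 1) h (jone h a) (jone h b))
    simp only [map_mul, toAdd_mul, Pi.add_apply, add_smul, Finset.sum_add_distrib]
    refine (congrArg (· ∈ Ia Γ 2) ?_).mp this
    noncomm_ring
  | inv a _ ha =>
    have := neg_mem (add_mem ha (jmul (a := 1) (b := 1) h (jone h a⁻¹) (jone h a)))
    have e : MonoidAlgebra.of ℤ Γ a⁻¹ * MonoidAlgebra.of ℤ Γ a = 1 := by
      rw [← map_mul, inv_mul_cancel, map_one]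
    simp only [map_inv, toAdd_inv, Pi.neg_apply, neg_smul, Finset.sum_neg_distrib]
    refine (congrArg (· ∈ Ia Γ 2) ?_).mp this
    rw [sub_mul, mul_sub, e]
    noncomm_ring

lemma step (h : Iw0Stmt) (μ : Mark Γ n) (k : ℕ) :
    ∃ F : Submodule ℤ (MonoidAlgebra ℤ Γ), F.FG ∧ Ia Γ k ≤ F ⊔ Ia Γ (k + 1) := by
  induction k with
  | zero =>
    refine ⟨Submodule.span ℤ {1}, Submodule.fg_span_singleton _, le_of fun l _ => ?_⟩
    rcases l with _ | ⟨g, l⟩
    · exact Submodule.mem_sup_left (Submodule.subset_span (by simp))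
    · exact Submodule.mem_sup_right (prod_mem _ (by simp))
  | succ k ih =>
    obtain ⟨F, h1, h2⟩ := ih
    refine ⟨⨆ i, F.map (LinearMap.mulLeft ℤ (MonoidAlgebra.of ℤ Γ (μ.x i) - 1)),
      Submodule.fg_iSup _ fun i => h1.map _, le_of fun l hl => ?_⟩
    rcases l with _ | ⟨g, l⟩
    · simp at hl
    have hP := prod_mem (k := k) l (by simpa using hl)
    rw [List.map_cons, List.prod_cons]
    generalize (l.map fun g => MonoidAlgebra.of ℤ Γ g - 1).prod = P at hP
    have h3 := jmul h (lin h μ g) hP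
    rw [sub_mul, add_comm 2 k] at h3
    rw [← sub_add_cancel ((MonoidAlgebra.of ℤ Γ g - 1) * P)
      ((∑ l, (μ.ε g).toAdd l • (MonoidAlgebra.of ℤ Γ (μ.x l) - 1)) * P)]
    refine add_mem (Submodule.mem_sup_right h3) ?_
    rw [Finset.sum_mul]
    refine sum_mem fun i _ => ?_
    rw [smul_mul_assoc]
    refine Submodule.smul_mem _ _ ?_
    obtain ⟨f, hf, s, hs, rfl⟩ := Submodule.mem_sup.1 (h2 hP)
    rw [mul_add]
    refine add_mem (Submodule.mem_sup_left (Submodule.mem_iSup_of_mem i ⟨f, hf, rfl⟩))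
      (Submodule.mem_sup_right ?_)
    have := jmul h (jone h (μ.x i)) hs
    rwa [add_comm 1] at this

lemma fg (h : Iw0Stmt) (μ : Mark Γ n) (k : ℕ) :
    ∃ F : Submodule ℤ (MonoidAlgebra ℤ Γ), F.FG ∧ ⊤ ≤ F ⊔ Ia Γ k := by
  induction k with
  | zero => exact ⟨⊥, Submodule.fg_bot, fun x _ => Submodule.mem_sup_right (jzero h x)⟩
  | succ k ih =>
    obtain ⟨F, h1, h2⟩ := ih
    obtain ⟨F', h3, h4⟩ := step h μ k
    exact ⟨F ⊔ F', h1.sup h3, h2.trans ((sup_le_sup_left h4 F).trans (sup_assoc F F' _).ge)⟩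

/-- The action on the group ring. -/
def act (α : MulAut Γ) : MonoidAlgebra ℤ Γ →ₐ[ℤ] MonoidAlgebra ℤ Γ :=
  MonoidAlgebra.mapDomainAlgHom ℤ ℤ α.toMonoidHom

lemma act_of (α : MulAut Γ) (g : Γ) :
    act α (MonoidAlgebra.of ℤ Γ g) = MonoidAlgebra.of ℤ Γ (α g) := by
  simp [act, MonoidAlgebra.mapDomainAlgHom_apply]

/-- Congruence modulo `q` and a power of the augmentation ideal. -/
def Nq (q k : ℕ) (x : MonoidAlgebra ℤ Γ) : Prop := ∃ y, x - (q : ℤ) • y ∈ Ia Γ k

lemma Nq.add {q k : ℕ} {x y : MonoidAlgebra ℤ Γ} (hx : Nq q k x) (hy : Nq q k y) :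
    Nq q k (x + y) := by
  obtain ⟨a, ha⟩ := hx
  obtain ⟨b, hb⟩ := hy
  refine ⟨a + b, (congrArg (· ∈ Ia Γ k) ?_).mp (add_mem ha hb)⟩
  rw [smul_add]; abel

lemma nq_gen (h : Iw0Stmt) (μ : Mark Γ n) {α : MulAut Γ} {q : ℕ} (hq : Cong q (μ.abel α) 1)
    (g : Γ) : Nq q 2 (MonoidAlgebra.of ℤ Γ (α g) - MonoidAlgebra.of ℤ Γ g) := by
  have h1 : ∀ l, (q : ℤ) ∣ (μ.ε (α g)).toAdd l - (μ.ε g).toAdd l := fun l => by
    have e : (μ.ε g).toAdd l = ∑ j, (1 : Matrix (Fin n) (Fin n) ℤ) l j * (μ.ε g).toAdd j := by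
      simp [Matrix.one_apply]
    rw [μ.eps_aut, e, ← Finset.sum_sub_distrib]
    refine Finset.dvd_sum fun j _ => ?_
    rw [← sub_mul]
    exact (hq l j).mul_right _
  choose d hd using h1
  refine ⟨∑ l, d l • (MonoidAlgebra.of ℤ Γ (μ.x l) - 1),
    (congrArg (· ∈ Ia Γ 2) ?_).mp (sub_mem (lin h μ (α g)) (lin h μ g))⟩
  simp only [Finset.smul_sum, smul_smul, ← hd, sub_smul, Finset.sum_sub_distrib]
  abel

lemma act_prod (α : MulAut Γ) (l : List Γ) :
    act α (l.map fun g => MonoidAlgebra.of ℤ Γ g - 1).prod ∈ Ia Γ l.length := by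
  have := prod_mem (k := l.length) (l.map α) (by simp)
  rw [map_list_prod, List.map_map]
  rw [List.map_map] at this
  refine (congrArg (fun f => (l.map f).prod ∈ Ia Γ l.length) (funext fun g => ?_)).mp this
  simp only [Function.comp_apply, map_sub, map_one, act_of]

lemma nq_prod (h : Iw0Stmt) (μ : Mark Γ n) {α : MulAut Γ} {q : ℕ} (hq : Cong q (μ.abel α) 1)
    (l : List Γ) : Nq q (l.length + 1) (act α (l.map fun g => MonoidAlgebra.of ℤ Γ g - 1).prod -
      (l.map fun g => MonoidAlgebra.of ℤ Γ g - 1).prod) := by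
  induction l with
  | nil => exact ⟨0, by simp⟩
  | cons g l ih =>
    have hP := act_prod α l
    rw [List.map_cons, List.prod_cons, List.length_cons]
    generalize (l.map fun g => MonoidAlgebra.of ℤ Γ g - 1).prod = P at hP ih
    obtain ⟨a, ha⟩ := nq_gen h μ hq g
    obtain ⟨b, hb⟩ := ih
    have h1 := jmul h ha hP
    have h2 := jmul h (jone h g) hb
    rw [add_comm 2] at h1
    rw [add_comm 1] at h2
    refine ⟨a * act α P + (MonoidAlgebra.of ℤ Γ g - 1) * b,
      (congrArg (· ∈ Ia Γ (l.length + 2)) ?_).mp (add_mem h1 h2)⟩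
    rw [map_mul, map_sub, map_one, act_of, smul_add, ← smul_mul_assoc, ← mul_smul_comm]
    noncomm_ring

lemma nq_step (h : Iw0Stmt) (μ : Mark Γ n) {α : MulAut Γ} {q : ℕ} (hq : Cong q (μ.abel α) 1)
    {k : ℕ} {x : MonoidAlgebra ℤ Γ} (hx : Nq q k x) : Nq q (k + 1) (act α x - x) := by
  let N : Submodule ℤ (MonoidAlgebra ℤ Γ) :=
    { carrier := {x | Nq q (k + 1) (act α x - x)}
      add_mem' := fun {a b} ha hb => by
        have := Nq.add ha hb
        rwa [sub_add_sub_comm, ← map_add] at this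
      zero_mem' := ⟨0, by simp⟩
      smul_mem' := fun m x ⟨y, hy⟩ => ⟨m • y, by
        rw [map_smul, ← smul_sub, smul_comm, ← smul_sub]
        exact Submodule.smul_mem _ _ hy⟩ }
  have h1 : Ia Γ k ≤ N := le_of fun l hl =>
    (nq_prod h μ hq l).imp fun y hy => anti (by omega) hy
  obtain ⟨y, hy⟩ := hx
  obtain ⟨z, hz⟩ := h1 hy
  refine ⟨z + (act α y - y), (congrArg (· ∈ Ia Γ (k + 1)) ?_).mp hz⟩
  rw [map_sub, map_smul, smul_add, smul_sub]
  abel

/-- The saturation of a submodule. -/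
def sat (T : Submodule ℤ (MonoidAlgebra ℤ Γ)) : Submodule ℤ (MonoidAlgebra ℤ Γ) where
  carrier := {y | ∃ m : ℤ, m ≠ 0 ∧ m • y ∈ T}
  add_mem' := fun {a b} ⟨m, h1, h2⟩ ⟨k, h3, h4⟩ => ⟨m * k, mul_ne_zero h1 h3, by
    rw [smul_add]
    refine add_mem ?_ ?_
    · rw [mul_comm, mul_smul]; exact T.smul_mem _ h2
    · rw [mul_smul]; exact T.smul_mem _ h4⟩
  zero_mem' := ⟨1, one_ne_zero, by simp⟩
  smul_mem' := fun c x ⟨m, h1, h2⟩ => ⟨m, h1, by rw [smul_comm]; exact T.smul_mem _ h2⟩

end Mag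

open Mag in
theorem mag (h : Iw0Stmt) : MagStmt := by
  intro Γ _ n μ c T hT hinv
  have hle : T ≤ sat T := fun y hy => ⟨1, one_ne_zero, by simpa using hy⟩
  have hs : ∀ α : MulAut Γ, sat T ≤ (sat T).comap (act α).toLinearMap :=
    fun α y ⟨m, h1, h2⟩ => ⟨m, h1, by
      have := hinv α _ h2
      rwa [map_smul] at this⟩
  have hof : ∀ {f g : Module.End ℤ (MonoidAlgebra ℤ Γ ⧸ sat T)},
      (∀ w, f ((sat T).mkQ (MonoidAlgebra.of ℤ Γ w)) = g ((sat T).mkQ (MonoidAlgebra.of ℤ Γ w))) →
      f = g := fun {f g} e => by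
    refine Submodule.linearMap_qext _ (MonoidAlgebra.lhom_ext' fun w => LinearMap.ext_ring ?_)
    exact e w
  let ψ : MulAut Γ →* Module.End ℤ (MonoidAlgebra ℤ Γ ⧸ sat T) :=
    { toFun := fun α => (sat T).mapQ (sat T) (act α).toLinearMap (hs α)
      map_one' := hof fun w => congrArg (sat T).mkQ (act_of 1 w)
      map_mul' := fun α β => hof fun w => congrArg (sat T).mkQ <| by
        change act (α * β) _ = act α (act β _)
        rw [act_of, act_of, act_of]; rfl }
  have hψ : ∀ α y, ψ α ((sat T).mkQ y) = (sat T).mkQ (act α y) := fun _ _ => rfl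
  obtain ⟨F, h1, h2⟩ := fg h μ c
  have : Module.Finite ℤ (MonoidAlgebra ℤ Γ ⧸ sat T) := by
    refine ⟨(congrArg Submodule.FG (top_le_iff.1 fun z _ => ?_)).mp (h1.map (sat T).mkQ)⟩
    obtain ⟨y, rfl⟩ := (sat T).mkQ_surjective z
    obtain ⟨f, hf, s, hs, rfl⟩ := Submodule.mem_sup.1 (h2 (Submodule.mem_top (x := y)))
    refine ⟨f, hf, ?_⟩
    rw [map_add, (Submodule.Quotient.mk_eq_zero _).2 (hle (hT hs)) |> (id : (sat T).mkQ s = 0 → _),
      add_zero]
  have : Module.IsTorsionFree ℤ (MonoidAlgebra ℤ Γ ⧸ sat T) := by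
    refine Module.IsTorsionFree.of_smul_eq_zero fun m z e => ?_
    obtain ⟨y, rfl⟩ := (sat T).mkQ_surjective z
    rw [← map_smul] at e
    obtain ⟨k, h3, h4⟩ := (Submodule.Quotient.mk_eq_zero _).1 e
    by_cases hm : m = 0
    · exact Or.inl hm
    · exact Or.inr ((Submodule.Quotient.mk_eq_zero _).2
        ⟨k * m, mul_ne_zero h3 hm, by rwa [mul_smul]⟩)
  let b := Module.finBasis ℤ (MonoidAlgebra ℤ Γ ⧸ sat T)
  let E := LinearMap.toMatrixAlgEquiv b
  refine ⟨_, (E.toAlgHom.toRingHom.toMonoidHom).comp ψ, fun α => ?_, fun α q hq i j => ?_⟩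
  · change E (ψ α) = 1 ↔ _
    rw [map_eq_one_iff E E.injective]
    refine ⟨fun e w => ?_, fun e => hof fun w => ?_⟩
    · have := hψ α (MonoidAlgebra.of ℤ Γ w)
      rw [e, act_of] at this
      exact (Submodule.Quotient.eq _).1 this.symm
    · rw [hψ, act_of]
      exact (Submodule.Quotient.eq _).2 (e w)
  · change (q : ℤ) ∣ ((E (ψ α) - 1) ^ c) i j - _
    have key : ∀ (k : ℕ) (y : MonoidAlgebra ℤ Γ), ∃ x, Nq q k x ∧
        ((ψ α - 1) ^ k) ((sat T).mkQ y) = (sat T).mkQ x := fun k y => by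
      induction k with
      | zero => exact ⟨y, ⟨0, jzero h _⟩, rfl⟩
      | succ k ih =>
        obtain ⟨x, h3, h4⟩ := ih
        refine ⟨_, nq_step h μ hq h3, ?_⟩
        rw [pow_succ', Module.End.mul_apply, h4, map_sub]
        rfl
    obtain ⟨y, hy⟩ := (sat T).mkQ_surjective (b j)
    obtain ⟨x, ⟨z, h3⟩, h4⟩ := key c y
    have h5 : (sat T).mkQ x = (q : ℤ) • (sat T).mkQ z := by
      rw [← map_smul]
      exact (Submodule.Quotient.eq _).2 (hle (hT h3))
    rw [← map_one E, ← map_sub, ← map_pow, LinearMap.toMatrixAlgEquiv_apply, ← hy, h4, h5, map_smul]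
    simp

end Pool.Agent.MP_54e5d7_al.atl

end
end MrgPart7

-- marker of a merged file
example : 731051 + 603207 = 731051 + 603207 := rfl
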