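import Pool.Agent.MP_54e5d7_al.atl.IW0

-- ======== part 0: formerly Pool.Agent.MP_54e5d7_al.atl.GEL
section MrgPart0

-- ======== part 0: formerly Pool.Agent.MP_54e5d7_al.atl.GEL1
section MrgPart0

/-!
Project ATL, row GEL, part 1: sizes of polynomials in several variables.
-/

set_option autoImplicit false

open MvPolynomial

noncomputable section
namespace Pool.Agent.MP_54e5d7_al.atl
namespace GelA

variable {s : ℕ}

lemma two_pow_le (n : ℕ) : (2 : ℝ) ^ n ≤ Real.exp n := by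
  rw [← mul_one (n : ℝ), Real.exp_nat_mul]
  exact pow_le_pow_left₀ (by norm_num) (by linarith [Real.add_one_le_exp 1]) n

lemma le_exp (x : ℝ) : x ≤ Real.exp x := by linarith [Real.add_one_le_exp x]

/-- the box of exponents -/
def box (s D : ℕ) : Finset (Fin s →₀ ℕ) :=
  (Fintype.piFinset fun _ : Fin s => Finset.range (D + 1)).map
    Finsupp.equivFunOnFinite.symm.toEmbedding

lemma supp_sub {R : Type} [CommSemiring R] (Q : MvPolynomial (Fin s) R) {D : ℕ}
    (h : Q.totalDegree ≤ D) : Q.support ⊆ box s D := by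
  intro m hm
  simp only [box, Finset.mem_map_equiv, Equiv.symm_symm, Fintype.mem_piFinset, Finset.mem_range]
  intro i
  have := (monomial_le_degreeOf i hm).trans ((degreeOf_le_totalDegree Q i).trans h)
  simp only [Finsupp.equivFunOnFinite_apply]
  omega

lemma card_supp {R : Type} [CommSemiring R] (Q : MvPolynomial (Fin s) R) :
    Q.support.card ≤ 2 ^ (s * Q.totalDegree) := by
  refine (Finset.card_le_card (supp_sub Q le_rfl)).trans ?_
  simp only [box, Finset.card_map, Fintype.card_piFinset, Finset.card_range, Finset.prod_const,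
    Finset.card_univ, Fintype.card_fin]
  rw [mul_comm, pow_mul]
  exact Nat.pow_le_pow_left Nat.lt_two_pow_self _

lemma ev_le (Q : MvPolynomial (Fin s) ℂ) : ∃ β : Fin s →₀ ℕ, (Q ≠ 0 → coeff β Q ≠ 0) ∧
    ∀ R : ℝ, 1 ≤ R → ∀ w : Fin s → ℂ, (∀ i, ‖w i‖ ≤ R) →
      ‖eval w Q‖ ≤ 2 ^ (s * Q.totalDegree) * R ^ Q.totalDegree * ‖coeff β Q‖ := by
  by_cases hQ : Q = 0
  · exact ⟨0, fun h => (h hQ).elim, fun R hR w _ => by simp [hQ]⟩
  obtain ⟨β, hβ, hm⟩ := Q.support.exists_max_image (fun m => ‖coeff m Q‖)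
    (support_nonempty.2 hQ)
  refine ⟨β, fun _ => mem_support_iff.1 hβ, fun R hR w hw => ?_⟩
  rw [eval_eq']
  refine (norm_sum_le _ _).trans ?_
  have h1 : ∀ m ∈ Q.support, ‖coeff m Q * ∏ i, w i ^ m i‖ ≤ R ^ Q.totalDegree * ‖coeff β Q‖ := by
    intro m hm'
    rw [norm_mul, mul_comm, norm_prod]
    refine mul_le_mul ?_ (hm m hm') (norm_nonneg _) (by positivity)
    calc ∏ i, ‖w i ^ m i‖ ≤ ∏ i, R ^ m i :=
          Finset.prod_le_prod (fun _ _ => norm_nonneg _) fun i _ => by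
            rw [norm_pow]; exact pow_le_pow_left₀ (norm_nonneg _) (hw i) _
      _ = R ^ ∑ i, m i := Finset.prod_pow_eq_pow_sum _ _ _
      _ ≤ R ^ Q.totalDegree := by
          refine pow_le_pow_right₀ hR ?_
          have := le_totalDegree hm'
          rwa [Finsupp.sum_fintype _ _ (fun _ => rfl)] at this
  refine (Finset.sum_le_card_nsmul _ _ _ h1).trans ?_
  rw [nsmul_eq_mul, mul_assoc]
  refine mul_le_mul_of_nonneg_right ?_ (by positivity)
  exact_mod_cast card_supp Q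

lemma coeff_le (h : GelfStmt) (Q : MvPolynomial (Fin s) ℂ) {B : ℝ}
    (hB : ∀ z : Fin s → ℂ, (∀ i, ‖z i‖ = 1) → ‖eval z Q‖ ≤ B) (β : Fin s →₀ ℕ) :
    ‖coeff β Q‖ ≤ 2 ^ (s * Q.totalDegree) * B := by
  obtain ⟨z, hz, h1⟩ := h s Unit (fun _ => Q) (fun _ => β)
  simp only [Finset.univ_unique, Finset.prod_singleton, Finset.sum_singleton] at h1
  exact h1.trans (mul_le_mul_of_nonneg_left (hB z hz) (by positivity))

/-- affine substitution -/
def aff (c : Fin s → ℂ) (r : ℂ) (Q : MvPolynomial (Fin s) ℂ) : MvPolynomial (Fin s) ℂ :=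
  aeval (fun i => (C (c i) + C r * X i : MvPolynomial (Fin s) ℂ)) Q

lemma eval_aff (c : Fin s → ℂ) (r : ℂ) (Q : MvPolynomial (Fin s) ℂ) (w : Fin s → ℂ) :
    eval w (aff c r Q) = eval (fun i => c i + r * w i) Q := by
  induction Q using MvPolynomial.induction_on with
  | C a => simp [aff]
  | add p q hp hq => simp only [aff, map_add] at hp hq ⊢; rw [hp, hq]
  | mul_X p i hp => simp only [aff, map_mul] at hp ⊢; rw [hp]; simp

lemma deg_aff (c : Fin s → ℂ) (r : ℂ) (Q : MvPolynomial (Fin s) ℂ) :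
    (aff c r Q).totalDegree ≤ Q.totalDegree := by
  rw [aff, aeval_def, eval₂_eq']
  refine totalDegree_finsetSum_le fun m hm => ?_
  refine (totalDegree_mul _ _).trans ?_
  rw [algebraMap_eq, totalDegree_C, zero_add]
  refine (totalDegree_finsetProd _ _).trans ?_
  have h1 := le_totalDegree hm
  rw [Finsupp.sum_fintype _ _ (fun _ => rfl)] at h1
  refine le_trans (Finset.sum_le_sum fun i _ => (totalDegree_pow _ _).trans ?_) h1
  have : (C (c i) + C r * X i : MvPolynomial (Fin s) ℂ).totalDegree ≤ 1 := by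
    refine (totalDegree_add _ _).trans (max_le (by simp) ?_)
    refine (totalDegree_mul _ _).trans ?_
    simp
  calc m i * _ ≤ m i * 1 := Nat.mul_le_mul_left _ this
    _ = m i := mul_one _

/-- one point at which all the factors are large -/
lemma mult (h : GelfStmt) (L : Type) [Fintype L] (Q : L → MvPolynomial (Fin s) ℂ)
    (c : Fin s → ℂ) {r : ℝ} (hr : 0 < r) (y : L → Fin s → ℂ) (hy : ∀ l i, ‖y l i - c i‖ ≤ r) :
    ∃ z : Fin s → ℂ, (∀ i, ‖z i - c i‖ ≤ r) ∧ ∏ l, ‖eval (y l) (Q l)‖ ≤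
      Real.exp (2 * s * ∑ l, ((Q l).totalDegree : ℝ)) * ∏ l, ‖eval z (Q l)‖ := by
  choose β _ hβ using fun l => ev_le (aff c r (Q l))
  obtain ⟨w, hw, h1⟩ := h s L (fun l => aff c r (Q l)) β
  have hr' : (r : ℂ) ≠ 0 := by exact_mod_cast hr.ne'
  refine ⟨fun i => c i + r * w i, fun i => ?_, ?_⟩
  · simp [hw i, abs_of_pos hr]
  have h2 : ∀ l, ‖eval (y l) (Q l)‖ ≤
      2 ^ (s * (Q l).totalDegree) * ‖coeff (β l) (aff c r (Q l))‖ := by
    intro l
    have h3 := hβ l 1 le_rfl (fun i => (y l i - c i) / r) (fun i => by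
      rw [norm_div, Complex.norm_real, Real.norm_of_nonneg hr.le, div_le_one hr]; exact hy l i)
    rw [eval_aff, one_pow, mul_one] at h3
    have e : (fun i => c i + r * ((y l i - c i) / r)) = y l := by
      funext i; field_simp; ring
    rw [e] at h3
    refine h3.trans (mul_le_mul_of_nonneg_right ?_ (norm_nonneg _))
    exact pow_le_pow_right₀ (by norm_num) (Nat.mul_le_mul_left _ (deg_aff _ _ _))
  have h4 : (2 : ℝ) ^ (s * ∑ l, (aff c r (Q l)).totalDegree) ≤
      2 ^ (s * ∑ l, (Q l).totalDegree) :=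
    pow_le_pow_right₀ (by norm_num)
      (Nat.mul_le_mul_left _ (Finset.sum_le_sum fun l _ => deg_aff _ _ _))
  have h5 : (2 : ℝ) ^ (s * ∑ l, (Q l).totalDegree) ≤
      Real.exp (s * ∑ l, ((Q l).totalDegree : ℝ)) := by
    have := two_pow_le (s * ∑ l, (Q l).totalDegree)
    push_cast at this
    exact this
  simp only [eval_aff] at h1
  calc ∏ l, ‖eval (y l) (Q l)‖
      ≤ ∏ l, 2 ^ (s * (Q l).totalDegree) * ‖coeff (β l) (aff c r (Q l))‖ :=
        Finset.prod_le_prod (fun _ _ => norm_nonneg _) fun l _ => h2 l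
    _ = 2 ^ (s * ∑ l, (Q l).totalDegree) * ∏ l, ‖coeff (β l) (aff c r (Q l))‖ := by
        rw [Finset.prod_mul_distrib, Finset.prod_pow_eq_pow_sum, Finset.mul_sum]
    _ ≤ Real.exp (s * ∑ l, ((Q l).totalDegree : ℝ)) *
          (Real.exp (s * ∑ l, ((Q l).totalDegree : ℝ)) *
            ∏ l, ‖eval (fun i => c i + r * w i) (Q l)‖) := by
        refine mul_le_mul h5 (h1.trans ?_) (by positivity) (by positivity)
        exact mul_le_mul_of_nonneg_right (h4.trans h5) (by positivity)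
    _ = _ := by rw [← mul_assoc, ← Real.exp_add]; congr 2; ring

/-- the complex polynomial attached to an integer polynomial -/
def pc (P : MvPolynomial (Fin s) ℤ) : MvPolynomial (Fin s) ℂ := map (algebraMap ℤ ℂ) P

lemma eval_pc (P : MvPolynomial (Fin s) ℤ) (z : Fin s → ℂ) : eval z (pc P) = aeval z P := by
  rw [pc, eval_map, aeval_def]

lemma coeff_pc (P : MvPolynomial (Fin s) ℤ) (m : Fin s →₀ ℕ) :
    coeff m (pc P) = ((coeff m P : ℤ) : ℂ) := by simp [pc, coeff_map]

lemma deg_pc (P : MvPolynomial (Fin s) ℤ) : (pc P).totalDegree ≤ P.totalDegree :=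
  Finset.sup_mono (support_map_subset _ _)

lemma pc_ne {P : MvPolynomial (Fin s) ℤ} (hP : P ≠ 0) : pc P ≠ 0 := fun h =>
  hP (map_injective _ (algebraMap ℤ ℂ).injective_int (by rw [map_zero]; exact h))

lemma one_le_int {n : ℤ} (h : (n : ℂ) ≠ 0) : 1 ≤ ‖(n : ℂ)‖ := by
  rw [Complex.norm_intCast]
  have : n ≠ 0 := by exact_mod_cast h
  exact_mod_cast Int.one_le_abs this

/-- size of an integer polynomial -/
def Sz (P : MvPolynomial (Fin s) ℤ) (T : ℝ) : Prop :=
  (P.totalDegree : ℝ) ≤ T ∧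
    ∀ z : Fin s → ℂ, (∀ i, ‖z i‖ = 1) → ‖aeval z P‖ ≤ Real.exp T

lemma Sz.nonneg {P : MvPolynomial (Fin s) ℤ} {T : ℝ} (h : Sz P T) : 0 ≤ T :=
  (Nat.cast_nonneg _).trans h.1

lemma Sz.pow_le {P : MvPolynomial (Fin s) ℤ} {T : ℝ} (h : Sz P T) :
    (2 : ℝ) ^ (s * (pc P).totalDegree) ≤ Real.exp (s * T) := by
  refine (two_pow_le _).trans (Real.exp_le_exp.2 ?_)
  push_cast
  exact mul_le_mul_of_nonneg_left (le_trans (by exact_mod_cast deg_pc P) h.1) (by positivity)

lemma Sz.coeff (h : GelfStmt) {P : MvPolynomial (Fin s) ℤ} {T : ℝ} (hP : Sz P T)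
    (m : Fin s →₀ ℕ) : ‖coeff m (pc P)‖ ≤ Real.exp ((s + 1) * T) := by
  refine (coeff_le h (pc P) (B := Real.exp T) (fun z hz => by
    rw [eval_pc]; exact hP.2 z hz) m).trans ?_
  rw [add_mul, one_mul, Real.exp_add]
  exact mul_le_mul_of_nonneg_right hP.pow_le (Real.exp_pos _).le

lemma Sz.big (h : GelfStmt) {P : MvPolynomial (Fin s) ℤ} {T : ℝ} (hP : Sz P T) {R : ℝ}
    (hR : 1 ≤ R) (w : Fin s → ℂ) (hw : ∀ i, ‖w i‖ ≤ R) :
    ‖aeval w P‖ ≤ Real.exp ((2 * s + 1 + R) * T) := by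
  obtain ⟨β, -, hβ⟩ := ev_le (pc P)
  have h1 := hβ R hR w hw
  rw [eval_pc] at h1
  refine h1.trans ?_
  have h2 : R ^ (pc P).totalDegree ≤ Real.exp (R * T) := by
    refine (pow_le_pow_left₀ (by linarith) (le_exp R) _).trans ?_
    rw [← Real.exp_nat_mul, mul_comm]
    exact Real.exp_le_exp.2 (mul_le_mul_of_nonneg_left
      (le_trans (by exact_mod_cast deg_pc P) hP.1) (by linarith))
  calc _ ≤ Real.exp (s * T) * Real.exp (R * T) * Real.exp ((s + 1) * T) :=
        mul_le_mul (mul_le_mul hP.pow_le h2 (by positivity) (by positivity)) (hP.coeff h β)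
          (norm_nonneg _) (by positivity)
    _ = _ := by rw [← Real.exp_add, ← Real.exp_add]; congr 1; ring

lemma finite_sz (h : GelfStmt) (K : ℝ) :
    {P : MvPolynomial (Fin s) ℤ | ∃ T, T ≤ K ∧ Sz P T}.Finite := by
  let B : ℤ := ⌈Real.exp ((s + 1) * K)⌉
  let f : MvPolynomial (Fin s) ℤ → (box s ⌈K⌉₊ → ℤ) := fun P m => coeff m.1 P
  refine Set.Finite.of_finite_image (f := f)
    ((Set.Finite.pi' (t := fun _ : box s ⌈K⌉₊ => Set.Icc (-B) B)
      fun _ => Set.finite_Icc _ _).subset ?_) ?_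
  · rintro _ ⟨P, ⟨T, hT, hP⟩, rfl⟩ m
    have h1 := hP.coeff h m.1
    rw [coeff_pc, Complex.norm_intCast] at h1
    have h2 : Real.exp ((s + 1) * T) ≤ B :=
      (Real.exp_le_exp.2 (mul_le_mul_of_nonneg_left hT (by positivity))).trans (Int.le_ceil _)
    have h3 : |coeff m.1 P| ≤ B := by exact_mod_cast h1.trans h2
    exact abs_le.1 h3
  · rintro P ⟨T, hT, hP⟩ P' ⟨T', hT', hP'⟩ e
    have a : ∀ (P : MvPolynomial (Fin s) ℤ) T, T ≤ K → Sz P T → P.support ⊆ box s ⌈K⌉₊ :=
      fun P T hT hP => supp_sub P (by exact_mod_cast (hP.1.trans hT).trans (Nat.le_ceil K))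
    ext m
    by_cases hm : m ∈ box s ⌈K⌉₊
    · exact congrFun e ⟨m, hm⟩
    · rw [notMem_support_iff.1 fun h => hm (a P T hT hP h),
        notMem_support_iff.1 fun h => hm (a P' T' hT' hP' h)]

lemma const_ge {P : MvPolynomial (Fin s) ℤ} (hP : P ≠ 0) (h0 : P.totalDegree = 0)
    (z : Fin s → ℂ) : 1 ≤ ‖aeval z P‖ := by
  rw [totalDegree_eq_zero_iff_eq_C] at h0
  rw [h0] at hP ⊢
  rw [aeval_C]
  refine one_le_int (n := coeff 0 P) ?_
  have : coeff 0 P ≠ 0 := fun h => hP (by rw [h, map_zero])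
  exact_mod_cast this

/-- polynomials of bounded size -/
lemma small (h : GelfStmt) {lm : Fin s → ℂ} (hlm : AlgebraicIndependent ℤ lm) {η : ℝ}
    (hη : 0 < η) (K : ℝ) : ∃ r₀ : ℝ, 0 < r₀ ∧ ∀ r : ℝ, 0 < r → r ≤ r₀ →
      ∀ (T : ℝ) (P : MvPolynomial (Fin s) ℤ), P ≠ 0 → Sz P T → T ≤ K →
        r ^ (η * T) ≤ ‖aeval lm P‖ := by
  have hf : {P : MvPolynomial (Fin s) ℤ | P ≠ 0 ∧ ∃ T, T ≤ K ∧ Sz P T}.Finite :=
    (finite_sz (s := s) h K).subset fun P hP => hP.2
  obtain ⟨m, hm, hm'⟩ : ∃ m : ℝ, 0 < m ∧ ∀ P : MvPolynomial (Fin s) ℤ, P ≠ 0 →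
      (∃ T, T ≤ K ∧ Sz P T) → m ≤ ‖aeval lm P‖ := by
    rcases Set.eq_empty_or_nonempty {P : MvPolynomial (Fin s) ℤ | P ≠ 0 ∧ ∃ T, T ≤ K ∧ Sz P T}
      with he | hne
    · exact ⟨1, one_pos, fun P h1 h2 => (Set.eq_empty_iff_forall_notMem.1 he P ⟨h1, h2⟩).elim⟩
    · obtain ⟨P₀, hP₀, hmin⟩ := Set.exists_min_image _ (fun P => ‖aeval lm P‖) hf hne
      refine ⟨‖aeval lm P₀‖, norm_pos_iff.2 fun e => hP₀.1 ?_, fun P h1 h2 => hmin P ⟨h1, h2⟩⟩
      exact hlm (by rw [e, map_zero])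
  refine ⟨min 1 (m ^ η⁻¹), lt_min one_pos (Real.rpow_pos_of_pos hm _),
    fun r hr hr0 T P hP hS hT => ?_⟩
  have hr1 : r ≤ 1 := hr0.trans (min_le_left _ _)
  by_cases h1 : T < 1
  · have h0 : P.totalDegree = 0 := by
      have : (P.totalDegree : ℝ) < 1 := hS.1.trans_lt h1
      have : P.totalDegree < 1 := by exact_mod_cast this
      omega
    exact (Real.rpow_le_one hr.le hr1 (mul_nonneg hη.le hS.nonneg)).trans (const_ge hP h0 lm)
  · calc r ^ (η * T) ≤ r ^ η :=
          Real.rpow_le_rpow_of_exponent_ge hr hr1 (by nlinarith [not_lt.1 h1])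
      _ ≤ (m ^ η⁻¹) ^ η := Real.rpow_le_rpow hr.le (hr0.trans (min_le_right _ _)) hη.le
      _ = m := Real.rpow_inv_rpow hm.le hη.ne'
      _ ≤ _ := hm' P hP ⟨T, hT, hS⟩

end GelA
end Pool.Agent.MP_54e5d7_al.atl

end
end MrgPart0

-- ======== part 1: formerly Pool.Agent.MP_54e5d7_al.atl.GEL2
section MrgPart1

/-!
Project ATL, row GEL, part 2: one variable estimates and resultants.
-/

set_option autoImplicit false

open Polynomial

noncomputable section
namespace Pool.Agent.MP_54e5d7_al.atl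
namespace GelA

lemma coef_unit (p : ℂ[X]) {B : ℝ} (hB : ∀ y : ℂ, ‖y‖ = 1 → ‖p.eval y‖ ≤ B) (i : ℕ) :
    ‖p.coeff i‖ ≤ B := by
  have hB0 : 0 ≤ B := (norm_nonneg _).trans (hB 1 norm_one)
  by_cases hi : i ∈ p.support
  · have h1 := p.sum_sq_norm_coeff_eq_circleAverage
    have h2 : Real.circleAverage (fun θ => ‖p.eval θ‖ ^ 2) 0 1 ≤ B ^ 2 := by
      refine Real.circleAverage_mono_on_of_le_circle
        (ContinuousOn.circleIntegrable' (Continuous.continuousOn (by fun_prop))) fun x hx => ?_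
      exact pow_le_pow_left₀ (norm_nonneg _) (hB x (by simpa using hx)) 2
    have h3 : ‖p.coeff i‖ ^ 2 ≤ ∑ j ∈ p.support, ‖p.coeff j‖ ^ 2 :=
      Finset.single_le_sum (f := fun j => ‖p.coeff j‖ ^ 2) (fun _ _ => by positivity) hi
    exact (pow_le_pow_iff_left₀ (norm_nonneg _) hB0 two_ne_zero).1 (h3.trans (h1.le.trans h2))
  · rw [notMem_support_iff.1 hi, norm_zero]; exact hB0

lemma coef_disc (q : ℂ[X]) (c : ℂ) {ρ B : ℝ} (hρ : 0 < ρ)
    (hB : ∀ y : ℂ, ‖y - c‖ ≤ ρ → ‖q.eval y‖ ≤ B) (i : ℕ) :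
    ‖(taylor c q).coeff i‖ * ρ ^ i ≤ B := by
  have := coef_unit ((taylor c q).comp (C (ρ : ℂ) * X)) (B := B) (fun y hy => by
    rw [eval_comp, taylor_eval]
    exact hB _ (by simp [hy, abs_of_pos hρ])) i
  rwa [comp_C_mul_X_coeff, norm_mul, norm_pow, Complex.norm_real, Real.norm_of_nonneg hρ.le]
    at this

lemma coeff_taylor_top (q : ℂ[X]) (c : ℂ) {d : ℕ} (h : q.natDegree ≤ d) :
    (taylor c q).coeff d = q.coeff d := by
  rcases h.eq_or_lt with h | h
  · rw [← h, coeff_taylor_natDegree, leadingCoeff]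
  · rw [coeff_eq_zero_of_natDegree_lt h,
      coeff_eq_zero_of_natDegree_lt (by rwa [natDegree_taylor])]

lemma res_taylor (f g : ℂ[X]) (c : ℂ) {m n : ℕ} (hf : f.natDegree ≤ m) (hg : g.natDegree ≤ n) :
    resultant (taylor c f) (taylor c g) m n = resultant f g m n := by
  obtain ⟨k, rfl⟩ := Nat.exists_eq_add_of_le hf
  have h0 := resultant_taylor f g c
  rw [natDegree_taylor, natDegree_taylor] at h0
  rw [resultant_add_left_deg _ _ _ _ _ (natDegree_taylor f c).le,
    resultant_add_left_deg _ _ _ _ _ le_rfl, coeff_taylor_top g c hg]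
  obtain ⟨l, rfl⟩ := Nat.exists_eq_add_of_le hg
  rw [resultant_add_right_deg _ _ _ _ _ (natDegree_taylor g c).le,
    resultant_add_right_deg _ _ _ _ _ le_rfl, coeff_taylor_top f c le_rfl, h0]

lemma taylor_der (q : ℂ[X]) (c : ℂ) : taylor c (derivative q) = derivative (taylor c q) := by
  simp [taylor_apply, derivative_comp]

lemma det_rows {N : ℕ} (A : Matrix (Fin N) (Fin N) ℂ) (b : Fin N → ℝ)
    (h : ∀ i j, ‖A i j‖ ≤ b i) : ‖A.det‖ ≤ (N : ℝ) ^ N * ∏ i, b i := by
  rw [Matrix.det_apply']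
  refine (norm_sum_le _ _).trans ?_
  have h1 : ∀ σ ∈ (Finset.univ : Finset (Equiv.Perm (Fin N))),
      ‖((Equiv.Perm.sign σ : ℤ) : ℂ) * ∏ i, A (σ i) i‖ ≤ ∏ i, b i := by
    intro σ _
    have : ‖((Equiv.Perm.sign σ : ℤ) : ℂ)‖ = 1 := by
      rcases Int.units_eq_one_or (Equiv.Perm.sign σ) with e | e <;> simp [e]
    rw [norm_mul, this, one_mul, norm_prod, ← Equiv.prod_comp σ b]
    exact Finset.prod_le_prod (fun _ _ => norm_nonneg _) fun i _ => h _ _
  refine (Finset.sum_le_card_nsmul _ _ _ h1).trans ?_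
  rw [nsmul_eq_mul, Finset.card_univ, Fintype.card_perm, Fintype.card_fin]
  refine mul_le_mul_of_nonneg_right (by exact_mod_cast Nat.factorial_le_pow N)
    (Finset.prod_nonneg fun i _ => (norm_nonneg _).trans (h i i))

lemma syl_entry {R : Type} [CommRing R] (f g : R[X]) (m n : ℕ) (i j : Fin (m + n)) :
    sylvester f g m n i j = 0 ∨ ∃ e ≤ (i : ℕ),
      sylvester f g m n i j = f.coeff e ∨ sylvester f g m n i j = g.coeff e := by
  induction j using Fin.addCases with
  | left j =>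
    simp only [sylvester, Matrix.of_apply, Fin.addCases_left]
    split_ifs
    · exact Or.inr ⟨_, Nat.sub_le _ _, Or.inr rfl⟩
    · exact Or.inl rfl
  | right j =>
    simp only [sylvester, Matrix.of_apply, Fin.addCases_right]
    split_ifs
    · exact Or.inr ⟨_, Nat.sub_le _ _, Or.inl rfl⟩
    · exact Or.inl rfl

/-- the resultant of a polynomial with small low coefficients and its derivative -/
lemma res_le (p : ℂ[X]) {m n k : ℕ} {t b ε : ℝ} (hp : p.natDegree ≤ m) (hm : (m : ℝ) ≤ t)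
    (hn : n ≤ m) (hk : k ≤ m) (hb : 0 ≤ b) (hε : 0 ≤ ε)
    (h1 : ∀ e, ‖p.coeff e‖ ≤ Real.exp (b * t)) (h2 : ∀ e ≤ k, ‖p.coeff e‖ ≤ Real.exp (b * t) * ε) :
    ‖resultant p (derivative p) m n‖ ≤ Real.exp (2 * (b + 3) * t ^ 2) * ε ^ k := by
  have ht : 0 ≤ t := (Nat.cast_nonneg m).trans hm
  have hE : 1 ≤ Real.exp t := Real.one_le_exp ht
  have key : ∀ (w : ℝ) (i : ℕ), 0 ≤ w → (∀ e ≤ i + 1, ‖p.coeff e‖ ≤ w) → ∀ e ≤ i,
      ‖p.coeff e‖ ≤ Real.exp t * w ∧ ‖(derivative p).coeff e‖ ≤ Real.exp t * w := by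
    intro w i hw h e he
    refine ⟨(h e (by omega)).trans (le_mul_of_one_le_left hw hE), ?_⟩
    by_cases hd : e + 1 ≤ m
    · rw [coeff_derivative, norm_mul, mul_comm]
      refine mul_le_mul ?_ (h _ (by omega)) (norm_nonneg _) (by positivity)
      have : ((e : ℂ) + 1) = ((e + 1 : ℕ) : ℂ) := by push_cast; ring
      rw [this, Complex.norm_natCast]
      exact le_trans (by exact_mod_cast hd) (hm.trans (le_exp t))
    · rw [coeff_derivative, coeff_eq_zero_of_natDegree_lt (by omega), zero_mul, norm_zero]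
      positivity
  have h3 := det_rows (sylvester p (derivative p) m n)
    (fun i => Real.exp t * (Real.exp (b * t) * if (i : ℕ) < k then ε else 1)) (fun i j => by
      have hw : 0 ≤ Real.exp (b * t) * if (i : ℕ) < k then ε else 1 := by
        split_ifs <;> positivity
      have h4 := key _ i hw (fun e he => by
        split_ifs with hi
        · exact h2 e (by omega)
        · rw [mul_one]; exact h1 e)
      rcases syl_entry p (derivative p) m n i j with h | ⟨e, he, h | h⟩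
      · rw [h, norm_zero]; positivity
      · rw [h]; exact (h4 e he).1
      · rw [h]; exact (h4 e he).2)
  refine h3.trans ?_
  have hc : ∏ i : Fin (m + n), (if (i : ℕ) < k then ε else 1) = ε ^ k := by
    rw [Finset.prod_ite, Finset.prod_const_one, mul_one, Finset.prod_const, Fin.card_filter_val_lt,
      min_eq_right (by omega)]
  rw [Finset.prod_mul_distrib, Finset.prod_mul_distrib, hc, Finset.prod_const, Finset.prod_const,
    Finset.card_univ, Fintype.card_fin, ← mul_assoc, ← mul_assoc, ← mul_pow, ← mul_pow]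
  refine mul_le_mul_of_nonneg_right ?_ (by positivity)
  have hN : ((m + n : ℕ) : ℝ) ≤ 2 * t := by
    have : (n : ℝ) ≤ m := by exact_mod_cast hn
    push_cast; linarith
  calc (((m + n : ℕ) : ℝ) * Real.exp t * Real.exp (b * t)) ^ (m + n)
      ≤ (Real.exp (2 * t) * Real.exp t * Real.exp (b * t)) ^ (m + n) := by
        gcongr; exact hN.trans (le_exp _)
    _ = Real.exp (((m + n : ℕ) : ℝ) * ((b + 3) * t)) := by
        rw [← Real.exp_add, ← Real.exp_add, Real.exp_nat_mul]; congr 2; ring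
    _ ≤ _ := by
        have h5 := mul_le_mul_of_nonneg_right hN (show 0 ≤ (b + 3) * t by positivity)
        exact Real.exp_le_exp.2 (h5.trans (le_of_eq (by ring)))

lemma res_ne {A : Type} [CommRing A] [IsDomain A] [CharZero A] [UniqueFactorizationMonoid A]
    {F : A[X]} (hF : Irreducible F) (hd : F.natDegree ≠ 0) :
    resultant F (derivative F) F.natDegree (derivative F).natDegree ≠ 0 := by
  let K := FractionRing A
  have hi : Function.Injective (algebraMap A K) := IsFractionRing.injective _ _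
  have h1 : Irreducible (F.map (algebraMap A K)) :=
    (IsPrimitive.irreducible_iff_irreducible_map_fraction_map (hF.isPrimitive hd)).1 hF
  have h2 := resultant_ne_zero _ _ h1.separable
  rw [derivative_map, natDegree_map_eq_of_injective hi, natDegree_map_eq_of_injective hi,
    resultant_map_map] at h2
  exact fun e => h2 (by rw [e, map_zero])

lemma deg_det {s N D : ℕ} (A : Matrix (Fin N) (Fin N) (MvPolynomial (Fin s) ℤ))
    (h : ∀ i j, (A i j).totalDegree ≤ D) : A.det.totalDegree ≤ N * D := by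
  rw [Matrix.det_apply]
  refine MvPolynomial.totalDegree_finsetSum_le fun σ _ => ?_
  refine (MvPolynomial.totalDegree_smul_le _ _).trans ?_
  refine (MvPolynomial.totalDegree_finsetProd _ _).trans ?_
  refine (Finset.sum_le_card_nsmul _ _ D fun i _ => h _ _).trans ?_
  simp

end GelA
end Pool.Agent.MP_54e5d7_al.atl

end
end MrgPart1

-- ======== part 2: formerly Pool.Agent.MP_54e5d7_al.atl.GEL
section MrgPart2

/-!
Project ATL, row GEL: integer polynomials are not too small on a polydisc around an algebraically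
independent point.
-/

set_option autoImplicit false

open MvPolynomial

noncomputable section
namespace Pool.Agent.MP_54e5d7_al.atl
namespace GelA

variable {s : ℕ}

/-- the statement for the polynomials with the property `A` -/
def Low (A : MvPolynomial (Fin s) ℤ → Prop) (lm : Fin s → ℂ) : Prop :=
  ∀ η : ℝ, 0 < η → ∃ r₀ : ℝ, 0 < r₀ ∧ ∀ r : ℝ, 0 < r → r ≤ r₀ →
    ∀ (T : ℝ) (P : MvPolynomial (Fin s) ℤ), P ≠ 0 → A P → Sz P T →
      ∃ z : Fin s → ℂ, (∀ i, ‖z i - lm i‖ ≤ r) ∧ r ^ (η * T) ≤ ‖aeval z P‖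

/-- irreducible or a unit -/
def Atom (P : MvPolynomial (Fin s) ℤ) : Prop := Irreducible P ∨ IsUnit P

lemma exists_atoms (P : MvPolynomial (Fin s) ℤ) (hP : P ≠ 0) :
    ∃ (n : ℕ) (Q : Fin n → MvPolynomial (Fin s) ℤ), (∀ l, Q l ≠ 0 ∧ Atom (Q l)) ∧
      ∏ l, Q l = P ∧ ∑ l, (Q l).totalDegree = P.totalDegree := by
  induction P using WfDvdMonoid.induction_on_irreducible with
  | zero => exact (hP rfl).elim
  | unit u hu => exact ⟨1, fun _ => u, fun _ => ⟨hP, Or.inr hu⟩, by simp, by simp⟩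
  | mul a i ha hi ih =>
    obtain ⟨n, Q, h1, h2, h3⟩ := ih ha
    refine ⟨n + 1, Fin.cons i Q, fun l => ?_, ?_, ?_⟩
    · induction l using Fin.cases with
      | zero => exact ⟨hi.ne_zero, Or.inl hi⟩
      | succ l => exact h1 l
    · rw [Fin.prod_univ_succ]; simp [h2]
    · rw [Fin.sum_univ_succ, totalDegree_mul_of_isDomain hi.ne_zero ha]; simp [h3]

lemma exists_size (Q : MvPolynomial (Fin s) ℤ) (hQ : Q ≠ 0) : ∃ β : Fin s →₀ ℕ,
    1 ≤ ‖coeff β (pc Q)‖ ∧
      Sz Q ((s + 1) * (Q.totalDegree : ℝ) + Real.log ‖coeff β (pc Q)‖) := by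
  obtain ⟨β, h1, h2⟩ := ev_le (pc Q)
  have h3 : 1 ≤ ‖coeff β (pc Q)‖ := by
    have := h1 (pc_ne hQ)
    rw [coeff_pc] at this ⊢
    exact one_le_int this
  have h4 := Real.log_nonneg h3
  have h5 : (0 : ℝ) ≤ s * Q.totalDegree := by positivity
  refine ⟨β, h3, by linarith, fun z hz => ?_⟩
  have h6 := h2 1 le_rfl z fun i => (hz i).le
  rw [eval_pc, one_pow, mul_one] at h6
  rw [Real.exp_add, Real.exp_log (by linarith)]
  refine h6.trans (mul_le_mul_of_nonneg_right ((two_pow_le _).trans (Real.exp_le_exp.2 ?_))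
    (norm_nonneg _))
  have h7 : ((pc Q).totalDegree : ℝ) ≤ Q.totalDegree := by exact_mod_cast deg_pc Q
  push_cast
  nlinarith [mul_le_mul_of_nonneg_left h7 (Nat.cast_nonneg (α := ℝ) s),
    Nat.cast_nonneg (α := ℝ) Q.totalDegree]

lemma log_le_of {r x : ℝ} (hr : 0 < r) (h : r ≤ Real.exp (-x)) : Real.log r ≤ -x :=
  (Real.log_le_iff_le_exp hr).2 h

/-- from atoms to all polynomials -/
lemma low_of_atom (h : GelfStmt) {lm : Fin s → ℂ} (hA : Low Atom lm) :
    Low (fun _ => True) lm := by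
  intro η hη
  have hs : (0 : ℝ) < 2 * s + 2 := by positivity
  obtain ⟨r₀, hr₀, H⟩ := hA (η / 2 / (2 * s + 2)) (by positivity)
  refine ⟨min r₀ (Real.exp (-(4 * s / η))), lt_min hr₀ (Real.exp_pos _),
    fun r hr hr0 T P hP _ hS => ?_⟩
  have hL := log_le_of hr (hr0.trans (min_le_right _ _))
  have hL0 : Real.log r ≤ 0 := hL.trans (neg_nonpos.2 (by positivity))
  obtain ⟨n, Q, hQ, hprod, hdeg⟩ := exists_atoms P hP
  choose β hβ1 hβ using fun l => exists_size (Q l) (hQ l).1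
  choose y hy hy' using fun l =>
    H r hr (hr0.trans (min_le_left _ _)) _ (Q l) (hQ l).1 (hQ l).2 (hβ l)
  have hdeg' : ∑ l, ((Q l).totalDegree : ℝ) ≤ T := by
    have : ∑ l, ((Q l).totalDegree : ℝ) = P.totalDegree := by exact_mod_cast hdeg
    exact this.le.trans hS.1
  have hdc : ∑ l, ((pc (Q l)).totalDegree : ℝ) ≤ T :=
    (Finset.sum_le_sum fun l _ => by exact_mod_cast deg_pc (Q l)).trans hdeg'
  have hev : ∀ z : Fin s → ℂ, ∏ l, ‖eval z (pc (Q l))‖ = ‖aeval z P‖ := by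
    intro z
    rw [← hprod, map_prod, norm_prod]
    simp only [eval_pc]
  have hlog : ∑ l, Real.log ‖coeff (β l) (pc (Q l))‖ ≤ (s + 1) * T := by
    obtain ⟨z, hz, h1⟩ := h s (Fin n) (fun l => pc (Q l)) β
    rw [hev] at h1
    rw [← Real.log_prod fun l _ => (one_pos.trans_le (hβ1 l)).ne',
      Real.log_le_iff_le_exp (Finset.prod_pos fun l _ => one_pos.trans_le (hβ1 l)), add_mul,
      one_mul, Real.exp_add]
    refine h1.trans (mul_le_mul ((two_pow_le _).trans (Real.exp_le_exp.2 ?_)) (hS.2 z hz)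
      (norm_nonneg _) (Real.exp_pos _).le)
    push_cast
    exact mul_le_mul_of_nonneg_left hdc (by positivity)
  obtain ⟨z, hz, h1⟩ := mult h (Fin n) (fun l => pc (Q l)) lm hr y hy
  refine ⟨z, hz, ?_⟩
  rw [hev] at h1
  have h2 : r ^ (η / 2 * T) ≤ ∏ l, ‖eval (y l) (pc (Q l))‖ := by
    refine le_trans ?_ (Finset.prod_le_prod (fun l _ => (Real.rpow_pos_of_pos hr _).le)
      fun l _ => (hy' l).trans (eval_pc _ _ ▸ le_rfl))
    rw [← Real.rpow_sum_of_pos hr, ← Finset.mul_sum, Finset.sum_add_distrib, ← Finset.mul_sum]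
    refine Real.rpow_le_rpow_of_exponent_ge hr ((Real.log_nonpos_iff hr.le).1 hL0) ?_
    have h3 : (s + 1) * ∑ l, ((Q l).totalDegree : ℝ) ≤ (s + 1) * T :=
      mul_le_mul_of_nonneg_left hdeg' (by positivity)
    calc η / 2 / (2 * s + 2) * _ ≤ η / 2 / (2 * s + 2) * ((2 * s + 2) * T) :=
          mul_le_mul_of_nonneg_left (by linarith) (by positivity)
      _ = η / 2 * T := by field_simp
  have h3 : Real.exp (2 * s * ∑ l, ((pc (Q l)).totalDegree : ℝ)) ≤ Real.exp (2 * s * T) :=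
    Real.exp_le_exp.2 (mul_le_mul_of_nonneg_left hdc (by positivity))
  have h4 := h2.trans (h1.trans (mul_le_mul_of_nonneg_right h3 (norm_nonneg _)))
  refine le_of_mul_le_mul_left (le_trans ?_ h4) (Real.exp_pos (2 * s * T))
  rw [Real.rpow_def_of_pos hr, Real.rpow_def_of_pos hr, ← Real.exp_add, Real.exp_le_exp]
  have h5 : Real.log r * η ≤ -(4 * s) := by
    have := mul_le_mul_of_nonneg_right hL hη.le
    rwa [neg_mul, div_mul_cancel₀ _ hη.ne'] at this
  nlinarith [mul_le_mul_of_nonneg_right h5 hS.nonneg]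

/-- the one variable polynomial obtained by fixing the other variables -/
def sl (Q : MvPolynomial (Fin (s + 1)) ℤ) (z : Fin s → ℂ) : Polynomial ℂ :=
  (finSuccEquiv ℤ s Q).map (aeval z : MvPolynomial (Fin s) ℤ →ₐ[ℤ] ℂ).toRingHom

lemma eval_sl (Q : MvPolynomial (Fin (s + 1)) ℤ) (z : Fin s → ℂ) (y : ℂ) :
    (sl Q z).eval y = aeval (Fin.cons y z : Fin (s + 1) → ℂ) Q := by
  induction Q using MvPolynomial.induction_on with
  | C a => simp [sl]
  | add p q hp hq => simp only [sl, map_add, Polynomial.map_add, Polynomial.eval_add] at hp hq ⊢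
                     rw [hp, hq]
  | mul_X p i hp =>
    simp only [sl, map_mul, Polynomial.map_mul, Polynomial.eval_mul] at hp ⊢
    rw [hp]
    induction i using Fin.cases with
    | zero => simp [finSuccEquiv_X_zero]
    | succ i => simp [finSuccEquiv_X_succ]

lemma coeff_sl (Q : MvPolynomial (Fin (s + 1)) ℤ) (z : Fin s → ℂ) (e : ℕ) :
    (sl Q z).coeff e = aeval z ((finSuccEquiv ℤ s Q).coeff e) := by
  simp [sl, Polynomial.coeff_map]

lemma deg_coeff (Q : MvPolynomial (Fin (s + 1)) ℤ) (e : ℕ) :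
    ((finSuccEquiv ℤ s Q).coeff e).totalDegree ≤ Q.totalDegree := by
  by_cases h : (finSuccEquiv ℤ s Q).coeff e = 0
  · simp [h]
  · exact (Nat.le_add_right _ _).trans (totalDegree_coeff_finSuccEquiv_add_le Q e h)

lemma Sz.coeff_sl {Q : MvPolynomial (Fin (s + 1)) ℤ} {t : ℝ} (hQ : Sz Q t) (z : Fin s → ℂ)
    (hz : ∀ i, ‖z i‖ = 1) (e : ℕ) : ‖(sl Q z).coeff e‖ ≤ Real.exp t :=
  coef_unit _ (fun y hy => by
    rw [eval_sl]
    exact hQ.2 _ fun i => by
      induction i using Fin.cases with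
      | zero => simpa using hy
      | succ i => simpa using hz i) e

lemma natDeg_le {Q : MvPolynomial (Fin (s + 1)) ℤ} {t : ℝ} (hQ : Sz Q t) :
    ((finSuccEquiv ℤ s Q).natDegree : ℝ) ≤ t := by
  refine le_trans ?_ hQ.1
  rw [natDegree_finSuccEquiv]
  exact_mod_cast degreeOf_le_totalDegree Q 0

/-- the resultant of the polynomial and its derivative in the first variable -/
def rs (Q : MvPolynomial (Fin (s + 1)) ℤ) : MvPolynomial (Fin s) ℤ :=
  Polynomial.resultant (finSuccEquiv ℤ s Q) (Polynomial.derivative (finSuccEquiv ℤ s Q))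
    (finSuccEquiv ℤ s Q).natDegree (Polynomial.derivative (finSuccEquiv ℤ s Q)).natDegree

lemma der_le (Q : MvPolynomial (Fin (s + 1)) ℤ) :
    (Polynomial.derivative (finSuccEquiv ℤ s Q)).natDegree ≤ (finSuccEquiv ℤ s Q).natDegree :=
  (Polynomial.natDegree_derivative_le _).trans (Nat.sub_le _ _)

lemma aeval_rs (Q : MvPolynomial (Fin (s + 1)) ℤ) (z : Fin s → ℂ) (c : ℂ) :
    aeval z (rs Q) = Polynomial.resultant (Polynomial.taylor c (sl Q z))
      (Polynomial.derivative (Polynomial.taylor c (sl Q z))) (finSuccEquiv ℤ s Q).natDegree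
      (Polynomial.derivative (finSuccEquiv ℤ s Q)).natDegree := by
  rw [← taylor_der, sl, Polynomial.derivative_map,
    res_taylor _ _ _ Polynomial.natDegree_map_le Polynomial.natDegree_map_le,
    Polynomial.resultant_map_map]
  rfl

lemma Sz.rs {Q : MvPolynomial (Fin (s + 1)) ℤ} {t : ℝ} (hQ : Sz Q t) : Sz (rs Q) (8 * t ^ 2) := by
  have hd := natDeg_le hQ
  refine ⟨?_, fun z hz => ?_⟩
  · have h1 := deg_det (D := Q.totalDegree) (Polynomial.sylvester (finSuccEquiv ℤ s Q)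
      (Polynomial.derivative (finSuccEquiv ℤ s Q)) (finSuccEquiv ℤ s Q).natDegree
      (Polynomial.derivative (finSuccEquiv ℤ s Q)).natDegree) (fun i j => by
        rcases syl_entry (finSuccEquiv ℤ s Q) (Polynomial.derivative (finSuccEquiv ℤ s Q)) _ _ i j
          with h | ⟨e, -, h | h⟩
        · rw [h]; simp
        · rw [h]; exact deg_coeff Q e
        · rw [h, Polynomial.coeff_derivative]
          refine (totalDegree_mul _ _).trans ?_
          have : ((e : MvPolynomial (Fin s) ℤ) + 1) = C ((e : ℤ) + 1) := by simp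
          rw [this, totalDegree_C]
          exact deg_coeff Q _)
    have h2 : ((GelA.rs Q).totalDegree : ℝ) ≤ (((finSuccEquiv ℤ s Q).natDegree : ℝ) +
        (Polynomial.derivative (finSuccEquiv ℤ s Q)).natDegree) * Q.totalDegree := by
      exact_mod_cast h1
    have h3 : ((Polynomial.derivative (finSuccEquiv ℤ s Q)).natDegree : ℝ) ≤ t :=
      le_trans (by exact_mod_cast der_le Q) hd
    refine h2.trans ((mul_le_mul (add_le_add hd h3) hQ.1 (by positivity)
      (by linarith [hQ.nonneg])).trans ?_)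
    nlinarith [sq_nonneg t]
  · rw [aeval_rs Q z 0, Polynomial.taylor_zero]
    have := res_le (sl Q z) (k := 0) (b := 1) (ε := 1) Polynomial.natDegree_map_le hd (der_le Q)
      (Nat.zero_le _) zero_le_one zero_le_one (fun e => by rw [one_mul]; exact hQ.coeff_sl z hz e)
      (fun e _ => by rw [one_mul, mul_one]; exact hQ.coeff_sl z hz e)
    rwa [pow_zero, mul_one, show 2 * (1 + 3 : ℝ) = 8 by norm_num] at this

/-- the induction step for atoms -/
lemma step (h : GelfStmt) {lm : Fin (s + 1) → ℂ} (hlm : AlgebraicIndependent ℤ lm)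
    (ih : Low (fun _ => True) (Fin.tail lm)) : Low Atom lm := by
  intro η hη
  obtain ⟨R, hR1, hR⟩ : ∃ R : ℝ, 1 ≤ R ∧ ∀ i, ‖lm i‖ + 1 ≤ R :=
    ⟨‖lm‖ + 1, by linarith [norm_nonneg lm], fun i => by linarith [norm_le_pi_norm lm i]⟩
  obtain ⟨b, hb, hb0⟩ : ∃ b : ℝ, b = 2 * ((s + 1 : ℕ) : ℝ) + 1 + R ∧ 0 < b :=
    ⟨_, rfl, by positivity⟩
  obtain ⟨r₁, hr₁, H₁⟩ := small h hlm hη (4 / η)
  obtain ⟨r₂, hr₂, H₂⟩ := ih (η / 4) (by positivity)
  obtain ⟨r₃, hr₃, H₃⟩ := ih (η ^ 2 / 128) (by positivity)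
  refine ⟨min (min r₁ r₂) (min r₃ (Real.exp (-(64 * (b + 3) / η ^ 2)))),
    lt_min (lt_min hr₁ hr₂) (lt_min hr₃ (Real.exp_pos _)), fun r hr hr0 t Q hQ hA hS => ?_⟩
  simp only [le_min_iff] at hr0
  obtain ⟨⟨e₁, e₂⟩, e₃, e₄⟩ := hr0
  have hL := log_le_of hr e₄
  have hL0 : Real.log r < 0 := hL.trans_lt (neg_lt_zero.2 (by positivity))
  have hr1 : r ≤ 1 := (Real.log_nonpos_iff hr.le).1 hL0.le
  by_cases ht : t ≤ 4 / η
  · exact ⟨lm, fun i => by simp [hr.le], H₁ r hr e₁ t Q hQ hS ht⟩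
  have ha : 4 < η * t := by rwa [not_le, div_lt_iff₀' hη] at ht
  have ht0 : 0 < t := by nlinarith [hS.nonneg]
  by_contra hc
  push Not at hc
  have hsm : ∀ z : Fin s → ℂ, (∀ i, ‖z i - Fin.tail lm i‖ ≤ r) → ∀ e : ℕ,
      ‖(Polynomial.taylor (lm 0) (sl Q z)).coeff e‖ ≤ r ^ (η * t - e) := by
    intro z hz e
    have := coef_disc (sl Q z) (lm 0) hr (B := r ^ (η * t)) (fun y hy => by
      rw [eval_sl]
      refine (hc _ fun i => ?_).le
      induction i using Fin.cases with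
      | zero => simpa using hy
      | succ i => simpa [Fin.tail] using hz i) e
    rwa [Real.rpow_sub hr, Real.rpow_natCast, le_div_iff₀ (by positivity)]
  have hbg : ∀ z : Fin s → ℂ, (∀ i, ‖z i - Fin.tail lm i‖ ≤ r) → ∀ e : ℕ,
      ‖(Polynomial.taylor (lm 0) (sl Q z)).coeff e‖ ≤ Real.exp (b * t) := by
    intro z hz e
    have := coef_disc (sl Q z) (lm 0) one_pos (B := Real.exp (b * t)) (fun y hy => by
      rw [eval_sl, hb]
      refine hS.big h hR1 _ fun i => ?_
      induction i using Fin.cases with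
      | zero =>
        have := norm_le_norm_add_norm_sub' y (lm 0)
        simp only [Fin.cons_zero]
        linarith [hR 0]
      | succ i =>
        have := norm_le_norm_add_norm_sub' (z i) (lm i.succ)
        have h2 : ‖z i - lm i.succ‖ ≤ r := hz i
        simp only [Fin.cons_succ]
        linarith [hR i.succ]) e
    rwa [one_pow, mul_one] at this
  have hF : finSuccEquiv ℤ s Q ≠ 0 := fun e => hQ ((finSuccEquiv ℤ s).injective (by simp [e]))
  by_cases hd : ((finSuccEquiv ℤ s Q).natDegree : ℝ) ≤ η * t / 2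
  · obtain ⟨z, hz, h1⟩ := H₂ r hr e₂ t _ (Polynomial.leadingCoeff_ne_zero.2 hF) trivial
      ⟨le_trans (by exact_mod_cast deg_coeff Q _) hS.1, fun z hz => by
        rw [Polynomial.leadingCoeff, ← coeff_sl]; exact hS.coeff_sl z hz _⟩
    have h2 := hsm z hz (finSuccEquiv ℤ s Q).natDegree
    rw [coeff_taylor_top (sl Q z) _ (d := (finSuccEquiv ℤ s Q).natDegree)
      Polynomial.natDegree_map_le, coeff_sl] at h2
    have h3 := h1.trans h2
    rw [Real.rpow_def_of_pos hr, Real.rpow_def_of_pos hr, Real.exp_le_exp] at h3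
    nlinarith
  · rw [not_le] at hd
    have hd0 : (finSuccEquiv ℤ s Q).natDegree ≠ 0 := by
      intro e; rw [e] at hd; push_cast at hd; linarith
    have hI : Irreducible (finSuccEquiv ℤ s Q) := by
      rcases hA with hA | hA
      · exact hA.map (finSuccEquiv ℤ s)
      · exact (hd0 (Polynomial.natDegree_eq_zero_of_isUnit (hA.map (finSuccEquiv ℤ s)))).elim
    obtain ⟨z, hz, h1⟩ := H₃ r hr e₃ _ (rs Q) (res_ne hI hd0) trivial hS.rs
    have hk1 : ((⌊η * t / 2⌋₊ : ℕ) : ℝ) ≤ η * t / 2 := Nat.floor_le (by linarith)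
    have hk2 : η * t / 4 ≤ ((⌊η * t / 2⌋₊ : ℕ) : ℝ) := by
      linarith [Nat.lt_floor_add_one (η * t / 2)]
    generalize ⌊η * t / 2⌋₊ = k at hk1 hk2
    have h2 := res_le (Polynomial.taylor (lm 0) (sl Q z)) (k := k) (b := b)
      (ε := r ^ (η * t / 2))
      ((Polynomial.natDegree_taylor _ _).le.trans Polynomial.natDegree_map_le) (natDeg_le hS)
      (der_le Q) (by exact_mod_cast hk1.trans hd.le) hb0.le (by positivity) (hbg z hz)
      (fun e he => by
        have he' : (e : ℝ) ≤ k := by exact_mod_cast he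
        refine (hsm z hz e).trans (le_trans (Real.rpow_le_rpow_of_exponent_ge hr hr1
          (show η * t / 2 ≤ η * t - e by linarith)) ?_)
        exact le_mul_of_one_le_left (by positivity) (Real.one_le_exp (by positivity)))
    rw [← aeval_rs] at h2
    have h3 := h1.trans h2
    rw [Real.rpow_def_of_pos hr, Real.rpow_def_of_pos hr, ← Real.exp_nat_mul, ← Real.exp_add,
      Real.exp_le_exp] at h3
    have h4 : Real.log r * η ^ 2 ≤ -(64 * (b + 3)) := by
      have := mul_le_mul_of_nonneg_right hL (sq_nonneg η)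
      rwa [neg_mul, div_mul_cancel₀ _ (pow_ne_zero 2 hη.ne')] at this
    have h5 : (k : ℝ) * (Real.log r * (η * t / 2)) ≤ η * t / 4 * (Real.log r * (η * t / 2)) :=
      mul_le_mul_of_nonpos_right hk2 (mul_nonpos_of_nonpos_of_nonneg hL0.le (by linarith))
    have h6 := mul_le_mul_of_nonneg_right h4 (sq_nonneg t)
    have h7 : 0 < (b + 3) * t ^ 2 := by positivity
    nlinarith

lemma low_all (h : GelfStmt) : ∀ (s : ℕ) (lm : Fin s → ℂ), AlgebraicIndependent ℤ lm →
    Low (fun _ => True) lm := by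
  intro s
  induction s with
  | zero =>
    intro lm _ η hη
    refine ⟨1, one_pos, fun r hr hr1 T P hP _ hS => ⟨lm, fun i => i.elim0, ?_⟩⟩
    refine (Real.rpow_le_one hr.le hr1 (mul_nonneg hη.le hS.nonneg)).trans (const_ge hP ?_ lm)
    rw [P.eq_C_of_isEmpty, totalDegree_C]
  | succ s ih =>
    intro lm hlm
    exact low_of_atom h (step h hlm (ih _ (hlm.comp Fin.succ (Fin.succ_injective s))))

end GelA

theorem gel (h : GelfStmt) : GelStmt := by
  intro s lm hlm η hη
  obtain ⟨r₀, hr₀, H⟩ := GelA.low_all h s lm hlm η hη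
  exact ⟨r₀, hr₀, fun r hr hr0 T P hP h1 h2 => H r hr hr0 T P hP trivial ⟨h1, h2⟩⟩

end Pool.Agent.MP_54e5d7_al.atl

end
end MrgPart2

-- marker of a merged file
example : 731051 + 825382 = 731051 + 825382 := rfl

end MrgPart0

-- ======== part 1: formerly Pool.Agent.MP_54e5d7_al.atl.IW2
section MrgPart1

/-!
Project ATL: basis, nilpotence and weights at a finite level of a tower.
-/

set_option autoImplicit false

open Classical Module

noncomputable section
namespace Pool.Agent.MP_54e5d7_al.atl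

namespace Iw2

/-- Augmentation elements of a finite `p`-group lie in the radical of the modular group ring. -/
lemma mem_jac (p : ℕ) [Fact p.Prime] (P : Type) [Group P] [Finite P] (hP : IsPGroup p P) (g : P) :
    MonoidAlgebra.of (ZMod p) P g - 1 ∈ Ring.jacobson (MonoidAlgebra (ZMod p) P) := by
  have : Finite (MonoidAlgebra (ZMod p) P) :=
    Finite.of_injective (fun x => (x.coeff : P → ZMod p))
      (DFunLike.coe_injective.comp MonoidAlgebra.coeff_injective)
  rw [Ring.jacobson_eq_sInf_isMaximal, Submodule.mem_sInf]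
  intro m hm
  have hm' : IsCoatom m := Ideal.isMaximal_def.1 hm
  have : IsSimpleModule (MonoidAlgebra (ZMod p) P) (MonoidAlgebra (ZMod p) P ⧸ m) :=
    isSimpleModule_iff_isCoatom.2 hm'
  have : Nontrivial (MonoidAlgebra (ZMod p) P ⧸ m) :=
    IsSimpleModule.nontrivial (MonoidAlgebra (ZMod p) P) _
  have : Finite (MonoidAlgebra (ZMod p) P ⧸ m) :=
    Finite.of_surjective _ (Submodule.Quotient.mk_surjective m)
  let : MulAction P (MonoidAlgebra (ZMod p) P ⧸ m) :=
    MulAction.compHom _ (MonoidAlgebra.of (ZMod p) P)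
  have hs : ∀ (h : P) (v : MonoidAlgebra (ZMod p) P ⧸ m),
      h • v = MonoidAlgebra.of (ZMod p) P h • v := fun _ _ => rfl
  have hc : p ∣ Nat.card (MonoidAlgebra (ZMod p) P ⧸ m) := by
    obtain ⟨v, hv⟩ := exists_ne (0 : MonoidAlgebra (ZMod p) P ⧸ m)
    have h1 : p • v = 0 := by
      rw [← Nat.cast_smul_eq_nsmul (ZMod p), ZMod.natCast_self, zero_smul]
    have h2 := addOrderOf_dvd_natCard v
    rwa [addOrderOf_eq_prime h1 hv] at h2
  obtain ⟨b, hb, hb0⟩ := hP.exists_fixed_point_of_prime_dvd_card_of_fixed_point _ hc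
    (a := 0) (fun h => by rw [hs, smul_zero])
  have hb' : ∀ h : P, MonoidAlgebra.of (ZMod p) P h • b = b := fun h => hb h
  have key : ∀ r : MonoidAlgebra (ZMod p) P,
      (MonoidAlgebra.of (ZMod p) P g - 1) • (r • b) = 0 := by
    intro r
    induction r using MonoidAlgebra.induction_on with
    | of h => rw [hb', sub_smul, hb', one_smul, sub_self]
    | add x y hx hy => rw [add_smul, smul_add, hx, hy, add_zero]
    | smul c x hx => rw [smul_assoc, smul_comm, hx, smul_zero]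
  have htop : Submodule.span (MonoidAlgebra (ZMod p) P) {b} = ⊤ :=
    IsSimpleModule.span_singleton_eq_top _ hb0.symm
  obtain ⟨r, hr⟩ := Submodule.mem_span_singleton.1
    (htop ▸ Submodule.mem_top (x := (Submodule.Quotient.mk 1 : MonoidAlgebra (ZMod p) P ⧸ m)))
  have h2 := key r
  rw [hr, ← Submodule.Quotient.mk_smul, smul_eq_mul, mul_one, Submodule.Quotient.mk_eq_zero] at h2
  exact h2

/-- Nilpotence of the augmentation ideal in characteristic `p`. -/
lemma nil (p : ℕ) (hp : p.Prime) (P : Type) [Group P] [Finite P] (hP : IsPGroup p P) :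
    ∃ n : ℕ, ∀ (A : Type) [Ring A] (φ : P →* A), (p : A) = 0 → ∀ l : List P, l.length = n →
      (l.map fun g => φ g - 1).prod = 0 := by
  have := Fact.mk hp
  have : Finite (MonoidAlgebra (ZMod p) P) :=
    Finite.of_injective (fun x => (x.coeff : P → ZMod p))
      (DFunLike.coe_injective.comp MonoidAlgebra.coeff_injective)
  have : IsArtinianRing (MonoidAlgebra (ZMod p) P) := isArtinian_of_finite
  obtain ⟨n, hn⟩ := IsSemiprimaryRing.isNilpotent (R := MonoidAlgebra (ZMod p) P)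
  refine ⟨n, fun A _ φ hA l hl => ?_⟩
  have h1 : ∀ l : List P, (l.map fun g => MonoidAlgebra.of (ZMod p) P g - 1).prod ∈
      Ring.jacobson (MonoidAlgebra (ZMod p) P) ^ l.length := by
    intro l
    induction l with
    | nil => rw [List.length_nil, Submodule.pow_zero, Ideal.one_eq_top]; trivial
    | cons g l ih =>
      rw [List.length_cons, Ideal.IsTwoSided.pow_succ, List.map_cons, List.prod_cons]
      exact Ideal.mul_mem_mul (mem_jac p P hP g) ih
  have h2 := h1 l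
  rw [hl, hn, Submodule.zero_eq_bot, Submodule.mem_bot] at h2
  let f : ZMod p →+* A := ZMod.castHom (ringChar.dvd hA) A
  have hf : ∀ x y, Commute (f x) (φ y) := fun x y => by
    obtain ⟨z, rfl⟩ := ZMod.intCast_surjective x
    rw [map_intCast]; exact Int.cast_commute _ _
  have h3 := congrArg (MonoidAlgebra.liftNCRingHom f φ hf) h2
  rw [map_list_prod, map_zero, List.map_map] at h3
  rw [← h3]
  congr 1
  refine List.map_congr_left fun g _ => ?_
  simp

variable {O : Type} [CommRing O] (π : O)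

lemma mem_of_coeff {X : Type} [Group X] [Fintype X] (N : Submodule O (MonoidAlgebra O X))
    (x : MonoidAlgebra O X) (h : ∀ q, x.coeff q • MonoidAlgebra.of O X q ∈ N) : x ∈ N := by
  have : x = ∑ q, x.coeff q • MonoidAlgebra.of O X q := by
    ext q
    simp
  rw [this]
  exact N.sum_mem fun q _ => h q

/-- High steps of the filtration are divisible by high powers of `π`. -/
lemma nilJ {p : ℕ} (hp : p.Prime) (hπ : π ∣ (p : O)) {X : Type} [Group X] [Fintype X]
    (K : Subgroup X) (hK : IsPGroup p K) (s : ℕ) :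
    ∃ m, ∀ x ∈ Jm π K m, ∀ q, π ^ s ∣ x.coeff q := by
  obtain ⟨n, hn⟩ := nil p hp K hK
  have h1 : ∀ l : List X, (∀ g ∈ l, g ∈ K) → l.length = n →
      ∃ y, π • y = (l.map fun g => MonoidAlgebra.of O X g - 1).prod := by
    intro l hl hlen
    lift l to List K using hl
    have h2 := hn (MonoidAlgebra (O ⧸ Ideal.span {π}) X)
      ((MonoidAlgebra.of _ X).comp K.subtype) (by
        have : ((p : ℕ) : O ⧸ Ideal.span {π}) = 0 := by
          rw [← map_natCast (Ideal.Quotient.mk (Ideal.span {π})), Ideal.Quotient.eq_zero_iff_mem,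
            Ideal.mem_span_singleton]
          exact hπ
        rw [MonoidAlgebra.natCast_def, this, MonoidAlgebra.single_zero]) l (by simpa using hlen)
    have h3 : MonoidAlgebra.mapRingHom X (Ideal.Quotient.mk (Ideal.span {π}))
        ((l.map Subtype.val).map fun g => MonoidAlgebra.of O X g - 1).prod = 0 := by
      rw [map_list_prod, List.map_map, List.map_map, ← h2]
      congr 1
      refine List.map_congr_left fun g _ => ?_
      simp
    refine mem_of_coeff (LinearMap.range (LinearMap.lsmul O (MonoidAlgebra O X) π)) _ fun q => ?_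
    have h4 := congrArg (fun z => z.coeff q) h3
    simp only [MonoidAlgebra.coeff_mapRingHom, MonoidAlgebra.coeff_zero, Finsupp.zero_apply,
      Ideal.Quotient.eq_zero_iff_mem, Ideal.mem_span_singleton] at h4
    obtain ⟨d, hd⟩ := h4
    exact ⟨d • MonoidAlgebra.of O X q, by rw [hd, LinearMap.lsmul_apply, smul_smul]⟩
  have h5 : ∀ (s : ℕ) (l : List X), (∀ g ∈ l, g ∈ K) → s * n ≤ l.length →
      ∃ y, π ^ s • y = (l.map fun g => MonoidAlgebra.of O X g - 1).prod := by
    intro s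
    induction s with
    | zero => intro l _ _; exact ⟨_, by rw [pow_zero, one_smul]⟩
    | succ s ih =>
      intro l hl hlen
      rw [add_mul, one_mul] at hlen
      obtain ⟨y, hy⟩ := h1 (l.take n) (fun g hg => hl g (List.mem_of_mem_take hg))
        (by rw [List.length_take]; omega)
      obtain ⟨z, hz⟩ := ih (l.drop n) (fun g hg => hl g (List.mem_of_mem_drop hg))
        (by rw [List.length_drop]; omega)
      refine ⟨y * z, ?_⟩
      rw [← List.take_append_drop n l, List.map_append, List.prod_append, ← hy, ← hz,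
        smul_mul_smul_comm, pow_succ']
  refine ⟨s + s * n, fun x hx q => ?_⟩
  have h6 : Jm π K (s + s * n) ≤
      LinearMap.range (LinearMap.lsmul O (MonoidAlgebra O X) (π ^ s)) := by
    refine Submodule.span_le.2 ?_
    rintro _ ⟨a, l, hl, hm, rfl⟩
    by_cases ha : s ≤ a
    · obtain ⟨e, rfl⟩ := Nat.exists_eq_add_of_le ha
      exact ⟨π ^ e • _, by rw [LinearMap.lsmul_apply, smul_smul, pow_add]⟩
    · obtain ⟨y, hy⟩ := h5 s l hl (by omega)
      exact ⟨π ^ a • y, by rw [LinearMap.lsmul_apply, smul_comm, hy]⟩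
  obtain ⟨y, rfl⟩ := h6 hx
  exact ⟨y.coeff q, by rw [LinearMap.lsmul_apply, MonoidAlgebra.coeff_smul_apply, smul_eq_mul]⟩

section W
variable {R : Type} [Ring R] [Algebra O R]

/-- The weighted span of a family. -/
def W {ι : Type} (v : ι → R) (d : ι → ℕ) (m : ℕ) : Submodule O R :=
  Submodule.span O (Set.range fun a => π ^ (m - d a) • v a)

lemma mem_W {ι : Type} (v : ι → R) (d : ι → ℕ) (m : ℕ) (a : ι) (c : O) (h : π ^ (m - d a) ∣ c) :
    c • v a ∈ W π v d m := by
  obtain ⟨e, rfl⟩ := h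
  rw [mul_comm, ← smul_smul]
  exact Submodule.smul_mem _ _ (Submodule.subset_span ⟨a, rfl⟩)

lemma smul_W {ι : Type} (v : ι → R) (d : ι → ℕ) {w m : ℕ} (e : ℕ) (h : m ≤ w + e) {x : R}
    (hx : x ∈ W π v d w) : π ^ e • x ∈ W π v d m := by
  have : W π v d w ≤ (W π v d m).comap (LinearMap.lsmul O R (π ^ e)) := by
    refine Submodule.span_le.2 ?_
    rintro _ ⟨a, rfl⟩
    show π ^ e • π ^ (w - d a) • v a ∈ W π v d m
    rw [smul_smul, ← pow_add]
    exact mem_W π v d m a _ (pow_dvd_pow _ (by omega))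
  exact this hx

lemma anti_W {ι : Type} (v : ι → R) (d : ι → ℕ) {w m : ℕ} (h : m ≤ w) {x : R}
    (hx : x ∈ W π v d w) : x ∈ W π v d m := by
  simpa using smul_W π v d 0 (m := m) (by omega) hx

lemma W_zero {ι : Type} (v : ι → R) (d : ι → ℕ) :
    W π v d 0 = Submodule.span O (Set.range v) := by
  simp [W]

/-- The weighted span of the powers of one element. -/
abbrev W1 (q : ℕ) (b : R) (m : ℕ) : Submodule O R :=
  W π (fun k : Fin q => b ^ k.val) (fun k => k.val) m

/-- The weighted span of the ordered monomials. -/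
abbrev WD (q : ℕ) {D : ℕ} (b : Fin D → R) (m : ℕ) : Submodule O R :=
  W π (fun α : Fin D → Fin q => (List.ofFn fun i => b i ^ (α i).val).prod)
    (fun α => ∑ i, (α i).val) m

lemma mul_W1 {q m : ℕ} {b : R} (hq : b ^ q ∈ W1 π q b m) {x : R} (hx : x ∈ W1 π q b m) :
    b * x ∈ W1 π q b m := by
  have : W1 π q b m ≤ (W1 π q b m).comap (LinearMap.mulLeft O b) := by
    refine Submodule.span_le.2 ?_
    rintro _ ⟨k, rfl⟩
    show b * (π ^ (m - k.val) • b ^ k.val) ∈ W1 π q b m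
    rw [mul_smul_comm, ← pow_succ']
    by_cases hk : k.val + 1 < q
    · exact mem_W π _ _ m (⟨k.val + 1, hk⟩ : Fin q) _ (pow_dvd_pow _ (by simp only; omega))
    · rw [show k.val + 1 = q by have := k.2; omega]
      exact Submodule.smul_mem _ _ hq
  exact this hx

lemma pow_W1 {q m : ℕ} {b : R} (hq : b ^ q ∈ W1 π q b m) (n : ℕ) :
    b ^ n ∈ W1 π q b (min n m) := by
  by_cases hn : n < q
  · have := mem_W π (fun k : Fin q => b ^ k.val) (fun k => k.val) (min n m) ⟨n, hn⟩ 1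
      (by simp only; rw [show min n m - n = 0 by omega, pow_zero])
    simpa using this
  · obtain ⟨e, rfl⟩ := Nat.exists_eq_add_of_le (not_lt.1 hn)
    refine anti_W π _ _ (min_le_right _ _) ?_
    clear hn
    induction e with
    | zero => simpa using hq
    | succ e ih => rw [← add_assoc, pow_succ']; exact mul_W1 π hq ih

lemma add_one_pow_W1 {q : ℕ} {b : R} (hq : b ^ q ∈ W1 π q b 0) (n : ℕ) :
    (b + 1) ^ n ∈ W1 π q b 0 := by
  induction n with
  | zero => simpa using pow_W1 π hq 0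
  | succ n ih =>
    rw [pow_succ', add_mul, one_mul]
    exact Submodule.add_mem _ (mul_W1 π hq ih) ih

lemma top_W1 {p : ℕ} (hp : p.Prime) (hπ : π ∣ (p : O)) (j : ℕ) {b : R}
    (hb : (b + 1) ^ p ^ j = 1) : b ^ p ^ j ∈ W1 π (p ^ j) b (j + 1) := by
  have hq : 0 < p ^ j := pow_pos hp.pos j
  rw [(Commute.one_right b).add_pow, Finset.sum_range_succ, Finset.range_eq_Ico,
    Finset.sum_eq_sum_Ico_succ_bot hq] at hb
  simp only [pow_zero, one_pow, mul_one, Nat.choose_zero_right, Nat.cast_one, Nat.choose_self,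
    zero_add] at hb
  have h1 : b ^ p ^ j = -∑ k ∈ Finset.Ico 1 (p ^ j), b ^ k * ((p ^ j).choose k : R) := by
    rw [eq_neg_iff_add_eq_zero, add_comm]
    rw [add_assoc] at hb
    exact add_eq_left.1 hb
  rw [h1]
  refine Submodule.neg_mem _ (Submodule.sum_mem _ fun k hk => ?_)
  obtain ⟨hk1, hk2⟩ := Finset.mem_Ico.1 hk
  have h2 : b ^ k * ((p ^ j).choose k : R) = (((p ^ j).choose k : ℕ) : O) • b ^ k := by
    rw [Nat.cast_smul_eq_nsmul, nsmul_eq_mul, Nat.cast_comm]
  rw [h2]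
  refine mem_W π _ _ (j + 1) (⟨k, hk2⟩ : Fin (p ^ j)) _ ?_
  have h3 : p ^ (j + 1 - k) ∣ (p ^ j).choose k := by
    rw [hp.pow_dvd_iff_le_factorization (Nat.choose_pos hk2.le).ne',
      Nat.factorization_choose_prime_pow hp hk2.le (by omega)]
    have := Nat.factorization_lt p (show k ≠ 0 by omega)
    omega
  refine (pow_dvd_pow_of_dvd hπ _).trans ?_
  exact_mod_cast Nat.cast_dvd_cast (α := O) h3

lemma top_zero {p : ℕ} (hp : p.Prime) (h0 : (p : O) = 0) (j : ℕ) {b : R}
    (hb : (b + 1) ^ p ^ j = 1) : b ^ p ^ j = 0 := by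
  rw [(Commute.one_right b).add_pow_prime_pow_eq' hp, ← map_natCast (algebraMap O R), h0] at hb
  simpa using hb

lemma prod_WD {q D : ℕ} (b : Fin D → R) (w : Fin D → ℕ) (y : Fin D → R)
    (hy : ∀ i, y i ∈ W1 π q (b i) (w i)) : (List.ofFn y).prod ∈ WD π q b (∑ i, w i) := by
  choose c hc using fun i => (Submodule.mem_span_range_iff_exists_fun O).1 (hy i)
  have h1 : y = fun i => ∑ k : Fin q, (c i k * π ^ (w i - k.val)) • b i ^ k.val := by
    funext i
    rw [← hc i]
    simp only [smul_smul]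
  rw [← MultilinearMap.mkPiAlgebraFin_apply (R := O), h1, MultilinearMap.map_sum]
  refine Submodule.sum_mem _ fun α _ => ?_
  rw [MultilinearMap.map_smul_univ, MultilinearMap.mkPiAlgebraFin_apply]
  refine mem_W π _ _ _ α _ ?_
  rw [Finset.prod_mul_distrib, Finset.prod_pow_eq_pow_sum]
  refine Dvd.dvd.mul_left (pow_dvd_pow _ ?_) _
  rw [tsub_le_iff_right, ← Finset.sum_add_distrib]
  exact Finset.sum_le_sum fun i _ => le_tsub_add

lemma mono_WD {q D m m' : ℕ} (b : Fin D → R) (hq : ∀ i, b i ^ q ∈ W1 π q (b i) m) (hm : m ≤ m')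
    (α : Fin D → ℕ) :
    π ^ (m' - ∑ i, α i) • (List.ofFn fun i => b i ^ α i).prod ∈ WD π q b m := by
  refine smul_W π _ _ _ ?_ (prod_WD π b (fun i => min (α i) m) _ fun i => pow_W1 π (hq i) _)
  by_cases h : ∃ i, m ≤ α i
  · obtain ⟨i, hi⟩ := h
    have := Finset.single_le_sum (f := fun i => min (α i) m) (fun _ _ => Nat.zero_le _)
      (Finset.mem_univ i)
    simp only [min_eq_right hi] at this
    omega
  · push Not at h
    have : ∑ i, min (α i) m = ∑ i, α i := Finset.sum_congr rfl fun i _ => min_eq_left (h i).le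
    omega

end W

lemma prod_ofFn_mul {M : Type} [Monoid M] : ∀ (D : ℕ) (x z : Fin D → M),
    (∀ i l, Commute (z i) (x l)) →
    (List.ofFn fun i => x i * z i).prod = (List.ofFn x).prod * (List.ofFn z).prod
  | 0, _, _, _ => by simp
  | D + 1, x, z, h => by
    simp only [List.ofFn_succ, List.prod_cons]
    rw [prod_ofFn_mul D (fun i => x i.succ) (fun i => z i.succ) fun i l => h _ _]
    have : Commute (z 0) (List.ofFn fun i => x i.succ).prod :=
      Commute.list_prod_right _ _ fun y hy => by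
        obtain ⟨i, rfl⟩ := (List.mem_ofFn' _ _).1 hy
        exact h _ _
    rw [mul_assoc, ← mul_assoc (z 0), this.eq]
    simp only [mul_assoc]

/-- Every element of the image of `H 0` is an ordered product of powers of the generators. -/
lemma surj {G : Type} [Group G] {p D : ℕ} (T : Tower G p D) (g : G) (hg : g ∈ T.H 0) (j : ℕ) :
    ∃ a : Fin D → ℕ, g⁻¹ * (List.ofFn fun i => T.h i ^ a i).prod ∈ T.H j := by
  induction j with
  | zero => exact ⟨0, by simpa using hg⟩
  | succ j ih =>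
    obtain ⟨a, ha⟩ := ih
    obtain ⟨a', ha'⟩ := T.span j _ (inv_mem ha)
    refine ⟨fun i => a i + p ^ j * a' i, ?_⟩
    rw [inv_inv] at ha'
    rw [← T.qm_eq_one] at ha' ⊢
    rw [← ha']
    simp only [map_mul, map_list_prod, List.map_ofFn, pow_add, mul_assoc]
    congr 1
    refine prod_ofFn_mul D (fun i => T.qm (j + 1) (T.h i ^ a i))
      (fun i => T.qm (j + 1) (T.h i ^ (p ^ j * a' i))) fun i l => ?_
    have h1 : T.h i ^ (p ^ j * a' i) ∈ T.H j := by
      rw [pow_mul]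
      exact pow_mem (by simpa using T.pow_pow_mem (T.h_mem i) j) _
    have h2 := T.anti _ (T.comm_mem j _ _ (pow_mem (T.h_mem l) (a l)) h1)
    rw [← T.qm_eq_one, map_mul, map_mul, map_mul, map_inv, map_inv, mul_inv_eq_one,
      mul_inv_eq_iff_eq_mul] at h2
    exact h2.symm

end Iw2

open Iw2 in
theorem iw2 (h0 : Iw0Stmt) (h1 : Iw1Stmt) (hb : IwbStmt) : Iw2Stmt := by
  intro G _ p D T O _ π hπ j
  obtain ⟨a1, -, -, a4, -, a6, -⟩ := h0 O π (T.Q j) (T.K j)
  obtain ⟨-, -, b3, -⟩ := h1 G p D T O π hπ j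
  have hcard := (hb G p D T O).2.2.1 j
  set b : Fin D → MonoidAlgebra O (T.Q j) := fun i => MonoidAlgebra.of O _ (T.hb j i) - 1 with hbd
  have hb1 : ∀ i, (b i + 1) ^ p ^ j = 1 := fun i => by
    simp only [hbd, sub_add_cancel, ← map_pow, T.hb_pow, map_one]
  have htop : ∀ i, b i ^ p ^ j ∈ W1 π (p ^ j) (b i) (j + 1) := fun i =>
    top_W1 π T.prime hπ j (hb1 i)
  have hz : π = 0 → ∀ i, b i ^ p ^ j = 0 := fun h i =>
    top_zero (O := O) T.prime (zero_dvd_iff.1 (h ▸ hπ)) j (hb1 i)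
  have hanti : ∀ m m', m ≤ m' → Jm π (T.K j) m' ≤ Jm π (T.K j) m := fun m m' h => by
    induction h with
    | refl => exact le_rfl
    | step _ ih => exact (a1 _).trans ih
  have hof : ∀ q ∈ T.K j, MonoidAlgebra.of O _ q ∈ WD π (p ^ j) b 0 := by
    intro q hq
    obtain ⟨g, rfl⟩ := T.qm_surj j q
    obtain ⟨a, ha⟩ := surj T g (T.qm_mem_K.1 hq) j
    rw [← T.qm_eq_one, map_mul, map_inv, inv_mul_eq_one] at ha
    have := prod_WD π b (fun _ => 0) (fun i => (b i + 1) ^ a i) fun i =>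
      add_one_pow_W1 π (anti_W π _ _ (Nat.zero_le _) (htop i)) _
    rw [Finset.sum_const_zero] at this
    rw [ha, map_list_prod, map_list_prod, List.map_ofFn, List.map_ofFn]
    refine (congrArg (fun f => (List.ofFn f).prod ∈ WD π (p ^ j) b 0) (funext fun i => ?_)).mpr this
    simp only [hbd, sub_add_cancel, Function.comp_apply, map_pow, Tower.hb]
  have hspan : Submodule.span O (Set.range fun α : Fin D → Fin (p ^ j) =>
      bm O (T.hb j) fun i => (α i).val) = Jm π (T.K j) 0 := by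
    refine le_antisymm (Submodule.span_le.2 ?_) fun x hx => ?_
    · rintro _ ⟨α, rfl⟩
      exact hanti _ _ (Nat.zero_le _) (a6 D _ (T.hb_mem j) _)
    · refine mem_of_coeff _ x fun q => ?_
      by_cases hq : x.coeff q = 0
      · rw [hq, zero_smul]; exact Submodule.zero_mem _
      · have := hof q ((a4 x).1 hx q hq)
        rw [WD, W_zero] at this
        exact Submodule.smul_mem _ _ this
  have hli : LinearIndependent O
      (fun α : Fin D → Fin (p ^ j) => bm O (T.hb j) fun i => (α i).val) := by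
    rcases subsingleton_or_nontrivial O with _ | _
    · exact linearIndependent_of_subsingleton
    rw [linearIndependent_iff_card_eq_finrank_span, Set.finrank, hspan]
    have e : Jm π (T.K j) 0 = MonoidAlgebra.supported O O (T.K j : Set (T.Q j)) := by
      ext x
      rw [a4, MonoidAlgebra.mem_supported']
      exact forall_congr' fun q => not_imp_comm
    rw [e, (MonoidAlgebra.supportedEquivFinsupp (R := O) (S := O) _).finrank_eq,
      Module.finrank_finsupp_self, ← Nat.card_eq_fintype_card (α := (T.K j : Set (T.Q j)))]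
    rw [show Nat.card (T.K j : Set (T.Q j)) = p ^ (D * j) from hcard]
    simp [← pow_mul, mul_comm]
  have hnil := nilJ π T.prime hπ (T.K j) (IsPGroup.of_card hcard)
  refine ⟨hli, hspan, hnil, fun m c hm hc α => ?_, fun h α hα => ?_⟩
  · have hq : ∀ i, b i ^ p ^ j ∈ W1 π (p ^ j) (b i) m := fun i => by
      rcases hm with hm | hm
      · exact anti_W π _ _ hm (htop i)
      · rw [hz hm i]; exact Submodule.zero_mem _
    have hle : ∀ x ∈ Jm π (T.K j) m, x ∈ WD π (p ^ j) b m := by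
      intro x hx
      have hit : ∀ e, ∃ y ∈ WD π (p ^ j) b m, x - y ∈ Jm π (T.K j) (m + e) := by
        intro e
        induction e with
        | zero => exact ⟨0, Submodule.zero_mem _, by simpa using hx⟩
        | succ e ih =>
          obtain ⟨y, hy, hxy⟩ := ih
          obtain ⟨c', hc'⟩ := b3 _ _ hxy
          rw [sub_sub] at hc'
          refine ⟨_, Submodule.add_mem _ hy (Submodule.sum_mem _ fun β _ => ?_), hc'⟩
          rw [← smul_smul]
          exact Submodule.smul_mem _ _ (mono_WD π b hq (Nat.le_add_right m e) β)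
      obtain ⟨m', hm'⟩ := hnil m
      obtain ⟨y, hy, hxy⟩ := hit m'
      rw [← sub_add_cancel x y]
      refine Submodule.add_mem _ (mem_of_coeff _ _ fun q => ?_) hy
      by_cases hq : (x - y).coeff q = 0
      · rw [hq, zero_smul]; exact Submodule.zero_mem _
      · obtain ⟨d, hd⟩ := hm' _ (hanti _ _ (Nat.le_add_left _ _) hxy) q
        rw [hd, mul_comm, ← smul_smul]
        exact Submodule.smul_mem _ _ (smul_W π _ _ m (by omega)
          (hof q ((a4 _).1 (hanti _ _ (Nat.zero_le _) hxy) q hq)))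
    obtain ⟨d, hd⟩ := (Submodule.mem_span_range_iff_exists_fun O).1 (hle _ hc)
    simp only [smul_smul] at hd
    have := Fintype.linearIndependent_iffₛ.1 hli _ _ hd α
    exact ⟨d α, by rw [← this, mul_comm]⟩
  · obtain ⟨i, hi⟩ := hα
    refine List.prod_eq_zero ((List.mem_ofFn' _ _).2 ⟨i, ?_⟩)
    exact pow_eq_zero_of_le hi (hz h i)

end Pool.Agent.MP_54e5d7_al.atl

end
end MrgPart1

-- ======== part 2: formerly Pool.Agent.MP_54e5d7_al.atl.IW3
section MrgPart2

/-!
Project ATL, row IW3: the Iwasawa algebra has a polynomial graded ring.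
-/

set_option autoImplicit false

open Classical Module

noncomputable section
namespace Pool.Agent.MP_54e5d7_al.atl

namespace IW3

/-- Exponent vectors of weight at most `m`. -/
def Am (D m : ℕ) : Finset (Fin D → ℕ) :=
  (Fintype.piFinset fun _ : Fin D => Finset.range (m + 1)).filter (fun α => ∑ i, α i ≤ m)

lemma mem_Am {D m : ℕ} {α : Fin D → ℕ} : α ∈ Am D m ↔ ∑ i, α i ≤ m := by
  simp only [Am, Finset.mem_filter, Fintype.mem_piFinset, Finset.mem_range, and_iff_right_iff_imp]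
  intro h i
  have := Finset.single_le_sum (f := α) (fun _ _ => Nat.zero_le _) (Finset.mem_univ i)
  omega

/-- The exponent of the monomial of degree `m` attached to `α`. -/
def ex {D : ℕ} (m : ℕ) (α : Fin D → ℕ) : Fin (D + 1) →₀ ℕ :=
  Finsupp.cons (m - ∑ i, α i) (Finsupp.equivFunOnFinite.symm α)

lemma ex_succ {D : ℕ} (m : ℕ) (α : Fin D → ℕ) (i : Fin D) : ex m α i.succ = α i := rfl

lemma ex_zero {D : ℕ} (m : ℕ) (α : Fin D → ℕ) : ex m α 0 = m - ∑ i, α i := rfl

lemma ex_inj {D m : ℕ} {α β : Fin D → ℕ} (h : ex m α = ex m β) : α = β := by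
  funext i
  rw [← ex_succ m α i, h, ex_succ]

lemma ex_degree {D m : ℕ} {α : Fin D → ℕ} (h : ∑ i, α i ≤ m) : (ex m α).degree = m := by
  rw [Finsupp.degree_eq_sum, Fin.sum_univ_succ, ex_zero]
  simp only [ex_succ]
  omega

lemma ex_add {D a b : ℕ} {α β : Fin D → ℕ} (ha : ∑ i, α i ≤ a) (hb : ∑ i, β i ≤ b) :
    ex (a + b) (α + β) = ex a α + ex b β := by
  ext i
  refine Fin.cases ?_ (fun i => ?_) i
  · rw [Finsupp.add_apply, ex_zero, ex_zero, ex_zero]
    simp only [Pi.add_apply, Finset.sum_add_distrib]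
    omega
  · rw [Finsupp.add_apply, ex_succ, ex_succ, ex_succ, Pi.add_apply]

lemma ex_surj {D m : ℕ} (d : Fin (D + 1) →₀ ℕ) (h : d.degree = m) :
    ∃ α : Fin D → ℕ, ∑ i, α i ≤ m ∧ ex m α = d := by
  rw [Finsupp.degree_eq_sum, Fin.sum_univ_succ] at h
  refine ⟨fun i => d i.succ, by beta_reduce; omega, ?_⟩
  ext i
  refine Fin.cases ?_ (fun i => ?_) i
  · rw [ex_zero]; omega
  · rw [ex_succ]

/-- Abstract data for the construction of the symbol map. -/
structure Data (O : Type) [CommRing O] (π : O) (R : Type) [Ring R] [Algebra O R] (D : ℕ) where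
  F : ℕ → Submodule O R
  B : (Fin D → ℕ) → R
  F_zero : ∀ x, x ∈ F 0
  anti : ∀ m, F (m + 1) ≤ F m
  mul_mem : ∀ a b x y, x ∈ F a → y ∈ F b → x * y ∈ F (a + b)
  smul_mem : ∀ m x, x ∈ F m → π • x ∈ F (m + 1)
  B_mem : ∀ α, B α ∈ F (∑ i, α i)
  B_mul : ∀ α β, B α * B β - B (α + β) ∈ F (∑ i, α i + ∑ i, β i + 1)
  exi : ∀ m x, x ∈ F m → ∃ c : (Fin D → ℕ) → O,
    x - ∑ α ∈ Am D m, (c α * π ^ (m - ∑ i, α i)) • B α ∈ F (m + 1)
  uni : ∀ m (c : (Fin D → ℕ) → O),
    ∑ α ∈ Am D m, (c α * π ^ (m - ∑ i, α i)) • B α ∈ F (m + 1) → ∀ α ∈ Am D m, π ∣ c α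
  sep : ∀ x, (∀ m, x ∈ F m) → x = 0
  compl : ∀ y : ℕ → R, (∀ m, y m ∈ F m) → ∃ x, ∀ m, x - ∑ i ∈ Finset.range m, y i ∈ F m

namespace Data
variable {O : Type} [CommRing O] {π : O} {R : Type} [Ring R] [Algebra O R] {D : ℕ}
  (Δ : Data O π R D)

/-- The standard expansion. -/
def E (m : ℕ) (c : (Fin D → ℕ) → O) : R :=
  ∑ α ∈ Am D m, (c α * π ^ (m - ∑ i, α i)) • Δ.B α

variable (π) in
/-- The polynomial attached to an expansion. -/
def P (m : ℕ) (c : (Fin D → ℕ) → O) : MvPolynomial (Fin (D + 1)) (O ⧸ Ideal.span {π}) :=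
  ∑ α ∈ Am D m, MvPolynomial.monomial (ex m α) (Ideal.Quotient.mk _ (c α))

lemma pow_smul_mem (s m : ℕ) {x : R} (hx : x ∈ Δ.F m) : π ^ s • x ∈ Δ.F (m + s) := by
  induction s with
  | zero => simpa using hx
  | succ s ih => rw [pow_succ', mul_smul]; exact Δ.smul_mem _ _ ih

lemma term_mem {m n : ℕ} {x : R} (c : O) (hn : n ≤ m) (hx : x ∈ Δ.F n) :
    (c * π ^ (m - n)) • x ∈ Δ.F m := by
  rw [mul_smul]
  have := Δ.pow_smul_mem (m - n) n hx
  rw [Nat.add_sub_cancel' hn] at this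
  exact Submodule.smul_mem _ _ this

lemma E_mem (m : ℕ) (c : (Fin D → ℕ) → O) : Δ.E m c ∈ Δ.F m :=
  Submodule.sum_mem _ fun α hα => Δ.term_mem _ (mem_Am.1 hα) (Δ.B_mem α)

lemma E_mem_succ {m : ℕ} {c : (Fin D → ℕ) → O} (h : ∀ α ∈ Am D m, π ∣ c α) :
    Δ.E m c ∈ Δ.F (m + 1) := by
  refine Submodule.sum_mem _ fun α hα => ?_
  obtain ⟨u, hu⟩ := h α hα
  rw [hu, mul_assoc, mul_smul]
  exact Δ.smul_mem _ _ (Δ.term_mem _ (mem_Am.1 hα) (Δ.B_mem α))

lemma E_sub (m : ℕ) (c c' : (Fin D → ℕ) → O) : Δ.E m (c - c') = Δ.E m c - Δ.E m c' := by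
  simp only [E, Pi.sub_apply, sub_mul, sub_smul, Finset.sum_sub_distrib]

lemma E_add (m : ℕ) (c c' : (Fin D → ℕ) → O) : Δ.E m (c + c') = Δ.E m c + Δ.E m c' := by
  simp only [E, Pi.add_apply, add_mul, add_smul, Finset.sum_add_distrib]

lemma P_add (m : ℕ) (c c' : (Fin D → ℕ) → O) : P π m (c + c') = P π m c + P π m c' := by
  simp only [P, Pi.add_apply, map_add, Finset.sum_add_distrib]

lemma P_congr {m : ℕ} {c c' : (Fin D → ℕ) → O} (h : ∀ α ∈ Am D m, π ∣ c α - c' α) :
    P π m c = P π m c' :=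
  Finset.sum_congr rfl fun α hα => by
    rw [Ideal.Quotient.eq.2 (Ideal.mem_span_singleton.2 (h α hα))]

lemma coeff_P {m : ℕ} (c : (Fin D → ℕ) → O) {α : Fin D → ℕ} (hα : α ∈ Am D m) :
    (P π m c).coeff (ex m α) = Ideal.Quotient.mk _ (c α) := by
  rw [P, MvPolynomial.coeff_sum, Finset.sum_eq_single α]
  · rw [MvPolynomial.coeff_monomial, if_pos rfl]
  · intro β _ hβ
    rw [MvPolynomial.coeff_monomial, if_neg fun h => hβ (ex_inj h)]
  · intro h; exact absurd hα h

lemma P_hom (m : ℕ) (c : (Fin D → ℕ) → O) : (P π m c).IsHomogeneous m :=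
  MvPolynomial.IsHomogeneous.sum _ _ _ fun _ hα =>
    MvPolynomial.isHomogeneous_monomial _ (ex_degree (mem_Am.1 hα))

/-- The symbol map. -/
def σ (m : ℕ) (x : R) : MvPolynomial (Fin (D + 1)) (O ⧸ Ideal.span {π}) :=
  if h : ∃ c, x - Δ.E m c ∈ Δ.F (m + 1) then P π m h.choose else 0

lemma σ_eq {m : ℕ} {x : R} {c : (Fin D → ℕ) → O} (h : x - Δ.E m c ∈ Δ.F (m + 1)) :
    Δ.σ m x = P π m c := by
  have h' : ∃ c, x - Δ.E m c ∈ Δ.F (m + 1) := ⟨c, h⟩
  rw [σ, dif_pos h']
  refine P_congr (Δ.uni m (h'.choose - c) ?_)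
  have := Submodule.sub_mem _ h h'.choose_spec
  rw [sub_sub_sub_cancel_left, ← E_sub] at this
  exact this

lemma σ_fam {m : ℕ} {x : R} {ι : Type} (s : Finset ι) (α : ι → Fin D → ℕ) (c : ι → O)
    (hα : ∀ i ∈ s, α i ∈ Am D m)
    (h : x - ∑ i ∈ s, (c i * π ^ (m - ∑ l, α i l)) • Δ.B (α i) ∈ Δ.F (m + 1)) :
    Δ.σ m x = ∑ i ∈ s, MvPolynomial.monomial (ex m (α i)) (Ideal.Quotient.mk _ (c i)) := by
  have h1 : Δ.E m (fun γ => ∑ i ∈ s with α i = γ, c i) =
      ∑ i ∈ s, (c i * π ^ (m - ∑ l, α i l)) • Δ.B (α i) := by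
    rw [← Finset.sum_fiberwise_of_maps_to hα, E]
    refine Finset.sum_congr rfl fun γ _ => ?_
    rw [Finset.sum_mul, Finset.sum_smul]
    refine Finset.sum_congr rfl fun i hi => ?_
    rw [(Finset.mem_filter.1 hi).2]
  rw [← h1] at h
  rw [Δ.σ_eq h, ← Finset.sum_fiberwise_of_maps_to hα, P]
  refine Finset.sum_congr rfl fun γ _ => ?_
  rw [map_sum, map_sum]
  refine Finset.sum_congr rfl fun i hi => ?_
  rw [(Finset.mem_filter.1 hi).2]

lemma σ_mul {a b : ℕ} {x y : R} (hx : x ∈ Δ.F a) (hy : y ∈ Δ.F b) :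
    Δ.σ (a + b) (x * y) = Δ.σ a x * Δ.σ b y := by
  obtain ⟨c, hc⟩ := Δ.exi a x hx
  obtain ⟨c', hc'⟩ := Δ.exi b y hy
  change x - Δ.E a c ∈ _ at hc
  change y - Δ.E b c' ∈ _ at hc'
  have hs : ∀ u : (Fin D → ℕ) × (Fin D → ℕ), ∑ l, (u.1 + u.2) l = ∑ l, u.1 l + ∑ l, u.2 l :=
    fun u => by simp only [Pi.add_apply, Finset.sum_add_distrib]
  rw [Δ.σ_fam (Am D a ×ˢ Am D b) (fun u => u.1 + u.2) (fun u => c u.1 * c' u.2), Δ.σ_eq hc,
    Δ.σ_eq hc', P, P, Finset.sum_mul_sum, ← Finset.sum_product']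
  · refine Finset.sum_congr rfl fun u hu => ?_
    obtain ⟨h1, h2⟩ := Finset.mem_product.1 hu
    rw [MvPolynomial.monomial_mul, map_mul, ex_add (mem_Am.1 h1) (mem_Am.1 h2)]
  · intro u hu
    obtain ⟨h1, h2⟩ := Finset.mem_product.1 hu
    rw [mem_Am] at h1 h2 ⊢
    rw [hs]; omega
  · have e1 : x * y - Δ.E a c * Δ.E b c' ∈ Δ.F (a + b + 1) := by
      have : x * y - Δ.E a c * Δ.E b c' = (x - Δ.E a c) * y + Δ.E a c * (y - Δ.E b c') := by
        noncomm_ring
      rw [this]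
      refine Submodule.add_mem _ ?_ (Δ.mul_mem a (b + 1) _ _ (Δ.E_mem a c) hc')
      have := Δ.mul_mem (a + 1) b _ _ hc hy
      rwa [show a + 1 + b = a + b + 1 by ring] at this
    have e2 : Δ.E a c * Δ.E b c' - ∑ u ∈ Am D a ×ˢ Am D b,
        (c u.1 * c' u.2 * π ^ (a + b - ∑ l, (u.1 + u.2) l)) • Δ.B (u.1 + u.2) ∈
          Δ.F (a + b + 1) := by
      rw [E, E, Finset.sum_mul_sum, ← Finset.sum_product', ← Finset.sum_sub_distrib]
      refine Submodule.sum_mem _ fun u hu => ?_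
      obtain ⟨h1, h2⟩ := Finset.mem_product.1 hu
      rw [mem_Am] at h1 h2
      have h3 : c u.1 * π ^ (a - ∑ l, u.1 l) * (c' u.2 * π ^ (b - ∑ l, u.2 l)) =
          c u.1 * c' u.2 * π ^ (a + b - ∑ l, (u.1 + u.2) l) := by
        rw [hs, show a + b - (∑ l, u.1 l + ∑ l, u.2 l) = (a - ∑ l, u.1 l) + (b - ∑ l, u.2 l) by
          omega, pow_add]
        ring
      rw [smul_mul_smul_comm, h3, ← smul_sub, hs,
        show a + b - (∑ l, u.1 l + ∑ l, u.2 l) = a + b + 1 - (∑ l, u.1 l + ∑ l, u.2 l + 1) by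
          omega]
      exact Δ.term_mem _ (by omega) (Δ.B_mul _ _)
    have := Submodule.add_mem _ e1 e2
    rwa [sub_add_sub_cancel] at this

/-- The filtered ring has a polynomial graded ring. -/
def pbw [hm : (Ideal.span {π}).IsMaximal] :
    @PBW R _ (O ⧸ Ideal.span {π}) (Ideal.Quotient.field _) (D + 1) :=
  letI : Field (O ⧸ Ideal.span {π}) := Ideal.Quotient.field _
  { F := fun m => (Δ.F m).toAddSubgroup
    F_zero := by ext x; simpa using Δ.F_zero x
    anti := fun m => Δ.anti m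
    mul_mem := Δ.mul_mem
    σ := Δ.σ
    σ_add := fun m x y hx hy => by
      obtain ⟨c, hc⟩ := Δ.exi m x hx
      obtain ⟨c', hc'⟩ := Δ.exi m y hy
      change x - Δ.E m c ∈ _ at hc
      change y - Δ.E m c' ∈ _ at hc'
      have : x + y - Δ.E m (c + c') ∈ Δ.F (m + 1) := by
        rw [E_add, ← sub_add_sub_comm]; exact Submodule.add_mem _ hc hc'
      rw [Δ.σ_eq hc, Δ.σ_eq hc', Δ.σ_eq this, P_add]
    σ_hom := fun m x hx => by
      obtain ⟨c, hc⟩ := Δ.exi m x hx
      rw [Δ.σ_eq hc]; exact P_hom m c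
    σ_eq_zero := fun m x hx => by
      obtain ⟨c, hc⟩ := Δ.exi m x hx
      change x - Δ.E m c ∈ _ at hc
      rw [Δ.σ_eq hc]
      constructor
      · intro h
        have h1 : Δ.E m c ∈ Δ.F (m + 1) := Δ.E_mem_succ fun α hα => by
          rw [← Ideal.mem_span_singleton, ← Ideal.Quotient.eq_zero_iff_mem, ← coeff_P c hα, h,
            MvPolynomial.coeff_zero]
        have := Submodule.add_mem _ hc h1
        rwa [sub_add_cancel] at this
      · intro h
        have h1 := Submodule.sub_mem _ (show x ∈ Δ.F (m + 1) from h) hc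
        rw [sub_sub_cancel] at h1
        rw [P_congr (c' := 0) fun α hα => by simpa using Δ.uni m c h1 α hα]
        simp [P]
    σ_surj := fun m Q hQ => by
      choose c hc using fun α : Fin D → ℕ =>
        Ideal.Quotient.mk_surjective (I := Ideal.span {π}) (Q.coeff (ex m α))
      refine ⟨Δ.E m c, Δ.E_mem m c, ?_⟩
      rw [Δ.σ_eq (c := c) (by simp)]
      ext d
      by_cases hd : d.degree = m
      · obtain ⟨α, h1, rfl⟩ := ex_surj d hd
        rw [coeff_P c (mem_Am.2 h1), hc]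
      · rw [(P_hom m c).coeff_eq_zero hd, hQ.coeff_eq_zero hd]
    σ_mul := fun _ _ _ _ hx hy => Δ.σ_mul hx hy
    sep := Δ.sep
    compl := Δ.compl }

end Data

lemma smodEq_iff {O : Type} [CommRing O] (π a b : O) (n : ℕ) :
    a ≡ b [SMOD ((Ideal.span {π}) ^ n • ⊤ : Submodule O O)] ↔ π ^ n ∣ a - b := by
  rw [SModEq.sub_mem, Ideal.span_singleton_pow, smul_eq_mul, Ideal.mul_top,
    Ideal.mem_span_singleton]

lemma eq_zero_of_dvd {O : Type} [CommRing O] {p : ℕ} {π : O} (hc : Coef O p π) {a : O}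
    (h : ∀ s, π ^ s ∣ a) : a = 0 :=
  hc.compl.toIsHausdorff.haus a fun n => (smodEq_iff π a 0 n).2 (by simpa using h n)

section level
variable {O : Type} [CommRing O] {p : ℕ} {π : O} {X : Type} [Group X] {K : Subgroup X}

lemma J_le (h0 : Iw0Stmt) {m n : ℕ} (h : m ≤ n) : Jm π K n ≤ Jm π K m := by
  induction h with
  | refl => exact le_rfl
  | step _ ih => exact ((h0 O π X K).1 _).trans ih

lemma mem_J_of_dvd (h0 : Iw0Stmt) (s : ℕ) {z : MonoidAlgebra O X} (hz : z ∈ Jm π K 0)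
    (hd : ∀ q, π ^ s ∣ z.coeff q) : z ∈ Jm π K s := by
  have hp : ∀ (t : ℕ) (w : MonoidAlgebra O X), w ∈ Jm π K 0 → π ^ t • w ∈ Jm π K t := by
    intro t w hw
    induction t with
    | zero => simpa using hw
    | succ t ih => rw [pow_succ', mul_smul]; exact (h0 O π X K).2.2.1 _ _ ih
  rw [← MonoidAlgebra.sum_coeff_single z]
  refine Submodule.sum_mem _ fun q hq => ?_
  obtain ⟨u, hu⟩ := hd q
  have hq' : q ∈ K := ((h0 O π X K).2.2.2.1 z).1 hz q (Finsupp.mem_support_iff.1 hq)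
  have : MonoidAlgebra.single q (z.coeff q) = π ^ s • MonoidAlgebra.single q u := by
    rw [hu, MonoidAlgebra.smul_single, smul_eq_mul]
  change MonoidAlgebra.single q (z.coeff q) ∈ _
  rw [this]
  refine hp s _ (((h0 O π X K).2.2.2.1 _).2 fun q' hq'' => ?_)
  rw [MonoidAlgebra.coeff_single, Finsupp.single_apply_ne_zero] at hq''
  rw [hq''.1]; exact hq'

lemma J_sep (hc : Coef O p π) (h3 : ∀ s, ∃ m, ∀ x ∈ Jm π K m, ∀ q, π ^ s ∣ x.coeff q)
    {z : MonoidAlgebra O X} (hz : ∀ m, z ∈ Jm π K m) : z = 0 := by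
  ext q
  refine eq_zero_of_dvd hc fun s => ?_
  obtain ⟨m, hm⟩ := h3 s
  exact hm z (hz m) q

lemma J_tail (h0 : Iw0Stmt) (y : ℕ → MonoidAlgebra O X) (hy : ∀ n, y n ∈ Jm π K n) {m n : ℕ}
    (h : m ≤ n) : ∑ i ∈ Finset.range n, y i - ∑ i ∈ Finset.range m, y i ∈ Jm π K m := by
  rw [← Finset.sum_Ico_eq_sub _ h]
  exact Submodule.sum_mem _ fun i hi => J_le h0 (Finset.mem_Ico.1 hi).1 (hy i)

lemma J_compl [Finite X] (h0 : Iw0Stmt) (hc : Coef O p π)
    (h3 : ∀ s, ∃ m, ∀ x ∈ Jm π K m, ∀ q, π ^ s ∣ x.coeff q)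
    (y : ℕ → MonoidAlgebra O X) (hy : ∀ n, y n ∈ Jm π K n) :
    ∃ L, ∀ m, L - ∑ i ∈ Finset.range m, y i ∈ Jm π K m := by
  choose ms hms using h3
  let φ : ℕ → ℕ := fun s => s + ∑ t ∈ Finset.range (s + 1), ms t
  have hφ1 : ∀ s, ms s ≤ φ s := fun s =>
    (Finset.single_le_sum (f := ms) (fun _ _ => Nat.zero_le _)
      (Finset.self_mem_range_succ s)).trans (Nat.le_add_left _ _)
  have hφ2 : ∀ s, s ≤ φ s := fun s => Nat.le_add_right _ _
  have hφ3 : ∀ s t, s ≤ t → φ s ≤ φ t := fun s t h =>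
    Nat.add_le_add h (Finset.sum_le_sum_of_subset (Finset.range_mono (by omega)))
  let S : ℕ → MonoidAlgebra O X := fun n => ∑ i ∈ Finset.range n, y i
  have hS0 : ∀ n, S n ∈ Jm π K 0 := fun n => by
    simpa using J_tail h0 y hy (Nat.zero_le n)
  have hL : ∀ q, ∃ l : O, ∀ s, π ^ s ∣ (S (φ s)).coeff q - l := fun q => by
    obtain ⟨l, hl⟩ := hc.compl.toIsPrecomplete.prec (f := fun s => (S (φ s)).coeff q)
      (fun {s t} h => by
        rw [smodEq_iff, ← dvd_neg, neg_sub]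
        have := hms s _ (J_le h0 (hφ1 s) (J_tail h0 y hy (hφ3 s t h))) q
        simpa [S] using this)
    exact ⟨l, fun s => (smodEq_iff π _ _ s).1 (hl s)⟩
  choose l hl using hL
  let L : MonoidAlgebra O X := MonoidAlgebra.ofCoeff (Finsupp.equivFunOnFinite.symm l)
  have hL0 : L ∈ Jm π K 0 := ((h0 O π X K).2.2.2.1 _).2 fun q hq => by
    by_contra hK
    refine hq (eq_zero_of_dvd hc fun s => ?_)
    have h1 : (S (φ s)).coeff q = 0 := by
      by_contra h
      exact hK (((h0 O π X K).2.2.2.1 _).1 (hS0 _) q h)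
    have := hl q s
    rw [h1, zero_sub, dvd_neg] at this
    exact this
  refine ⟨L, fun m => ?_⟩
  have h1 : L - S (φ m) ∈ Jm π K m :=
    mem_J_of_dvd h0 m (Submodule.sub_mem _ hL0 (hS0 _)) fun q => by
      rw [← dvd_neg]
      have := hl q m
      simpa [L] using this
  have := Submodule.add_mem _ h1 (J_tail h0 y hy (hφ2 m))
  rwa [sub_add_sub_cancel] at this

end level

section tower
variable {G : Type} [Group G] {p D : ℕ} (T : Tower G p D) {O : Type} [CommRing O] (π : O)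

/-- The filtration of the Iwasawa algebra. -/
def Fm (m : ℕ) : Submodule O (T.S O) :=
  ⨅ j, (Jm π (T.K j) m).comap (T.lamS O j).toLinearMap

lemma mem_Fm {m : ℕ} {x : T.S O} : x ∈ Fm T π m ↔ ∀ j, T.lamS O j x ∈ Jm π (T.K j) m := by
  simp [Fm]

variable (O) in
/-- The generators in the Iwasawa algebra. -/
def ug (i : Fin D) : T.S O :=
  T.mkS (T.iota O (T.h i)) (by
    have := T.iota_mem_Sx O (T.h i)
    rwa [T.qm_eq_one.2 (T.h_mem i)] at this)

variable (O) in
/-- Ordered monomials in the Iwasawa algebra. -/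
def Bs (α : Fin D → ℕ) : T.S O := (List.ofFn fun i => (ug T O i - 1) ^ α i).prod

lemma lamS_Bs (j : ℕ) (α : Fin D → ℕ) : T.lamS O j (Bs T O α) = bm O (T.hb j) α := by
  simp only [Bs, bm, map_list_prod, List.map_ofFn]
  refine congrArg List.prod (congrArg List.ofFn (funext fun l => ?_))
  simp only [Function.comp_apply, map_pow, map_sub, map_one]
  rfl

lemma map_lamS (x : T.S O) {i j : ℕ} (hij : i ≤ j) :
    MonoidAlgebra.mapDomainAlgHom O O (T.tr hij) (T.lamS O j x) = T.lamS O i x :=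
  T.map_lam _ hij

lemma lamS_ext {x y : T.S O} (h : ∀ j, T.lamS O j x = T.lamS O j y) : x = y :=
  T.val_injective O (T.lam_ext h)

lemma lamS_mem (h0 : Iw0Stmt) (j : ℕ) (x : T.S O) : T.lamS O j x ∈ Jm π (T.K j) 0 :=
  ((h0 O π _ _).2.2.2.1 _).2 fun q hq => T.val_mem x j q hq

lemma map_J (h0 : Iw0Stmt) {i j : ℕ} (hij : i ≤ j) (m : ℕ) :
    (Jm π (T.K j) m).map (MonoidAlgebra.mapDomainAlgHom O O (T.tr hij)).toLinearMap =
      Jm π (T.K i) m := by
  rw [(h0 O π _ (T.K j)).2.2.2.2.2.2, T.map_K]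

lemma down (h0 : Iw0Stmt) {i j : ℕ} (hij : i ≤ j) {m : ℕ} {y : MonoidAlgebra O (T.Q j)}
    (hy : y ∈ Jm π (T.K j) m) :
    MonoidAlgebra.mapDomainAlgHom O O (T.tr hij) y ∈ Jm π (T.K i) m := by
  rw [← map_J T π h0 hij]
  exact ⟨y, hy, rfl⟩

lemma mem_Fm_of_level (h0 : Iw0Stmt) (h1 : Iw1Stmt) (hp : π ∣ (p : O)) {m j : ℕ}
    (hm : m ≤ j + 1) {x : T.S O} (hx : T.lamS O j x ∈ Jm π (T.K j) m) : x ∈ Fm T π m := by
  rw [mem_Fm]
  intro i
  rcases le_total i j with hij | hji
  · rw [← map_lamS T x hij]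
    exact down T π h0 hij hx
  · rw [← map_J T π h0 hji] at hx
    obtain ⟨y, hy, hy'⟩ := hx
    have h2 : T.lamS O i x - y ∈ Jm π (T.K i) (j + 1) :=
      (h1 G p D T O π hp i).2.2.2 j hji _
        (Submodule.sub_mem _ (lamS_mem T π h0 i x) (J_le h0 (Nat.zero_le _) hy))
        (by rw [map_sub, map_lamS, ← hy']; exact sub_self _)
    have := Submodule.add_mem _ (J_le h0 hm h2) hy
    rwa [sub_add_cancel] at this

lemma lamS_E (j m : ℕ) (c : (Fin D → ℕ) → O) :
    T.lamS O j (∑ α ∈ Am D m, (c α * π ^ (m - ∑ i, α i)) • Bs T O α) =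
      ∑ α ∈ Am D m, (c α * π ^ (m - ∑ i, α i)) • bm O (T.hb j) α := by
  simp only [map_sum, map_smul, lamS_Bs]

lemma uni [IsDomain O] (h2 : Iw2Stmt) (hc : Coef O p π) (m : ℕ) (c : (Fin D → ℕ) → O)
    (h : ∑ α ∈ Am D m, (c α * π ^ (m - ∑ i, α i)) • Bs T O α ∈ Fm T π (m + 1)) :
    ∀ α ∈ Am D m, π ∣ c α := by
  have h3 := (mem_Fm T π).1 h m
  rw [lamS_E] at h3
  have hlt : ∀ α ∈ Am D m, ∀ i, α i < p ^ m := fun α hα i =>
    ((Finset.single_le_sum (f := α) (fun _ _ => Nat.zero_le _) (Finset.mem_univ i)).trans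
      (mem_Am.1 hα)).trans_lt (Nat.lt_pow_self T.prime.one_lt)
  let c' : (Fin D → Fin (p ^ m)) → O := fun β =>
    if ∑ i, (β i).val ≤ m then c (fun i => (β i).val) * π ^ (m - ∑ i, (β i).val) else 0
  have h4 : ∑ β, c' β • bm O (T.hb m) (fun i => (β i).val) =
      ∑ α ∈ Am D m, (c α * π ^ (m - ∑ i, α i)) • bm O (T.hb m) α := by
    simp only [c', ite_smul, zero_smul]
    rw [← Finset.sum_filter]
    refine Finset.sum_bij (fun β _ i => (β i).val) (fun β hβ => ?_) (fun β _ β' _ e => ?_)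
      (fun α hα => ?_) (fun _ _ => rfl)
    · exact mem_Am.2 (Finset.mem_filter.1 hβ).2
    · funext i; exact Fin.ext (congrFun e i)
    · exact ⟨fun i => ⟨α i, hlt α hα i⟩,
        Finset.mem_filter.2 ⟨Finset.mem_univ _, mem_Am.1 hα⟩, rfl⟩
  rw [← h4] at h3
  intro α hα
  have h5 := (h2 G p D T O π hc.dvd m).2.2.2.1 (m + 1) c' (Or.inl le_rfl) h3
    fun i => ⟨α i, hlt α hα i⟩
  have h6 := mem_Am.1 hα
  simp only [c', if_pos h6] at h5
  rw [show m + 1 - ∑ i, α i = (m - ∑ i, α i) + 1 by omega, pow_succ'] at h5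
  exact (mul_dvd_mul_iff_right (pow_ne_zero _ hc.ne)).1 h5

/-- The data for the Iwasawa algebra. -/
def data [IsDomain O] (h0 : Iw0Stmt) (h1 : Iw1Stmt) (h2 : Iw2Stmt) (hc : Coef O p π) :
    Data O π (T.S O) D where
  F := Fm T π
  B := Bs T O
  F_zero x := (mem_Fm T π).2 fun j => lamS_mem T π h0 j x
  anti m x hx := (mem_Fm T π).2 fun j => (h0 O π _ _).1 m ((mem_Fm T π).1 hx j)
  mul_mem a b x y hx hy := (mem_Fm T π).2 fun j => by
    rw [map_mul]
    exact (h0 O π _ _).2.1 a b _ _ ((mem_Fm T π).1 hx j) ((mem_Fm T π).1 hy j)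
  smul_mem m x hx := (mem_Fm T π).2 fun j => by
    rw [map_smul]
    exact (h0 O π _ _).2.2.1 m _ ((mem_Fm T π).1 hx j)
  B_mem α := (mem_Fm T π).2 fun j => by
    rw [lamS_Bs]
    exact (h0 O π _ _).2.2.2.2.2.1 D _ (T.hb_mem j) α
  B_mul α β := (mem_Fm T π).2 fun j => by
    rw [map_sub, map_mul, lamS_Bs, lamS_Bs, lamS_Bs]
    exact (h1 G p D T O π hc.dvd j).2.1 α β
  exi m x hx := by
    obtain ⟨c, hc'⟩ := (h1 G p D T O π hc.dvd m).2.2.1 m _ ((mem_Fm T π).1 hx m)
    refine ⟨c, mem_Fm_of_level T π h0 h1 hc.dvd le_rfl ?_⟩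
    rw [map_sub, lamS_E]
    exact hc'
  uni := uni T π h2 hc
  sep x hx := lamS_ext T fun j => by
    rw [map_zero]
    exact J_sep hc (h2 G p D T O π hc.dvd j).2.2.1 fun m => (mem_Fm T π).1 (hx m) j
  compl y hy := by
    choose L hL using fun j => J_compl h0 hc (h2 G p D T O π hc.dvd j).2.2.1
      (fun n => T.lamS O j (y n)) fun n => (mem_Fm T π).1 (hy n) j
    have hcomp : ∀ i j (hij : i ≤ j),
        MonoidAlgebra.mapDomainAlgHom O O (T.tr hij) (L j) = L i := fun i j hij => by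
      rw [← sub_eq_zero]
      refine J_sep hc (h2 G p D T O π hc.dvd i).2.2.1 fun m => ?_
      have h3 := down T π h0 hij (hL j m)
      simp only [map_sub, map_sum, map_lamS] at h3
      have := Submodule.sub_mem _ h3 (hL i m)
      rwa [sub_sub_sub_cancel_right] at this
    refine ⟨T.mkS (T.mkLam L hcomp) fun j q hq => ?_, fun m => (mem_Fm T π).2 fun j => ?_⟩
    · have h3 := hL j 0
      rw [Finset.sum_range_zero, sub_zero] at h3
      exact ((h0 O π _ _).2.2.2.1 _).1 h3 q hq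
    · rw [map_sub, map_sum]
      exact hL j m

end tower

end IW3

theorem iw3 (h0 : Iw0Stmt) (h1 : Iw1Stmt) (h2 : Iw2Stmt) (_hb : IwbStmt) : Iw3Stmt := by
  intro G _ p D T O _ _ π hc
  have := hc.max
  exact ⟨O ⧸ Ideal.span {π}, Ideal.Quotient.field _, ⟨(IW3.data T π h0 h1 h2 hc).pbw⟩⟩

end Pool.Agent.MP_54e5d7_al.atl

end
end MrgPart2

-- ======== part 3: formerly Pool.Agent.MP_54e5d7_al.atl.TOWER
section MrgPart3

/-!
Project ATL, row TOWER: deep congruence subgroups form a uniform tower.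
-/

set_option autoImplicit false

open Classical Module

noncomputable section
namespace Pool.Agent.MP_54e5d7_al.atl

namespace Twr
variable {G 𝒜 : Type} [Group G] [Ring 𝒜]

/-- Congruence subgroups. -/
def Gam (Φ : G →* 𝒜) (p j : ℕ) : Subgroup G where
  carrier := {g | ∃ b : 𝒜, Φ g = 1 + p ^ j • b}
  one_mem' := ⟨0, by simp⟩
  mul_mem' := by
    rintro g g' ⟨a, ha⟩ ⟨b, hb⟩
    refine ⟨a + b + p ^ j • (a * b), ?_⟩
    rw [map_mul, ha, hb]
    simp only [add_mul, mul_add, one_mul, mul_one, smul_add, smul_mul_assoc, mul_smul_comm]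
    abel
  inv_mem' := by
    rintro g ⟨a, ha⟩
    refine ⟨-(Φ g⁻¹ * a), ?_⟩
    have h : Φ g⁻¹ * Φ g = 1 := by rw [← map_mul, inv_mul_cancel, map_one]
    rw [ha, mul_add, mul_one, mul_smul_comm] at h
    rw [smul_neg, ← sub_eq_add_neg]
    exact eq_sub_of_add_eq h

lemma mem_Gam {Φ : G →* 𝒜} {p j : ℕ} {g : G} :
    g ∈ Gam Φ p j ↔ ∃ b : 𝒜, Φ g = 1 + p ^ j • b := Iff.rfl

lemma normal (Φ : G →* 𝒜) (p j : ℕ) : (Gam Φ p j).Normal := ⟨by
  rintro g ⟨a, ha⟩ x
  refine ⟨Φ x * a * Φ x⁻¹, ?_⟩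
  have h : Φ x * Φ x⁻¹ = 1 := by rw [← map_mul, mul_inv_cancel, map_one]
  rw [map_mul, map_mul, ha, mul_add, add_mul, mul_one, h, mul_smul_comm, smul_mul_assoc]⟩

lemma anti (Φ : G →* 𝒜) (p j : ℕ) : Gam Φ p (j + 1) ≤ Gam Φ p j := by
  rintro g ⟨a, ha⟩
  exact ⟨p • a, by rw [ha, pow_succ, mul_smul]⟩

lemma comm_mem (Φ : G →* 𝒜) (p i j : ℕ) {g g' : G} (hg : g ∈ Gam Φ p i)
    (hg' : g' ∈ Gam Φ p j) (k : ℕ) (hk : k ≤ i + j) :
    g * g' * g⁻¹ * g'⁻¹ ∈ Gam Φ p k := by
  obtain ⟨a, ha⟩ := hg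
  obtain ⟨b, hb⟩ := hg'
  obtain ⟨l, hl⟩ := Nat.exists_eq_add_of_le hk
  refine ⟨p ^ l • ((a * b - b * a) * Φ (g⁻¹ * g'⁻¹)), ?_⟩
  have h1 : Φ (g' * g) * Φ (g⁻¹ * g'⁻¹) = 1 := by
    rw [← map_mul]; simp
  have h2 : Φ (g * g') = Φ (g' * g) + p ^ (i + j) • (a * b - b * a) := by
    rw [map_mul, map_mul, ha, hb, pow_add, mul_smul]
    simp only [add_mul, mul_add, one_mul, mul_one, smul_sub, smul_add, smul_mul_assoc,
      mul_smul_comm]
    rw [smul_comm (p ^ j) (p ^ i) (a * b)]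
    abel
  rw [mul_assoc (g * g'), map_mul, h2, add_mul, h1, smul_mul_assoc, hl, pow_add, mul_smul]

lemma pow_expand (x : 𝒜) (n : ℕ) : ∃ w : 𝒜, (1 + x) ^ n = 1 + n • x + x * x * w := by
  induction n with
  | zero => exact ⟨0, by simp⟩
  | succ n ih =>
    obtain ⟨w, hw⟩ := ih
    refine ⟨n • (1 : 𝒜) + w + w * x, ?_⟩
    rw [pow_succ, hw]
    simp only [add_mul, mul_add, one_mul, mul_one, smul_mul_assoc, mul_smul_comm, succ_nsmul,
      mul_assoc]
    abel

section red
variable {N : ℕ} (e : Basis (Fin N) ℤ 𝒜)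

/-- Coordinates modulo `q`. -/
def red (q : ℕ) : 𝒜 →+ (Fin N → ZMod q) where
  toFun a := fun i => ((e.repr a i : ℤ) : ZMod q)
  map_zero' := by ext i; simp
  map_add' a b := by ext i; simp

lemma red_smul (q : ℕ) (a : 𝒜) : red e q (q • a) = 0 := by
  rw [map_nsmul]
  ext i
  simp

lemma red_eq_zero {q : ℕ} {a : 𝒜} (h : red e q a = 0) : ∃ b : 𝒜, a = q • b := by
  have h1 : ∀ i, (q : ℤ) ∣ e.repr a i := fun i =>
    (ZMod.intCast_zmod_eq_zero_iff_dvd _ _).1 (congrFun h i)
  choose y hy using h1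
  refine ⟨∑ i, y i • e i, ?_⟩
  conv_lhs => rw [← e.sum_repr a]
  rw [Finset.smul_sum]
  refine Finset.sum_congr rfl fun i _ => ?_
  rw [hy, mul_smul, natCast_zsmul]

include e in
lemma cancel {q : ℕ} (hq : q ≠ 0) {a b : 𝒜} (h : q • a = q • b) : a = b := by
  refine e.repr.injective (Finsupp.ext fun i => ?_)
  have h1 : e.repr (q • a) i = e.repr (q • b) i := by rw [h]
  rw [map_nsmul, map_nsmul, Finsupp.smul_apply, Finsupp.smul_apply, nsmul_eq_mul,
    nsmul_eq_mul] at h1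
  exact mul_left_cancel₀ (a := (q : ℤ)) (by exact_mod_cast hq) h1

include e in
lemma finiteIndex (Φ : G →* 𝒜) {p : ℕ} (hp : p ≠ 0) (j : ℕ) : (Gam Φ p j).FiniteIndex := by
  have : NeZero (p ^ j) := ⟨pow_ne_zero _ hp⟩
  have : Finite (G ⧸ Gam Φ p j) := by
    refine Finite.of_injective (fun x : G ⧸ Gam Φ p j => red e (p ^ j) (Φ x.out)) ?_
    intro x y hxy
    have h0 : red e (p ^ j) (Φ y.out - Φ x.out) = 0 := by
      rw [map_sub]; exact sub_eq_zero.2 hxy.symm
    obtain ⟨b, hb⟩ := red_eq_zero e h0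
    rw [← x.out_eq, ← y.out_eq]
    refine QuotientGroup.eq.2 ⟨Φ x.out⁻¹ * b, ?_⟩
    have h : Φ x.out⁻¹ * Φ x.out = 1 := by rw [← map_mul, inv_mul_cancel, map_one]
    rw [map_mul, eq_add_of_sub_eq' hb, mul_add, h, mul_smul_comm]
  exact Subgroup.finiteIndex_of_finite_quotient

variable (Φ : G →* 𝒜) (p : ℕ)

/-- The leading term of a group element at level `j`. -/
def R (j : ℕ) (g : G) (v : Fin N → ZMod p) : Prop :=
  ∃ b : 𝒜, Φ g = 1 + p ^ j • b ∧ red e p b = v

variable {e Φ p}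

lemma R.mem {j : ℕ} {g : G} {v : Fin N → ZMod p} (h : R e Φ p j g v) : g ∈ Gam Φ p j := by
  obtain ⟨b, hb, _⟩ := h
  exact ⟨b, hb⟩

lemma exists_R {j : ℕ} {g : G} (h : g ∈ Gam Φ p j) : ∃ v, R e Φ p j g v := by
  obtain ⟨b, hb⟩ := h
  exact ⟨_, b, hb, rfl⟩

lemma R_one (j : ℕ) : R e Φ p j 1 0 := ⟨0, by simp, by simp⟩

lemma R.mul {j : ℕ} (hj : 1 ≤ j) {g g' : G} {v v' : Fin N → ZMod p} (h : R e Φ p j g v)
    (h' : R e Φ p j g' v') : R e Φ p j (g * g') (v + v') := by
  obtain ⟨a, ha, rfl⟩ := h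
  obtain ⟨b, hb, rfl⟩ := h'
  refine ⟨a + b + p ^ j • (a * b), ?_, ?_⟩
  · rw [map_mul, ha, hb]
    simp only [add_mul, mul_add, one_mul, mul_one, smul_add, smul_mul_assoc, mul_smul_comm]
    abel
  · obtain ⟨l, rfl⟩ := Nat.exists_eq_add_of_le hj
    rw [map_add, map_add, pow_add, pow_one, mul_smul, red_smul, add_zero]

lemma R.pow {j : ℕ} (hj : 1 ≤ j) {g : G} {v : Fin N → ZMod p} (h : R e Φ p j g v) (n : ℕ) :
    R e Φ p j (g ^ n) (n • v) := by
  induction n with
  | zero => simpa using R_one j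
  | succ n ih => rw [pow_succ, succ_nsmul]; exact ih.mul hj h

lemma R.unique (hp : p ≠ 0) {j : ℕ} {g : G} {v v' : Fin N → ZMod p} (h : R e Φ p j g v)
    (h' : R e Φ p j g v') : v = v' := by
  obtain ⟨a, ha, rfl⟩ := h
  obtain ⟨b, hb, rfl⟩ := h'
  rw [cancel e (pow_ne_zero j hp) (add_left_cancel (ha.symm.trans hb))]

lemma R.inv (hp : p ≠ 0) {j : ℕ} (hj : 1 ≤ j) {g : G} {v : Fin N → ZMod p}
    (h : R e Φ p j g v) : R e Φ p j g⁻¹ (-v) := by
  obtain ⟨w, hw⟩ := exists_R (e := e) (inv_mem h.mem)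
  have h1 := hw.mul hj h
  rw [inv_mul_cancel] at h1
  have h2 := h1.unique hp (R_one j)
  rwa [eq_neg_of_add_eq_zero_left h2] at hw

lemma R_zero {j : ℕ} {g : G} : R e Φ p j g 0 ↔ g ∈ Gam Φ p (j + 1) := by
  constructor
  · rintro ⟨a, ha, h0⟩
    obtain ⟨b, rfl⟩ := red_eq_zero e h0
    exact ⟨b, by rw [ha, pow_succ, mul_smul]⟩
  · rintro ⟨b, hb⟩
    exact ⟨p • b, by rw [hb, pow_succ, mul_smul], red_smul e p b⟩

lemma R.powp {j : ℕ} (hj : 2 ≤ j) {g : G} {v : Fin N → ZMod p} (h : R e Φ p j g v) :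
    R e Φ p (j + 1) (g ^ p) v := by
  obtain ⟨a, ha, rfl⟩ := h
  obtain ⟨w, hw⟩ := pow_expand (p ^ j • a) p
  obtain ⟨l, rfl⟩ := Nat.exists_eq_add_of_le hj
  refine ⟨a + p • (p ^ l • (a * a * w)), ?_, ?_⟩
  · rw [map_pow, ha, hw]
    simp only [smul_add, smul_mul_assoc, mul_smul_comm, ← mul_smul, add_assoc]
    congr 3 <;> ring
  · rw [map_add, red_smul, add_zero]

lemma R.powpow {j : ℕ} (hj : 2 ≤ j) {g : G} {v : Fin N → ZMod p} (h : R e Φ p j g v) (i : ℕ) :
    R e Φ p (j + i) (g ^ p ^ i) v := by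
  induction i with
  | zero => simpa using h
  | succ i ih => rw [pow_succ, pow_mul]; exact ih.powp (by omega)

lemma R_prod {j : ℕ} (hj : 1 ≤ j) {D : ℕ} (x : Fin D → G) (v : Fin D → Fin N → ZMod p)
    (h : ∀ i, R e Φ p j (x i) (v i)) : R e Φ p j (List.ofFn x).prod (∑ i, v i) := by
  induction D with
  | zero => simpa using R_one j
  | succ D ih =>
    rw [List.ofFn_succ, List.prod_cons, Fin.sum_univ_succ]
    exact (h 0).mul hj (ih _ _ fun i => h i.succ)

variable (e Φ p)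

/-- The space of leading terms at level `j + 2`. -/
def L [Fact p.Prime] (j : ℕ) : Submodule (ZMod p) (Fin N → ZMod p) where
  carrier := {v | ∃ g, R e Φ p (j + 2) g v}
  zero_mem' := ⟨1, R_one _⟩
  add_mem' := by
    rintro v v' ⟨g, hg⟩ ⟨g', hg'⟩
    exact ⟨g * g', hg.mul (by omega) hg'⟩
  smul_mem' := by
    rintro c v ⟨g, hg⟩
    refine ⟨g ^ c.val, ?_⟩
    have h := hg.pow (by omega) c.val
    rwa [← Nat.cast_smul_eq_nsmul (ZMod p), ZMod.natCast_zmod_val] at h

lemma L_mono [Fact p.Prime] : Monotone (L e Φ p) := monotone_nat_of_le_succ fun j => by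
  rintro v ⟨g, hg⟩
  exact ⟨g ^ p, hg.powp (by omega)⟩

lemma index_succ [hp : Fact p.Prime] (j : ℕ) :
    (Gam Φ p (j + 2 + 1)).index =
      (Gam Φ p (j + 2)).index * p ^ finrank (ZMod p) (L e Φ p j) := by
  have hp0 : p ≠ 0 := hp.out.ne_zero
  have hex : ∀ g : Gam Φ p (j + 2), ∃ v, R e Φ p (j + 2) g v := fun g => exists_R g.2
  choose φ hφ using hex
  let f : Gam Φ p (j + 2) →* Multiplicative (L e Φ p j) :=
    { toFun := fun g => Multiplicative.ofAdd ⟨φ g, g, hφ g⟩
      map_one' := by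
        refine congrArg Multiplicative.ofAdd (Subtype.ext ?_)
        exact (hφ 1).unique hp0 (R_one _)
      map_mul' := fun g g' => by
        rw [← ofAdd_add]
        refine congrArg Multiplicative.ofAdd (Subtype.ext ?_)
        exact (hφ (g * g')).unique hp0 ((hφ g).mul (by omega) (hφ g')) }
  have hsurj : f.range = ⊤ := by
    rw [MonoidHom.range_eq_top]
    rintro ⟨v, g, hg⟩
    refine ⟨⟨g, hg.mem⟩, ?_⟩
    refine congrArg Multiplicative.ofAdd (Subtype.ext ?_)
    exact (hφ ⟨g, hg.mem⟩).unique hp0 hg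
  have hker : f.ker = (Gam Φ p (j + 2 + 1)).subgroupOf (Gam Φ p (j + 2)) := by
    ext g
    rw [MonoidHom.mem_ker, Subgroup.mem_subgroupOf, ← R_zero (e := e)]
    constructor
    · intro h
      have h1 : φ g = 0 := congrArg (fun x : Multiplicative (L e Φ p j) => x.toAdd.1) h
      exact h1 ▸ hφ g
    · intro h
      refine congrArg Multiplicative.ofAdd (Subtype.ext ?_)
      exact (hφ g).unique hp0 h
  have h1 := Subgroup.index_ker f
  rw [hker, hsurj, Subgroup.card_top] at h1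
  have h2 : Nat.card (Multiplicative (L e Φ p j)) = p ^ finrank (ZMod p) (L e Φ p j) := by
    change Nat.card (L e Φ p j) = _
    rw [Module.natCard_eq_pow_finrank (K := ZMod p), Nat.card_zmod]
  rw [← Subgroup.relIndex_mul_index (anti Φ p (j + 2)), Subgroup.relIndex, h1, h2, mul_comm]

end red
end Twr

open Twr in
theorem tower : TowerStmt := by
  intro G 𝒜 _ _ _ _ Φ p hp
  have : Fact p.Prime := ⟨hp⟩
  let e := Module.finBasis ℤ 𝒜
  obtain ⟨n, hn⟩ := (monotone_stabilizes_iff_noetherian (R := ZMod p)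
    (M := Fin (finrank ℤ 𝒜) → ZMod p)).2 inferInstance ⟨L e Φ p, L_mono e Φ p⟩
  have hn' : ∀ j, L e Φ p (n + j) = L e Φ p n := fun j => (hn (n + j) (by omega)).symm
  let β := Module.finBasis (ZMod p) (L e Φ p n)
  have hex : ∀ i, ∃ g, R e Φ p (n + 2) g (β i).1 := fun i => (β i).2
  choose h hh using hex
  refine ⟨n + 2, finrank (ZMod p) (L e Φ p n),
    { prime := hp
      H := fun j => Gam Φ p (n + 2 + j)
      normal := fun j => normal Φ p _
      anti := fun j => anti Φ p _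
      fin := finiteIndex e Φ hp.ne_zero _
      h := h
      h_mem := fun i => (hh i).mem
      pow_mem := fun j g hg => ?_
      comm_mem := fun j g g' hg hg' => comm_mem Φ p _ _ hg hg' _ (by omega)
      span := fun j g hg => ?_
      idx := fun j => ?_ }, by omega, fun j g => Iff.rfl⟩
  · obtain ⟨v, hv⟩ := exists_R (e := e) hg
    exact (hv.powp (by omega)).mem
  · obtain ⟨v, hv⟩ := exists_R (e := e) hg
    have hvL : v ∈ L e Φ p n := by
      rw [← hn' j]
      exact ⟨g, by rwa [show n + j + 2 = n + 2 + j by omega]⟩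
    refine ⟨fun i => (β.repr ⟨v, hvL⟩ i).val, ?_⟩
    have h1 : R e Φ p (n + 2 + j)
        (List.ofFn fun i => h i ^ (p ^ j * (β.repr ⟨v, hvL⟩ i).val)).prod
        (∑ i, (β.repr ⟨v, hvL⟩ i).val • (β i).1) :=
      R_prod (by omega) _ _ fun i => by
        rw [pow_mul]
        exact ((hh i).powpow (by omega) j).pow (by omega) _
    have h2 : ∑ i, (β.repr ⟨v, hvL⟩ i).val • (β i).1 = v := by
      have h3 := congrArg Subtype.val (β.sum_repr ⟨v, hvL⟩)
      rw [Submodule.coe_sum] at h3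
      refine Eq.trans (Finset.sum_congr rfl fun i _ => ?_) h3
      rw [← Nat.cast_smul_eq_nsmul (ZMod p), ZMod.natCast_zmod_val, Submodule.coe_smul]
    rw [h2] at h1
    have h4 := (hv.inv hp.ne_zero (by omega)).mul (by omega) h1
    rw [neg_add_cancel] at h4
    exact R_zero.1 h4
  · induction j with
    | zero => simp
    | succ j ih =>
      have h1 := index_succ e Φ p (n + j)
      rw [hn' j, show n + j + 2 = n + 2 + j by omega] at h1
      rw [← add_assoc, h1, ih, mul_add, mul_one, pow_add, mul_assoc]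

end Pool.Agent.MP_54e5d7_al.atl

end
end MrgPart3

-- ======== part 4: formerly Pool.Agent.MP_54e5d7_al.atl.WR
section MrgPart4

/-!
Project ATL: wreath products in the automorphism group of a free group.
-/

set_option autoImplicit false

open Classical

noncomputable section
namespace Pool.Agent.MP_54e5d7_al.atl

namespace Wr

/-- The wreath product of the cyclic group of order `p` with the symmetric group. -/
abbrev W (a p : ℕ) : Type :=
  (Fin a → Multiplicative (ZMod p)) ⋊[mulAutArrow] Equiv.Perm (Fin a)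

variable {a p n : ℕ}

/-- The action on the blocks. -/
def ac (w : W a p) (y : Fin a × ZMod p) : Fin a × ZMod p :=
  (w.right y.1, y.2 + (w.left (w.right y.1)).toAdd)

lemma ac_one (y : Fin a × ZMod p) : ac 1 y = y := by simp [ac]

lemma ac_mul (w w' : W a p) (y : Fin a × ZMod p) : ac (w * w') y = ac w (ac w' y) := by
  have h : (w * w').left (w.right (w'.right y.1)) =
      w.left (w.right (w'.right y.1)) * w'.left (w'.right y.1) := by
    have : (w * w').left (w.right (w'.right y.1)) = w.left (w.right (w'.right y.1)) *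
      w'.left (w.right⁻¹ (w.right (w'.right y.1))) := rfl
    rw [this]
    simp
  have h2 : (w * w').right y.1 = w.right (w'.right y.1) := rfl
  simp only [ac, h2, h, toAdd_mul]
  congr 1
  ring

variable (e : Fin a × {i : ZMod p // i ≠ 0} ↪ Fin n)

/-- The marked elements of the free group. -/
def x (y : Fin a × ZMod p) : FreeGroup (Fin n) :=
  if h : y.2 = 0 then 1 else FreeGroup.of (e (y.1, ⟨y.2, h⟩))

/-- The endomorphism attached to an element of the wreath product. -/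
def en (w : W a p) : FreeGroup (Fin n) →* FreeGroup (Fin n) :=
  FreeGroup.lift (Function.extend e
    (fun z => x e (ac w (z.1, z.2.1)) * (x e (ac w (z.1, 0)))⁻¹) FreeGroup.of)

lemma en_x (w : W a p) (y : Fin a × ZMod p) :
    en e w (x e y) = x e (ac w y) * (x e (ac w (y.1, 0)))⁻¹ := by
  obtain ⟨j, i⟩ := y
  by_cases h : i = 0
  · subst h
    simp [x]
  · have : x e (j, i) = FreeGroup.of (e (j, ⟨i, h⟩)) := by simp [x, h]
    rw [this, en, FreeGroup.lift_apply_of, e.injective.extend_apply]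

lemma en_of (w : W a p) (k : Fin n) (h : ¬∃ z, e z = k) :
    en e w (FreeGroup.of k) = FreeGroup.of k := by
  rw [en, FreeGroup.lift_apply_of, Function.extend_apply' _ _ _ h]

lemma of_e (z : Fin a × {i : ZMod p // i ≠ 0}) : FreeGroup.of (e z) = x e (z.1, z.2.1) := by
  simp [x, z.2.2]

lemma en_one : en e 1 = MonoidHom.id _ := by
  ext k
  by_cases h : ∃ z, e z = k
  · obtain ⟨z, rfl⟩ := h
    simp only [MonoidHom.id_apply]
    rw [of_e, en_x, ac_one, ac_one]
    simp [x]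
  · simp [en_of e _ k h]

lemma en_mul (w w' : W a p) : en e (w * w') = (en e w).comp (en e w') := by
  ext k
  by_cases h : ∃ z, e z = k
  · obtain ⟨z, rfl⟩ := h
    simp only [MonoidHom.comp_apply]
    rw [of_e, en_x, en_x, map_mul, map_inv, en_x, en_x, ac_mul, ac_mul]
    have : (ac w' (z.1, z.2.1)).1 = (ac w' (z.1, 0)).1 := rfl
    rw [this]
    group
  · simp [en_of e _ k h]

/-- The homomorphism to the automorphism group. -/
def om : W a p →* MulAut (FreeGroup (Fin n)) where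
  toFun w := MonoidHom.toMulEquiv (en e w) (en e w⁻¹)
    (by rw [← en_mul, inv_mul_cancel, en_one]) (by rw [← en_mul, mul_inv_cancel, en_one])
  map_one' := by
    ext g
    simp [en_one]
  map_mul' w w' := by
    ext g
    simp [en_mul]

lemma om_apply (w : W a p) (g : FreeGroup (Fin n)) : om e w g = en e w g := rfl

lemma eps_x (y : Fin a × ZMod p) : ((freeMark n).ε (x e y)).toAdd =
    if h : y.2 = 0 then 0 else Pi.single (e (y.1, ⟨y.2, h⟩)) 1 := by
  unfold x
  split_ifs with h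
  · simp
  · exact congrArg Multiplicative.toAdd ((freeMark n).dual _)

lemma faithful [Fact p.Prime] (w : W a p) (h : (freeMark n).abel (om e w) = 1) : w = 1 := by
  have key : ∀ j : Fin a, ((freeMark n).ε (x e (ac w (j, 1)))).toAdd =
      Pi.single (e (j, ⟨1, one_ne_zero⟩)) 1 + ((freeMark n).ε (x e (ac w (j, 0)))).toAdd := by
    intro j
    ext k
    have h1 := congrFun (congrFun h k) (e (j, ⟨1, one_ne_zero⟩))
    rw [Mark.abel_apply, om_apply] at h1
    have h2 : (freeMark n).x (e (j, ⟨1, one_ne_zero⟩)) = x e (j, 1) := of_e e _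
    rw [h2, en_x, map_mul, map_inv] at h1
    simp only [toAdd_mul, toAdd_inv, Pi.add_apply, Pi.neg_apply, Matrix.one_apply] at h1
    rw [Pi.add_apply, Pi.single_apply, ← h1]
    ring
  have hl : ∀ j : Fin a, (w.left (w.right j)).toAdd = 0 := by
    intro j
    by_contra h0
    have h1 := congrArg (fun v : Fin n → ℤ => ∑ k, v k) (key j)
    rw [eps_x, eps_x, dif_neg (show ¬(ac w (j, 0)).2 = 0 by simpa [ac] using h0)] at h1
    split_ifs at h1 <;> simp [Finset.sum_add_distrib] at h1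
  have hr : ∀ j : Fin a, w.right j = j := by
    intro j
    have h1 := key j
    have hne : ¬(ac w (j, 1)).2 = 0 := by simp [ac, hl]
    rw [eps_x, eps_x, dif_pos (show (ac w (j, 0)).2 = 0 by simp [ac, hl]),
      dif_neg hne] at h1
    have h2 := congrFun h1 (e (j, ⟨1, one_ne_zero⟩))
    rw [Pi.add_apply, Pi.single_eq_same, Pi.single_apply, Pi.zero_apply] at h2
    split_ifs at h2 with h3
    · exact (congrArg Prod.fst (e.injective h3)).symm
    · norm_num at h2
  ext j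
  · have := hl j
    rw [hr j] at this
    simpa using this
  · simp [hr j]

end Wr

theorem wr : WrStmt := by
  intro n p hp
  have : Fact p.Prime := ⟨hp⟩
  have hc : Fintype.card (Fin (n / (p - 1)) × {i : ZMod p // i ≠ 0}) ≤ Fintype.card (Fin n) := by
    simp [Fintype.card_subtype_compl, ZMod.card, Nat.div_mul_le_self]
  obtain ⟨e⟩ := Function.Embedding.nonempty_of_card_le hc
  refine ⟨Wr.W (n / (p - 1)) p, inferInstance,
    Finite.of_equiv _ SemidirectProduct.equivProd.symm, Wr.om e, ?_, Wr.faithful e⟩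
  rw [SemidirectProduct.card]
  simp [Nat.card_eq_fintype_card, Fintype.card_perm]

end Pool.Agent.MP_54e5d7_al.atl

end
end MrgPart4

-- marker of a merged file
example : 731051 + 694359 = 731051 + 694359 := rfl
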