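import Pool.Agent.MP_54e5d7_al.atl.IW0
import Pool.Agent.MP_54e5d7_al.atl.WR
import Pool.Agent.MP_54e5d7_al.atl.L0
import Pool.Agent.MP_54e5d7_al.atl.MAG

-- ======== part 0: formerly Pool.Agent.MP_54e5d7_al.atl.GELF
section MrgPart0

/-!
Project ATL, row GELF: the lemma of Gelfond in several variables.
-/

set_option autoImplicit false

open Classical

noncomputable section
namespace Pool.Agent.MP_54e5d7_al.atl

namespace GelfA

open Polynomial Real Filter MeasureTheory Set in
lemma mahler_le (p : ℂ[X]) : ∃ w : ℂ, ‖w‖ = 1 ∧ p.mahlerMeasure ≤ ‖p.eval w‖ := by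
  by_cases hp : p = 0
  · exact ⟨1, by simp, by simp [hp]⟩
  obtain ⟨w, hw, hmax⟩ := (isCompact_sphere (0 : ℂ) 1).exists_isMaxOn
    (f := fun z => ‖p.eval z‖) ⟨1, by simp⟩ (p.continuous.norm.continuousOn)
  have hw1 : ‖w‖ = 1 := by simpa using hw
  refine ⟨w, hw1, ?_⟩
  have hae : ∀ᵐ x ∂(volume.restrict (Icc (0 : ℝ) (2 * π))), eval (circleMap 0 1 x) p ≠ 0 := by
    rw [eventually_iff_exists_mem]
    use {x : ℝ | eval (circleMap 0 1 x) p ≠ 0}
    refine ⟨?_, fun _ h => h⟩
    rw [mem_ae_iff, compl_def, Measure.restrict_apply' (by simp)]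
    apply (Finite.of_sdiff _ <| finite_singleton (2 * π)).measure_zero
    simp only [ne_eq, mem_ofPred_eq, Decidable.not_not, inter_sdiff_assoc, Icc_sdiff_right]
    rw [ofPred_inter_eq_sep]
    apply Finite.of_finite_image (f := circleMap 0 1) ((Multiset.finite_toSet p.roots).subset _)
      <| fun _ h _ k l ↦ injOn_circleMap_of_abs_sub_le' one_ne_zero (by linarith) h.1 k.1 l
    simp [hp]
  have hle : ∀ x : ℝ, ‖eval (circleMap 0 1 x) p‖ ≤ ‖p.eval w‖ := fun x =>
    hmax (by simp : circleMap 0 1 x ∈ Metric.sphere (0 : ℂ) 1)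
  have hpos : 0 < ‖p.eval w‖ := by
    have hne : (ae (volume.restrict (Icc (0 : ℝ) (2 * π)))).NeBot := by
      rw [ae_neBot, Ne, Measure.restrict_eq_zero, Real.volume_Icc]
      simp [pi_pos]
    obtain ⟨x, hx⟩ := hae.exists
    exact lt_of_lt_of_le (norm_pos_iff.mpr hx) (hle x)
  rw [show ‖p.eval w‖ = rexp (circleAverage (fun _ ↦ log ‖p.eval w‖) 0 1)
    by simp [circleAverage_def, mul_assoc, exp_log hpos], mahlerMeasure_def_of_ne_zero hp,
    circleAverage_def, smul_eq_mul]
  gcongr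
  apply intervalIntegral.integral_mono_ae_restrict (by positivity)
    p.intervalIntegrable_mahlerMeasure (by simp)
  filter_upwards [hae] with x hx
  exact log_le_log (norm_pos_iff.mpr hx) (hle x)

open Polynomial in
lemma mahler_prod {L : Type} (s : Finset L) (q : L → ℂ[X]) :
    (∏ l ∈ s, q l).mahlerMeasure = ∏ l ∈ s, (q l).mahlerMeasure := by
  induction s using Finset.induction_on with
  | empty => simp
  | insert a s ha ih => rw [Finset.prod_insert ha, Finset.prod_insert ha, mahlerMeasure_mul, ih]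

open Polynomial in
lemma one_var {L : Type} [Fintype L] (q : L → ℂ[X]) (b d : L → ℕ) (hd : ∀ l, (q l).natDegree ≤ d l) :
    ∃ w : ℂ, ‖w‖ = 1 ∧ ∏ l, ‖(q l).coeff (b l)‖ ≤ 2 ^ (∑ l, d l) * ∏ l, ‖(q l).eval w‖ := by
  obtain ⟨w, hw, h⟩ := mahler_le (∏ l, q l)
  refine ⟨w, hw, ?_⟩
  rw [mahler_prod, eval_prod, norm_prod] at h
  calc ∏ l, ‖(q l).coeff (b l)‖ ≤ ∏ l, ((2 : ℝ) ^ d l * (q l).mahlerMeasure) := by
        refine Finset.prod_le_prod (fun _ _ => norm_nonneg _) fun l _ => ?_
        refine (norm_coeff_le_choose_mul_mahlerMeasure _ _).trans ?_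
        refine mul_le_mul_of_nonneg_right ?_ (mahlerMeasure_nonneg _)
        have h1 : (q l).natDegree.choose (b l) ≤ 2 ^ d l :=
          (Nat.choose_le_two_pow _ _).trans (Nat.pow_le_pow_right (by norm_num) (hd l))
        exact_mod_cast h1
    _ = 2 ^ (∑ l, d l) * ∏ l, (q l).mahlerMeasure := by
        rw [Finset.prod_mul_distrib, Finset.prod_pow_eq_pow_sum]
    _ ≤ _ := by gcongr

end GelfA

open MvPolynomial in
theorem gelf : GelfStmt := by
  intro s
  induction s with
  | zero =>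
    intro L _ Q β
    refine ⟨fun _ => 1, fun i => by simp, ?_⟩
    rw [zero_mul, pow_zero, one_mul]
    refine le_of_eq (Finset.prod_congr rfl fun l _ => ?_)
    have hb : β l = 0 := Subsingleton.elim _ _
    rw [hb]
    conv_rhs => rw [eq_C_of_isEmpty (Q l)]
    simp
  | succ s ih =>
    intro L _ Q β
    obtain ⟨z', hz', h1⟩ := ih L (fun l => (finSuccEquiv ℂ s (Q l)).coeff (β l 0))
      (fun l => (β l).tail)
    obtain ⟨w, hw, h2⟩ := GelfA.one_var
      (fun l => Polynomial.map (eval z') (finSuccEquiv ℂ s (Q l))) (fun l => β l 0)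
      (fun l => (Q l).totalDegree) (fun l => Polynomial.natDegree_map_le.trans (by
        rw [natDegree_finSuccEquiv]; exact degreeOf_le_totalDegree _ _))
    refine ⟨Fin.cons w z', fun i => by
      refine Fin.cases ?_ (fun j => ?_) i
      · simpa using hw
      · simpa using hz' j, ?_⟩
    simp only [finSuccEquiv_coeff_coeff, Finsupp.cons_tail] at h1
    simp only [Polynomial.coeff_map, ← eval_eq_eval_mv_eval'] at h2
    have h3 : ∑ l, ((finSuccEquiv ℂ s (Q l)).coeff (β l 0)).totalDegree ≤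
        ∑ l, (Q l).totalDegree := by
      refine Finset.sum_le_sum fun l _ => ?_
      by_cases h : (finSuccEquiv ℂ s (Q l)).coeff (β l 0) = 0
      · rw [h]; simp
      · exact le_trans (Nat.le_add_right _ _) (totalDegree_coeff_finSuccEquiv_add_le _ _ h)
    refine h1.trans ?_
    calc _ ≤ (2 : ℝ) ^ (s * ∑ l, (Q l).totalDegree) *
          (2 ^ (∑ l, (Q l).totalDegree) * ∏ l, ‖eval (Fin.cons w z') (Q l)‖) := by
          refine mul_le_mul ?_ h2 (Finset.prod_nonneg fun _ _ => norm_nonneg _) (by positivity)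
          exact pow_le_pow_right₀ (by norm_num) (Nat.mul_le_mul_left _ h3)
      _ = _ := by rw [← mul_assoc, ← pow_add, add_mul, one_mul]

end Pool.Agent.MP_54e5d7_al.atl

end
end MrgPart0

-- ======== part 1: formerly Pool.Agent.MP_54e5d7_al.atl.DET
section MrgPart1

/-!
Project ATL: a determinant bound of Hadamard type and maximal nonsingular submatrices.
-/

set_option autoImplicit false

open Classical Module

noncomputable section
namespace Pool.Agent.MP_54e5d7_al.atl

namespace DET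

lemma hadamard {E : Type} [NormedAddCommGroup E] [InnerProductSpace ℂ E] [FiniteDimensional ℂ E]
    {n : ℕ} (hn : finrank ℂ E = Fintype.card (Fin n)) (b : OrthonormalBasis (Fin n) ℂ E)
    (f : E →ₗ[ℂ] E) : ‖LinearMap.det f‖ ≤ ∏ i, ‖f (b i)‖ := by
  set e := InnerProductSpace.gramSchmidtOrthonormalBasis hn (f ∘ b) with he
  have h1 := InnerProductSpace.gramSchmidtOrthonormalBasis_det hn (f ∘ b)
  rw [← he, Basis.det_comp] at h1
  have h2 := congrArg norm h1
  rw [norm_mul, e.det_to_matrix_orthonormalBasis b, mul_one, norm_prod] at h2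
  rw [h2]
  refine Finset.prod_le_prod (fun _ _ => norm_nonneg _) fun i _ => ?_
  refine (norm_inner_le_norm _ _).trans (le_of_eq ?_)
  rw [e.orthonormal.1 i, one_mul]
  rfl

lemma det_le {E : Type} [NormedAddCommGroup E] [InnerProductSpace ℂ E] [FiniteDimensional ℂ E]
    (f : E →ₗ[ℂ] E) (W : Submodule ℂ E) {a b : ℝ} (hW : ∀ x ∈ W, ‖f x‖ ≤ a * ‖x‖)
    (hE : ∀ x, ‖f x‖ ≤ b * ‖x‖) :
    ‖LinearMap.det f‖ ≤ a ^ finrank ℂ W * b ^ (finrank ℂ E - finrank ℂ W) := by
  have hk : finrank ℂ W ≤ finrank ℂ E := W.finrank_le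
  set k := finrank ℂ W with hk'
  set n := finrank ℂ E with hn'
  have hn : finrank ℂ E = Fintype.card (Fin n) := by simp [hn']
  let w := stdOrthonormalBasis ℂ W
  let v : Fin n → E := fun i => if h : (i : ℕ) < k then (w ⟨i, h⟩ : E) else 0
  have hw : Orthonormal ℂ fun j : Fin k => (w j : E) := W.subtypeₗᵢ.orthonormal_comp_iff.2
    w.orthonormal
  have hv : Orthonormal ℂ (Set.domRestrict {i : Fin n | (i : ℕ) < k} v) := by
    have h1 := hw.comp (fun i : {i : Fin n | (i : ℕ) < k} => (⟨i.1, i.2⟩ : Fin k))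
      fun i j h => Subtype.ext (Fin.ext (Fin.mk.inj_iff.1 h))
    have h2 : Set.domRestrict {i : Fin n | (i : ℕ) < k} v =
        (fun j : Fin k => (w j : E)) ∘ fun i : {i : Fin n | (i : ℕ) < k} => (⟨i.1, i.2⟩ : Fin k) := by
      funext i
      exact dif_pos i.2
    rw [h2]
    exact h1
  obtain ⟨B, hB⟩ := hv.exists_orthonormalBasis_extension_of_card_eq hn
  refine (hadamard hn B f).trans ?_
  have h3 : ∀ i : Fin n, ‖f (B i)‖ ≤ if (i : ℕ) < k then a else b := by
    intro i
    have h4 := B.orthonormal.1 i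
    split_ifs with h
    · have h5 : B i ∈ W := by
        rw [hB i h]
        simp only [v, dif_pos h]
        exact Subtype.property _
      simpa [h4] using hW _ h5
    · simpa [h4] using hE (B i)
  refine (Finset.prod_le_prod (fun _ _ => norm_nonneg _) fun i _ => h3 i).trans (le_of_eq ?_)
  have h6 := Finset.card_filter_add_card_filter_not (s := (Finset.univ : Finset (Fin n)))
    fun i : Fin n => (i : ℕ) < k
  rw [Fin.card_filter_val_lt, min_eq_right hk, Finset.card_univ, Fintype.card_fin] at h6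
  rw [Finset.prod_ite, Finset.prod_const, Finset.prod_const, Fin.card_filter_val_lt,
    min_eq_right hk]
  congr 2
  exact (Nat.sub_eq_of_eq_add' h6.symm).symm

lemma exists_indep {ι V : Type} [Fintype ι] [AddCommGroup V] [Module ℂ V] (v : ι → V) {N : ℕ}
    (hN : N = finrank ℂ (Submodule.span ℂ (Set.range v))) :
    ∃ f : Fin N → ι, Function.Injective f ∧ LinearIndependent ℂ (v ∘ f) := by
  obtain ⟨κ, a, h1, h2, h3⟩ := exists_linearIndependent' ℂ v
  have := Finite.of_injective a h1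
  have := Fintype.ofFinite κ
  have h4 : Fintype.card κ = N := by rw [hN, ← h2, finrank_span_eq_card h3]
  let e := (Fintype.equivFinOfCardEq h4).symm
  exact ⟨a ∘ e, h1.comp e.injective, h3.comp e e.injective⟩

end DET

theorem det_stmt : DetStmt := by
  constructor
  · intro ι _ _ M W a b ha hb hW hE
    let e : (ι → ℂ) ≃ₗ[ℂ] EuclideanSpace ℂ ι := (WithLp.linearEquiv 2 ℂ (ι → ℂ)).symm
    have key : ∀ (c : ℝ) (x : ι → ℂ), 0 ≤ c → nsq (Matrix.vecMul x M) ≤ c ^ 2 * nsq x →
        ‖(e.toLinearMap ∘ₗ Matrix.toLin' M.transpose ∘ₗ e.symm.toLinearMap) (e x)‖ ≤ c * ‖e x‖ := by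
      intro c x hc h
      rw [nsq_eq_norm, nsq_eq_norm, ← mul_pow] at h
      have h1 := (pow_le_pow_iff_left₀ (norm_nonneg _) (by positivity) two_ne_zero).1 h
      simpa [e, Matrix.mulVec_transpose] using h1
    have h := DET.det_le (e.toLinearMap ∘ₗ Matrix.toLin' M.transpose ∘ₗ e.symm.toLinearMap)
      (W.map e.toLinearMap) (a := a) (b := b)
      (by rintro _ ⟨x, hx, rfl⟩; exact key a x ha (hW x hx))
      (fun y => by obtain ⟨x, rfl⟩ := e.surjective y; exact key b x hb (hE x))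
    rwa [LinearMap.det_conj, LinearMap.det_toLin', Matrix.det_transpose,
      LinearEquiv.finrank_map_eq, finrank_euclideanSpace] at h
  · intro ι κ _ _ M N hN
    obtain ⟨f, hf, h1⟩ := DET.exists_indep (fun a : ι => (M a : κ → ℂ)) hN
    have h2 : (M.submatrix f id).rank = N := by
      rw [LinearIndependent.rank_matrix (M := M.submatrix f id) h1, Fintype.card_fin]
    obtain ⟨g, hg, h3⟩ := DET.exists_indep (M.submatrix f id).col
      (h2.symm.trans (Matrix.rank_eq_finrank_span_cols _))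
    refine ⟨f, g, hf, hg, ?_⟩
    have h4 : IsUnit (M.submatrix f g) := Matrix.linearIndependent_cols_iff_isUnit.1 h3
    exact ((Matrix.isUnit_iff_isUnit_det _).1 h4).ne_zero

end Pool.Agent.MP_54e5d7_al.atl

end
end MrgPart1

-- ======== part 2: formerly Pool.Agent.MP_54e5d7_al.atl.GRS
section MrgPart2

/-!
Depth increases along syzygies.
-/

set_option autoImplicit false

open Classical

noncomputable section
namespace Pool.Agent.MP_54e5d7_al.atl

namespace Grs

open MvPolynomial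

variable {k : Type} [Field k] {N t : ℕ}

lemma Il_eq (l : ℕ) : Il k N l = Ideal.span (X '' {i : Fin N | i.val < l}) := by
  unfold Il
  congr 1
  ext y
  exact ⟨fun ⟨i, h, e⟩ => ⟨i, h, e.symm⟩, fun ⟨i, h, e⟩ => ⟨i, h, e.symm⟩⟩

lemma reg_poly (l : Fin N) (x : MvPolynomial (Fin N) k) (h : X l * x ∈ Il k N l.val) :
    x ∈ Il k N l.val := by
  rw [Il_eq, mem_ideal_span_X_image] at h ⊢
  intro m hm
  obtain ⟨i, hi, h0⟩ := h (Finsupp.single l 1 + m) (by
    rw [mem_support_iff] at hm ⊢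
    rwa [coeff_X_mul])
  refine ⟨i, hi, ?_⟩
  have hne : l ≠ i := fun e => by
    rw [← e] at hi
    exact lt_irrefl _ (show l.val < l.val from hi)
  rwa [Finsupp.add_apply, Finsupp.single_eq_of_ne hne.symm, zero_add] at h0

lemma one_not_mem (l : ℕ) : (1 : MvPolynomial (Fin N) k) ∉ Il k N l := by
  rw [Il_eq, mem_ideal_span_X_image]
  intro h
  obtain ⟨i, -, h0⟩ := h 0 (by simp [mem_support_iff])
  exact h0 rfl

lemma mem_pi {R : Type} [CommRing R] (I : Ideal R) (x : Fin t → R) :
    x ∈ I • (⊤ : Submodule R (Fin t → R)) ↔ ∀ j, x j ∈ I := by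
  refine ⟨fun h => ?_, fun h => ?_⟩
  · refine Submodule.smul_induction_on h (fun r hr n _ j => ?_) fun a b ha hb j => ?_
    · exact I.mul_mem_right _ hr
    · exact I.add_mem (ha j) (hb j)
  · have e : x = ∑ j, x j • (Pi.single j 1 : Fin t → R) := by
      ext i
      simp [Finset.sum_apply, Pi.single_apply]
    rw [e]
    exact Submodule.sum_mem _ fun j _ => Submodule.smul_mem_smul (h j) Submodule.mem_top

lemma Il_zero : Il k N 0 = ⊥ := by
  rw [Il_eq]
  simp

lemma Il_succ (l : Fin N) : Il k N (l.val + 1) = Il k N l.val ⊔ Ideal.span {X l} := by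
  unfold Il
  rw [← Ideal.span_union]
  congr 1
  ext y
  constructor
  · rintro ⟨i, h, rfl⟩
    rcases Nat.lt_succ_iff_lt_or_eq.1 h with h | h
    · exact Or.inl ⟨i, h, rfl⟩
    · exact Or.inr (by rw [Fin.ext h]; rfl)
  · rintro (⟨i, h, rfl⟩ | h)
    · exact ⟨i, h.trans (Nat.lt_succ_self _), rfl⟩
    · exact ⟨l, Nat.lt_succ_self _, h⟩

lemma Il_big {l : ℕ} (h : N ≤ l) : Il k N (l + 1) = Il k N l := by
  unfold Il
  congr 1
  ext y
  exact ⟨fun ⟨i, _, e⟩ => ⟨i, i.2.trans_le h, e⟩, fun ⟨i, h', e⟩ => ⟨i, h'.trans (by omega), e⟩⟩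

lemma inter {M : Type} [AddCommGroup M] [Module (MvPolynomial (Fin N) k) M]
    (f : (Fin t → MvPolynomial (Fin N) k) →ₗ[MvPolynomial (Fin N) k] M) (i : ℕ)
    (hr : RegU k N i (LinearMap.range f)) (l : ℕ) (hl : l ≤ i) :
    ∀ y ∈ LinearMap.ker f, y ∈ Il k N l • (⊤ : Submodule (MvPolynomial (Fin N) k) _) →
      y ∈ Il k N l • LinearMap.ker f := by
  induction l with
  | zero =>
    intro y _ h
    rw [Il_zero, Submodule.bot_smul] at h ⊢
    exact h
  | succ l ih =>
    have ih' := ih (by omega)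
    by_cases hN : N ≤ l
    · rw [Il_big hN]; exact ih'
    intro y hy h
    set j : Fin N := ⟨l, by omega⟩ with hj
    have hs : Il k N (l + 1) = Il k N l ⊔ Ideal.span {X j} := Il_succ j
    rw [hs, Submodule.sup_smul] at h ⊢
    obtain ⟨u, hu, w, hw, rfl⟩ := Submodule.mem_sup.1 h
    rw [Submodule.ideal_span_singleton_smul, Submodule.mem_smul_pointwise_iff_exists] at hw
    obtain ⟨v, -, rfl⟩ := hw
    have hmap : (Il k N l • (⊤ : Submodule (MvPolynomial (Fin N) k) _)).map f.rangeRestrict =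
        Il k N l • ⊤ := by
      rw [Submodule.map_smul'', Submodule.map_top, LinearMap.range_rangeRestrict]
    have h1 : (X j : MvPolynomial (Fin N) k) • f.rangeRestrict v = -f.rangeRestrict u := by
      have : f.rangeRestrict (u + (X j : MvPolynomial (Fin N) k) • v) = 0 :=
        Subtype.ext (LinearMap.mem_ker.1 hy)
      rw [map_add, map_smul] at this
      exact eq_neg_of_add_eq_zero_right this
    have h2 : f.rangeRestrict v ∈ Il k N l • (⊤ : Submodule (MvPolynomial (Fin N) k) _) := by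
      refine hr j (by simp only [hj]; omega) _ ?_
      rw [h1]
      exact Submodule.neg_mem _ (hmap ▸ Submodule.mem_map_of_mem hu)
    rw [← hmap] at h2
    obtain ⟨v', hv', e⟩ := h2
    have hk : v - v' ∈ LinearMap.ker f := by
      rw [LinearMap.mem_ker, map_sub, sub_eq_zero]
      exact (congrArg Subtype.val e).symm
    have e2 : u + (X j : MvPolynomial (Fin N) k) • v =
        (u + (X j : MvPolynomial (Fin N) k) • v') + (X j : MvPolynomial (Fin N) k) • (v - v') := by
      rw [smul_sub]; abel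
    have hk2 : u + (X j : MvPolynomial (Fin N) k) • v' ∈ LinearMap.ker f := by
      have := Submodule.sub_mem _ hy (Submodule.smul_mem _ (X j : MvPolynomial (Fin N) k) hk)
      rwa [e2, add_sub_cancel_right] at this
    rw [e2]
    exact Submodule.add_mem_sup
      (ih' _ hk2 (Submodule.add_mem _ hu (Submodule.smul_mem _ _ hv')))
      (Submodule.smul_mem_smul (Ideal.mem_span_singleton_self _) hk)

end Grs

open Grs in
theorem grs : GrsStmt := by
  intro k _ N t M _ _ f
  refine ⟨fun i hr l hl x hx => ?_, fun hr hle => ?_⟩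
  · rw [Submodule.mem_smul_top_iff] at hx ⊢
    refine inter f i hr l.val (by omega) _ x.2 ?_
    have h1 := Submodule.smul_mono le_rfl le_top hx
    rw [mem_pi] at h1 ⊢
    exact fun j => reg_poly l _ (h1 j)
  · have h1 : LinearMap.ker f ≤ Il k N N • LinearMap.ker f :=
      fun y hy => inter f N hr N le_rfl y hy (hle hy)
    obtain ⟨r, hr1, hr2⟩ := Submodule.exists_sub_one_mem_and_smul_eq_zero_of_fg_of_le_smul
      (Il k N N) (LinearMap.ker f) (IsNoetherian.noetherian _) h1
    have hr0 : r ≠ 0 := fun e => one_not_mem (k := k) (N := N) N (by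
      rw [e, zero_sub] at hr1
      simpa using (Il k N N).neg_mem hr1)
    rw [eq_bot_iff]
    intro y hy
    have := hr2 y hy
    rw [Submodule.mem_bot]
    ext1 j
    exact (mul_eq_zero.1 (congrFun this j)).resolve_left hr0

end Pool.Agent.MP_54e5d7_al.atl

end
end MrgPart2

-- ======== part 3: formerly Pool.Agent.MP_54e5d7_al.atl.SYZ
section MrgPart3

/-!
Project ATL: the syzygy theorem for complete filtered rings with polynomial graded ring.
-/

set_option autoImplicit false

open Classical MvPolynomial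

noncomputable section
namespace Pool.Agent.MP_54e5d7_al.atl

namespace SyzA

variable {R : Type} [Ring R] {k : Type} [Field k] {N : ℕ}

/-! ### Shifted homogeneous components -/

/-- The component of degree `m` when the constants have degree `w`. -/
def hs (w m : ℕ) (p : MvPolynomial (Fin N) k) : MvPolynomial (Fin N) k :=
  if w ≤ m then homogeneousComponent (m - w) p else 0

/-- Homogeneous of degree `d` when the constants have degree `w`. -/
def Hg (w d : ℕ) (y : MvPolynomial (Fin N) k) : Prop :=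
  y.IsHomogeneous (d - w) ∧ (d < w → y = 0)

lemma hc_mul {a : MvPolynomial (Fin N) k} {j : ℕ} (ha : a.IsHomogeneous j)
    (p : MvPolynomial (Fin N) k) (n : ℕ) : homogeneousComponent n (p * a) =
      if j ≤ n then homogeneousComponent (n - j) p * a else 0 := by
  have h1 : ∀ e, homogeneousComponent n (homogeneousComponent e p * a) =
      if n = e + j then homogeneousComponent e p * a else 0 := fun e =>
    homogeneousComponent_of_mem ((homogeneousComponent_isHomogeneous e p).mul ha)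
  conv_lhs => rw [← sum_homogeneousComponent p, Finset.sum_mul, map_sum]
  simp only [h1]
  split_ifs with h
  · rw [Finset.sum_eq_single (n - j)]
    · rw [if_pos (by omega)]
    · intro e _ he
      rw [if_neg (by omega)]
    · intro he
      rw [Finset.mem_range, not_lt] at he
      rw [homogeneousComponent_eq_zero (n - j) p (by omega)]
      simp
  · exact Finset.sum_eq_zero fun e _ => if_neg (by omega)

lemma hs_zero (w m : ℕ) : hs w m (0 : MvPolynomial (Fin N) k) = 0 := by simp [hs]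

lemma hs_sum {ι : Type} (s : Finset ι) (w m : ℕ) (p : ι → MvPolynomial (Fin N) k) :
    hs w m (∑ i ∈ s, p i) = ∑ i ∈ s, hs w m (p i) := by
  unfold hs
  split_ifs <;> simp

lemma hg_hs (w m : ℕ) (p : MvPolynomial (Fin N) k) : Hg w m (hs w m p) := by
  unfold hs
  split_ifs with h
  · exact ⟨homogeneousComponent_isHomogeneous _ _, fun h' => by omega⟩
  · exact ⟨isHomogeneous_zero _ _ _, fun _ => rfl⟩

lemma Hg.hs_eq {w m : ℕ} {y : MvPolynomial (Fin N) k} (h : Hg w m y) : hs w m y = y := by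
  unfold hs
  split_ifs with h'
  · exact homogeneousComponent_eq_self h.1
  · exact (h.2 (by omega)).symm

lemma hs_mul {w d : ℕ} {y : MvPolynomial (Fin N) k} (h : Hg w d y) (m : ℕ)
    (b : MvPolynomial (Fin N) k) : hs w m (b * y) = hs d m b * y := by
  rcases lt_or_ge d w with h1 | h1
  · rw [h.2 h1, mul_zero, mul_zero, hs_zero]
  unfold hs
  by_cases h2 : d ≤ m
  · rw [if_pos h2, if_pos (h1.trans h2), hc_mul h.1, if_pos (by omega),
      show m - w - (d - w) = m - d by omega]
  · rw [if_neg h2, zero_mul]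
    split_ifs with h3
    · rw [hc_mul h.1, if_neg (by omega)]
    · rfl

lemma sum_hs (w : ℕ) (p : MvPolynomial (Fin N) k) {M : ℕ} (hM : p.totalDegree + w < M) :
    ∑ m ∈ Finset.range M, hs w m p = p := by
  ext α
  have h1 : ∀ m, coeff α (hs w m p) = if m = α.degree + w then coeff α p else 0 := fun m => by
    unfold hs
    by_cases h : w ≤ m
    · rw [if_pos h, coeff_homogeneousComponent]
      exact if_congr (by omega) rfl rfl
    · rw [if_neg h, if_neg (by omega), coeff_zero]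
  rw [coeff_sum]
  simp only [h1, Finset.sum_ite_eq', Finset.mem_range]
  split_ifs with h
  · rfl
  · symm
    by_contra h0
    have : α.degree ≤ p.totalDegree := le_totalDegree (mem_support_iff.2 h0)
    omega

/-! ### Symbols -/

variable (P : PBW R k N)

lemma F_le {a b : ℕ} (h : a ≤ b) {x : R} (hx : x ∈ P.F b) : x ∈ P.F a := by
  induction h with
  | refl => exact hx
  | step _ ih => exact ih (P.anti _ hx)

lemma mem_F0 (x : R) : x ∈ P.F 0 := by rw [P.F_zero]; trivial

/-- The symbol of degree `m` when the constants have degree `w`. -/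
def sg (w m : ℕ) (x : R) : MvPolynomial (Fin N) k := if w ≤ m then P.σ (m - w) x else 0

lemma sg_eq_zero {w m : ℕ} {x : R} (hx : x ∈ P.F (m - w)) :
    sg P w m x = 0 ↔ x ∈ P.F (m + 1 - w) := by
  unfold sg
  split_ifs with h
  · rw [P.σ_eq_zero _ x hx, show m + 1 - w = m - w + 1 by omega]
  · rw [show m + 1 - w = 0 by omega]
    exact ⟨fun _ => mem_F0 P x, fun _ => rfl⟩

lemma sg_zero (w m : ℕ) : sg P w m 0 = 0 := (sg_eq_zero P (zero_mem _)).2 (zero_mem _)

lemma sg_add {w m : ℕ} {x y : R} (hx : x ∈ P.F (m - w)) (hy : y ∈ P.F (m - w)) :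
    sg P w m (x + y) = sg P w m x + sg P w m y := by
  unfold sg
  split_ifs
  · exact P.σ_add _ x y hx hy
  · simp

lemma sg_sub {w m : ℕ} {x y : R} (hx : x ∈ P.F (m - w)) (hy : y ∈ P.F (m - w)) :
    sg P w m (x - y) = sg P w m x - sg P w m y := by
  rw [eq_sub_iff_add_eq, ← sg_add P (sub_mem hx hy) hy, sub_add_cancel]

lemma sg_sum {ι : Type} (s : Finset ι) {w m : ℕ} {x : ι → R} (hx : ∀ i, x i ∈ P.F (m - w)) :
    sg P w m (∑ i ∈ s, x i) = ∑ i ∈ s, sg P w m (x i) := by
  induction s using Finset.induction_on with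
  | empty => simpa using sg_zero P w m
  | insert a s ha ih =>
    rw [Finset.sum_insert ha, Finset.sum_insert ha, sg_add P (hx a) (sum_mem fun i _ => hx i), ih]

lemma hg_sg {w m : ℕ} {x : R} (hx : x ∈ P.F (m - w)) : Hg w m (sg P w m x) := by
  unfold sg
  split_ifs with h
  · exact ⟨P.σ_hom _ x hx, fun h' => by omega⟩
  · exact ⟨isHomogeneous_zero _ _ _, fun _ => rfl⟩

lemma exists_sg {w m : ℕ} {y : MvPolynomial (Fin N) k} (h : Hg w m y) :
    ∃ x ∈ P.F (m - w), sg P w m x = y := by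
  unfold sg
  split_ifs with h'
  · exact P.σ_surj _ y h.1
  · exact ⟨0, zero_mem _, (h.2 (by omega)).symm⟩

lemma mul_mem' {w d m : ℕ} {a x : R} (ha : a ∈ P.F (m - d)) (hx : x ∈ P.F (d - w)) :
    a * x ∈ P.F (m - w) := F_le P (by omega) (P.mul_mem _ _ a x ha hx)

lemma sg_mul {w d m : ℕ} {a x : R} (ha : a ∈ P.F (m - d)) (hx : x ∈ P.F (d - w)) :
    sg P w m (a * x) = sg P d m a * sg P w d x := by
  by_cases h1 : d ≤ m
  · by_cases h2 : w ≤ d
    · unfold sg
      rw [if_pos h1, if_pos h2, if_pos (h2.trans h1), ← P.σ_mul _ _ a x ha hx,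
        show m - d + (d - w) = m - w by omega]
    · rw [show sg P w d x = 0 from if_neg h2, mul_zero, sg_eq_zero P (mul_mem' P ha hx)]
      exact F_le P (by omega) (P.mul_mem _ _ a x ha hx)
  · rw [show sg P d m a = 0 from if_neg h1, zero_mul, sg_eq_zero P (mul_mem' P ha hx)]
    exact F_le P (by omega) (P.mul_mem _ _ a x ha hx)

lemma compl' (m d : ℕ) (u : ℕ → R) (hu : ∀ j, u j ∈ P.F (m + j - d)) :
    ∃ x, ∀ j, x - ∑ i ∈ Finset.range j, u i ∈ P.F (m + j - d) := by
  obtain ⟨x, hx⟩ := P.compl (fun i => u (d + i)) fun i => F_le P (by omega) (hu (d + i))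
  refine ⟨∑ i ∈ Finset.range d, u i + x, fun j => ?_⟩
  have h1 : ∑ i ∈ Finset.range d, u i + x - ∑ i ∈ Finset.range j, u i =
      (x - ∑ i ∈ Finset.range (m + j), u (d + i)) + ∑ i ∈ Finset.Ico j (d + (m + j)), u i := by
    rw [Finset.sum_Ico_eq_sub _ (by omega), Finset.sum_range_add u d]
    abel
  rw [h1]
  refine add_mem (F_le P (by omega) (hx (m + j))) (sum_mem fun i hi => ?_)
  have := (Finset.mem_Ico.1 hi).1
  exact F_le P (by omega) (hu i)

include P in
lemma isDomain : IsDomain R := by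
  have ord : ∀ x : R, x ≠ 0 → ∃ m, x ∈ P.F m ∧ P.σ m x ≠ 0 := fun x hx => by
    by_contra h
    push Not at h
    refine hx (P.sep x fun m => ?_)
    induction m with
    | zero => exact mem_F0 P x
    | succ m ih => exact (P.σ_eq_zero m x ih).1 (h m ih)
  have z : ∀ m, P.σ m 0 = 0 := fun m => (P.σ_eq_zero m 0 (zero_mem _)).2 (zero_mem _)
  have : Nontrivial R := by
    obtain ⟨x, -, hx⟩ := P.σ_surj 0 1 (isHomogeneous_one _ _)
    refine ⟨x, 0, fun h => ?_⟩
    rw [h, z] at hx
    exact zero_ne_one hx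
  have : NoZeroDivisors R := ⟨fun {x y} h => by
    by_contra hc
    push Not at hc
    obtain ⟨a, ha, ha'⟩ := ord x hc.1
    obtain ⟨b, hb, hb'⟩ := ord y hc.2
    have := P.σ_mul a b x y ha hb
    rw [h, z] at this
    exact mul_ne_zero ha' hb' this.symm⟩
  exact NoZeroDivisors.to_isDomain R

/-! ### Free modules with weights -/

variable {s t : ℕ}

/-- The filtration of a free module. -/
def FV (w : Fin s → ℕ) (m : ℕ) (x : Fin s → R) : Prop := ∀ i, x i ∈ P.F (m - w i)

/-- The symbol of a vector. -/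
def sv (w : Fin s → ℕ) (m : ℕ) (x : Fin s → R) : Fin s → MvPolynomial (Fin N) k :=
  fun i => sg P (w i) m (x i)

/-- The homogeneous component of a vector. -/
def hv (w : Fin s → ℕ) (m : ℕ) (y : Fin s → MvPolynomial (Fin N) k) :
    Fin s → MvPolynomial (Fin N) k := fun i => hs (w i) m (y i)

/-- The module of symbols. -/
def inW (w : Fin s → ℕ) (W : Submodule R (Fin s → R)) :
    Submodule (MvPolynomial (Fin N) k) (Fin s → MvPolynomial (Fin N) k) :=
  Submodule.span _ {y | ∃ m x, x ∈ W ∧ FV P w m x ∧ y = sv P w m x}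

lemma FV_zero (w : Fin s → ℕ) (x : Fin s → R) : FV P w 0 x := fun i => by
  rw [Nat.zero_sub]; exact mem_F0 P _

lemma FV_sep {w : Fin s → ℕ} {x : Fin s → R} (m : ℕ) (h : ∀ j, FV P w (m + j) x) : x = 0 :=
  funext fun i => P.sep _ fun n => F_le P (by omega) (h (n + w i) i)

lemma sv_eq_zero {w : Fin s → ℕ} {m : ℕ} {x : Fin s → R} (hx : FV P w m x) :
    sv P w m x = 0 ↔ FV P w (m + 1) x :=
  funext_iff.trans (forall_congr' fun i => sg_eq_zero P (hx i))

lemma FV_sub {w : Fin s → ℕ} {m : ℕ} {x y : Fin s → R} (hx : FV P w m x) (hy : FV P w m y) :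
    FV P w m (x - y) := fun i => sub_mem (hx i) (hy i)

lemma sv_sub {w : Fin s → ℕ} {m : ℕ} {x y : Fin s → R} (hx : FV P w m x) (hy : FV P w m y) :
    sv P w m (x - y) = sv P w m x - sv P w m y := funext fun i => sg_sub P (hx i) (hy i)

lemma exists_sv (w : Fin s → ℕ) (m : ℕ) (y : Fin s → MvPolynomial (Fin N) k) :
    ∃ x, FV P w m x ∧ sv P w m x = hv w m y := by
  choose x h1 h2 using fun i => exists_sg P (hg_hs (w i) m (y i))
  exact ⟨x, h1, funext h2⟩

lemma sv_mem {w : Fin s → ℕ} {W : Submodule R (Fin s → R)} {m : ℕ} {x : Fin s → R} (h1 : x ∈ W)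
    (h2 : FV P w m x) : sv P w m x ∈ inW P w W := Submodule.subset_span ⟨m, x, h1, h2, rfl⟩

lemma mem_of_hv {U : Submodule (MvPolynomial (Fin N) k) (Fin s → MvPolynomial (Fin N) k)}
    (w : Fin s → ℕ) {b : Fin s → MvPolynomial (Fin N) k} (h : ∀ m, hv w m b ∈ U) : b ∈ U := by
  have : b = ∑ m ∈ Finset.range (∑ i, ((b i).totalDegree + w i) + 1), hv w m b := by
    funext i
    rw [Finset.sum_apply]
    exact (sum_hs (w i) (b i) (Nat.lt_succ_of_le (Finset.single_le_sum
      (f := fun i => (b i).totalDegree + w i) (fun _ _ => Nat.zero_le _) (Finset.mem_univ i)))).symm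
  rw [this]
  exact sum_mem fun m _ => h m

/-- A family whose symbols generate the module of symbols. -/
structure Gen (w : Fin s → ℕ) (W : Submodule R (Fin s → R)) (d : Fin t → ℕ)
    (x : Fin t → Fin s → R) : Prop where
  mem : ∀ l, x l ∈ W
  fv : ∀ l, FV P w (d l) (x l)
  le : inW P w W ≤ Submodule.span _ (Set.range fun l => sv P w (d l) (x l))

lemma exists_gen (w : Fin s → ℕ) (W : Submodule R (Fin s → R)) :
    ∃ (t : ℕ) (d : Fin t → ℕ) (x : Fin t → Fin s → R), Gen P w W d x := by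
  obtain ⟨T, hT, hT'⟩ := (Submodule.fg_span_iff_fg_span_finset_subset _).1
    (IsNoetherian.noetherian (inW P w W))
  choose d x h1 h2 h3 using fun l : Fin T.card => hT (T.equivFin.symm l).2
  refine ⟨T.card, d, x, h1, h2, ?_⟩
  rw [inW, hT']
  refine Submodule.span_mono fun y hy => ⟨T.equivFin ⟨y, hy⟩, ?_⟩
  simp only [← h3, Equiv.symm_apply_apply]

section Lift

variable {w : Fin s → ℕ} {W : Submodule R (Fin s → R)} {d : Fin t → ℕ} {x : Fin t → Fin s → R}

/-- The map defined by a family of vectors. -/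
abbrev fm (x : Fin t → Fin s → R) : (Fin t → R) →ₗ[R] (Fin s → R) := Fintype.linearCombination R x

/-- The map defined by the symbols of a family of vectors. -/
abbrev gm (w : Fin s → ℕ) (d : Fin t → ℕ) (x : Fin t → Fin s → R) :
    (Fin t → MvPolynomial (Fin N) k) →ₗ[MvPolynomial (Fin N) k] (Fin s → MvPolynomial (Fin N) k) :=
  Fintype.linearCombination _ fun l => sv P w (d l) (x l)

variable {P}

lemma fm_apply (c : Fin t → R) (i : Fin s) : fm x c i = ∑ l, c l * x l i := by
  simp [Fintype.linearCombination_apply]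

lemma gm_apply (b : Fin t → MvPolynomial (Fin N) k) (i : Fin s) :
    gm P w d x b i = ∑ l, b l * sg P (w i) (d l) (x l i) := by
  simp [Fintype.linearCombination_apply, sv]

lemma Gen.fm_mem (h : Gen P w W d x) (c : Fin t → R) : fm x c ∈ W := by
  rw [Fintype.linearCombination_apply]
  exact sum_mem fun l _ => W.smul_mem _ (h.mem l)

lemma Gen.fm_fv (h : Gen P w W d x) {m : ℕ} {c : Fin t → R} (hc : FV P d m c) :
    FV P w m (fm x c) := fun i => by
  rw [fm_apply]
  exact sum_mem fun l _ => mul_mem' P (hc l) (h.fv l i)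

lemma Gen.sv_fm (h : Gen P w W d x) {m : ℕ} {c : Fin t → R} (hc : FV P d m c) :
    sv P w m (fm x c) = gm P w d x (sv P d m c) := by
  funext i
  rw [gm_apply, sv, fm_apply, sg_sum P _ fun l => mul_mem' P (hc l) (h.fv l i)]
  exact Finset.sum_congr rfl fun l _ => sg_mul P (hc l) (h.fv l i)

lemma Gen.hv_gm (h : Gen P w W d x) (m : ℕ) (b : Fin t → MvPolynomial (Fin N) k) :
    hv w m (gm P w d x b) = gm P w d x (hv d m b) := by
  funext i
  rw [gm_apply, hv, gm_apply, hs_sum]
  exact Finset.sum_congr rfl fun l _ => hs_mul (hg_sg P (h.fv l i)) m (b l)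

lemma Gen.range_gm (h : Gen P w W d x) : LinearMap.range (gm P w d x) = inW P w W := by
  rw [Fintype.range_linearCombination]
  refine le_antisymm (Submodule.span_le.2 ?_) h.le
  rintro _ ⟨l, rfl⟩
  exact sv_mem P (h.mem l) (h.fv l)

lemma Gen.step (h : Gen P w W d x) (m : ℕ) (z : Fin s → R) (hz : z ∈ W ∧ FV P w m z) :
    ∃ c, FV P d m c ∧ FV P w (m + 1) (z - fm x c) := by
  obtain ⟨b, hb⟩ := h.range_gm.ge (sv_mem P hz.1 hz.2)
  obtain ⟨c, hc, hc'⟩ := exists_sv P d m b
  refine ⟨c, hc, ?_⟩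
  rw [← sv_eq_zero P (FV_sub P hz.2 (h.fm_fv hc)), sv_sub P hz.2 (h.fm_fv hc), h.sv_fm hc, hc',
    ← h.hv_gm, hb, sub_eq_zero]
  exact funext fun i => (hg_sg P (hz.2 i)).hs_eq.symm

lemma Gen.lift (h : Gen P w W d x) {m : ℕ} {z : Fin s → R} (h1 : z ∈ W) (h2 : FV P w m z) :
    ∃ c, FV P d m c ∧ fm x c = z := by
  choose! C hC hC' using h.step
  let Z : ℕ → Fin s → R := fun j => Nat.rec z (fun j y => y - fm x (C (m + j) y)) j
  have Zs : ∀ j, Z (j + 1) = Z j - fm x (C (m + j) (Z j)) := fun _ => rfl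
  have hZ : ∀ j, Z j ∈ W ∧ FV P w (m + j) (Z j) := fun j => by
    induction j with
    | zero => exact ⟨h1, h2⟩
    | succ j ih => exact ⟨W.sub_mem ih.1 (h.fm_mem _), hC' _ _ ih⟩
  have hS : ∀ j, Z j = z - fm x (∑ i ∈ Finset.range j, C (m + i) (Z i)) := fun j => by
    induction j with
    | zero => simp [Z]
    | succ j ih => rw [Finset.sum_range_succ, map_add, ← sub_sub, ← ih, Zs]
  choose c hc using fun l => compl' P m (d l) (fun j => C (m + j) (Z j) l) fun j => hC _ _ (hZ j) l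
  have hc' : ∀ j, FV P d (m + j) (c - ∑ i ∈ Finset.range j, C (m + i) (Z i)) := fun j l => by
    simpa only [Pi.sub_apply, Finset.sum_apply] using hc l j
  refine ⟨c, by simpa using hc' 0, (sub_eq_zero.1 (FV_sep P (w := w) m fun j => ?_)).symm⟩
  have : z - fm x c = Z j - fm x (c - ∑ i ∈ Finset.range j, C (m + i) (Z i)) := by
    rw [map_sub, hS j]
    abel
  rw [this]
  exact FV_sub P (hZ j).2 (h.fm_fv (hc' j))

lemma Gen.range_fm (h : Gen P w W d x) : LinearMap.range (fm x) = W := by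
  refine le_antisymm ?_ fun z hz => ?_
  · rintro _ ⟨c, rfl⟩
    exact h.fm_mem c
  · obtain ⟨c, -, hc⟩ := h.lift hz (FV_zero P w z)
    exact ⟨c, hc⟩

lemma Gen.ker_gm (h : Gen P w W d x) :
    LinearMap.ker (gm P w d x) = inW P d (LinearMap.ker (fm x)) := by
  refine le_antisymm (fun b hb => mem_of_hv d fun m => ?_) (Submodule.span_le.2 ?_)
  · obtain ⟨c, hc, hc'⟩ := exists_sv P d m b
    have h1 : sv P w m (fm x c) = 0 := by
      rw [h.sv_fm hc, hc', ← h.hv_gm, LinearMap.mem_ker.1 hb]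
      exact funext fun i => hs_zero _ _
    obtain ⟨c', h2, h3⟩ := h.lift (h.fm_mem c) ((sv_eq_zero P (h.fm_fv hc)).1 h1)
    have h4 : FV P d m c' := fun l => F_le P (by omega) (h2 l)
    have h5 := sv_mem P (W := LinearMap.ker (fm x)) (x := c - c')
      (by rw [LinearMap.mem_ker, map_sub, h3, sub_self]) (FV_sub P hc h4)
    rwa [sv_sub P hc h4, (sv_eq_zero P h4).2 h2, sub_zero, hc'] at h5
  · rintro _ ⟨m, c, h1, h2, rfl⟩
    rw [SetLike.mem_coe, LinearMap.mem_ker, ← h.sv_fm h2, LinearMap.mem_ker.1 h1]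
    exact funext fun i => sg_zero P _ _

lemma eq_bot_of_inW (h : inW P w W = ⊥) : W = ⊥ := by
  refine (Submodule.eq_bot_iff _).2 fun z hz => FV_sep P (w := w) 0 fun j => ?_
  induction j with
  | zero => exact FV_zero P w z
  | succ j ih =>
    have := sv_mem P hz ih
    rw [h, Submodule.mem_bot] at this
    exact (sv_eq_zero P ih).1 this

lemma Gen.erase {d : Fin (t + 1) → ℕ} {x : Fin (t + 1) → Fin s → R} (h : Gen P w W d x)
    {b : Fin (t + 1) → MvPolynomial (Fin N) k} (hb : gm P w d x b = 0) {l : Fin (t + 1)}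
    (hl : coeff 0 (b l) ≠ 0) :
    Gen P w W (fun j => d (l.succAbove j)) (fun j => x (l.succAbove j)) := by
  refine ⟨fun j => h.mem _, fun j => h.fv _, h.le.trans (Submodule.span_le.2 ?_)⟩
  have h0 : ∀ j, sv P w (d (l.succAbove j)) (x (l.succAbove j)) ∈ Submodule.span
      (MvPolynomial (Fin N) k)
      (Set.range fun j => sv P w (d (l.succAbove j)) (x (l.succAbove j))) :=
    fun j => Submodule.subset_span ⟨j, rfl⟩
  rintro _ ⟨j, rfl⟩
  rcases Fin.eq_self_or_eq_succAbove l j with rfl | ⟨j, rfl⟩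
  swap
  · exact h0 j
  have h1 : gm P w d x (hv d (d j) b) = 0 := by
    rw [← h.hv_gm, hb]
    exact funext fun i => hs_zero _ _
  have h2 : hv d (d j) b j = C (coeff 0 (b j)) := by simp [hv, hs]
  rw [Fintype.linearCombination_apply, Fin.sum_univ_succAbove _ j, h2,
    add_eq_zero_iff_eq_neg] at h1
  have h3 : sv P w (d j) (x j) = (C (coeff 0 (b j))⁻¹ : MvPolynomial (Fin N) k) •
      (C (coeff 0 (b j)) : MvPolynomial (Fin N) k) • sv P w (d j) (x j) := by
    rw [smul_smul, ← C_mul, inv_mul_cancel₀ hl, C_1, one_smul]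
  rw [SetLike.mem_coe]
  beta_reduce
  rw [h3, h1]
  exact Submodule.smul_mem _ _ (neg_mem (sum_mem fun i _ => Submodule.smul_mem _ _ (h0 i)))

end Lift

lemma mem_Il {p : MvPolynomial (Fin N) k} (h : coeff 0 p = 0) : p ∈ Il k N N := by
  have : Il k N N = Ideal.span (X '' (Set.univ : Set (Fin N))) := by
    rw [Il]
    congr 1
    ext y
    exact ⟨fun ⟨i, _, hi⟩ => ⟨i, trivial, hi.symm⟩, fun ⟨i, _, hi⟩ => ⟨i, i.2, hi.symm⟩⟩
  rw [this, mem_ideal_span_X_image]
  intro α hα
  by_contra hc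
  push Not at hc
  have h0 : α = 0 := Finsupp.ext fun i => hc i trivial
  exact mem_support_iff.1 hα (h0 ▸ h)

lemma exists_min (w : Fin s → ℕ) (W : Submodule R (Fin s → R)) :
    ∃ (t : ℕ) (d : Fin t → ℕ) (x : Fin t → Fin s → R), Gen P w W d x ∧
      LinearMap.ker (gm P w d x) ≤ Il k N N • ⊤ := by
  have hex := exists_gen P w W
  obtain ⟨d, x, h⟩ := Nat.find_spec hex
  have hmin := fun t (ht : t < Nat.find hex) => Nat.find_min hex ht
  generalize Nat.find hex = t at d x h hmin
  refine ⟨t, d, x, h, fun b hb => ?_⟩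
  rw [pi_eq_sum_univ b]
  refine sum_mem fun l _ => Submodule.smul_mem_smul (mem_Il ?_) trivial
  by_contra hl
  cases t with
  | zero => exact l.elim0
  | succ t => exact hmin t (Nat.lt_succ_self t) ⟨_, _, h.erase (LinearMap.mem_ker.1 hb) hl⟩

lemma claim (hg : GrsStmt) (i : ℕ) : ∀ (j s : ℕ) (w : Fin s → ℕ) (W : Submodule R (Fin s → R)),
    j + i = N → RegU k N j (inW P w W) → PD R i W := by
  induction i with
  | zero =>
    intro j s w W hj hr
    obtain rfl : j = N := by omega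
    obtain ⟨t, d, x, h, hm⟩ := exists_min P w W
    have h1 := (hg k j t _ (gm P w d x)).2 (by rw [h.range_gm]; exact hr) hm
    have h2 : Function.Injective (fm x) :=
      LinearMap.ker_eq_bot.1 (eq_bot_of_inW (h.ker_gm.symm.trans h1))
    exact ⟨0, t, ⟨LinearEquiv.prodUnique.trans
      ((LinearEquiv.ofInjective _ h2).trans (LinearEquiv.ofEq _ _ h.range_fm)).symm⟩⟩
  | succ i ih =>
    intro j s w W hj hr
    obtain ⟨t, d, x, h⟩ := exists_gen P w W
    have h1 := (hg k N t _ (gm P w d x)).1 j (by rw [h.range_gm]; exact hr)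
    rw [h.ker_gm] at h1
    refine ⟨t, (fm x).codRestrict W h.fm_mem, fun z => ?_, ?_⟩
    · obtain ⟨c, hc⟩ := h.range_fm.ge z.2
      exact ⟨c, Subtype.ext hc⟩
    · rw [LinearMap.ker_codRestrict]
      exact ih (j + 1) t d _ (by omega) h1

include P in
lemma noeth : IsNoetherianRing R := by
  have : IsNoetherian R (Fin 1 → R) := ⟨fun W => by
    obtain ⟨t, d, x, h⟩ := exists_gen P 0 W
    rw [← h.range_fm, Fintype.range_linearCombination]
    exact Submodule.fg_span (Set.finite_range x)⟩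
  exact isNoetherian_of_linearEquiv (LinearEquiv.funUnique (Fin 1) R R)

end SyzA

theorem syz (h : GrsStmt) : SyzStmt := by
  intro R _ k _ N P
  refine ⟨SyzA.isDomain P, SyzA.noeth P, fun M _ _ _ => ?_⟩
  obtain ⟨s, f, hf⟩ := Module.Finite.exists_fin' R M
  exact ⟨s, f, hf, SyzA.claim P h N 0 s 0 _ (zero_add N) fun l hl => absurd hl (Nat.not_lt_zero _)⟩

end Pool.Agent.MP_54e5d7_al.atl

end
end MrgPart3

-- ======== part 4: formerly Pool.Agent.MP_54e5d7_al.atl.SCH
section MrgPart4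

/-!
Project ATL: Schanuel's lemma for modules with finite stably free resolutions.
-/

set_option autoImplicit false

open Classical Module

noncomputable section
namespace Pool.Agent.MP_54e5d7_al.atl

namespace Sch

variable {R : Type} [Ring R]

/-- Concatenation of finite free modules. -/
def app (R : Type) [Ring R] (a b : ℕ) : ((Fin a → R) × (Fin b → R)) ≃ₗ[R] (Fin (a + b) → R) :=
  (LinearEquiv.sumArrowLequivProdArrow (Fin a) (Fin b) R R).symm.trans
    (LinearEquiv.funCongrLeft R R finSumFinEquiv.symm)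

lemma pd_equiv (n : ℕ) : ∀ (M N : Type) [AddCommGroup M] [Module R M] [AddCommGroup N]
    [Module R N], (M ≃ₗ[R] N) → PD R n M → PD R n N := by
  induction n with
  | zero =>
    rintro M N _ _ _ _ e ⟨a, b, ⟨φ⟩⟩
    exact ⟨a, b, ⟨(e.symm.prodCongr (LinearEquiv.refl R _)).trans φ⟩⟩
  | succ n ih =>
    rintro M N _ _ _ _ e ⟨s, f, hf, h⟩
    exact ⟨s, e.toLinearMap ∘ₗ f, e.surjective.comp hf,
      ih _ _ (LinearEquiv.ofEq _ _ (LinearEquiv.ker_comp e f).symm) h⟩

/-- The kernel of a product with the identity. -/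
def kerProd {F X Y Z : Type} [AddCommGroup F] [Module R F] [AddCommGroup X] [Module R X]
    [AddCommGroup Y] [Module R Y] [AddCommGroup Z] [Module R Z] (f : F →ₗ[R] X)
    (e : Z ≃ₗ[R] (F × Y)) :
    LinearMap.ker f ≃ₗ[R] LinearMap.ker ((f.prodMap (LinearMap.id : Y →ₗ[R] Y)) ∘ₗ e.toLinearMap) :=
  LinearEquiv.ofBijective
    (LinearMap.codRestrict _ (e.symm.toLinearMap ∘ₗ LinearMap.inl R F Y ∘ₗ (LinearMap.ker f).subtype)
      fun x => by simp)
    ⟨fun x y h => by
      have := congrArg Subtype.val h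
      simpa using this,
    fun z => by
      have hz := z.2
      simp only [LinearMap.mem_ker, LinearMap.comp_apply, LinearEquiv.coe_coe,
        LinearMap.prodMap_apply, LinearMap.id_apply, Prod.mk_eq_zero] at hz
      refine ⟨⟨(e z).1, hz.1⟩, Subtype.ext ?_⟩
      simp only [LinearMap.codRestrict_apply, LinearMap.comp_apply, Submodule.subtype_apply,
        LinearMap.inl_apply, LinearEquiv.coe_coe]
      rw [← hz.2]
      simp⟩

lemma pd_prod (n s : ℕ) (X : Type) [AddCommGroup X] [Module R X] (h : PD R n X) :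
    PD R n (X × (Fin s → R)) := by
  cases n with
  | zero =>
    obtain ⟨a, b, ⟨φ⟩⟩ := h
    exact ⟨a, b + s, ⟨((LinearEquiv.prodAssoc R _ _ _).trans
      (((LinearEquiv.refl R X).prodCongr (LinearEquiv.prodComm R _ _)).trans
        (LinearEquiv.prodAssoc R _ _ _).symm)).trans
      ((φ.prodCongr (LinearEquiv.refl R _)).trans (app R b s))⟩⟩
  | succ n =>
    obtain ⟨t, f, hf, h⟩ := h
    refine ⟨t + s, (f.prodMap LinearMap.id) ∘ₗ (app R t s).symm.toLinearMap, ?_,
      pd_equiv n _ _ (kerProd f (app R t s).symm) h⟩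
    exact (hf.prodMap Function.surjective_id).comp (app R t s).symm.surjective

/-- Schanuel's isomorphism. -/
lemma schanuel {F F' M : Type} [AddCommGroup F] [Module R F] [AddCommGroup F'] [Module R F']
    [AddCommGroup M] [Module R M] [Module.Projective R F] [Module.Projective R F']
    (f : F →ₗ[R] M) (f' : F' →ₗ[R] M) (hf : Function.Surjective f)
    (hf' : Function.Surjective f') :
    Nonempty ((LinearMap.ker f × F') ≃ₗ[R] (LinearMap.ker f' × F)) := by
  obtain ⟨α, hα⟩ := Module.projective_lifting_property f' f hf'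
  obtain ⟨β, hβ⟩ := Module.projective_lifting_property f f' hf
  have hα' : ∀ x, f' (α x) = f x := fun x => LinearMap.congr_fun hα x
  have hβ' : ∀ y, f (β y) = f' y := fun y => LinearMap.congr_fun hβ y
  let u : (LinearMap.ker f × F') →ₗ[R] F := (LinearMap.ker f).subtype.coprod β
  let v : (LinearMap.ker f' × F) →ₗ[R] F' := (LinearMap.ker f').subtype.coprod α
  refine ⟨LinearEquiv.ofLinearMap
    ((LinearMap.codRestrict _ (LinearMap.snd R _ _ - α ∘ₗ u) fun x => ?_).prod u)
    ((LinearMap.codRestrict _ (LinearMap.snd R _ _ - β ∘ₗ v) fun x => ?_).prod v) ?_ ?_⟩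
  · simp [u, hα', hβ']
  · simp [v, hα', hβ']
  · refine LinearMap.ext fun x => Prod.ext (Subtype.ext ?_) ?_ <;> simp [u, v]
  · refine LinearMap.ext fun x => Prod.ext (Subtype.ext ?_) ?_ <;> simp [u, v]

/-- Removal of a free summand. -/
def Down (R : Type) [Ring R] (n : ℕ) : Prop :=
  ∀ (X : Type) [AddCommGroup X] [Module R X] (s : ℕ), PD R n (X × (Fin s → R)) → PD R n X

lemma sch_of_down {n : ℕ} (hd : Down R n) (K F M ι : Type) [AddCommGroup K] [Module R K]
    [AddCommGroup F] [Module R F] [AddCommGroup M] [Module R M] [Fintype ι]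
    (g : K →ₗ[R] F) (f : F →ₗ[R] M) (hb : Nonempty (Basis ι R F)) (hg : Function.Injective g)
    (he : Function.Exact g f) (hf : Function.Surjective f) (h : PD R (n + 1) M) : PD R n K := by
  obtain ⟨b⟩ := hb
  obtain ⟨s, f', hf', h⟩ := h
  have : Module.Projective R F := Module.Projective.of_basis b
  obtain ⟨e⟩ := schanuel f f' hf hf'
  have e1 : F ≃ₗ[R] (Fin (Fintype.card ι) → R) := (b.reindex (Fintype.equivFin ι)).equivFun
  have e2 : K ≃ₗ[R] LinearMap.ker f :=
    (LinearEquiv.ofInjective g hg).trans (LinearEquiv.ofEq _ _ he.linearMap_ker_eq.symm)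
  have h1 := pd_prod n (Fintype.card ι) _ h
  have h2 := pd_equiv n _ _ (e.trans ((LinearEquiv.refl R _).prodCongr e1)).symm h1
  exact pd_equiv n _ _ e2.symm (hd _ s h2)

lemma down (n : ℕ) : Down R n := by
  induction n with
  | zero =>
    rintro X _ _ s ⟨a, b, ⟨φ⟩⟩
    exact ⟨s + a, b, ⟨(((LinearEquiv.refl R X).prodCongr (app R s a).symm).trans
      (LinearEquiv.prodAssoc R _ _ _).symm).trans φ⟩⟩
  | succ n ih =>
    intro X _ _ s h
    obtain ⟨t, f, hf, -⟩ := id h
    have hf1 : Function.Surjective (LinearMap.fst R X (Fin s → R) ∘ₗ f) :=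
      Prod.fst_surjective.comp hf
    refine ⟨t, LinearMap.fst R X (Fin s → R) ∘ₗ f, hf1, ?_⟩
    set f1 := LinearMap.fst R X (Fin s → R) ∘ₗ f
    refine sch_of_down ih _ ((Fin t → R) × (Fin s → R)) (X × (Fin s → R)) (Fin t ⊕ Fin s)
      (LinearMap.inl R _ _ ∘ₗ (LinearMap.ker f1).subtype) (f1.prodMap LinearMap.id)
      ⟨(Pi.basisFun R (Fin t)).prod (Pi.basisFun R (Fin s))⟩
      (LinearMap.inl_injective.comp Subtype.val_injective) (fun z => ?_)
      (hf1.prodMap Function.surjective_id) h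
    constructor
    · intro hz
      simp only [LinearMap.prodMap_apply, LinearMap.id_apply, Prod.mk_eq_zero] at hz
      exact ⟨⟨z.1, hz.1⟩, Prod.ext rfl hz.2.symm⟩
    · rintro ⟨x, rfl⟩
      simp

end Sch

theorem sch : SchStmt := fun _ _ n K F M ι _ _ _ _ _ _ _ g f hb hg he hf h =>
  Sch.sch_of_down (Sch.down n) K F M ι g f hb hg he hf h

end Pool.Agent.MP_54e5d7_al.atl

end
end MrgPart4

-- ======== part 5: formerly Pool.Agent.MP_54e5d7_al.atl.RED
section MrgPart5

/-!
Project ATL: reduction of a divisibility statement to free modules.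
-/

set_option autoImplicit false

open Classical Module

noncomputable section
namespace Pool.Agent.MP_54e5d7_al.atl

theorem red (h1 : SchStmt) (h2 : RnStmt) : RedStmt := by
  intro S Λ _ _ _ _ _ _ ι _ _ u t hb hu hpd hfree W _ _ _ _ hW
  obtain ⟨b⟩ := hb
  have hadd := (h2 S).1
  have hΛ : Module.Finite S Λ := Module.Finite.of_basis b
  have hrk : ∀ s : ℕ, finrank S (Fin s → Λ) = s * Fintype.card ι := fun s => by
    rw [finrank_eq_card_basis (Pi.basis fun _ : Fin s => b)]
    simp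
  have key : ∀ (n : ℕ) (W : Type) [AddCommGroup W] [Module Λ W] [Module S W]
      [IsScalarTower S Λ W], Module.Finite S W → PD S n W → u ∣ t * finrank S W := by
    intro n
    induction n with
    | zero =>
      rintro W _ _ _ _ hW ⟨a, c, ⟨φ⟩⟩
      obtain ⟨i0⟩ := (inferInstance : Nonempty ι)
      let e0 : Λ ≃ₗ[S] (S × ({i : ι // i ≠ i0} → S)) :=
        (b.equivFun.trans (LinearEquiv.funCongrLeft S S (Equiv.optionSubtypeNe i0))).trans
          (LinearEquiv.piOptionEquivProd S)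
      let e1 : (Fin a → Λ) ≃ₗ[S] ((Fin a → S) × (Fin a → {i : ι // i ≠ i0} → S)) :=
        (LinearEquiv.piCongrRight fun _ => e0).trans
          { Equiv.arrowProdEquivProdArrow (Fin a) (fun _ => S)
              (fun _ => {i : ι // i ≠ i0} → S) with
            map_add' := fun _ _ => rfl
            map_smul' := fun _ _ => rfl }
      let e2 : (W × (Fin a → Λ)) ≃ₗ[S] ((Fin c → S) × (Fin a → {i : ι // i ≠ i0} → S)) :=
        (((LinearEquiv.refl S W).prodCongr e1).trans (LinearEquiv.prodAssoc S _ _ _).symm).trans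
          (φ.prodCongr (LinearEquiv.refl S _))
      have hfr : Module.Free S (W × (Fin a → Λ)) := Module.Free.of_equiv e2.symm
      have h3 := hfree (W × (Fin a → Λ)) _ ⟨Module.finBasis S (W × (Fin a → Λ))⟩
      rw [hadd W (W × (Fin a → Λ)) (Fin a → Λ) (LinearMap.inl S _ _) (LinearMap.snd S _ _)
        LinearMap.inl_injective Function.Exact.inl_snd LinearMap.snd_surjective, hrk] at h3
      push_cast at h3
      rw [mul_add] at h3
      exact (dvd_add_left ((hu.mul_left _).mul_left _)).1 h3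
    | succ n ih =>
      intro W _ _ _ _ hW h
      have hW' : Module.Finite Λ W := Module.Finite.of_restrictScalars_finite S Λ W
      obtain ⟨s, f, hf⟩ := Module.Finite.exists_fin' Λ W
      have hex : Function.Exact ((LinearMap.ker f).subtype.restrictScalars S)
          (f.restrictScalars S) := f.exact_subtype_ker_map
      have hinj : Function.Injective ((LinearMap.ker f).subtype.restrictScalars S) :=
        Subtype.val_injective
      have hK : Module.Finite S (LinearMap.ker f) := Module.Finite.of_injective _ hinj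
      have h3 := ih (LinearMap.ker f) hK (h1 S n _ _ _ _ _ _ ⟨Pi.basis fun _ : Fin s => b⟩
        hinj hex hf h)
      have h4 := hadd _ _ _ _ _ hinj hex hf
      rw [hrk] at h4
      have h5 : (t : ℤ) * finrank S W =
          t * (s * Fintype.card ι) - t * finrank S (LinearMap.ker f) := by
        have : ((s * Fintype.card ι : ℕ) : ℤ) = _ := congrArg Nat.cast h4
        push_cast at this
        rw [this]
        ring
      rw [h5]
      exact dvd_sub ((hu.mul_left _).mul_left _) h3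
  have hS : Module.Finite S W := Module.Finite.trans Λ W
  obtain ⟨n, hn⟩ := hpd W hS
  exact key n W hS hn

end Pool.Agent.MP_54e5d7_al.atl

end
end MrgPart5

-- ======== part 6: formerly Pool.Agent.MP_54e5d7_al.atl.RN
section MrgPart6

/-!
Project ATL: rank of finite modules over a Noetherian domain.
-/

set_option autoImplicit false

open Classical Module Submodule

noncomputable section
namespace Pool.Agent.MP_54e5d7_al.atl

namespace RN

variable {R : Type} [Ring R] [IsDomain R] [IsNoetherianRing R]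

lemma ore (μ ν : R) (hμ : μ ≠ 0) (hν : ν ≠ 0) : ∃ a b : R, a * μ = b * ν ∧ a * μ ≠ 0 := by
  by_contra h
  have hli : LinearIndependent R ![μ, ν] := by
    rw [LinearIndependent.pair_iff]
    intro s t hst
    have e : s * μ = (-t) * ν := by
      rw [neg_mul]; exact eq_neg_of_add_eq_zero_left hst
    have h0 : s * μ = 0 := by
      by_contra h0
      exact h ⟨s, -t, e, h0⟩
    refine ⟨(mul_eq_zero.1 h0).resolve_right hμ, ?_⟩
    rw [h0] at e
    exact neg_eq_zero.1 ((mul_eq_zero.1 e.symm).resolve_right hν)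
  have := hli.fintype_card_le_finrank
  simp at this

variable {M : Type} [AddCommGroup M] [Module R M]

lemma common (V : Submodule R M) (E : Finset M) (h : ∀ w ∈ E, ∃ μ : R, μ ≠ 0 ∧ μ • w ∈ V) :
    ∃ μ : R, μ ≠ 0 ∧ ∀ w ∈ E, μ • w ∈ V := by
  induction E using Finset.induction_on with
  | empty => exact ⟨1, one_ne_zero, by simp⟩
  | insert w E _ ih =>
    obtain ⟨μ, h1, h2⟩ := ih fun w' hw' => h w' (Finset.mem_insert_of_mem hw')
    obtain ⟨ν, h3, h4⟩ := h w (Finset.mem_insert_self _ _)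
    obtain ⟨a, b, h5, h6⟩ := ore μ ν h1 h3
    refine ⟨a * μ, h6, fun w' hw' => ?_⟩
    rcases Finset.mem_insert.1 hw' with rfl | hw'
    · rw [h5, mul_smul]; exact V.smul_mem _ h4
    · rw [mul_smul]; exact V.smul_mem _ (h2 w' hw')

lemma finrank_le {ι : Type} [Fintype ι] (x : ι → M)
    (h : ∀ w, ∃ μ : R, μ ≠ 0 ∧ μ • w ∈ span R (Set.range x)) : finrank R M ≤ Fintype.card ι := by
  obtain ⟨v, hv⟩ := exists_linearIndependent_of_le_finrank (R := R) (M := M) le_rfl
  choose μ h1 h2 using h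
  have hli : LinearIndependent R fun i => μ (v i) • v i := by
    rw [Fintype.linearIndependent_iff] at hv ⊢
    intro g hg i
    have := hv (fun i => g i * μ (v i)) (by simpa only [mul_smul] using hg) i
    exact (mul_eq_zero.1 this).resolve_right (h1 _)
  have := linearIndependent_le_span_aux' _ hli (Set.range x) (by
    rintro _ ⟨i, rfl⟩; exact h2 _)
  rw [Fintype.card_fin] at this
  exact this.trans (Fintype.card_range_le x)

lemma exists_max [Module.Finite R M] : ∃ x : Fin (finrank R M) → M, LinearIndependent R x ∧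
    ∀ w, ∃ μ : R, μ ≠ 0 ∧ μ • w ∈ span R (Set.range x) := by
  obtain ⟨v, hv⟩ := exists_linearIndependent_of_le_finrank (R := R) (M := M) le_rfl
  refine ⟨v, hv, fun w => ?_⟩
  by_contra h
  have hli := hv.finCons' w v fun c y hy e => by
    by_contra hc
    refine h ⟨c, hc, ?_⟩
    rw [eq_neg_of_add_eq_zero_left e]
    exact neg_mem hy
  have := hli.fintype_card_le_finrank
  simp at this

lemma exists_quot [Module.Finite R M] (N : Submodule R M) :
    ∃ y : Fin (finrank R (M ⧸ N)) → M, LinearIndependent R (N.mkQ ∘ y) ∧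
      ∀ w, ∃ μ : R, μ ≠ 0 ∧ μ • w ∈ N ⊔ span R (Set.range y) := by
  obtain ⟨y', h1, h2⟩ := exists_max (R := R) (M := M ⧸ N)
  choose sec hsec using N.mkQ_surjective
  have e : N.mkQ ∘ (sec ∘ y') = y' := funext fun i => hsec _
  refine ⟨sec ∘ y', by rw [e]; exact h1, fun w => ?_⟩
  obtain ⟨μ, h3, h4⟩ := h2 (N.mkQ w)
  refine ⟨μ, h3, ?_⟩
  rw [← e, Set.range_comp, ← map_span, ← map_smul] at h4
  rw [← comap_map_mkQ]
  exact h4

lemma finrank_quot [Module.Finite R M] (N : Submodule R M) :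
    finrank R M = finrank R N + finrank R (M ⧸ N) := by
  obtain ⟨x, h1, h2⟩ := exists_max (R := R) (M := N)
  obtain ⟨y, h3, h4⟩ := exists_quot N
  have hli := LinearIndependent.sumElim_of_quotient h1 y h3
  have e : finrank R N + finrank R (M ⧸ N) =
      Fintype.card (Fin (finrank R N) ⊕ Fin (finrank R (M ⧸ N))) := by simp
  rw [e]
  refine le_antisymm (finrank_le (Sum.elim (fun i => (x i : M)) y) fun w => ?_)
    hli.fintype_card_le_finrank
  obtain ⟨μ, h5, h6⟩ := h4 w
  obtain ⟨n, hn, s, hs, e2⟩ := mem_sup.1 h6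
  obtain ⟨ν, h7, h8⟩ := h2 ⟨n, hn⟩
  refine ⟨ν * μ, mul_ne_zero h7 h5, ?_⟩
  rw [mul_smul, ← e2, smul_add, Set.Sum.elim_range, span_union]
  refine add_mem (mem_sup_left ?_) (mem_sup_right (smul_mem _ _ hs))
  have := mem_map_of_mem (f := N.subtype) h8
  rw [map_span, ← Set.range_comp] at this
  exact this

end RN

theorem rn : RnStmt := by
  intro R _ _ _
  refine ⟨fun K F M _ _ _ _ _ _ _ g f hg hgf hf => ?_, fun M _ _ _ z x hx => ?_,
    fun M _ _ _ => exists_linearIndependent_of_le_finrank le_rfl, RN.ore⟩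
  · rw [RN.finrank_quot (LinearMap.ker f), (f.quotKerEquivOfSurjective hf).finrank_eq,
      hgf.linearMap_ker_eq, (LinearEquiv.ofInjective g hg).finrank_eq]
  · have h1 := RN.finrank_quot (span R (Set.range x))
    rw [finrank_span_eq_card hx, Fintype.card_fin] at h1
    have h2 : finrank R M - z = finrank R (M ⧸ span R (Set.range x)) := by omega
    rw [h2]
    obtain ⟨y, -, h4⟩ := RN.exists_quot (span R (Set.range x))
    exact ⟨y, by omega, fun E => RN.common _ E fun w _ => h4 w⟩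

end Pool.Agent.MP_54e5d7_al.atl

end
end MrgPart6

-- ======== part 7: formerly Pool.Agent.MP_54e5d7_al.atl.TRA
section MrgPart7

/-!
Project ATL, row TRA: extension of a continuous representation to the completed group ring.
-/

set_option autoImplicit false

open Classical Module

noncomputable section
namespace Pool.Agent.MP_54e5d7_al.atl

/-- A representation that is trivial on `H J` over `R` extends to the completed group ring. -/
lemma tra_level {G : Type} [Group G] {p D : ℕ} (T : Tower G p D) (O : Type) [CommRing O]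
    {ι : Type} [Fintype ι] [DecidableEq ι] (R : Type) [CommRing R] [Algebra O R]
    (σ : G →* Matrix ι ι ℤ) (J : ℕ)
    (hJ : ∀ g ∈ T.H J, (Int.castRingHom R).mapMatrix (σ g) = 1) :
    ∃ ψ : T.Lam O →+* Matrix ι ι R, ∀ j, J ≤ j → ∀ x a b,
      ψ x a b = algebraMap O R
        (∑ q : T.Q j, (T.lam O j x).coeff q * (σ q.out a b : ℤ)) := by
  let ρ : G →* Matrix ι ι R :=
    ((Int.castRingHom R).mapMatrix : Matrix ι ι ℤ →+* Matrix ι ι R).toMonoidHom.comp σ
  let τ : T.Q J →* Matrix ι ι R := QuotientGroup.lift (T.H J) ρ hJ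
  have hτ : ∀ g, τ (T.qm J g) = ρ g := fun g => rfl
  let L : MonoidAlgebra O (T.Q J) →ₐ[O] Matrix ι ι R :=
    MonoidAlgebra.lift O (Matrix ι ι R) (T.Q J) τ
  refine ⟨(L.comp (T.lam O J)).toRingHom, fun j hj x a b => ?_⟩
  have key : ∀ y : MonoidAlgebra O (T.Q j),
      L (MonoidAlgebra.mapDomainAlgHom O O (T.tr hj) y) a b =
        algebraMap O R (∑ q : T.Q j, y.coeff q * (σ q.out a b : ℤ)) := by
    intro y
    induction y using MonoidAlgebra.induction_linear with
    | zero => simp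
    | add f g hf hg =>
      rw [map_add, map_add, Matrix.add_apply, hf, hg, ← map_add, ← Finset.sum_add_distrib]
      simp [add_mul]
    | single q c =>
      have h1 : τ (T.tr hj q) = ρ q.out := by
        conv_lhs => rw [← T.qm_out j q]
        rfl
      rw [Finset.sum_eq_single q]
      · simp [L, MonoidAlgebra.mapDomainAlgHom_apply, h1, ρ, Algebra.smul_def]
      · intro q' _ hq'
        simp [Ne.symm hq']
      · simp
  rw [← key, T.map_lam]
  rfl

theorem tra : TraStmt := by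
  intro G _ p D T O _ π hc ι _ _ σ hσ
  have := hc.compl
  choose J hJ using hσ
  have hmem : ∀ (s : ℕ) (y : O),
      y ∈ (Ideal.span {π} ^ s • ⊤ : Submodule O O) ↔ π ^ s ∣ y := fun s y => by
    rw [smul_eq_mul, Ideal.mul_top, Ideal.span_singleton_pow, Ideal.mem_span_singleton]
  have hex : ∀ s : ℕ, ∃ ψ : T.Lam O →+* Matrix ι ι (O ⧸ Ideal.span {π ^ s}),
      ∀ j, J s ≤ j → ∀ x a b, ψ x a b = Ideal.Quotient.mk (Ideal.span {π ^ s})
        (∑ q : T.Q j, (T.lam O j x).coeff q * (σ q.out a b : ℤ)) := fun s => by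
    refine tra_level T O (O ⧸ Ideal.span {π ^ s}) σ (J s) fun g hg => ?_
    ext a b
    obtain ⟨c, hcc⟩ := hJ s g hg a b
    have h0 : ((p : O ⧸ Ideal.span {π ^ s}) ^ s) = 0 := by
      have : Ideal.Quotient.mk (Ideal.span {π ^ s}) ((p : O) ^ s) = 0 :=
        Ideal.Quotient.eq_zero_iff_mem.2
          (Ideal.mem_span_singleton.2 (pow_dvd_pow_of_dvd hc.dvd s))
      simpa using this
    have h1 : σ g a b = (1 : Matrix ι ι ℤ) a b + (p ^ s : ℕ) * c := by rw [← hcc]; ring
    rw [RingHom.mapMatrix_apply, Matrix.map_apply, h1]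
    simp [h0, Matrix.one_apply]
  choose ψ hψ using hex
  let J' : ℕ → ℕ := fun s => (Finset.range (s + 1)).sup J
  have hJ' : ∀ s t, s ≤ t → J s ≤ J' t := fun s t h =>
    Finset.le_sup (f := J) (Finset.mem_range.2 (Nat.lt_succ_of_le h))
  have hlim : ∀ (x : T.Lam O) (a b : ι), ∃ L : O,
      ∀ s, Ideal.Quotient.mk (Ideal.span {π ^ s}) L = ψ s x a b := fun x a b => by
    let f : ℕ → O := fun s =>
      ∑ q : T.Q (J' s), (T.lam O (J' s) x).coeff q * (σ q.out a b : ℤ)
    obtain ⟨L, hL⟩ := IsPrecomplete.prec (I := Ideal.span {π}) (M := O) inferInstance (f := f)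
      (fun {m n} hmn => by
        rw [SModEq.sub_mem, hmem, ← Ideal.mem_span_singleton, ← Ideal.Quotient.eq]
        rw [← hψ m _ (hJ' m m le_rfl), ← hψ m _ (hJ' m n hmn)])
    refine ⟨L, fun s => ?_⟩
    have h1 := hL s
    rw [SModEq.sub_mem, hmem, ← Ideal.mem_span_singleton, ← Ideal.Quotient.eq] at h1
    rw [← h1, hψ s _ (hJ' s s le_rfl)]
  choose L hL using hlim
  have hsep : ∀ A B : Matrix ι ι O, (∀ s, (Ideal.Quotient.mk (Ideal.span {π ^ s})).mapMatrix A =
      (Ideal.Quotient.mk (Ideal.span {π ^ s})).mapMatrix B) → A = B := fun A B h => by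
    ext a b
    rw [← sub_eq_zero]
    refine IsHausdorff.haus (I := Ideal.span {π}) (M := O) inferInstance _ fun s => ?_
    rw [SModEq.zero, hmem, ← Ideal.mem_span_singleton, ← Ideal.Quotient.eq]
    exact congrFun (congrFun (h s) a) b
  have hL' : ∀ s x, (Ideal.Quotient.mk (Ideal.span {π ^ s})).mapMatrix (Matrix.of (L x)) =
      ψ s x := fun s x => by
    ext a b
    exact hL x a b s
  refine ⟨{ toFun := fun x => Matrix.of (L x)
            map_one' := hsep _ _ fun s => by rw [hL', map_one, map_one]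
            map_mul' := fun x y => hsep _ _ fun s => by rw [map_mul, hL', hL', hL', map_mul]
            map_zero' := hsep _ _ fun s => by rw [hL', map_zero, map_zero]
            map_add' := fun x y => hsep _ _ fun s => by rw [map_add, hL', hL', hL', map_add] },
    fun s => ⟨J s, fun j hj x a b => ?_⟩⟩
  rw [← Ideal.mem_span_singleton, ← Ideal.Quotient.eq, ← hψ s j hj]
  exact hL x a b s

end Pool.Agent.MP_54e5d7_al.atl

end
end MrgPart7

-- ======== part 8: formerly Pool.Agent.MP_54e5d7_al.atl.TRB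
section MrgPart8

/-!
Project ATL: vanishing of class sums.
-/

set_option autoImplicit false

open Classical

noncomputable section
namespace Pool.Agent.MP_54e5d7_al.atl

namespace TrbA

variable {O : Type} [CommRing O] {Q Q' : Type} [Group Q] [Fintype Q] [Group Q'] (f : Q →* Q')
  {r : ℕ} (c : Q' →* Matrix (Fin r) (Fin r) (MonoidAlgebra O Q))

/-- The matrix attached to a group element. -/
def Mm (y : Q) : Matrix (f.ker × Fin r) (f.ker × Fin r) O :=
  Matrix.of fun a b => (c (f y) a.2 b.2).coeff ((a.1 : Q)⁻¹ * y * (b.1 : Q))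

lemma coeff_mul_sum (A B : MonoidAlgebra O Q) (g : Q) :
    (A * B).coeff g = ∑ a : Q, A.coeff a * B.coeff (a⁻¹ * g) := by
  rw [MonoidAlgebra.coeff_mul_apply_left, Finsupp.sum_fintype]
  intro a
  simp

omit [Fintype Q] in
lemma Mm_ker (z : Q) (hz : z ∈ f.ker) (a b : f.ker × Fin r) :
    Mm f c z a b = if (⟨z, hz⟩⁻¹ * a.1, a.2) = b then 1 else 0 := by
  have h1 : f z = 1 := hz
  obtain ⟨h, i⟩ := a
  obtain ⟨h', i'⟩ := b
  simp only [Mm, Matrix.of_apply, h1, map_one, Matrix.one_apply, Prod.mk.injEq]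
  by_cases hi : i = i'
  · simp only [hi, if_true, and_true]
    rw [MonoidAlgebra.one_def, MonoidAlgebra.coeff_single, Finsupp.single_apply]
    congr 1
    apply propext
    constructor
    · intro e
      apply Subtype.ext
      have e2 : (h' : Q) = ((h : Q)⁻¹ * z)⁻¹ := eq_inv_of_mul_eq_one_right e.symm
      simp [e2]
    · intro e
      rw [← e]
      simp
  · simp [hi]

lemma Mm_mul (hc : ∀ x i i' q, (c x i i').coeff q ≠ 0 → f q = x) (y y' : Q) :
    Mm f c (y * y') = Mm f c y * Mm f c y' := by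
  ext ⟨h, i⟩ ⟨h'', i''⟩
  simp only [Mm, Matrix.of_apply, Matrix.mul_apply, map_mul, Fintype.sum_prod_type]
  rw [Finset.sum_comm, MonoidAlgebra.coeff_sum, Finsupp.finsetSum_apply]
  refine Finset.sum_congr rfl fun i' _ => ?_
  rw [coeff_mul_sum]
  symm
  refine Finset.sum_bij_ne_zero (fun a _ _ => (h : Q)⁻¹ * y * (a : Q)) (by simp) ?_ ?_ ?_
  · intro a _ _ b _ _ e
    exact Subtype.ext (mul_left_cancel e)
  · intro a _ ha
    have h1 : f a = f y := hc _ _ _ _ (left_ne_zero_of_mul ha)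
    have h2 : f h = 1 := h.2
    have h3 : y⁻¹ * (h : Q) * a ∈ f.ker := by
      rw [MonoidHom.mem_ker]
      simp [h1, h2]
    have h4 : (h : Q)⁻¹ * y * (y⁻¹ * (h : Q) * a) = a := by group
    have h5 : (y⁻¹ * (h : Q) * a)⁻¹ * y' * (h'' : Q) = a⁻¹ * ((h : Q)⁻¹ * (y * y') * h'') := by
      group
    refine ⟨⟨_, h3⟩, Finset.mem_univ _, ?_, h4⟩
    simpa only [h4, h5] using ha
  · intro a _ _
    congr 2
    group

lemma Mm_one : Mm f c 1 = 1 := by
  ext a b
  rw [Mm_ker f c 1 (one_mem _), Matrix.one_apply]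
  congr 1
  apply propext
  have : ((⟨1, one_mem _⟩ : f.ker)⁻¹ * a.1, a.2) = a := by
    refine Prod.ext ?_ rfl
    apply Subtype.ext
    simp
  rw [this]

lemma Mm_pow (hc : ∀ x i i' q, (c x i i').coeff q ≠ 0 → f q = x) (y : Q) (n : ℕ) :
    Mm f c (y ^ n) = Mm f c y ^ n := by
  induction n with
  | zero => simp [Mm_one]
  | succ n ih => rw [pow_succ, pow_succ, Mm_mul f c hc, ih]

lemma exists_order {p : ℕ} {X : Type} [Group X] (w : X) (hw : w ≠ 1) (k : ℕ)
    (hk : w ^ p ^ k = 1) : ∃ e : ℕ, w ^ p ^ e ≠ 1 ∧ (w ^ p ^ e) ^ p = 1 := by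
  induction k with
  | zero => exact absurd (by simpa using hk) hw
  | succ k ih =>
    by_cases h : w ^ p ^ k = 1
    · exact ih h
    · exact ⟨k, h, by rw [← pow_mul, ← pow_succ, hk]⟩

end TrbA

open TrbA in
theorem trb (h : CycStmt) : TrbStmt := by
  intro O _ _ _ p π hp hO Q Q' _ _ _ f hf r c hc b x hx F hF1 hF2
  have key : ∀ y : Q,
      F y * ∑ k : f.ker, ∑ i, (c x i i).coeff ((k : Q)⁻¹ * y * (k : Q)) = 0 := by
    intro y
    by_cases hy : f y = x
    · by_cases hb : y ^ p ^ b = 1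
      · rw [hF2 y hb, zero_mul]
      · have hw : y ^ p ^ b ∈ f.ker := by
          rw [MonoidHom.mem_ker, map_pow, hy, hx]
        obtain ⟨k, hk⟩ := hf ⟨_, hw⟩
        obtain ⟨e, he1, he2⟩ := exists_order (p := p) (⟨_, hw⟩ : f.ker)
          (fun e => hb (congrArg Subtype.val e)) k hk
        set z : f.ker := (⟨_, hw⟩ : f.ker) ^ p ^ e with hz
        have hzv : (z : Q) = y ^ p ^ (b + e) := by
          rw [hz, pow_add, pow_mul]; rfl
        let τ : Equiv.Perm (f.ker × Fin r) := Equiv.prodCongr (Equiv.mulLeft z⁻¹) (Equiv.refl _)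
        have hτ : ∀ (n : ℕ) (a : f.ker × Fin r), (τ ^ n) a = (z⁻¹ ^ n * a.1, a.2) := by
          intro n
          induction n with
          | zero => intro a; simp
          | succ n ih =>
            intro a
            rw [pow_succ, Equiv.Perm.mul_apply, ih, pow_succ, mul_assoc]
            rfl
        have h0 := h O p π hp hO (f.ker × Fin r) (Mm f c y) (b + e) τ ?_ ?_ ?_
        · have h1 : (Mm f c y).trace =
              ∑ k : f.ker, ∑ i, (c x i i).coeff ((k : Q)⁻¹ * y * (k : Q)) := by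
            simp only [Matrix.trace, Matrix.diag, Mm, Matrix.of_apply, Fintype.sum_prod_type, hy]
          rw [← h1, h0, mul_zero]
        · refine Equiv.ext fun a => ?_
          rw [hτ, inv_pow, he2]
          simp
        · intro a ha
          have h2 : z⁻¹ * a.1 = a.1 := congrArg Prod.fst ha
          exact he1 (by simpa using h2)
        · rw [← Mm_pow f c hc, ← hzv]
          ext a a'
          rw [Mm_ker f c z z.2]
          rfl
    · rw [Finset.sum_eq_zero, mul_zero]
      intro k _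
      refine Finset.sum_eq_zero fun i _ => ?_
      by_contra hne
      have h1 := hc _ _ _ _ hne
      have h2 : f k = 1 := k.2
      exact hy (by simpa [h2] using h1)
  have h1 : ∀ k : f.ker, ∑ y, F y * ∑ i, (c x i i).coeff y =
      ∑ y, F y * ∑ i, (c x i i).coeff ((k : Q)⁻¹ * y * (k : Q)) := by
    intro k
    symm
    refine Fintype.sum_equiv (MulAut.conj (k : Q)⁻¹).toEquiv _ _ fun y => ?_
    have e : (MulAut.conj (k : Q)⁻¹).toEquiv y = (k : Q)⁻¹ * y * (k : Q) := by simp
    rw [e, hF1 y k k.2]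
  have h2 : (Fintype.card f.ker : O) * ∑ y, F y * ∑ i, (c x i i).coeff y = 0 := by
    rw [← nsmul_eq_mul, ← Finset.card_univ, ← Finset.sum_const,
      Finset.sum_congr rfl fun k _ => h1 k, Finset.sum_comm]
    refine Finset.sum_eq_zero fun y _ => ?_
    rw [← Finset.mul_sum]
    exact key y
  exact (mul_eq_zero.1 h2).resolve_left (Nat.cast_ne_zero.2 Fintype.card_ne_zero)

end Pool.Agent.MP_54e5d7_al.atl

end
end MrgPart8

-- ======== part 9: formerly Pool.Agent.MP_54e5d7_al.atl.CORE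
section MrgPart9

/-!
Project ATL: the core theorem.
-/

set_option autoImplicit false

open Classical Module

noncomputable section
namespace Pool.Agent.MP_54e5d7_al.atl

namespace CoreA
variable {G : Type} [Group G] {p D : ℕ} (T : Tower G p D) (O : Type) [CommRing O]

/-- Coefficients at level `j`. -/
def phi (κ : Type) (j : ℕ) : (κ → T.Lam O) →ₗ[O] (κ × T.Q j → O) where
  toFun x b := (T.lam O j (x b.1)).coeff b.2
  map_add' x y := by funext b; simp
  map_smul' c x := by funext b; simp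

lemma phi_apply {κ : Type} (j : ℕ) (x : κ → T.Lam O) (b : κ × T.Q j) :
    phi T O κ j x b = (T.lam O j (x b.1)).coeff b.2 := rfl

lemma single_mul_up {ι κ : Type} (B : Matrix ι κ (G →₀ O)) (j : ℕ) (i : ι) (k : κ)
    (q q' : T.Q j) :
    (MonoidAlgebra.single q (1 : O) * T.lam O j (T.up O B i k)).coeff q' =
      lvl B (T.qm j) (i, q) (k, q') := by
  simp only [Tower.up, Finsupp.sum, map_sum, map_smul, Tower.lam_iota, MonoidAlgebra.of_apply,
    Finset.mul_sum, lvl_apply, MonoidAlgebra.coeff_sum, Finsupp.finsetSum_apply]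
  refine Finset.sum_congr rfl fun g _ => ?_
  rw [mul_smul_comm, MonoidAlgebra.single_mul_single, MonoidAlgebra.coeff_smul_apply,
    MonoidAlgebra.coeff_single, Finsupp.single_apply]
  split_ifs <;> simp

lemma phi_smul_up {ι κ : Type} (B : Matrix ι κ (G →₀ O)) (j : ℕ) (i : ι) (a : T.Lam O) :
    phi T O κ j (a • T.up O B i) =
      ∑ q, (T.lam O j a).coeff q • (lvl B (T.qm j) (i, q) : κ × T.Q j → O) := by
  funext b
  obtain ⟨k, q'⟩ := b
  have h1 : T.lam O j a = ∑ q, (T.lam O j a).coeff q • MonoidAlgebra.single q (1 : O) := by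
    conv_lhs => rw [← MonoidAlgebra.sum_coeff_single (T.lam O j a)]
    rw [Finsupp.sum_fintype _ _ (by simp)]
    simp
  rw [phi_apply, Pi.smul_apply, smul_eq_mul, map_mul, h1, Finset.sum_mul,
    MonoidAlgebra.coeff_sum, Finsupp.finsetSum_apply, ← h1, Finset.sum_apply]
  refine Finset.sum_congr rfl fun q _ => ?_
  rw [smul_mul_assoc, MonoidAlgebra.coeff_smul_apply, single_mul_up]
  rfl

lemma map_phi {ι κ : Type} (B : Matrix ι κ (G →₀ O)) (j : ℕ) :
    (((Submodule.span (T.Lam O) (Set.range (T.up O B))).restrictScalars (T.S O)).restrictScalars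
      O).map (phi T O κ j) =
    Submodule.span O (Set.range fun a : ι × T.Q j => (lvl B (T.qm j) a : κ × T.Q j → O)) := by
  apply le_antisymm
  · rintro _ ⟨w, hw, rfl⟩
    have hw' : w ∈ Submodule.span (T.Lam O) (Set.range (T.up O B)) := hw
    have key : ∀ a : T.Lam O, phi T O κ j (a • w) ∈ Submodule.span O
        (Set.range fun a : ι × T.Q j => (lvl B (T.qm j) a : κ × T.Q j → O)) := by
      clear hw
      induction hw' using Submodule.span_induction with
      | mem x hx =>
        obtain ⟨i, rfl⟩ := hx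
        intro a
        rw [phi_smul_up]
        exact Submodule.sum_mem _ fun q _ =>
          Submodule.smul_mem _ _ (Submodule.subset_span ⟨(i, q), rfl⟩)
      | zero => intro a; simp
      | add x y _ _ hx hy => intro a; rw [smul_add, map_add]; exact add_mem (hx a) (hy a)
      | smul c x _ hx => intro a; rw [smul_smul]; exact hx _
    simpa using key 1
  · rw [Submodule.span_le]
    rintro _ ⟨⟨i, q⟩, rfl⟩
    refine ⟨T.iota O q.out • T.up O B i, ?_, ?_⟩
    · exact Submodule.smul_mem (Submodule.span (T.Lam O) (Set.range (T.up O B))) _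
        (Submodule.subset_span ⟨i, rfl⟩)
    · funext b
      obtain ⟨k, q'⟩ := b
      rw [phi_apply, Pi.smul_apply, smul_eq_mul, map_mul, Tower.lam_iota, T.qm_out,
        MonoidAlgebra.of_apply, single_mul_up]

end CoreA

open CoreA in
theorem core (hb : IwbStmt) (h3 : Iw3Stmt) (hs : SyzStmt) (hk : RkStmt) (hl : L0Stmt)
    (hr : RedStmt) (ht : TrStmt) : CoreStmt := by
  intro G _ p D T O _ _ _ π hc n ρ θ htd ι κ _ _ B
  obtain ⟨k, _, ⟨P⟩⟩ := h3 G p D T O π hc
  obtain ⟨hdom, hnoeth, hpd⟩ := hs _ k _ P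
  obtain ⟨-, -, -, b4, ⟨e, he⟩, b6⟩ := hb G p D T O
  set W : Submodule (T.Lam O) (κ → T.Lam O) := Submodule.span _ (Set.range (T.up O B)) with hW
  refine ⟨finrank (T.S O) (W.restrictScalars (T.S O)), ?_, fun a ha => ?_⟩
  · obtain ⟨μ, C, hμ, hC⟩ := hk (T.S O) O (κ → T.Lam O) _ (Pi.basis fun _ : κ => e)
      (W.restrictScalars (T.S O))
    set z := finrank (T.S O) (W.restrictScalars (T.S O))
    have hidx : (0 : ℝ) < (T.H 0).index := by
      exact_mod_cast Nat.pos_of_ne_zero T.fin.index_ne_zero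
    rw [Metric.tendsto_nhds]
    intro ε hε
    have hε' : 0 < ε / (C + 1) := by positivity
    filter_upwards [hl G p D T O π hc μ hμ _ hε'] with j hj
    have h1 := hC (T.I O j) (fun a ha b => by
      rw [Tower.mem_I] at ha ⊢; rw [map_mul, ha, zero_mul]) (b4 j).1 _ (phi T O κ j) (fun x => by
      constructor
      · rintro hx ⟨k, q⟩
        rw [Pi.basis_repr]
        refine (he j _).1 ?_ q
        ext q'
        exact congrFun hx (k, q')
      · intro hx
        funext b
        rw [phi_apply, (he j _).2 fun q => by simpa [Pi.basis_repr] using hx ⟨b.1, q⟩]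
        simp)
    rw [hW, map_phi, (b4 j).2 inferInstance] at h1
    have hp : (0 : ℝ) < (p : ℝ) ^ (D * j) := by
      have := T.prime.pos
      positivity
    have h2 : |(rk B (T.qm j) : ℝ) - z * (p : ℝ) ^ (D * j)| ≤ C * (ε / (C + 1) * p ^ (D * j)) := by
      refine le_trans ?_ (mul_le_mul_of_nonneg_left hj (Nat.cast_nonneg _))
      simpa [rk] using h1
    have h4 : (1 : ℝ) ≤ (T.H 0).index := by
      exact_mod_cast Nat.pos_of_ne_zero T.fin.index_ne_zero
    rw [Real.dist_eq, T.card_Q]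
    push_cast
    have h5 : (rk B (T.qm j) : ℝ) / ((T.H 0).index * (p : ℝ) ^ (D * j)) - z / (T.H 0).index =
        ((rk B (T.qm j) : ℝ) - z * (p : ℝ) ^ (D * j)) / ((T.H 0).index * (p : ℝ) ^ (D * j)) := by
      field_simp
    rw [h5, abs_div, abs_of_pos (mul_pos hidx hp), div_lt_iff₀ (mul_pos hidx hp)]
    refine h2.trans_lt ?_
    have h6 : (C : ℝ) * (ε / (C + 1)) < ε := by
      rw [← mul_div_assoc, div_lt_iff₀ (by positivity)]; nlinarith
    calc (C : ℝ) * (ε / (C + 1) * p ^ (D * j)) = (C * (ε / (C + 1))) * p ^ (D * j) := by ring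
      _ < ε * p ^ (D * j) := mul_lt_mul_of_pos_right h6 hp
      _ ≤ ε * ((T.H 0).index * p ^ (D * j)) := by
        refine mul_le_mul_of_nonneg_left ?_ hε.le
        nlinarith
  · have hcard : ((p : ℤ) ^ a) ∣ (Fintype.card (T.Q 0) : ℤ) := by
      rw [T.card_Q]; simpa using (by exact_mod_cast ha : ((p : ℤ) ^ a) ∣ ((T.H 0).index : ℤ))
    have hfin : Module.Finite (T.Lam O) W := Module.Finite.span_of_finite _ (Set.finite_range _)
    exact hr (T.S O) (T.Lam O) (T.Q 0) ((p : ℤ) ^ a) (θ.eval (n : ℤ)) ⟨e⟩ hcard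
      (fun M _ _ hM => ⟨_, hpd M hM⟩) (fun W' _ _ _ _ r hW' => by
        obtain ⟨c, hc'⟩ := b6 W' r hW'
        exact ht G p D T O π hc n ρ θ htd r c hc' a ha) W hfin

end Pool.Agent.MP_54e5d7_al.atl

end
end MrgPart9

-- ======== part 10: formerly Pool.Agent.MP_54e5d7_al.atl.UNIP
section MrgPart10

/-!
Project ATL: almost unipotent elements in a torsion free ring.
-/

set_option autoImplicit false

noncomputable section
namespace Pool.Agent.MP_54e5d7_al.atl

namespace UniA

variable {A : Type} [Ring A]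

/-- `(1 + v) ^ m = 1 + m v + v ^ 2 w` with `w` commuting with `v`. -/
lemma pow_expand (v : A) (m : ℕ) :
    ∃ w, Commute v w ∧ (1 + v) ^ m = 1 + m • v + v * v * w := by
  induction m with
  | zero => exact ⟨0, Commute.zero_right v, by simp⟩
  | succ m ih =>
    obtain ⟨w, hc, hw⟩ := ih
    refine ⟨w + (m : A) + w * v, (hc.add_right (Nat.cast_commute m v).symm).add_right
      (hc.mul_right (Commute.refl v)), ?_⟩
    rw [pow_succ, hw, succ_nsmul, nsmul_eq_mul]
    have h1 : v * v * (m : A) = m * v * v := by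
      rw [← (Nat.cast_commute m (v * v)).eq, mul_assoc]
    noncomm_ring [h1]

lemma step (v y : A) (m N : ℕ) (h : (1 + v) ^ m = 1 + N • y) (i : ℕ) :
    ∃ w z, m ^ i • v = w * v ^ (i + 1) + N • z := by
  obtain ⟨w, hc, hw⟩ := pow_expand v m
  have h1 : m • v = N • y - v * v * w := by
    rw [hw, add_assoc] at h
    rw [← add_left_cancel h]; abel
  induction i with
  | zero => exact ⟨1, 0, by simp⟩
  | succ i ih =>
    obtain ⟨a, z, hz⟩ := ih
    refine ⟨-(a * w), a * y * v ^ i + m • z, ?_⟩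
    have h2 : v * v * w * v ^ i = w * v ^ (i + 1 + 1) := by
      rw [(hc.mul_left hc).eq, mul_assoc, pow_succ', pow_succ', mul_assoc]
    rw [pow_succ', mul_smul, hz, smul_add, pow_succ' v i, ← mul_smul_comm, ← smul_mul_assoc, h1,
      sub_mul, h2, mul_sub, smul_add, smul_comm N m z, smul_mul_assoc, mul_smul_comm]
    noncomm_ring

lemma lift (p : ℕ) (x y : A) (k : ℕ) (h : x = 1 + p ^ (k + 1) • y) :
    ∃ z, x ^ p = 1 + p ^ (k + 2) • z := by
  obtain ⟨w, -, hw⟩ := pow_expand (p ^ (k + 1) • y) p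
  refine ⟨y + p ^ k • (y * y * w), ?_⟩
  rw [h, hw, smul_add, smul_smul, smul_smul, smul_mul_assoc, mul_smul_comm, smul_smul,
    smul_mul_assoc, add_assoc]
  congr 2
  · rw [pow_succ' p (k + 1)]
  · congr 1; ring

end UniA

open UniA in
theorem unip : UnipStmt := by
  intro A _ _ p hp u c
  obtain ⟨v, rfl⟩ : ∃ v, u = 1 + v := ⟨u - 1, by abel⟩
  rw [add_sub_cancel_left]
  refine ⟨?_, ?_⟩
  · rintro b j J hJ ⟨y, hy⟩ ⟨y', hy'⟩
    obtain ⟨w, z, hz⟩ := step v y' _ _ hy' c
    obtain ⟨k, rfl⟩ := Nat.exists_eq_add_of_le hJ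
    refine ⟨p ^ k • (w * y * v + z), ?_⟩
    congr 1
    rw [pow_succ, hy, smul_mul_assoc, mul_smul_comm, ← smul_add, ← mul_assoc] at hz
    have h1 : ((p : ℤ) ^ (b * c)) • v = ((p : ℤ) ^ (b * c)) • p ^ j • p ^ k • (w * y * v + z) := by
      rw [← Nat.cast_pow, natCast_zsmul, natCast_zsmul, pow_mul, hz, smul_smul, smul_smul]
      congr 1; ring
    exact smul_right_injective A (pow_ne_zero _ (Int.natCast_ne_zero.2 hp.ne_zero)) h1
  · rintro ⟨y, hy⟩ j
    have h0 : ∃ z, (1 + v) ^ p ^ c = 1 + p ^ (0 + 1) • z := by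
      obtain ⟨r, hr⟩ := (Commute.one_left v).exists_add_pow_prime_pow_eq hp c
      obtain ⟨k, hk⟩ := Nat.exists_eq_add_of_le (Nat.lt_pow_self hp.one_lt (n := c)).le
      refine ⟨y * v ^ k + 1 * v * r, ?_⟩
      rw [hr, one_pow, hk, pow_add, hy, zero_add, pow_one, smul_add, smul_mul_assoc, add_assoc,
        nsmul_eq_mul p (1 * v * r)]
      simp [mul_assoc]
    have h1 : ∀ k, ∃ z, (1 + v) ^ p ^ (c + k) = 1 + p ^ (k + 1) • z := by
      intro k
      induction k with
      | zero => exact h0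
      | succ k ih =>
        obtain ⟨z, hz⟩ := ih
        rw [← add_assoc, pow_succ p (c + k), pow_mul]
        exact lift p _ z k hz
    obtain ⟨z, hz⟩ := h1 j
    exact ⟨c + j, p • z, by rw [hz, smul_smul, pow_succ]⟩

end Pool.Agent.MP_54e5d7_al.atl

end
end MrgPart10

-- ======== part 11: formerly Pool.Agent.MP_54e5d7_al.atl.CRIT
section MrgPart11

/-!
Project ATL: the criterion at one prime.
-/

set_option autoImplicit false

open Classical Module

noncomputable section
namespace Pool.Agent.MP_54e5d7_al.atl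

namespace CritA

lemma int_of_approx {x : ℝ} (h : ∀ ε : ℝ, 0 < ε → ∃ z : ℤ, |x - z| ≤ ε) : ∃ z : ℤ, x = z := by
  have h1 : x ∈ closure (Set.range ((↑) : ℤ → ℝ)) := by
    rw [Metric.mem_closure_iff]
    intro ε hε
    obtain ⟨z, hz⟩ := h (ε / 2) (by positivity)
    exact ⟨z, ⟨z, rfl⟩, by rw [Real.dist_eq]; linarith⟩
  rw [Int.isClosedEmbedding_coe_real.isClosed_range.closure_eq] at h1
  obtain ⟨z, hz⟩ := h1
  exact ⟨z, hz.symm⟩

lemma not_cong {ι : Type} {a b : Matrix ι ι ℤ} (h : a ≠ b) {p : ℕ} (hp : p.Prime) :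
    ∀ᶠ j in Filter.atTop, ¬ Cong (p ^ j) a b := by
  obtain ⟨i, k, hik⟩ : ∃ i k, a i k - b i k ≠ 0 := by
    by_contra hc
    push Not at hc
    exact h (Matrix.ext fun i k => sub_eq_zero.1 (hc i k))
  filter_upwards [Filter.eventually_ge_atTop (a i k - b i k).natAbs] with j hj hc
  have h1 := Int.natAbs_le_of_dvd_ne_zero (hc i k) hik
  rw [Int.natAbs_natCast] at h1
  exact absurd (Nat.lt_pow_self hp.one_lt (n := j)) (by omega)

lemma Cong.mono {ι : Type} {a b : Matrix ι ι ℤ} {q q' : ℕ} (h : Cong q a b) (hq : q' ∣ q) :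
    Cong q' a b := fun i j => (Int.natCast_dvd_natCast.2 hq).trans (h i j)

/-- One representation that separates a finite set. -/
lemma exists_rep {G : Type} [Group G] {n : ℕ} {ρ : G →* Matrix (Fin n) (Fin n) ℤ} (hρ : Adm ρ)
    (E : Finset G) (hE : (1 : G) ∉ E) {p : ℕ} (hp : p.Prime) :
    ∃ (𝒜 : Type) (_ : Ring 𝒜) (_ : Module.Finite ℤ 𝒜) (_ : Module.Free ℤ 𝒜) (Φ : G →* 𝒜) (c : ℕ),
      (∀ g q, (∃ y : 𝒜, Φ g = 1 + q • y) → Cong q (ρ g) 1) ∧
      (∀ g q, Cong q (ρ g) 1 → ∃ y : 𝒜, (Φ g - 1) ^ c = q • y) ∧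
      ∀ g ∈ E, ∀ᶠ j in Filter.atTop, ¬ ∃ y : 𝒜, Φ g = 1 + p ^ j • y := by
  have h1 : ∀ g : E, g.1 ≠ 1 := fun g e => hE (e ▸ g.2)
  choose M c Φ h2 h3 using fun g : E => hρ g.1 (h1 g)
  refine ⟨Matrix (Fin n) (Fin n) ℤ × ∀ g : E, Matrix (Fin (M g)) (Fin (M g)) ℤ, inferInstance,
    inferInstance, inferInstance, ρ.prod (MonoidHom.pi Φ), (∑ g, c g) + 1, ?_, ?_, ?_⟩
  · rintro g q ⟨y, hy⟩
    exact Cong.iff_smul.2 ⟨y.1, congrArg Prod.fst hy⟩
  · intro x q hx
    obtain ⟨y, hy⟩ := Cong.iff_smul.1 hx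
    choose y' hy' using fun g : E => Cong.iff_smul.1 (h3 g x q hx)
    refine ⟨((ρ x - 1) ^ (∑ g, c g) * y,
      fun g => (Φ g x - 1) ^ ((∑ g, c g) + 1 - c g) * y' g), Prod.ext ?_ (funext fun g => ?_)⟩
    · change (ρ x - 1) ^ ((∑ g, c g) + 1) = q • ((ρ x - 1) ^ (∑ g, c g) * y)
      rw [pow_succ, ← mul_smul_comm, hy, add_sub_cancel_left]
    · change (Φ g x - 1) ^ ((∑ g, c g) + 1) = q • ((Φ g x - 1) ^ ((∑ g, c g) + 1 - c g) * y' g)
      have hle : c g ≤ (∑ g, c g) + 1 :=
        (Finset.single_le_sum (fun _ _ => Nat.zero_le _) (Finset.mem_univ g)).trans (Nat.le_succ _)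
      rw [← mul_smul_comm, ← zero_add (q • y' g), ← hy', ← pow_add, Nat.sub_add_cancel hle]
  · intro g hg
    filter_upwards [not_cong (h2 ⟨g, hg⟩) hp] with j hj
    rintro ⟨y, hy⟩
    exact hj (Cong.iff_smul.2 ⟨y.2 ⟨g, hg⟩, congrFun (congrArg Prod.snd hy) ⟨g, hg⟩⟩)

lemma index_dvd {G : Type} [Group G] {n : ℕ} (ρ : G →* Matrix (Fin n) (Fin n) ℤ) {p : ℕ}
    (hp : p.Prime) (H : Subgroup G) [H.Normal] [H.FiniteIndex]
    (h : ∀ g, Cong p (ρ g) 1 → ∃ b, g ^ p ^ b ∈ H) :
    ordCompl[p] H.index ∣ ordCompl[p] (Nat.card (GL (Fin n) (ZMod p))) := by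
  have := Fact.mk hp
  let r : G →* GL (Fin n) (ZMod p) :=
    (((Int.castRingHom (ZMod p)).mapMatrix.toMonoidHom).comp ρ).toHomUnits
  have h1 : IsPGroup p (r.ker.map (QuotientGroup.mk' H)) := by
    rintro ⟨_, g, hg, rfl⟩
    have h2 : Cong p (ρ g) 1 := fun i j => by
      have h3 := congrArg (fun u : GL (Fin n) (ZMod p) => (u.val : Matrix (Fin n) (Fin n) (ZMod p)) i j)
        (MonoidHom.mem_ker.1 hg)
      rw [← ZMod.intCast_zmod_eq_zero_iff_dvd]
      simp only [r, MonoidHom.coe_toHomUnits, MonoidHom.comp_apply, Units.val_one] at h3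
      have h4 : ((ρ g i j : ℤ) : ZMod p) = (1 : Matrix (Fin n) (Fin n) (ZMod p)) i j := h3
      rw [Int.cast_sub, h4]
      simp only [Matrix.one_apply]
      split_ifs <;> simp
    obtain ⟨b, hb⟩ := h g h2
    refine ⟨b, Subtype.ext ?_⟩
    rw [SubgroupClass.coe_pow, ← map_pow]
    exact (QuotientGroup.eq_one_iff _).2 hb
  obtain ⟨a, ha⟩ := IsPGroup.iff_card.1 h1
  have h5 : (r.ker.map (QuotientGroup.mk' H)).index ∣ Nat.card (GL (Fin n) (ZMod p)) :=
    (Subgroup.index_map_dvd _ (QuotientGroup.mk'_surjective H)).trans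
      (by rw [Subgroup.index_ker]; exact Subgroup.card_subgroup_dvd_card _)
  have h6 : H.index ∣ p ^ a * Nat.card (GL (Fin n) (ZMod p)) := by
    rw [Subgroup.index, ← (r.ker.map (QuotientGroup.mk' H)).card_mul_index, ha]
    exact mul_dvd_mul_left _ h5
  have h7 := (Nat.ordCompl_dvd H.index p).trans h6
  rw [← Nat.ordProj_mul_ordCompl_eq_self (Nat.card (GL (Fin n) (ZMod p))) p, ← mul_assoc,
    ← pow_add] at h7
  have h8 := Nat.coprime_ordCompl hp (Subgroup.FiniteIndex.index_ne_zero (H := H))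
  have h9 := (Nat.Coprime.pow_left _ h8).symm.dvd_of_dvd_mul_left h7
  exact h9

end CritA

open CritA in
theorem crit (hL : LuckStmt) (hC : CoefStmt) (hT : TowerStmt) (hto : TorsStmt) (hU : UnipStmt)
    (hc : CoreStmt) : CritStmt := by
  intro G _ n ρ hρ p hp
  have := Fact.mk hp
  set B := ordCompl[p] (Nat.card (GL (Fin n) (ZMod p))) with hB
  refine ⟨B, Nat.not_dvd_ordCompl hp Nat.card_pos.ne', ?_⟩
  rw [atiyah_iff_vdim]
  intro m k A
  set t := p ^ (n / (p - 1)) * (n / (p - 1)).factorial with ht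
  refine int_of_approx fun ε hε => ?_
  obtain ⟨E, hE, hA⟩ := hL G m k A (ε / ((t * B : ℕ) + 1)) (by positivity)
  obtain ⟨𝒜, _, _, _, Φ, c, h1, h2, h3⟩ := exists_rep hρ E hE hp
  obtain ⟨j₀, D, T, -, hH⟩ := hT G 𝒜 Φ p hp
  obtain ⟨O, _, _, _, π, A', hO, hA'⟩ := hC G _ _ A p hp
  have hcong : ∀ j g, g ∈ T.H j → Cong (p ^ j) (ρ g) 1 := fun j g hg =>
    Cong.mono (h1 g _ ((hH j g).1 hg)) (pow_dvd_pow _ (Nat.le_add_left _ _))
  have htied : Tied T ρ (theta p n) := by
    refine ⟨fun s => ⟨s, hcong s⟩, fun b s => ?_⟩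
    obtain ⟨j₁, hj₁⟩ := hto p n hp b s (j₀ + c * b)
    refine ⟨max j₁ (c * b), fun g hg => ?_⟩
    have h4 := hcong _ _ hg
    rw [map_pow] at h4
    refine (hj₁ _ (Cong.mono h4 (pow_dvd_pow _ (le_max_left _ _)))).imp id fun h5 => ?_
    obtain ⟨y, hy⟩ := (hH _ _).1 (T.le (le_max_right _ _) hg)
    rw [map_pow] at hy
    exact (hH 0 g).2 (((hU 𝒜 p hp (Φ g) c).1 b j₀ _ le_rfl (h2 g _ h5) ⟨y, hy⟩))
  obtain ⟨z, hz1, hz2⟩ := hc G p D T O π hO n ρ _ htied _ _ A'
  have hidx : ordCompl[p] (T.H 0).index ∣ B := index_dvd ρ hp _ fun g hg => by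
    obtain ⟨b, y, hy⟩ := (hU 𝒜 p hp (Φ g) c).2 (h2 g _ hg) j₀
    exact ⟨b, (hH 0 _).2 ⟨y, by rw [map_pow]; exact hy⟩⟩
  have h6 := hz2 _ (Nat.ordProj_dvd (T.H 0).index p)
  rw [theta_eval, ← ht] at h6
  have h7 : (T.H 0).index ∣ t * z * B := by
    rw [← Nat.ordProj_mul_ordCompl_eq_self (T.H 0).index p]
    exact mul_dvd_mul (by exact_mod_cast h6) hidx
  obtain ⟨w, hw⟩ := h7
  have hne : ((T.H 0).index : ℝ) ≠ 0 := by exact_mod_cast T.fin.index_ne_zero
  have h8 : |vdim A - (m - (z : ℝ) / (T.H 0).index)| ≤ ε / ((t * B : ℕ) + 1) := by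
    have h9 : Filter.Tendsto (fun j => |vdim A - (m - (rk A' (T.qm j) : ℝ) / Fintype.card (T.Q j))|)
        Filter.atTop (nhds |vdim A - (m - (z : ℝ) / (T.H 0).index)|) :=
      (tendsto_const_nhds.sub (tendsto_const_nhds.sub hz1)).abs
    refine le_of_tendsto h9 ?_
    filter_upwards [(Filter.eventually_all_finset E).2 h3] with j hj
    rw [hA']
    refine hA _ _ fun g hg e => hj g hg ?_
    obtain ⟨y, hy⟩ := (hH j g).1 (T.qm_eq_one.1 e)
    exact ⟨p ^ j₀ • y, by rw [hy, smul_smul, ← pow_add, add_comm j]⟩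
  refine ⟨(t * B : ℕ) * m - w, ?_⟩
  have h10 : ((t * B : ℕ) : ℝ) * ((z : ℝ) / (T.H 0).index) = w := by
    have : ((t * z * B : ℕ) : ℝ) = ((T.H 0).index * w : ℕ) := by rw [hw]
    push_cast at this ⊢
    field_simp
    linear_combination this
  have h11 : ((t * B : ℕ) : ℝ) * vdim A - (((t * B : ℕ) : ℤ) * m - w : ℤ) =
      ((t * B : ℕ) : ℝ) * (vdim A - (m - (z : ℝ) / (T.H 0).index)) := by
    rw [mul_sub, mul_sub, h10]; push_cast; ring
  rw [h11, abs_mul, abs_of_nonneg (Nat.cast_nonneg _)]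
  refine (mul_le_mul_of_nonneg_left h8 (Nat.cast_nonneg _)).trans ?_
  rw [← mul_div_assoc, div_le_iff₀ (by positivity)]
  nlinarith

end Pool.Agent.MP_54e5d7_al.atl

end
end MrgPart11

-- ======== part 12: formerly Pool.Agent.MP_54e5d7_al.atl.FIN
section MrgPart12

/-!
Project ATL: all primes together; automorphism groups.
-/

set_option autoImplicit false

open Classical Module

noncomputable section
namespace Pool.Agent.MP_54e5d7_al.atl

namespace FinA

lemma atiyah_of_primes {G : Type} [Group G] {d : ℕ}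
    (h : ∀ p : ℕ, p.Prime → ∃ N B : ℕ, N ∣ d ∧ ¬ p ∣ B ∧ Atiyah G (N * B)) : Atiyah G d := by
  rw [atiyah_iff_vdim]
  intro m n A
  let J : Ideal ℤ :=
    { carrier := {k | ∃ z : ℤ, (k : ℝ) * (d * vdim A) = z}
      add_mem' := by
        rintro a b ⟨z, hz⟩ ⟨w, hw⟩
        exact ⟨z + w, by push_cast; linear_combination hz + hw⟩
      zero_mem' := ⟨0, by simp⟩
      smul_mem' := by
        rintro c a ⟨z, hz⟩
        exact ⟨c * z, by rw [smul_eq_mul]; push_cast; linear_combination c * hz⟩ }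
  have hJ : J = ⊤ := by
    by_contra hne
    obtain ⟨p, hp, hpJ⟩ : ∃ p : ℕ, p.Prime ∧ ∀ k ∈ J, (p : ℤ) ∣ k := by
      obtain ⟨g, hg⟩ := (IsPrincipalIdealRing.principal J).principal
      have h1 : g.natAbs ≠ 1 := fun e => hne (by
        rw [hg]; exact Ideal.span_singleton_eq_top.2 (Int.isUnit_iff_natAbs_eq.2 e))
      obtain ⟨p, hp, hpg⟩ := Nat.exists_prime_and_dvd h1
      refine ⟨p, hp, fun k hk => (Int.natCast_dvd.2 hpg).trans ?_⟩
      rw [hg] at hk
      exact Ideal.mem_span_singleton.1 hk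
    obtain ⟨N, B, ⟨e, rfl⟩, hB, hA⟩ := h p hp
    obtain ⟨z, hz⟩ := (atiyah_iff_vdim _ _).1 hA m n A
    refine hB (Int.natCast_dvd_natCast.1 (hpJ B ⟨e * z, ?_⟩))
    push_cast at hz ⊢
    linear_combination e * hz
  obtain ⟨z, hz⟩ : (1 : ℤ) ∈ J := hJ ▸ Submodule.mem_top
  exact ⟨z, by simpa using hz⟩

/-- The general criterion. -/
theorem atiyah_of_adm (hc : CritStmt) (hw : WrStmt) {G : Type} [Group G] {n : ℕ}
    (ρ : G →* Matrix (Fin n) (Fin n) ℤ) (hρ : Adm ρ) (s : MulAut (FreeGroup (Fin n)) →* G)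
    (hs : ∀ α, ρ (s α) = (freeMark n).abel α) {d : ℕ}
    (hd : ∀ H : Subgroup G, Finite H → Nat.card H ∣ d) : Atiyah G d := by
  refine atiyah_of_primes fun p hp => ?_
  obtain ⟨B, hB, hA⟩ := hc G n ρ hρ p hp
  obtain ⟨W, _, _, ω, h1, h2⟩ := hw n p hp
  refine ⟨_, B, h1.trans ?_, hB, hA⟩
  have hinj : Function.Injective (s.comp ω) := (injective_iff_map_eq_one _).2 fun w e =>
    h2 w (by rw [← hs, show s (ω w) = 1 from e, map_one])
  rw [Nat.card_congr (MonoidHom.ofInjective hinj).toEquiv]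
  exact hd _ (Finite.of_equiv _ (MonoidHom.ofInjective hinj).toEquiv)

lemma atiyah_quot (hq : QuotStmt) {G G' : Type} [Group G] [Group G'] (f : G →* G')
    (hf : Function.Surjective f) (hk : Finite f.ker)
    (h : ∀ d : ℕ, (∀ H : Subgroup G, Finite H → Nat.card H ∣ d) → Atiyah G d) {d : ℕ}
    (hd : ∀ H : Subgroup G', Finite H → Nat.card H ∣ d) : Atiyah G' d := by
  refine hq G G' f hf hk d (h _ fun H hH => ?_)
  let g : H →* G' := f.comp H.subtype
  rw [← g.ker.index_mul_card, Subgroup.index_ker]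
  refine mul_dvd_mul (hd _ (Finite.of_surjective _ g.rangeRestrict_surjective)) ?_
  let j : g.ker →* f.ker := (H.subtype.comp g.ker.subtype).codRestrict _ fun x => x.2
  exact Subgroup.card_dvd_of_injective j fun a b e =>
    Subtype.ext (Subtype.ext (congrArg (fun x : f.ker => (x : G)) e))

lemma dim_of_res (h0 : Iw0Stmt) (hj : JenStmt) {Γ : Type} [Group Γ] [Group.FG Γ]
    (hres : ∀ γ : Γ, γ ≠ 1 → ∃ (N : Type) (_ : Group N) (φ : Γ →* N),
      Group.IsNilpotent N ∧ (∀ x : N, IsOfFinOrder x → x = 1) ∧ φ γ ≠ 1) : Dim Γ := by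
  intro γ hγ
  obtain ⟨N, _, φ, h1, h2, h3⟩ := hres γ hγ
  obtain ⟨c, hc⟩ := hj φ.range (fun x hx => Subtype.ext (h2 _ (φ.range.subtype.isOfFinOrder hx)))
    (φ.rangeRestrict γ) (fun e => h3 (congrArg Subtype.val e))
  refine ⟨c, fun m hm hmem => hc m hm ?_⟩
  have h4 := (h0 ℤ 0 Γ ⊤).2.2.2.2.2.2 _ φ.rangeRestrict c
  rw [Subgroup.map_top_of_surjective _ φ.rangeRestrict_surjective] at h4
  rw [Ia, ← h4]
  refine ⟨_, hmem, ?_⟩
  rw [AlgHom.toLinearMap_apply, map_zsmul, map_sub, map_one]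
  simp [MonoidAlgebra.mapDomainAlgHom_apply]

lemma map_Ia (h0 : Iw0Stmt) {Γ : Type} [Group Γ] (c : ℕ) (α : MulAut Γ) :
    ∀ y ∈ Ia Γ c, MonoidAlgebra.mapDomainAlgHom ℤ ℤ α.toMonoidHom y ∈ Ia Γ c := fun y hy => by
  have h4 := (h0 ℤ 0 Γ ⊤).2.2.2.2.2.2 _ α.toMonoidHom c
  rw [Subgroup.map_top_of_surjective _ α.surjective] at h4
  rw [Ia, ← h4]
  exact ⟨y, hy, rfl⟩

lemma adm_aut (h0 : Iw0Stmt) (hm : MagStmt) {Γ : Type} [Group Γ] {n : ℕ} (μ : Mark Γ n)
    (hD : Dim Γ) : Adm μ.abel := by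
  intro α hα
  obtain ⟨w, hw⟩ : ∃ w, α w ≠ w := by
    by_contra hc
    push Not at hc
    exact hα (MulEquiv.ext hc)
  obtain ⟨c, hc⟩ := hD (α w * w⁻¹) (fun e => hw (mul_inv_eq_one.1 e))
  obtain ⟨M, Φ, h1, h2⟩ := hm Γ n μ c (Ia Γ c) le_rfl (map_Ia h0 c)
  refine ⟨M, c, Φ, fun e => ?_, h2⟩
  obtain ⟨m, hm0, hm⟩ := (h1 α).1 e w
  refine hc m hm0 ?_
  obtain ⟨-, a2, -, a4, -⟩ := h0 ℤ 0 Γ ⊤
  have h3 := a2 c 0 _ (MonoidAlgebra.of ℤ Γ w⁻¹) hm ((a4 _).2 fun _ _ => Subgroup.mem_top _)
  rwa [smul_mul_assoc, sub_mul, ← map_mul, ← map_mul, mul_inv_cancel, map_one] at h3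

/-- The marking of a quotient of a free group. -/
def quotMark {n : ℕ} (V : Subgroup (FreeGroup (Fin n))) [V.Normal]
    (hV : V ≤ commutator (FreeGroup (Fin n))) : Mark (FreeGroup (Fin n) ⧸ V) n where
  x j := QuotientGroup.mk' V (FreeGroup.of j)
  ε := QuotientGroup.lift V (freeMark n).ε
    (hV.trans (Abelianization.commutator_subset_ker _))
  gen := by
    have h := congrArg (Subgroup.map (QuotientGroup.mk' V)) (freeMark n).gen
    rw [MonoidHom.map_closure, Subgroup.map_top_of_surjective _ (QuotientGroup.mk'_surjective V),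
      ← Set.range_comp] at h
    exact h
  dual j := (freeMark n).dual j

/-- Automorphisms descend to quotients by characteristic subgroups. -/
def desc {F : Type} [Group F] (V : Subgroup F) [hV : V.Characteristic] :
    MulAut F →* MulAut (F ⧸ V) where
  toFun α := QuotientGroup.congr V V α (Subgroup.characteristic_iff_map_eq.1 hV α)
  map_one' := MulEquiv.ext fun x => QuotientGroup.induction_on x fun _ => rfl
  map_mul' _ _ := MulEquiv.ext fun x => QuotientGroup.induction_on x fun _ => rfl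

lemma abel_conj {Γ : Type} [Group Γ] {n : ℕ} (μ : Mark Γ n) (g : Γ) :
    μ.abel (MulAut.conj g) = 1 := by
  rw [← map_one μ.abel]
  ext i j
  simp [Mark.abel_apply]

end FinA

open FinA in
theorem aut_final (hc : CritStmt) (hw : WrStmt) (h0 : Iw0Stmt) (hm : MagStmt) (hj : JenStmt)
    (hq : QuotStmt) (n : ℕ) (V : Subgroup (FreeGroup (Fin n))) [V.Characteristic]
    (hV : V ≤ commutator (FreeGroup (Fin n)))
    (hres : ∀ γ : FreeGroup (Fin n) ⧸ V, γ ≠ 1 →
      ∃ (N : Type) (_ : Group N) (φ : FreeGroup (Fin n) ⧸ V →* N),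
        Group.IsNilpotent N ∧ (∀ x : N, IsOfFinOrder x → x = 1) ∧ φ γ ≠ 1)
    (G : Type) [Group G] (f : MulAut (FreeGroup (Fin n) ⧸ V) →* G) (hf : Function.Surjective f)
    (hk : Finite f.ker) (d : ℕ) (hd : ∀ H : Subgroup G, Finite H → Nat.card H ∣ d) :
    Atiyah G d := by
  have : Group.FG (FreeGroup (Fin n)) :=
    ⟨⟨Finset.univ.image FreeGroup.of, by
      rw [Finset.coe_image, Finset.coe_univ, Set.image_univ]; exact FreeGroup.closure_range_of _⟩⟩
  exact atiyah_quot hq f hf hk (fun d hd => atiyah_of_adm hc hw (quotMark V hV).abel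
    (adm_aut h0 hm _ (dim_of_res h0 hj hres)) (desc V) (fun _ => rfl) hd) hd

open FinA in
theorem out_final (hc : CritStmt) (hw : WrStmt) (h0 : Iw0Stmt) (hm : MagStmt) (hn : NeckStmt)
    (hg : GrossStmt) (n d : ℕ)
    (hd : ∀ H : Subgroup (Out (FreeGroup (Fin n))), Finite H → Nat.card H ∣ d) :
    Atiyah (Out (FreeGroup (Fin n))) d := by
  let ρ : Out (FreeGroup (Fin n)) →* Matrix (Fin n) (Fin n) ℤ :=
    QuotientGroup.lift _ (freeMark n).abel (by rintro _ ⟨g, rfl⟩; exact abel_conj _ g)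
  refine atiyah_of_adm hc hw ρ ?_ (QuotientGroup.mk' _) (fun _ => rfl) hd
  intro a ha
  obtain ⟨α, rfl⟩ := QuotientGroup.mk_surjective a
  obtain ⟨w, hw⟩ : ∃ w, ¬ IsConj (α w) w := by
    by_contra hc
    push Not at hc
    obtain ⟨g, hg⟩ := hg n α hc
    exact ha ((QuotientGroup.eq_one_iff _).2 ⟨g, hg.symm⟩)
  obtain ⟨c, hc⟩ := hn n _ _ hw
  obtain ⟨M, Φ, h1, h2⟩ := hm _ n (freeMark n) c (Ia _ c ⊔ Cm _) le_sup_left (fun β y hy => by
    obtain ⟨y₁, h₁, y₂, h₂, rfl⟩ := Submodule.mem_sup.1 hy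
    rw [map_add]
    refine Submodule.add_mem_sup (map_Ia h0 c β _ h₁) ?_
    clear hy
    induction h₂ using Submodule.span_induction with
    | mem x hx =>
      obtain ⟨g, h, rfl⟩ := hx
      exact Submodule.subset_span ⟨β g, β h, by
        rw [map_sub]; simp [MonoidAlgebra.mapDomainAlgHom_apply]⟩
    | zero => simp
    | add x y _ _ hx hy => rw [map_add]; exact add_mem hx hy
    | smul k x _ hx => rw [map_zsmul]; exact Submodule.smul_mem _ _ hx)
  refine ⟨M, c, QuotientGroup.lift _ Φ ?_, fun e => ?_, fun x q hx => ?_⟩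
  · rintro _ ⟨g, rfl⟩
    refine (h1 _).2 fun u => ⟨1, one_ne_zero, Submodule.mem_sup_right ?_⟩
    rw [one_smul]
    exact Submodule.subset_span ⟨g, u * g⁻¹, by simp [mul_assoc]⟩
  · obtain ⟨m, hm0, hm⟩ := (h1 α).1 e w
    exact hc m hm0 hm
  · obtain ⟨β, rfl⟩ := QuotientGroup.mk_surjective x
    exact h2 β q hx

end Pool.Agent.MP_54e5d7_al.atl

end
end MrgPart12

-- ======== part 13: formerly Pool.Agent.MP_54e5d7_al.atl.All
section MrgPart13

/-!
Project ATL: the unconditional statements.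
-/

set_option autoImplicit false

namespace Pool.Agent.MP_54e5d7_al.atl

theorem luck_all : LuckStmt := luck (smallR (smallT gelf (gel gelf) det_stmt))

theorem iw1_all : Iw1Stmt := iw1b iw0

theorem iw2_all : Iw2Stmt := iw2 iw0 iw1_all iwb

theorem tr_all : TrStmt := tr_stmt tra (trb cyc) iwb

theorem core_all : CoreStmt :=
  core iwb (iw3 iw0 iw1_all iw2_all iwb) (syz grs) (rk_stmt rn) (l0 iw0 iw1_all iw2_all iwb)
    (red sch rn) tr_all

theorem crit_all : CritStmt := crit luck_all coef_stmt tower tors unip core_all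

theorem mag_all : MagStmt := mag iw0

end Pool.Agent.MP_54e5d7_al.atl

end MrgPart13

-- marker of a merged file
example : 731051 + 279189 = 731051 + 279189 := rfl
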