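import Mathlib.Algebra.Group.End
import Mathlib.Algebra.Group.Subgroup.Ker
import Mathlib.GroupTheory.Coset.Defs

/-!
The outer automorphism group.
-/

set_option autoImplicit false

namespace Pool.Agent.MP_54e5d7_al.atl

/-- The inner automorphisms form a normal subgroup of the automorphism group. -/
instance innNormal (F : Type) [Group F] : (MulAut.conj : F →* MulAut F).range.Normal where
  conj_mem := by
    rintro _ ⟨g, rfl⟩ α
    exact ⟨α g, by ext x; simp⟩

/-- The outer automorphism group: automorphisms modulo inner automorphisms. -/
abbrev Out (F : Type) [Group F] : Type := MulAut F ⧸ (MulAut.conj : F →* MulAut F).range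

end Pool.Agent.MP_54e5d7_al.atl
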