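import Pool.Agent.MP_54e5d7_al.Defs
import Pool.Agent.MP_54e5d7_al.atl.ODefs

-- ======== part 0: formerly Pool.Agent.MP_54e5d7_al.atl.Defs
section MrgPart0

/-!
Project ATL: internal definitions (finite level matrices, uniform towers, Iwasawa algebras,
filtered rings with polynomial graded ring, marked groups).
-/

set_option autoImplicit false

open Classical

noncomputable section
namespace Pool.Agent.MP_54e5d7_al.atl

/-! ### Dimensions and ranks -/

/-- The von Neumann dimension of the kernel of right multiplication by `A` (the sum that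
appears in `Atiyah`). -/
def vdim {G : Type} [Group G] {m n : ℕ} (A : Matrix (Fin m) (Fin n) (G →₀ ℂ)) : ℝ :=
  ∑ i : Fin m,
      (1 - (Metric.infDist
        (lp.single 2 (i, (1 : G)) (1 : ℂ) : lp (fun _ : Fin m × G => ℂ) 2)
        {x : lp (fun _ : Fin m × G => ℂ) 2 | ∀ (j : Fin n) (g : G),
          ∑ i' : Fin m, (A i' j).sum (fun h c => x (i', g * h⁻¹) * c) = 0}) ^ 2)

lemma atiyah_iff_vdim (G : Type) [Group G] (d : ℕ) : Atiyah G d ↔
    ∀ (m n : ℕ) (A : Matrix (Fin m) (Fin n) (G →₀ ℂ)), ∃ z : ℤ, (d : ℝ) * vdim A = z := by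
  refine forall₃_congr fun m n A => ⟨?_, ?_⟩
  · rintro ⟨z, hz⟩
    exact ⟨z - d * (n - m), by unfold vdim; push_cast; linear_combination hz⟩
  · rintro ⟨z, hz⟩
    exact ⟨z + d * (n - m), by unfold vdim at hz; push_cast; linear_combination hz⟩

/-- The matrix of right multiplication by `A` on the group ring of `Q`, along `ψ : G →* Q`. -/
def lvl {G Q R ι κ : Type} [Group G] [Group Q] [AddCommMonoid R] (A : Matrix ι κ (G →₀ R))
    (ψ : G →* Q) : Matrix (ι × Q) (κ × Q) R :=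
  Matrix.of fun a b => (A a.1 b.1).sum fun h c => if a.2 * ψ h = b.2 then c else 0

/-- The row rank of `lvl A ψ`. -/
def rk {G Q R ι κ : Type} [Group G] [Group Q] [CommRing R] (A : Matrix ι κ (G →₀ R))
    (ψ : G →* Q) : ℕ :=
  Module.finrank R (Submodule.span R (Set.range fun a : ι × Q => (lvl A ψ a : κ × Q → R)))

/-- The squared Euclidean norm. -/
def nsq {ι : Type} [Fintype ι] (x : ι → ℂ) : ℝ := ∑ i, ‖x i‖ ^ 2

/-- Congruence of integer matrices. -/
def Cong {ι : Type} (q : ℕ) (a b : Matrix ι ι ℤ) : Prop := ∀ i j, (q : ℤ) ∣ a i j - b i j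

/-- The polynomial that kills the traces of nontrivial `p`-power torsion of `GL n` over the
`p`-adic integers. Its value at `n` is `p ^ a * a !` with `a = n / (p - 1)`. -/
def theta (p n : ℕ) : Polynomial ℤ :=
  ∏ y ∈ Finset.Icc 1 (n / (p - 1)), (Polynomial.X - Polynomial.C ((n : ℤ) - (p : ℤ) * (y : ℤ)))

/-- Coefficient rings: `π` generates a maximal ideal containing `p`, and `O` is `π`-adically
complete. (With `IsDomain O` this is a complete discrete valuation ring.) -/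
structure Coef (O : Type) [CommRing O] (p : ℕ) (π : O) : Prop where
  max : (Ideal.span {π}).IsMaximal
  ne : π ≠ 0
  dvd : π ∣ (p : O)
  compl : IsAdicComplete (Ideal.span {π}) O

/-! ### Uniform towers and Iwasawa algebras -/

/-- A uniform `p`-adic tower of dimension `D` in a group. -/
structure Tower (G : Type) [Group G] (p D : ℕ) where
  prime : p.Prime
  H : ℕ → Subgroup G
  normal : ∀ j, (H j).Normal
  anti : ∀ j, H (j + 1) ≤ H j
  fin : (H 0).FiniteIndex
  h : Fin D → G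
  h_mem : ∀ i, h i ∈ H 0
  pow_mem : ∀ j g, g ∈ H j → g ^ p ∈ H (j + 1)
  comm_mem : ∀ j g g', g ∈ H 0 → g' ∈ H j → g * g' * g⁻¹ * g'⁻¹ ∈ H (j + 2)
  span : ∀ j g, g ∈ H j → ∃ a : Fin D → ℕ,
    g⁻¹ * (List.ofFn fun i => h i ^ (p ^ j * a i)).prod ∈ H (j + 1)
  idx : ∀ j, (H j).index = (H 0).index * p ^ (D * j)

/-- Span of the products of a power of `π` and elements `g - 1` with `g` in `K`, with at least
`m` factors in total. For a subgroup `K` this is the `m`-th power of the ideal of the group ring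
of `K` generated by `π` and the augmentation ideal. -/
def Jm {O : Type} [CommRing O] (π : O) {X : Type} [Group X] (K : Subgroup X) (m : ℕ) :
    Submodule O (MonoidAlgebra O X) :=
  Submodule.span O {y | ∃ (a : ℕ) (l : List X), (∀ g ∈ l, g ∈ K) ∧ m ≤ a + l.length ∧
    y = π ^ a • (l.map fun g => MonoidAlgebra.of O X g - 1).prod}

/-- Ordered monomials in the elements `h i - 1`. -/
def bm (O : Type) [CommRing O] {X : Type} [Group X] {D : ℕ} (h : Fin D → X) (α : Fin D → ℕ) :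
    MonoidAlgebra O X :=
  (List.ofFn fun i => (MonoidAlgebra.of O X (h i) - 1) ^ α i).prod

namespace Tower
variable {G : Type} [Group G] {p D : ℕ} (T : Tower G p D)

instance instNormal (j : ℕ) : (T.H j).Normal := T.normal j

lemma le {i j : ℕ} (hij : i ≤ j) : T.H j ≤ T.H i := by
  induction hij with
  | refl => exact le_rfl
  | step _ ih => exact (T.anti _).trans ih

instance instFiniteIndex (j : ℕ) : (T.H j).FiniteIndex :=
  ⟨by rw [T.idx]; exact mul_ne_zero T.fin.index_ne_zero (pow_ne_zero _ T.prime.ne_zero)⟩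

/-- The finite quotients. -/
abbrev Q (j : ℕ) : Type := G ⧸ T.H j

instance instFintype (j : ℕ) : Fintype (T.Q j) := Fintype.ofFinite _

/-- The quotient maps. -/
def qm (j : ℕ) : G →* T.Q j := QuotientGroup.mk' (T.H j)

/-- The transition maps. -/
def tr {i j : ℕ} (hij : i ≤ j) : T.Q j →* T.Q i :=
  QuotientGroup.map (T.H j) (T.H i) (MonoidHom.id G) (T.le hij)

/-- The map to the lowest level. -/
def pr (j : ℕ) : T.Q j →* T.Q 0 := T.tr (Nat.zero_le j)

/-- The image of `H 0` at level `j`. -/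
def K (j : ℕ) : Subgroup (T.Q j) := (T.pr j).ker

/-- The images of the generators at level `j`. -/
def hb (j : ℕ) : Fin D → T.Q j := fun i => T.qm j (T.h i)

variable (O : Type) [CommRing O]

/-- Compatible families of elements of the finite group rings. -/
def LamS : Subalgebra O (∀ j, MonoidAlgebra O (T.Q j)) where
  carrier := {x | ∀ i j (hij : i ≤ j), MonoidAlgebra.mapDomainAlgHom O O (T.tr hij) (x j) = x i}
  mul_mem' := fun ha hb i j hij => by
    rw [Pi.mul_apply, map_mul, ha i j hij, hb i j hij, Pi.mul_apply]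
  add_mem' := fun ha hb i j hij => by
    rw [Pi.add_apply, map_add, ha i j hij, hb i j hij, Pi.add_apply]
  algebraMap_mem' := fun r i j hij => by
    rw [Pi.algebraMap_apply, AlgHom.commutes, Pi.algebraMap_apply]

/-- The completed group ring. -/
def Lam : Type := T.LamS O

instance instRingLam : Ring (T.Lam O) := inferInstanceAs (Ring (T.LamS O))
instance instAlgebraLam : Algebra O (T.Lam O) := inferInstanceAs (Algebra O (T.LamS O))

/-- The projection of the completed group ring to level `j`. -/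
def lam (j : ℕ) : T.Lam O →ₐ[O] MonoidAlgebra O (T.Q j) :=
  (Pi.evalAlgHom O (fun j => MonoidAlgebra O (T.Q j)) j).comp (T.LamS O).val

variable {O} in
/-- An element of the completed group ring from a compatible family. -/
def mkLam (x : ∀ j, MonoidAlgebra O (T.Q j))
    (hx : ∀ i j (hij : i ≤ j), MonoidAlgebra.mapDomainAlgHom O O (T.tr hij) (x j) = x i) :
    T.Lam O := (⟨x, hx⟩ : T.LamS O)

variable {O} in
@[simp] lemma lam_mkLam (x : ∀ j, MonoidAlgebra O (T.Q j)) (hx) (j : ℕ) :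
    T.lam O j (T.mkLam x hx) = x j := rfl

variable {O} in
lemma lam_ext {x y : T.Lam O} (h : ∀ j, T.lam O j x = T.lam O j y) : x = y :=
  Subtype.ext (funext h)

variable {O} in
lemma map_lam (x : T.Lam O) {i j : ℕ} (hij : i ≤ j) :
    MonoidAlgebra.mapDomainAlgHom O O (T.tr hij) (T.lam O j x) = T.lam O i x :=
  (show T.LamS O from x).2 i j hij

@[simp] lemma tr_qm {i j : ℕ} (hij : i ≤ j) (g : G) : T.tr hij (T.qm j g) = T.qm i g := rfl
@[simp] lemma pr_qm (j : ℕ) (g : G) : T.pr j (T.qm j g) = T.qm 0 g := rfl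
lemma qm_surj (j : ℕ) : Function.Surjective (T.qm j) := QuotientGroup.mk'_surjective _
lemma qm_eq_one {j : ℕ} {g : G} : T.qm j g = 1 ↔ g ∈ T.H j := QuotientGroup.eq_one_iff g
lemma qm_out (j : ℕ) (q : T.Q j) : T.qm j q.out = q := QuotientGroup.out_eq' q
lemma qm_mem_K {j : ℕ} {g : G} : T.qm j g ∈ T.K j ↔ g ∈ T.H 0 := T.qm_eq_one (j := 0)
lemma pr_tr {i j : ℕ} (hij : i ≤ j) (q : T.Q j) : T.pr i (T.tr hij q) = T.pr j q := by
  obtain ⟨g, rfl⟩ := T.qm_surj j q; rfl

/-- Group elements in the completed group ring. -/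
def iota : G →* T.Lam O where
  toFun g := T.mkLam (fun j => MonoidAlgebra.of O _ (T.qm j g)) fun i j hij => by
    simp [MonoidAlgebra.mapDomainAlgHom_apply]
  map_one' := T.lam_ext fun j => by simp only [map_one, lam_mkLam]
  map_mul' g g' := T.lam_ext fun j => by simp only [map_mul, lam_mkLam]

@[simp] lemma lam_iota (j : ℕ) (g : G) :
    T.lam O j (T.iota O g) = MonoidAlgebra.of O _ (T.qm j g) := rfl

/-- The part of the completed group ring supported over `x` in the lowest quotient. -/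
def Sx (x : T.Q 0) : Submodule O (T.Lam O) where
  carrier := {y | ∀ j q, (T.lam O j y).coeff q ≠ 0 → T.pr j q = x}
  add_mem' := fun {a b} ha hb j q hq => by
    by_contra hc
    have h1 : (T.lam O j a).coeff q = 0 := by by_contra h; exact hc (ha j q h)
    have h2 : (T.lam O j b).coeff q = 0 := by by_contra h; exact hc (hb j q h)
    simp [h1, h2] at hq
  zero_mem' := fun j q hq => by simp at hq
  smul_mem' := fun c a ha j q hq => by
    refine ha j q fun h => hq ?_
    simp [h]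

lemma mem_Sx {x : T.Q 0} {y : T.Lam O} :
    y ∈ T.Sx O x ↔ ∀ j q, (T.lam O j y).coeff q ≠ 0 → T.pr j q = x := Iff.rfl

lemma mul_mem_Sx {x x' : T.Q 0} {y y' : T.Lam O} (hy : y ∈ T.Sx O x) (hy' : y' ∈ T.Sx O x') :
    y * y' ∈ T.Sx O (x * x') := fun j q hq => by
  rw [map_mul] at hq
  have h1 := MonoidAlgebra.support_coeff_mul_subset (T.lam O j y) (T.lam O j y')
    (Finsupp.mem_support_iff.2 hq)
  obtain ⟨a, ha, b, hb, rfl⟩ := Finset.mem_mul.1 h1
  rw [map_mul, hy j a (Finsupp.mem_support_iff.1 ha), hy' j b (Finsupp.mem_support_iff.1 hb)]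

lemma iota_mem_Sx (g : G) : T.iota O g ∈ T.Sx O (T.qm 0 g) := fun j q hq => by
  rw [lam_iota, MonoidAlgebra.of_apply, MonoidAlgebra.coeff_single,
    Finsupp.single_apply_ne_zero] at hq
  rw [hq.1]; rfl

/-- The part supported over the identity, as a subalgebra. -/
def SS : Subalgebra O (T.Lam O) :=
  (T.Sx O 1).toSubalgebra (by simpa using T.iota_mem_Sx O 1)
    (fun _ _ ha hb => by simpa using T.mul_mem_Sx O ha hb)

/-- The Iwasawa algebra of `H 0`. -/
def S : Type := T.SS O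

instance instRingS : Ring (T.S O) := inferInstanceAs (Ring (T.SS O))
instance instAlgebraS : Algebra O (T.S O) := inferInstanceAs (Algebra O (T.SS O))

/-- The inclusion of the Iwasawa algebra in the completed group ring. -/
def val : T.S O →ₐ[O] T.Lam O := (T.SS O).val

variable {O} in
/-- An element of the Iwasawa algebra. -/
def mkS (x : T.Lam O) (hx : x ∈ T.Sx O 1) : T.S O := (⟨x, hx⟩ : T.SS O)

variable {O} in
@[simp] lemma val_mkS (x : T.Lam O) (hx : x ∈ T.Sx O 1) : T.val O (T.mkS x hx) = x := rfl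

variable {O} in
lemma val_mem (x : T.S O) : T.val O x ∈ T.Sx O 1 := (show T.SS O from x).2

lemma val_injective : Function.Injective (T.val O) := fun _ _ h => Subtype.ext h

instance instModuleS : Module (T.S O) (T.Lam O) := Module.compHom _ (T.val O).toRingHom

variable {O} in
lemma S_smul (a : T.S O) (x : T.Lam O) : a • x = T.val O a * x := rfl

instance instTowerS : IsScalarTower (T.S O) (T.Lam O) (T.Lam O) :=
  ⟨fun a x y => by simp only [S_smul, smul_eq_mul, mul_assoc]⟩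

instance instTowerOS : IsScalarTower O (T.S O) (T.Lam O) :=
  ⟨fun c a x => by simp only [S_smul, map_smul, smul_mul_assoc]⟩

/-- The projection of the Iwasawa algebra to level `j`. -/
def lamS (j : ℕ) : T.S O →ₐ[O] MonoidAlgebra O (T.Q j) := (T.lam O j).comp (T.val O)

lemma lamS_apply (j : ℕ) (x : T.S O) : T.lamS O j x = T.lam O j (T.val O x) := rfl

/-- The elements of the Iwasawa algebra that vanish at level `j`. -/
def I (j : ℕ) : Ideal (T.S O) := RingHom.ker (T.lamS O j)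

lemma mem_I {j : ℕ} {x : T.S O} : x ∈ T.I O j ↔ T.lamS O j x = 0 := RingHom.mem_ker

/-- A matrix over the group ring, with entries in the completed group ring. -/
def up {ι κ : Type} (B : Matrix ι κ (G →₀ O)) (i : ι) : κ → T.Lam O :=
  fun k => (B i k).sum fun g c => c • T.iota O g

end Tower

/-! ### Filtered rings with polynomial graded ring -/

/-- A complete separated filtration whose graded ring is a polynomial ring over a field. -/
structure PBW (R : Type) [Ring R] (k : Type) [Field k] (N : ℕ) where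
  F : ℕ → AddSubgroup R
  F_zero : F 0 = ⊤
  anti : ∀ m, F (m + 1) ≤ F m
  mul_mem : ∀ a b x y, x ∈ F a → y ∈ F b → x * y ∈ F (a + b)
  σ : ℕ → R → MvPolynomial (Fin N) k
  σ_add : ∀ m x y, x ∈ F m → y ∈ F m → σ m (x + y) = σ m x + σ m y
  σ_hom : ∀ m x, x ∈ F m → (σ m x).IsHomogeneous m
  σ_eq_zero : ∀ m x, x ∈ F m → (σ m x = 0 ↔ x ∈ F (m + 1))
  σ_surj : ∀ m (P : MvPolynomial (Fin N) k), P.IsHomogeneous m → ∃ x ∈ F m, σ m x = P
  σ_mul : ∀ a b x y, x ∈ F a → y ∈ F b → σ (a + b) (x * y) = σ a x * σ b y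
  sep : ∀ x, (∀ m, x ∈ F m) → x = 0
  compl : ∀ y : ℕ → R, (∀ m, y m ∈ F m) → ∃ x, ∀ m, x - ∑ i ∈ Finset.range m, y i ∈ F m

/-- Finitely generated stably free modules. -/
def Stab (R : Type) [Ring R] (M : Type) [AddCommGroup M] [Module R M] : Prop :=
  ∃ a b : ℕ, Nonempty ((M × (Fin a → R)) ≃ₗ[R] (Fin b → R))

/-- Modules with a resolution of length `n` by finitely generated (stably) free modules. -/
def PD (R : Type) [Ring R] : ℕ → ∀ (M : Type) [AddCommGroup M] [Module R M], Prop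
  | 0, M, _, _ => Stab R M
  | n + 1, M, _, _ => ∃ (s : ℕ) (f : (Fin s → R) →ₗ[R] M),
      Function.Surjective f ∧ PD R n (LinearMap.ker f)

/-- The ideal generated by the first `l` variables. -/
def Il (k : Type) [Field k] (N l : ℕ) : Ideal (MvPolynomial (Fin N) k) :=
  Ideal.span {y | ∃ i : Fin N, i.val < l ∧ y = MvPolynomial.X i}

/-- The first `i` variables form a weakly regular sequence on `M`. -/
def RegU (k : Type) [Field k] (N i : ℕ) (M : Type) [AddCommGroup M]
    [Module (MvPolynomial (Fin N) k) M] : Prop :=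
  ∀ l : Fin N, l.val < i → ∀ x : M,
    (MvPolynomial.X l : MvPolynomial (Fin N) k) • x ∈
      Il k N l.val • (⊤ : Submodule (MvPolynomial (Fin N) k) M) →
    x ∈ Il k N l.val • (⊤ : Submodule (MvPolynomial (Fin N) k) M)

/-! ### Marked groups -/

/-- A group with `n` generators whose images form the standard basis of a free abelian
quotient. -/
structure Mark (Γ : Type) [Group Γ] (n : ℕ) where
  x : Fin n → Γ
  ε : Γ →* Multiplicative (Fin n → ℤ)
  gen : Subgroup.closure (Set.range x) = ⊤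
  dual : ∀ j, ε (x j) = Multiplicative.ofAdd (Pi.single j 1)

namespace Mark
variable {Γ : Type} [Group Γ] {n : ℕ} (μ : Mark Γ n)

lemma eps_aut (α : MulAut Γ) (w : Γ) (i : Fin n) :
    (μ.ε (α w)).toAdd i = ∑ l, (μ.ε (α (μ.x l))).toAdd i * (μ.ε w).toAdd l := by
  have hw : w ∈ Subgroup.closure (Set.range μ.x) := μ.gen ▸ Subgroup.mem_top w
  induction hw using Subgroup.closure_induction with
  | mem y hy =>
    obtain ⟨j, rfl⟩ := hy
    simp [μ.dual, Pi.single_apply]
  | one => simp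
  | mul a b _ _ ha hb => simp [ha, hb, mul_add, Finset.sum_add_distrib]
  | inv a _ ha => simp [ha]

/-- The action of the automorphism group on the free abelian quotient. -/
def abel : MulAut Γ →* Matrix (Fin n) (Fin n) ℤ where
  toFun α := Matrix.of fun i j => (μ.ε (α (μ.x j))).toAdd i
  map_one' := by
    ext i j
    simp [μ.dual, Pi.single_apply, Matrix.one_apply]
  map_mul' α β := by
    ext i j
    rw [Matrix.mul_apply]
    exact μ.eps_aut α (β (μ.x j)) i

lemma abel_apply (α : MulAut Γ) (i j : Fin n) : μ.abel α i j = (μ.ε (α (μ.x j))).toAdd i := rfl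

end Mark

/-- The marking of a free group. -/
def freeMark (n : ℕ) : Mark (FreeGroup (Fin n)) n where
  x := FreeGroup.of
  ε := FreeGroup.lift fun j => Multiplicative.ofAdd (Pi.single j 1)
  gen := FreeGroup.closure_range_of _
  dual j := by simp

/-- Powers of the augmentation ideal of the integral group ring. -/
abbrev Ia (Γ : Type) [Group Γ] (c : ℕ) : Submodule ℤ (MonoidAlgebra ℤ Γ) :=
  Jm (0 : ℤ) (⊤ : Subgroup Γ) c

/-- The span of the additive commutators of the integral group ring. -/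
def Cm (Γ : Type) [Group Γ] : Submodule ℤ (MonoidAlgebra ℤ Γ) :=
  Submodule.span ℤ {y | ∃ g h : Γ, y = MonoidAlgebra.of ℤ Γ (g * h) - MonoidAlgebra.of ℤ Γ (h * g)}

/-- Admissible representations: the group is separated by integral representations that are
unipotent modulo `q` wherever `ρ` is trivial modulo `q`. -/
def Adm {G : Type} [Group G] {n : ℕ} (ρ : G →* Matrix (Fin n) (Fin n) ℤ) : Prop :=
  ∀ g : G, g ≠ 1 → ∃ (M c : ℕ) (Φ : G →* Matrix (Fin M) (Fin M) ℤ), Φ g ≠ 1 ∧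
    ∀ (x : G) (q : ℕ), Cong q (ρ x) 1 → Cong q ((Φ x - 1) ^ c) 0

end Pool.Agent.MP_54e5d7_al.atl

end
end MrgPart0

-- ======== part 1: formerly Pool.Agent.MP_54e5d7_al.atl.Basic
section MrgPart1

-- ======== part 0: formerly Pool.Agent.MP_54e5d7_al.atl.Spec
section MrgPart0

/-!
Project ATL: the statements of the modules. Each row proves `theorem xxx : (hyps) → XxxStmt`.
-/

set_option autoImplicit false

open Classical Module

noncomputable section
namespace Pool.Agent.MP_54e5d7_al.atl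

/-! ### Part A: approximation over the complex numbers -/

/-- Gelfond's lemma in several variables. -/
def GelfStmt : Prop :=
  ∀ (s : ℕ) (L : Type) [Fintype L] (Q : L → MvPolynomial (Fin s) ℂ) (β : L → (Fin s →₀ ℕ)),
    ∃ z : Fin s → ℂ, (∀ i, ‖z i‖ = 1) ∧
      ∏ l, ‖MvPolynomial.coeff (β l) (Q l)‖ ≤
        2 ^ (s * ∑ l, (Q l).totalDegree) * ∏ l, ‖MvPolynomial.eval z (Q l)‖

/-- Integer polynomials of size `T` are not smaller than `r ^ (η T)` on the whole polydisc of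
radius `r` around an algebraically independent point. -/
def GelStmt : Prop :=
  ∀ (s : ℕ) (lm : Fin s → ℂ), AlgebraicIndependent ℤ lm → ∀ η : ℝ, 0 < η → ∃ r₀ : ℝ, 0 < r₀ ∧
    ∀ r : ℝ, 0 < r → r ≤ r₀ → ∀ (T : ℝ) (P : MvPolynomial (Fin s) ℤ), P ≠ 0 →
      (P.totalDegree : ℝ) ≤ T →
      (∀ z : Fin s → ℂ, (∀ i, ‖z i‖ = 1) → ‖MvPolynomial.aeval z P‖ ≤ Real.exp T) →
      ∃ z : Fin s → ℂ, (∀ i, ‖z i - lm i‖ ≤ r) ∧ r ^ (η * T) ≤ ‖MvPolynomial.aeval z P‖

/-- Determinant bound, and maximal nonsingular submatrices. -/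
def DetStmt : Prop :=
  (∀ (ι : Type) [Fintype ι] [DecidableEq ι] (M : Matrix ι ι ℂ) (W : Submodule ℂ (ι → ℂ))
    (a b : ℝ), 0 ≤ a → 0 ≤ b → (∀ x ∈ W, nsq (Matrix.vecMul x M) ≤ a ^ 2 * nsq x) →
    (∀ x, nsq (Matrix.vecMul x M) ≤ b ^ 2 * nsq x) →
    ‖M.det‖ ≤ a ^ finrank ℂ W * b ^ (Fintype.card ι - finrank ℂ W)) ∧
  (∀ (ι κ : Type) [Fintype ι] [Fintype κ] (M : Matrix ι κ ℂ) (N : ℕ),
    N = finrank ℂ (Submodule.span ℂ (Set.range fun a : ι => (M a : κ → ℂ))) →
    ∃ (f : Fin N → ι) (g : Fin N → κ), Function.Injective f ∧ Function.Injective g ∧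
      (M.submatrix f g).det ≠ 0)

/-- Few small singular values, uniformly in the finite quotient. -/
def Small {G ι κ : Type} [Group G] [Fintype ι] [Fintype κ] (A : Matrix ι κ (G →₀ ℂ)) : Prop :=
  ∀ η : ℝ, 0 < η → ∃ r : ℝ, 0 < r ∧ ∀ (Q : Type) [Group Q] [Fintype Q] (ψ : G →* Q)
    (W : Submodule ℂ (ι × Q → ℂ)),
    (∀ x ∈ W, nsq (Matrix.vecMul x (lvl A ψ)) ≤ r ^ 2 * nsq x) →
    (finrank ℂ W : ℝ) + rk A ψ ≤ (Fintype.card ι + η) * Fintype.card Q

/-- Coefficients in a purely transcendental ring. -/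
def SmallTStmt : Prop :=
  ∀ (G ι κ : Type) [Group G] [Fintype ι] [Fintype κ] (s : ℕ) (lm : Fin s → ℂ),
    AlgebraicIndependent ℤ lm → ∀ A : Matrix ι κ (G →₀ ℂ),
    (∀ i k g, ∃ P : MvPolynomial (Fin s) ℤ, A i k g = MvPolynomial.aeval lm P) → Small A

/-- Arbitrary complex coefficients. -/
def SmallRStmt : Prop :=
  ∀ (G ι κ : Type) [Group G] [Fintype ι] [Fintype κ] (A : Matrix ι κ (G →₀ ℂ)), Small A

/-- Approximation of the von Neumann dimension by finite quotients. -/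
def LuckStmt : Prop :=
  ∀ (G : Type) [Group G] (m n : ℕ) (A : Matrix (Fin m) (Fin n) (G →₀ ℂ)) (ε : ℝ), 0 < ε →
    ∃ E : Finset G, (1 : G) ∉ E ∧ ∀ (Q : Type) [Group Q] [Fintype Q] (ψ : G →* Q),
      (∀ g ∈ E, ψ g ≠ 1) → |vdim A - (m - (rk A ψ : ℝ) / Fintype.card Q)| ≤ ε

/-- Change of coefficients to a complete discrete valuation ring. -/
def CoefStmt : Prop :=
  ∀ (G ι κ : Type) [Group G] [Fintype ι] [Fintype κ] (A : Matrix ι κ (G →₀ ℂ)) (p : ℕ),
    p.Prime → ∃ (O : Type) (_ : CommRing O) (_ : IsDomain O) (_ : CharZero O) (π : O)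
      (B : Matrix ι κ (G →₀ O)), Coef O p π ∧
      ∀ (Q : Type) [Group Q] [Fintype Q] (ψ : G →* Q), rk B ψ = rk A ψ

/-- Quotients by finite normal subgroups. -/
def QuotStmt : Prop :=
  ∀ (G G' : Type) [Group G] [Group G'] (f : G →* G'), Function.Surjective f → Finite f.ker →
    ∀ d : ℕ, Atiyah G (d * Nat.card f.ker) → Atiyah G' d

/-! ### Part B: homological algebra -/

/-- Depth increases along syzygies. -/
def GrsStmt : Prop :=
  ∀ (k : Type) [Field k] (N t : ℕ) (M : Type) [AddCommGroup M]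
    [Module (MvPolynomial (Fin N) k) M]
    (f : (Fin t → MvPolynomial (Fin N) k) →ₗ[MvPolynomial (Fin N) k] M),
    (∀ i, RegU k N i (LinearMap.range f) → RegU k N (i + 1) (LinearMap.ker f)) ∧
    (RegU k N N (LinearMap.range f) → LinearMap.ker f ≤ Il k N N • ⊤ → LinearMap.ker f = ⊥)

/-- The syzygy theorem for complete filtered rings with polynomial graded ring. -/
def SyzStmt : Prop :=
  ∀ (R : Type) [Ring R] (k : Type) [Field k] (N : ℕ), PBW R k N →
    IsDomain R ∧ IsNoetherianRing R ∧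
    ∀ (M : Type) [AddCommGroup M] [Module R M], Module.Finite R M → PD R (N + 1) M

/-- Schanuel's lemma. -/
def SchStmt : Prop :=
  ∀ (R : Type) [Ring R] (n : ℕ) (K F M ι : Type) [AddCommGroup K] [Module R K]
    [AddCommGroup F] [Module R F] [AddCommGroup M] [Module R M] [Fintype ι]
    (g : K →ₗ[R] F) (f : F →ₗ[R] M), Nonempty (Basis ι R F) → Function.Injective g →
    Function.Exact g f → Function.Surjective f → PD R (n + 1) M → PD R n K

/-- Rank over a Noetherian domain. -/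
def RnStmt : Prop :=
  ∀ (R : Type) [Ring R] [IsDomain R] [IsNoetherianRing R],
    (∀ (K F M : Type) [AddCommGroup K] [Module R K] [AddCommGroup F] [Module R F]
      [AddCommGroup M] [Module R M] [Module.Finite R F] (g : K →ₗ[R] F) (f : F →ₗ[R] M),
      Function.Injective g → Function.Exact g f → Function.Surjective f →
      finrank R F = finrank R K + finrank R M) ∧
    (∀ (M : Type) [AddCommGroup M] [Module R M] [Module.Finite R M] (z : ℕ) (x : Fin z → M),
      LinearIndependent R x → ∃ (y : Fin (finrank R M - z) → M),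
        z ≤ finrank R M ∧ ∀ E : Finset M, ∃ μ : R, μ ≠ 0 ∧ ∀ w ∈ E,
          μ • w ∈ Submodule.span R (Set.range x) ⊔ Submodule.span R (Set.range y)) ∧
    (∀ (M : Type) [AddCommGroup M] [Module R M] [Module.Finite R M],
      ∃ x : Fin (finrank R M) → M, LinearIndependent R x) ∧
    (∀ μ ν : R, μ ≠ 0 → ν ≠ 0 → ∃ a b : R, a * μ = b * ν ∧ a * μ ≠ 0)

/-- Reduction of a divisibility statement to modules that are free over the small ring. -/
def RedStmt : Prop :=
  ∀ (S Λ : Type) [Ring S] [IsDomain S] [IsNoetherianRing S] [Ring Λ] [Module S Λ]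
    [IsScalarTower S Λ Λ] (ι : Type) [Fintype ι] [Nonempty ι] (u t : ℤ),
    Nonempty (Basis ι S Λ) → u ∣ Fintype.card ι →
    (∀ (M : Type) [AddCommGroup M] [Module S M], Module.Finite S M → ∃ n, PD S n M) →
    (∀ (W : Type) [AddCommGroup W] [Module Λ W] [Module S W] [IsScalarTower S Λ W] (r : ℕ),
      Nonempty (Basis (Fin r) S W) → u ∣ t * r) →
    ∀ (W : Type) [AddCommGroup W] [Module Λ W] [Module S W] [IsScalarTower S Λ W],
      Module.Finite Λ W → u ∣ t * finrank S W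

/-- The rank at a level (a two-sided ideal `I`) is close to the generic rank. -/
def RkStmt : Prop :=
  ∀ (S O : Type) [Ring S] [IsDomain S] [IsNoetherianRing S] [CommRing O] [IsDomain O]
    [Algebra O S] (M : Type) [AddCommGroup M] [Module S M] [Module O M] [IsScalarTower O S M]
    (ι : Type) [Fintype ι] (e : Basis ι S M) (W : Submodule S M),
    ∃ (μ : S) (C : ℕ), μ ≠ 0 ∧ ∀ (I : Ideal S), (∀ a ∈ I, ∀ b, a * b ∈ I) →
      Module.Finite O (S ⧸ I) → ∀ (N : Type) [AddCommGroup N] [Module O N] (φ : M →ₗ[O] N),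
      (∀ x, φ x = 0 ↔ ∀ i, e.repr x i ∈ I) →
      |(finrank O ((W.restrictScalars O).map φ) : ℝ) - finrank S W * finrank O (S ⧸ I)| ≤
        C * finrank O (S ⧸ (I ⊔ Submodule.span S {μ}))

/-! ### Part C: Iwasawa algebras -/

/-- Filtration calculus in a group ring (no tower). -/
def Iw0Stmt : Prop :=
  ∀ (O : Type) [CommRing O] (π : O) (X : Type) [Group X] (K : Subgroup X),
    (∀ m, Jm π K (m + 1) ≤ Jm π K m) ∧
    (∀ m m' x y, x ∈ Jm π K m → y ∈ Jm π K m' → x * y ∈ Jm π K (m + m')) ∧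
    (∀ m x, x ∈ Jm π K m → π • x ∈ Jm π K (m + 1)) ∧
    (∀ x : MonoidAlgebra O X, x ∈ Jm π K 0 ↔ ∀ q, x.coeff q ≠ 0 → q ∈ K) ∧
    (∀ g ∈ K, MonoidAlgebra.of O X g - 1 ∈ Jm π K 1) ∧
    (∀ (D : ℕ) (h : Fin D → X), (∀ i, h i ∈ K) → ∀ α, bm O h α ∈ Jm π K (∑ i, α i)) ∧
    (∀ (Y : Type) [Group Y] (f : X →* Y) (m : ℕ),
      (Jm π K m).map (MonoidAlgebra.mapDomainAlgHom O O f).toLinearMap = Jm π (K.map f) m)

/-- Filtration calculus at level `j` of a tower. -/
def Iw1Stmt : Prop :=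
  ∀ (G : Type) [Group G] (p D : ℕ) (T : Tower G p D) (O : Type) [CommRing O] (π : O),
    π ∣ (p : O) → ∀ j : ℕ,
    (∀ i g, g ∈ T.H i → MonoidAlgebra.of O _ (T.qm j g) - 1 ∈ Jm π (T.K j) (i + 1)) ∧
    (∀ α β : Fin D → ℕ, bm O (T.hb j) α * bm O (T.hb j) β - bm O (T.hb j) (α + β) ∈
      Jm π (T.K j) (∑ i, α i + ∑ i, β i + 1)) ∧
    (∀ m x, x ∈ Jm π (T.K j) m → ∃ c : (Fin D → ℕ) → O,
      x - ∑ α ∈ (Fintype.piFinset fun _ : Fin D => Finset.range (m + 1)).filter
          (fun α => ∑ i, α i ≤ m), (c α * π ^ (m - ∑ i, α i)) • bm O (T.hb j) α ∈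
        Jm π (T.K j) (m + 1)) ∧
    (∀ i (hij : i ≤ j) x, x ∈ Jm π (T.K j) 0 →
      MonoidAlgebra.mapDomainAlgHom O O (T.tr hij) x = 0 → x ∈ Jm π (T.K j) (i + 1))

/-- Basis, nilpotence and weights at level `j` of a tower. -/
def Iw2Stmt : Prop :=
  ∀ (G : Type) [Group G] (p D : ℕ) (T : Tower G p D) (O : Type) [CommRing O] (π : O),
    π ∣ (p : O) → ∀ j : ℕ,
    LinearIndependent O (fun α : Fin D → Fin (p ^ j) => bm O (T.hb j) fun i => (α i).val) ∧
    Submodule.span O (Set.range fun α : Fin D → Fin (p ^ j) => bm O (T.hb j) fun i => (α i).val) =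
      Jm π (T.K j) 0 ∧
    (∀ s, ∃ m, ∀ x ∈ Jm π (T.K j) m, ∀ q, π ^ s ∣ x.coeff q) ∧
    (∀ (m : ℕ) (c : (Fin D → Fin (p ^ j)) → O), (m ≤ j + 1 ∨ π = 0) →
      ∑ α, c α • bm O (T.hb j) (fun i => (α i).val) ∈ Jm π (T.K j) m →
      ∀ α, π ^ (m - ∑ i, (α i).val) ∣ c α) ∧
    (π = 0 → ∀ α : Fin D → ℕ, (∃ i, p ^ j ≤ α i) → bm O (T.hb j) α = 0)

/-- Structure of the completed group ring over the Iwasawa algebra. -/
def IwbStmt : Prop :=
  ∀ (G : Type) [Group G] (p D : ℕ) (T : Tower G p D) (O : Type) [CommRing O],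
    (∀ j (y : MonoidAlgebra O (T.Q j)), ∃ x, T.lam O j x = y) ∧
    (∀ j (y : MonoidAlgebra O (T.Q j)), (∀ q, y.coeff q ≠ 0 → q ∈ T.K j) →
      ∃ x, T.lamS O j x = y) ∧
    (∀ j, Nat.card (T.K j) = p ^ (D * j)) ∧
    (∀ j, Module.Finite O (T.S O ⧸ T.I O j) ∧
      (Nontrivial O → finrank O (T.S O ⧸ T.I O j) = p ^ (D * j))) ∧
    (∃ e : Basis (T.Q 0) (T.S O) (T.Lam O),
      ∀ j x, T.lam O j x = 0 ↔ ∀ q, e.repr x q ∈ T.I O j) ∧
    (∀ (W : Type) [AddCommGroup W] [Module (T.Lam O) W] [Module (T.S O) W]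
      [IsScalarTower (T.S O) (T.Lam O) W] (r : ℕ), Nonempty (Basis (Fin r) (T.S O) W) →
      ∃ c : T.Q 0 →* Matrix (Fin r) (Fin r) (T.Lam O), ∀ x i i', c x i i' ∈ T.Sx O x)

/-- The Iwasawa algebra has a polynomial graded ring. -/
def Iw3Stmt : Prop :=
  ∀ (G : Type) [Group G] (p D : ℕ) (T : Tower G p D) (O : Type) [CommRing O] [IsDomain O]
    (π : O), Coef O p π → ∃ (k : Type) (_ : Field k), Nonempty (PBW (T.S O) k (D + 1))

/-- A nonzero element of the Iwasawa algebra has almost full rank at high levels. -/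
def L0Stmt : Prop :=
  ∀ (G : Type) [Group G] (p D : ℕ) (T : Tower G p D) (O : Type) [CommRing O] [IsDomain O]
    (π : O), Coef O p π → ∀ μ : T.S O, μ ≠ 0 → ∀ ε : ℝ, 0 < ε → ∀ᶠ j in Filter.atTop,
      (finrank O (T.S O ⧸ (T.I O j ⊔ Submodule.span (T.S O) {μ})) : ℝ) ≤ ε * p ^ (D * j)

/-! ### Part D: traces -/

/-- A root of a fixed-point-free permutation of order `p` has trace zero. -/
def CycStmt : Prop :=
  ∀ (O : Type) [CommRing O] [IsDomain O] (p : ℕ) (π : O), p.Prime → Coef O p π →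
    ∀ (ι : Type) [Fintype ι] [DecidableEq ι] (M : Matrix ι ι O) (a : ℕ) (τ : Equiv.Perm ι),
      τ ^ p = 1 → (∀ i, τ i ≠ i) → M ^ p ^ a = Matrix.of (fun i j => if τ i = j then 1 else 0) →
      M.trace = 0

/-- Extension of a continuous representation to the completed group ring. -/
def TraStmt : Prop :=
  ∀ (G : Type) [Group G] (p D : ℕ) (T : Tower G p D) (O : Type) [CommRing O] (π : O),
    Coef O p π → ∀ (ι : Type) [Fintype ι] [DecidableEq ι] (σ : G →* Matrix ι ι ℤ),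
    (∀ s, ∃ j, ∀ g ∈ T.H j, Cong (p ^ s) (σ g) 1) →
    ∃ σ' : T.Lam O →+* Matrix ι ι O, ∀ s, ∃ j₀, ∀ j, j₀ ≤ j → ∀ x a b,
      π ^ s ∣ σ' x a b - ∑ q : T.Q j, (T.lam O j x).coeff q * (σ q.out a b : ℤ)

/-- Vanishing of class sums. -/
def TrbStmt : Prop :=
  ∀ (O : Type) [CommRing O] [IsDomain O] [CharZero O] (p : ℕ) (π : O), p.Prime → Coef O p π →
    ∀ (Q Q' : Type) [Group Q] [Fintype Q] [Group Q'] (f : Q →* Q'), IsPGroup p f.ker →
    ∀ (r : ℕ) (c : Q' →* Matrix (Fin r) (Fin r) (MonoidAlgebra O Q)),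
      (∀ x i i' q, (c x i i').coeff q ≠ 0 → f q = x) →
      ∀ (b : ℕ) (x : Q'), x ^ p ^ b = 1 → ∀ F : Q → O,
      (∀ y h, h ∈ f.ker → F (h⁻¹ * y * h) = F y) → (∀ y, y ^ p ^ b = 1 → F y = 0) →
      ∑ y, F y * ∑ i, (c x i i).coeff y = 0

/-- The two conditions that tie a representation and a polynomial to a tower. -/
def Tied {G : Type} [Group G] {p D n : ℕ} (T : Tower G p D)
    (ρ : G →* Matrix (Fin n) (Fin n) ℤ) (θ : Polynomial ℤ) : Prop :=
  (∀ s, ∃ j, ∀ g ∈ T.H j, Cong (p ^ s) (ρ g) 1) ∧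
  ∀ b s, ∃ j, ∀ g, g ^ p ^ b ∈ T.H j → ((p : ℤ) ^ s ∣ θ.eval (ρ g).trace ∨ g ∈ T.H 0)

/-- Divisibility for modules that are free over the Iwasawa algebra. -/
def TrStmt : Prop :=
  ∀ (G : Type) [Group G] (p D : ℕ) (T : Tower G p D) (O : Type) [CommRing O] [IsDomain O]
    [CharZero O] (π : O), Coef O p π → ∀ (n : ℕ) (ρ : G →* Matrix (Fin n) (Fin n) ℤ)
    (θ : Polynomial ℤ), Tied T ρ θ → ∀ (r : ℕ) (c : T.Q 0 →* Matrix (Fin r) (Fin r) (T.Lam O)),
    (∀ x i i', c x i i' ∈ T.Sx O x) → ∀ e : ℕ, p ^ e ∣ (T.H 0).index →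
    (p : ℤ) ^ e ∣ θ.eval (n : ℤ) * r

/-- The core theorem. -/
def CoreStmt : Prop :=
  ∀ (G : Type) [Group G] (p D : ℕ) (T : Tower G p D) (O : Type) [CommRing O] [IsDomain O]
    [CharZero O] (π : O), Coef O p π → ∀ (n : ℕ) (ρ : G →* Matrix (Fin n) (Fin n) ℤ)
    (θ : Polynomial ℤ), Tied T ρ θ → ∀ (ι κ : Type) [Fintype ι] [Fintype κ]
    (B : Matrix ι κ (G →₀ O)), ∃ z : ℕ,
      Filter.Tendsto (fun j => (rk B (T.qm j) : ℝ) / Fintype.card (T.Q j)) Filter.atTop
        (nhds ((z : ℝ) / (T.H 0).index)) ∧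
      ∀ e : ℕ, p ^ e ∣ (T.H 0).index → (p : ℤ) ^ e ∣ θ.eval (n : ℤ) * z

/-! ### Part E: congruence towers -/

/-- Deep congruence subgroups form a uniform tower. -/
def TowerStmt : Prop :=
  ∀ (G 𝒜 : Type) [Group G] [Ring 𝒜] [Module.Finite ℤ 𝒜] [Module.Free ℤ 𝒜] (Φ : G →* 𝒜)
    (p : ℕ), p.Prime → ∃ (j₀ D : ℕ) (T : Tower G p D), 2 ≤ j₀ ∧
      ∀ j g, g ∈ T.H j ↔ ∃ b : 𝒜, Φ g = 1 + p ^ (j₀ + j) • b

/-- Traces of almost torsion elements. -/
def TorsStmt : Prop :=
  ∀ (p n : ℕ), p.Prime → ∀ b s j' : ℕ, ∃ j, ∀ g : Matrix (Fin n) (Fin n) ℤ,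
    Cong (p ^ j) (g ^ p ^ b) 1 → ((p : ℤ) ^ s ∣ (theta p n).eval g.trace ∨ Cong (p ^ j') g 1)

/-- Unipotent elements. -/
def UnipStmt : Prop :=
  ∀ (𝒜 : Type) [Ring 𝒜] [Module.Free ℤ 𝒜] (p : ℕ), p.Prime → ∀ (u : 𝒜) (c : ℕ),
    (∀ b j J : ℕ, j + c * b ≤ J → (∃ y : 𝒜, (u - 1) ^ c = p ^ J • y) →
      (∃ y : 𝒜, u ^ p ^ b = 1 + p ^ J • y) → ∃ y : 𝒜, u = 1 + p ^ j • y) ∧
    ((∃ y : 𝒜, (u - 1) ^ c = p • y) → ∀ j, ∃ (b : ℕ) (y : 𝒜), u ^ p ^ b = 1 + p ^ j • y)

/-- The criterion at one prime. -/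
def CritStmt : Prop :=
  ∀ (G : Type) [Group G] (n : ℕ) (ρ : G →* Matrix (Fin n) (Fin n) ℤ), Adm ρ → ∀ p : ℕ, p.Prime →
    ∃ B : ℕ, ¬ p ∣ B ∧ Atiyah G (p ^ (n / (p - 1)) * (n / (p - 1)).factorial * B)

/-! ### Part F: free groups -/

/-- Wreath products in the automorphism group of a free group. -/
def WrStmt : Prop :=
  ∀ n p : ℕ, p.Prime → ∃ (W : Type) (_ : Group W) (_ : Finite W)
    (ω : W →* MulAut (FreeGroup (Fin n))),
    p ^ (n / (p - 1)) * (n / (p - 1)).factorial ∣ Nat.card W ∧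
    ∀ w, (freeMark n).abel (ω w) = 1 → w = 1

/-- Traces separate conjugacy classes of a free group. -/
def SepStmt : Prop :=
  ∀ (n : ℕ) (w w' : FreeGroup (Fin n)), ¬ IsConj w w' →
    ∃ (N : ℕ) (φ : FreeGroup (Fin n) →* Matrix (Fin N) (Fin N) ℚ), (φ w).trace ≠ (φ w').trace

/-- Conjugacy classes of a free group are separated modulo powers of the augmentation ideal. -/
def NeckStmt : Prop :=
  ∀ (n : ℕ) (w w' : FreeGroup (Fin n)), ¬ IsConj w w' → ∃ c : ℕ, ∀ m : ℤ, m ≠ 0 →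
    m • (MonoidAlgebra.of ℤ _ w - MonoidAlgebra.of ℤ _ w') ∉
      Ia (FreeGroup (Fin n)) c ⊔ Cm (FreeGroup (Fin n))

/-- Class preserving automorphisms of a free group are inner. -/
def GrossStmt : Prop :=
  ∀ (n : ℕ) (α : MulAut (FreeGroup (Fin n))), (∀ w, IsConj (α w) w) →
    ∃ g, α = MulAut.conj g

/-- Integral representations of automorphism groups on quotients of the group ring. -/
def MagStmt : Prop :=
  ∀ (Γ : Type) [Group Γ] (n : ℕ) (μ : Mark Γ n) (c : ℕ) (T₀ : Submodule ℤ (MonoidAlgebra ℤ Γ)),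
    Ia Γ c ≤ T₀ →
    (∀ (α : MulAut Γ), ∀ y ∈ T₀, MonoidAlgebra.mapDomainAlgHom ℤ ℤ α.toMonoidHom y ∈ T₀) →
    ∃ (M : ℕ) (Φ : MulAut Γ →* Matrix (Fin M) (Fin M) ℤ),
      (∀ α, Φ α = 1 ↔ ∀ w, ∃ m : ℤ, m ≠ 0 ∧
        m • (MonoidAlgebra.of ℤ Γ (α w) - MonoidAlgebra.of ℤ Γ w) ∈ T₀) ∧
      ∀ (α : MulAut Γ) (q : ℕ), Cong q (μ.abel α) 1 → Cong q ((Φ α - 1) ^ c) 0

/-- The rational dimension subgroups intersect trivially. -/
def Dim (X : Type) [Group X] : Prop :=
  ∀ g : X, g ≠ 1 → ∃ c : ℕ, ∀ m : ℤ, m ≠ 0 → m • (MonoidAlgebra.of ℤ X g - 1) ∉ Ia X c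

/-- Extensions by an infinite cyclic group. -/
def JenAStmt : Prop :=
  ∀ (N : Type) [Group N] [Group.IsNilpotent N] (χ : N →* Multiplicative ℤ),
    Dim χ.ker → Dim N

/-- The theorem of Hall and Jennings. -/
def JenStmt : Prop :=
  ∀ (N : Type) [Group N] [Group.IsNilpotent N] [Group.FG N],
    (∀ x : N, IsOfFinOrder x → x = 1) → Dim N

end Pool.Agent.MP_54e5d7_al.atl

end
end MrgPart0

-- ======== part 1: formerly Pool.Agent.MP_54e5d7_al.atl.Basic
section MrgPart1

/-!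
Project ATL: small shared lemmas.
-/

set_option autoImplicit false

open Classical Module

noncomputable section
namespace Pool.Agent.MP_54e5d7_al.atl

lemma nsq_nonneg {ι : Type} [Fintype ι] (x : ι → ℂ) : 0 ≤ nsq x :=
  Finset.sum_nonneg fun _ _ => sq_nonneg _

lemma nsq_eq_norm {ι : Type} [Fintype ι] (x : ι → ℂ) :
    nsq x = ‖(WithLp.toLp 2 x : EuclideanSpace ℂ ι)‖ ^ 2 := by
  rw [EuclideanSpace.norm_sq_eq]; rfl

lemma lvl_apply {G Q R ι κ : Type} [Group G] [Group Q] [AddCommMonoid R] (A : Matrix ι κ (G →₀ R))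
    (ψ : G →* Q) (a : ι × Q) (b : κ × Q) :
    lvl A ψ a b = (A a.1 b.1).sum fun h c => if a.2 * ψ h = b.2 then c else 0 := rfl

lemma vecMul_lvl {G Q R ι κ : Type} [Group G] [Group Q] [Fintype Q] [CommRing R] [Fintype ι]
    (A : Matrix ι κ (G →₀ R)) (ψ : G →* Q) (x : ι × Q → R) (b : κ × Q) :
    Matrix.vecMul x (lvl A ψ) b =
      ∑ i, ∑ h ∈ (A i b.1).support, x (i, b.2 * (ψ h)⁻¹) * A i b.1 h := by
  simp only [Matrix.vecMul, dotProduct, lvl_apply, Finsupp.sum, Fintype.sum_prod_type,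
    Finset.mul_sum]
  refine Finset.sum_congr rfl fun i _ => ?_
  rw [Finset.sum_comm]
  refine Finset.sum_congr rfl fun h _ => ?_
  rw [Finset.sum_eq_single (b.2 * (ψ h)⁻¹)]
  · simp
  · intro q _ hq
    rw [if_neg, mul_zero]
    intro e
    exact hq (by rw [← e]; simp)
  · simp

/-- The operator norm of a level matrix is bounded by the sum of the norms of the
coefficients. -/
lemma nsq_vecMul_lvl_le {G Q ι κ : Type} [Group G] [Group Q] [Fintype Q] [Fintype ι] [Fintype κ]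
    (A : Matrix ι κ (G →₀ ℂ)) (ψ : G →* Q) (x : ι × Q → ℂ) :
    nsq (Matrix.vecMul x (lvl A ψ)) ≤
      (∑ i, ∑ k, ∑ h ∈ (A i k).support, ‖A i k h‖) ^ 2 * nsq x := by
  let v : ι → κ → G → EuclideanSpace ℂ (κ × Q) := fun i k h =>
    WithLp.toLp 2 fun b => if b.1 = k then x (i, b.2 * (ψ h)⁻¹) * A i k h else 0
  have h1 : (WithLp.toLp 2 (Matrix.vecMul x (lvl A ψ)) : EuclideanSpace ℂ (κ × Q)) =
      ∑ i, ∑ k, ∑ h ∈ (A i k).support, v i k h := by
    ext b
    simp only [vecMul_lvl, v, WithLp.ofLp_sum, Finset.sum_apply]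
    refine Finset.sum_congr rfl fun i _ => ?_
    rw [Finset.sum_eq_single b.1]
    · simp
    · intro k _ hk
      simp [Ne.symm hk]
    · simp
  set X : ℝ := ‖(WithLp.toLp 2 x : EuclideanSpace ℂ (ι × Q))‖ with hX
  have h2 : ∀ i k h, ‖v i k h‖ ≤ ‖A i k h‖ * X := fun i k h => by
    refine (sq_le_sq₀ (norm_nonneg _) (by positivity)).1 ?_
    rw [mul_pow, hX, ← nsq_eq_norm, EuclideanSpace.norm_sq_eq]
    simp only [Fintype.sum_prod_type, nsq]
    rw [Finset.sum_eq_single k]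
    · simp only [if_true, norm_mul, mul_pow, ← Finset.sum_mul]
      rw [mul_comm]
      refine mul_le_mul_of_nonneg_left ?_ (sq_nonneg _)
      rw [show (∑ q : Q, ‖x (i, q * (ψ h)⁻¹)‖ ^ 2) = ∑ q : Q, ‖x (i, q)‖ ^ 2 from
        Fintype.sum_equiv (Equiv.mulRight (ψ h)⁻¹) _ _ fun q => rfl]
      exact Finset.single_le_sum (f := fun i => ∑ q : Q, ‖x (i, q)‖ ^ 2)
        (fun _ _ => Finset.sum_nonneg fun _ _ => sq_nonneg _) (Finset.mem_univ i)
    · intro k' _ hk
      simp [hk]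
    · simp
  rw [nsq_eq_norm, nsq_eq_norm, h1, ← hX, ← mul_pow]
  refine pow_le_pow_left₀ (norm_nonneg _) ?_ 2
  simp only [Finset.sum_mul]
  refine (norm_sum_le _ _).trans (Finset.sum_le_sum fun i _ => ?_)
  refine (norm_sum_le _ _).trans (Finset.sum_le_sum fun k _ => ?_)
  exact (norm_sum_le _ _).trans (Finset.sum_le_sum fun h _ => h2 i k h)

lemma theta_eval (p n : ℕ) :
    (theta p n).eval (n : ℤ) = (p ^ (n / (p - 1)) * (n / (p - 1)).factorial : ℕ) := by
  simp only [theta, Polynomial.eval_prod, Polynomial.eval_sub, Polynomial.eval_X,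
    Polynomial.eval_C, sub_sub_cancel]
  induction n / (p - 1) with
  | zero => simp
  | succ a ih =>
    rw [Finset.prod_Icc_succ_top (by omega), ih, Nat.factorial_succ]
    push_cast; ring

lemma Cong.iff_smul {ι : Type} {q : ℕ} {a b : Matrix ι ι ℤ} :
    Cong q a b ↔ ∃ y : Matrix ι ι ℤ, a = b + q • y := by
  constructor
  · intro h
    choose y hy using h
    exact ⟨Matrix.of y, by ext i j; simp [← hy]⟩
  · rintro ⟨y, rfl⟩ i j
    simp

namespace Tower
variable {G : Type} [Group G] {p D : ℕ} (T : Tower G p D)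

lemma K_eq_map (j : ℕ) : T.K j = (T.H 0).map (T.qm j) := by
  ext q
  obtain ⟨g, rfl⟩ := T.qm_surj j q
  refine ⟨fun h => ⟨g, T.qm_mem_K.1 h, rfl⟩, ?_⟩
  rintro ⟨g', h1, h2⟩
  rw [← h2]; exact T.qm_mem_K.2 h1

lemma map_K {i j : ℕ} (hij : i ≤ j) : (T.K j).map (T.tr hij) = T.K i := by
  rw [K_eq_map, K_eq_map, Subgroup.map_map]; rfl

lemma hb_mem (j : ℕ) (i : Fin D) : T.hb j i ∈ T.K j := T.qm_mem_K.2 (T.h_mem i)

lemma pow_pow_mem {i : ℕ} {g : G} (hg : g ∈ T.H i) (j : ℕ) : g ^ p ^ j ∈ T.H (i + j) := by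
  induction j with
  | zero => simpa using hg
  | succ j ih => rw [pow_succ, pow_mul]; exact T.pow_mem _ _ ih

lemma hb_pow (j : ℕ) (i : Fin D) : T.hb j i ^ p ^ j = 1 := by
  rw [hb, ← map_pow, qm_eq_one]
  simpa using T.pow_pow_mem (T.h_mem i) j

lemma card_Q (j : ℕ) : Fintype.card (T.Q j) = (T.H 0).index * p ^ (D * j) := by
  rw [← T.idx, Subgroup.index, Nat.card_eq_fintype_card]

lemma map_bm (O : Type) [CommRing O] {i j : ℕ} (hij : i ≤ j) (α : Fin D → ℕ) :
    MonoidAlgebra.mapDomainAlgHom O O (T.tr hij) (bm O (T.hb j) α) = bm O (T.hb i) α := by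
  simp only [bm, map_list_prod, List.map_ofFn]
  congr 2
  funext l
  simp only [Function.comp_apply, map_pow, map_sub, map_one]
  simp [hb, MonoidAlgebra.mapDomainAlgHom_apply]

end Tower

end Pool.Agent.MP_54e5d7_al.atl

end
end MrgPart1

-- marker of a merged file
example : 731051 + 688338 = 731051 + 688338 := rfl

end MrgPart1

-- ======== part 2: formerly Pool.Agent.MP_54e5d7_al.atl.IW0
section MrgPart2

/-!
Project ATL: elementary calculus of the filtration `Jm`.
-/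

set_option autoImplicit false

open Classical

noncomputable section
namespace Pool.Agent.MP_54e5d7_al.atl

namespace Iw0
variable {O : Type} [CommRing O] {π : O} {X : Type} [Group X] {K : Subgroup X}

/-- the product of the elements `g - 1` along a list -/
def wd (O : Type) [CommRing O] {X : Type} [Group X] (l : List X) : MonoidAlgebra O X :=
  (l.map fun g => MonoidAlgebra.of O X g - 1).prod

lemma wd_nil : wd O ([] : List X) = 1 := rfl

lemma wd_cons (g : X) (l : List X) : wd O (g :: l) = (MonoidAlgebra.of O X g - 1) * wd O l := by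
  simp [wd]

lemma wd_append (l l' : List X) : wd O (l ++ l') = wd O l * wd O l' := by
  simp [wd]

lemma gen_mem {m a : ℕ} {l : List X} (hl : ∀ g ∈ l, g ∈ K) (hm : m ≤ a + l.length) :
    π ^ a • wd O l ∈ Jm π K m :=
  Submodule.subset_span ⟨a, l, hl, hm, rfl⟩

lemma ind {m : ℕ} {P : MonoidAlgebra O X → Prop}
    (h1 : ∀ (a : ℕ) (l : List X), (∀ g ∈ l, g ∈ K) → m ≤ a + l.length → P (π ^ a • wd O l))
    (h0 : P 0) (ha : ∀ x y, P x → P y → P (x + y)) (hs : ∀ (c : O) x, P x → P (c • x))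
    {x : MonoidAlgebra O X} (hx : x ∈ Jm π K m) : P x := by
  induction hx using Submodule.span_induction with
  | mem y hy =>
    obtain ⟨a, l, hl, hm, rfl⟩ := hy
    exact h1 a l hl hm
  | zero => exact h0
  | add x y _ _ hx hy => exact ha x y hx hy
  | smul c x _ hx => exact hs c x hx

lemma anti {m m' : ℕ} (h : m ≤ m') : Jm π K m' ≤ Jm π K m :=
  Submodule.span_mono fun _ ⟨a, l, hl, hm, e⟩ => ⟨a, l, hl, h.trans hm, e⟩

lemma mul_mem {m m' : ℕ} {x y : MonoidAlgebra O X} (hx : x ∈ Jm π K m) (hy : y ∈ Jm π K m') :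
    x * y ∈ Jm π K (m + m') := by
  refine ind (P := fun x => x * y ∈ Jm π K (m + m')) (fun a l hl hm => ?_) (by simp)
    (fun x x' h h' => by rw [add_mul]; exact add_mem h h')
    (fun c x h => by rw [smul_mul_assoc]; exact Submodule.smul_mem _ _ h) hx
  refine ind (P := fun y => π ^ a • wd O l * y ∈ Jm π K (m + m')) (fun a' l' hl' hm' => ?_)
    (by simp) (fun x x' h h' => by rw [mul_add]; exact add_mem h h')
    (fun c x h => by rw [mul_smul_comm]; exact Submodule.smul_mem _ _ h) hy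
  rw [smul_mul_smul_comm, ← pow_add, ← wd_append]
  refine gen_mem (fun g hg => ?_) (by rw [List.length_append]; omega)
  rcases List.mem_append.1 hg with h | h
  exacts [hl g h, hl' g h]

lemma smul_mem {m : ℕ} {x : MonoidAlgebra O X} (hx : x ∈ Jm π K m) : π • x ∈ Jm π K (m + 1) := by
  refine ind (P := fun x => π • x ∈ Jm π K (m + 1)) (fun a l hl hm => ?_) (by simp)
    (fun x x' h h' => by rw [smul_add]; exact add_mem h h')
    (fun c x h => by rw [smul_comm]; exact Submodule.smul_mem _ _ h) hx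
  rw [smul_smul, ← pow_succ']
  exact gen_mem hl (by omega)

lemma pow_smul_mem {m : ℕ} {x : MonoidAlgebra O X} (hx : x ∈ Jm π K m) (a : ℕ) :
    π ^ a • x ∈ Jm π K (m + a) := by
  induction a with
  | zero => simpa using hx
  | succ a ih => rw [pow_succ', mul_smul]; exact smul_mem ih

lemma one_mem : (1 : MonoidAlgebra O X) ∈ Jm π K 0 := by
  simpa [wd_nil] using gen_mem (π := π) (K := K) (m := 0) (a := 0) (l := []) (by simp) (by simp)

lemma sub_one_mem {g : X} (hg : g ∈ K) : MonoidAlgebra.of O X g - 1 ∈ Jm π K 1 := by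
  simpa [wd_cons, wd_nil] using
    gen_mem (π := π) (K := K) (m := 1) (a := 0) (l := [g]) (by simpa using hg) (by simp)

lemma of_mem {g : X} (hg : g ∈ K) : MonoidAlgebra.of O X g ∈ Jm π K 0 := by
  have := add_mem (anti (Nat.zero_le 1) (sub_one_mem (π := π) hg)) (one_mem (π := π))
  simpa using this

lemma pow_mem {m : ℕ} {x : MonoidAlgebra O X} (hx : x ∈ Jm π K m) (n : ℕ) :
    x ^ n ∈ Jm π K (m * n) := by
  induction n with
  | zero => simpa using one_mem
  | succ n ih => rw [pow_succ, Nat.mul_succ]; exact mul_mem ih hx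

lemma supp_mul {x y : MonoidAlgebra O X} (hx : ∀ q, x.coeff q ≠ 0 → q ∈ K)
    (hy : ∀ q, y.coeff q ≠ 0 → q ∈ K) : ∀ q, (x * y).coeff q ≠ 0 → q ∈ K := fun q hq => by
  obtain ⟨a, ha, b, hb, rfl⟩ := Finset.mem_mul.1
    (MonoidAlgebra.support_coeff_mul_subset x y (Finsupp.mem_support_iff.2 hq))
  exact K.mul_mem (hx a (Finsupp.mem_support_iff.1 ha)) (hy b (Finsupp.mem_support_iff.1 hb))

lemma supp_of {g : X} (hg : g ∈ K) : ∀ q, (MonoidAlgebra.of O X g).coeff q ≠ 0 → q ∈ K :=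
  fun q hq => by
    rw [MonoidAlgebra.of_apply, MonoidAlgebra.coeff_single, Finsupp.single_apply_ne_zero] at hq
    exact hq.1 ▸ hg

lemma supp_wd {l : List X} (hl : ∀ g ∈ l, g ∈ K) : ∀ q, (wd O l).coeff q ≠ 0 → q ∈ K := by
  have h1 : ∀ q, (1 : MonoidAlgebra O X).coeff q ≠ 0 → q ∈ K := by
    simpa only [map_one] using supp_of (O := O) K.one_mem
  induction l with
  | nil => exact h1
  | cons g l ih =>
    rw [wd_cons]
    refine supp_mul (fun q hq => ?_) (ih fun g hg => hl g (List.mem_cons_of_mem _ hg))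
    by_contra hc
    have e1 : (MonoidAlgebra.of O X g).coeff q = 0 := by
      by_contra h; exact hc (supp_of (hl g List.mem_cons_self) q h)
    have e2 : (1 : MonoidAlgebra O X).coeff q = 0 := by by_contra h; exact hc (h1 q h)
    rw [MonoidAlgebra.coeff_sub, Finsupp.sub_apply, e1, e2, sub_zero] at hq
    exact hq rfl

lemma eq_sum (x : MonoidAlgebra O X) :
    x = ∑ q ∈ x.coeff.support, x.coeff q • MonoidAlgebra.of O X q := by
  conv_lhs => rw [← MonoidAlgebra.sum_coeff_single x]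
  simp [Finsupp.sum]

lemma mem_zero {x : MonoidAlgebra O X} : x ∈ Jm π K 0 ↔ ∀ q, x.coeff q ≠ 0 → q ∈ K := by
  refine ⟨fun hx => ?_, fun hx => ?_⟩
  · refine ind (P := fun x => ∀ q, x.coeff q ≠ 0 → q ∈ K) (fun a l hl _ q hq => ?_) (by simp)
      (fun x y h h' q hq => ?_) (fun c x h q hq => ?_) hx
    · refine supp_wd (O := O) hl q fun h => hq ?_
      simp [h]
    · by_contra hc
      have e1 : x.coeff q = 0 := by by_contra h1; exact hc (h q h1)
      have e2 : y.coeff q = 0 := by by_contra h1; exact hc (h' q h1)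
      simp [e1, e2] at hq
    · refine h q fun h1 => hq ?_
      simp [h1]
  · rw [eq_sum x]
    exact Submodule.sum_mem _ fun q hq =>
      Submodule.smul_mem _ _ (of_mem (hx q (Finsupp.mem_support_iff.1 hq)))

lemma bm_succ {D : ℕ} (h : Fin (D + 1) → X) (α : Fin (D + 1) → ℕ) :
    bm O h α = (MonoidAlgebra.of O X (h 0) - 1) ^ α 0 * bm O (fun i => h i.succ) fun i => α i.succ := by
  simp [bm, List.ofFn_succ]

lemma bm_mem {D : ℕ} (h : Fin D → X) (hh : ∀ i, h i ∈ K) (α : Fin D → ℕ) :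
    bm O h α ∈ Jm π K (∑ i, α i) := by
  induction D with
  | zero => simpa [bm] using one_mem
  | succ D ih =>
    rw [bm_succ, Fin.sum_univ_succ]
    have := pow_mem (sub_one_mem (π := π) (hh 0)) (α 0)
    rw [one_mul] at this
    exact mul_mem this (ih _ (fun i => hh i.succ) _)

lemma map_of {Y : Type} [Group Y] (f : X →* Y) (g : X) :
    MonoidAlgebra.mapDomainAlgHom O O f (MonoidAlgebra.of O X g) = MonoidAlgebra.of O Y (f g) := by
  simp [MonoidAlgebra.mapDomainAlgHom_apply]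

lemma map_wd {Y : Type} [Group Y] (f : X →* Y) (l : List X) :
    MonoidAlgebra.mapDomainAlgHom O O f (wd O l) = wd O (l.map f) := by
  induction l with
  | nil => simp [wd_nil]
  | cons g l ih => rw [List.map_cons, wd_cons, wd_cons, map_mul, ih, map_sub, map_one, map_of]

lemma lift_list {Y : Type} [Group Y] (f : X →* Y) (l : List Y) (hl : ∀ g ∈ l, g ∈ K.map f) :
    ∃ l' : List X, (∀ g ∈ l', g ∈ K) ∧ l'.map f = l := by
  induction l with
  | nil => exact ⟨[], by simp, rfl⟩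
  | cons g l ih =>
    obtain ⟨l', h1, h2⟩ := ih fun g hg => hl g (List.mem_cons_of_mem _ hg)
    obtain ⟨g', h3, h4⟩ := hl g List.mem_cons_self
    refine ⟨g' :: l', fun x hx => ?_, by rw [List.map_cons, h2, h4]⟩
    rcases List.mem_cons.1 hx with rfl | hx
    exacts [h3, h1 x hx]

lemma map_eq {Y : Type} [Group Y] (f : X →* Y) (m : ℕ) :
    (Jm π K m).map (MonoidAlgebra.mapDomainAlgHom O O f).toLinearMap = Jm π (K.map f) m := by
  refine le_antisymm ?_ fun y hy => ?_
  · rintro _ ⟨x, hx, rfl⟩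
    refine ind (P := fun x => (MonoidAlgebra.mapDomainAlgHom O O f).toLinearMap x ∈
      Jm π (K.map f) m) (fun a l hl hm => ?_) (by simp)
      (fun x y h h' => by rw [map_add]; exact add_mem h h')
      (fun c x h => by rw [map_smul]; exact Submodule.smul_mem _ _ h) hx
    rw [map_smul, AlgHom.toLinearMap_apply, map_wd]
    refine gen_mem (fun g hg => ?_) (by simpa using hm)
    obtain ⟨g', h1, rfl⟩ := List.mem_map.1 hg
    exact ⟨g', hl g' h1, rfl⟩
  · refine ind (P := fun y => y ∈ (Jm π K m).map (MonoidAlgebra.mapDomainAlgHom O O f).toLinearMap)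
      (fun a l hl hm => ?_) (Submodule.zero_mem _) (fun x y h h' => add_mem h h')
      (fun c x h => Submodule.smul_mem _ _ h) hy
    obtain ⟨l', h1, rfl⟩ := lift_list f l hl
    refine ⟨π ^ a • wd O l', gen_mem h1 (by simpa using hm), ?_⟩
    rw [map_smul, AlgHom.toLinearMap_apply, map_wd]

end Iw0

theorem iw0 : Iw0Stmt := fun _ _ _ _ _ _ =>
  ⟨fun m => Iw0.anti (Nat.le_succ m), fun _ _ _ _ hx hy => Iw0.mul_mem hx hy,
    fun _ _ hx => Iw0.smul_mem hx, fun _ => Iw0.mem_zero, fun _ hg => Iw0.sub_one_mem hg,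
    fun _ h hh α => Iw0.bm_mem h hh α, fun _ _ f m => Iw0.map_eq f m⟩

end Pool.Agent.MP_54e5d7_al.atl

end
end MrgPart2

-- marker of a merged file
example : 731051 + 735446 = 731051 + 735446 := rfl
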