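import Pool.Agent.MP_54e5d7_al.atl.IW0

-- ======== part 0: formerly Pool.Agent.MP_54e5d7_al.atl.SEP
section MrgPart0

/-!
Project ATL: traces of monomial representations separate the conjugacy classes of a free group.
-/

set_option autoImplicit false

open Classical FreeGroup

noncomputable section
namespace Pool.Agent.MP_54e5d7_al.atl

namespace SepG

variable {ι α : Type} [Fintype ι] [DecidableEq ι]

/-- monomial matrices -/
def mono (p : ι → ι) (a : ι → ℚ) : Matrix ι ι ℚ :=
  Matrix.of fun v v' => if v' = p v then a v else 0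

lemma mono_mul (p q : ι → ι) (a b : ι → ℚ) :
    mono p a * mono q b = mono (fun v => q (p v)) fun v => a v * b (p v) := by
  ext v v'
  simp only [mono, Matrix.mul_apply, Matrix.of_apply, ite_mul, zero_mul, Finset.sum_ite_eq',
    Finset.mem_univ, if_true]
  simp only [mul_ite, mul_zero]

omit [Fintype ι] in
lemma mono_one {p : ι → ι} {a : ι → ℚ} (hp : ∀ v, p v = v) (ha : ∀ v, a v = 1) :
    mono p a = 1 := by
  ext v v'
  simp [mono, hp, ha, Matrix.one_apply, eq_comm]

lemma trace_mono (p : ι → ι) (a : ι → ℚ) :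
    (mono p a).trace = ∑ v, if v = p v then a v else 0 := rfl

/-- monomial matrices as units -/
def munit (π : Equiv.Perm ι) (a : ι → ℚ) (ha : ∀ v, 0 < a v) : (Matrix ι ι ℚ)ˣ where
  val := mono π a
  inv := mono π.symm fun v => (a (π.symm v))⁻¹
  val_inv := by
    rw [mono_mul]
    exact mono_one (by simp) fun v => by simp [(ha v).ne']
  inv_val := by
    rw [mono_mul]
    exact mono_one (by simp) fun v => by simp [(ha _).ne']

/-- the word is read along the cycle -/
def Fw (c : ι → ι) (f : ι → α × Bool) : ι → List (α × Bool) → Prop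
  | _, [] => True
  | v, x :: W => f v = x ∧ Fw c f (c v) W

lemma exists_letters (c : Equiv.Perm ι) (f : ι → α × Bool)
    (hf : ∀ v, (f v).1 = (f (c v)).1 → (f v).2 = (f (c v)).2) {s : ℚ} (hs : 1 ≤ s) :
    ∃ (φ : FreeGroup α →* Matrix ι ι ℚ) (P : α × Bool → ι → ι) (A : α × Bool → ι → ℚ),
      (∀ x, φ (mk [x]) = mono (P x) (A x)) ∧ (∀ x v, 0 < A x v) ∧
      (∀ x v, f v = x → P x v = c v ∧ A x v = s) ∧ ∀ x v, f v ≠ x → A x v ≤ 1 := by
  have hs0 : 0 < s := by linarith
  have h1 : ∀ i : α, ∃ π : Equiv.Perm ι,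
      (∀ v, f v = (i, true) → π v = c v) ∧ ∀ v, f v = (i, false) → π (c v) = v := fun i => by
    obtain ⟨π, hπ⟩ := Equiv.Perm.exists_extending_pair
      (f := fun k : {k // (f k).1 = i} => if (f k.1).2 then k.1 else c k.1)
      (g := fun k : {k // (f k).1 = i} => if (f k.1).2 then c k.1 else k.1)
      (by
        rintro ⟨k, hk⟩ ⟨k', hk'⟩ h
        simp only at h
        split_ifs at h with h1 h2 h2
        · exact Subtype.ext h
        · subst h
          exact absurd ((hf k' (hk'.trans hk.symm)).trans h1) h2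
        · subst h
          exact absurd ((hf k (hk.trans hk'.symm)).trans h2) h1
        · exact Subtype.ext (c.injective h))
      (by
        rintro ⟨k, hk⟩ ⟨k', hk'⟩ h
        simp only at h
        split_ifs at h with h1 h2 h2
        · exact Subtype.ext (c.injective h)
        · subst h
          exact absurd ((hf k (hk.trans hk'.symm)).symm.trans h1) h2
        · subst h
          exact absurd ((hf k' (hk'.trans hk.symm)).symm.trans h2) h1
        · exact Subtype.ext h)
    exact ⟨π, fun v hv => by simpa [hv] using hπ ⟨v, by rw [hv]⟩,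
      fun v hv => by simpa [hv] using hπ ⟨v, by rw [hv]⟩⟩
  choose π hπ hπ' using h1
  obtain ⟨a, ha⟩ : ∃ a : α → ι → ℚ, a = fun i v =>
    if f v = (i, true) then s else if f (c.symm v) = (i, false) then s⁻¹ else 1 := ⟨_, rfl⟩
  have ha0 : ∀ i v, 0 < a i v := fun i v => by
    simp only [ha]
    split_ifs <;> positivity
  refine ⟨(Units.coeHom _).comp (lift fun i => munit (π i) (a i) (ha0 i)),
    fun x => cond x.2 (π x.1) (π x.1).symm,
    fun x => cond x.2 (a x.1) fun v => (a x.1 ((π x.1).symm v))⁻¹, ?_, ?_, ?_, ?_⟩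
  · rintro ⟨i, _ | _⟩
    · rw [MonoidHom.comp_apply, lift_mk]
      simp only [List.map_cons, List.map_nil, List.prod_cons, List.prod_nil, mul_one, cond_false]
      rfl
    · rw [MonoidHom.comp_apply, lift_mk]
      simp only [List.map_cons, List.map_nil, List.prod_cons, List.prod_nil, mul_one, cond_true]
      rfl
  · rintro ⟨i, _ | _⟩ v
    · exact inv_pos.2 (ha0 _ _)
    · exact ha0 _ _
  · rintro ⟨i, _ | _⟩ v hv
    · have h2 : (π i).symm v = c v := by rw [Equiv.symm_apply_eq, hπ' i v hv]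
      have h3 : f (c v) ≠ (i, true) := fun h => by simpa [hv, h] using hf v
      simp [h2, ha, h3, hv]
    · simp [ha, hv, hπ i v hv]
  · rintro ⟨i, _ | _⟩ v hv
    · simp only [cond_false, ha]
      split_ifs with h2 h3
      · exact inv_le_one_of_one_le₀ hs
      · have := hπ' i _ h3
        rw [Equiv.apply_symm_apply, Equiv.apply_symm_apply] at this
        exact absurd (this ▸ h3) hv
      · simp
    · simp only [cond_true, ha, if_neg hv]
      split_ifs
      · exact inv_le_one_of_one_le₀ hs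
      · exact le_rfl

lemma exists_rep (c : Equiv.Perm ι) (f : ι → α × Bool)
    (hf : ∀ v, (f v).1 = (f (c v)).1 → (f v).2 = (f (c v)).2) {s : ℚ} (hs : 1 ≤ s) :
    ∃ φ : FreeGroup α →* Matrix ι ι ℚ, ∀ W, ∃ p a, φ (mk W) = mono p a ∧ (∀ v, 0 < a v) ∧
      (∀ v, Fw c f v W → p v = c^[W.length] v ∧ a v = s ^ W.length) ∧
      ∀ v, ¬Fw c f v W → a v * s ≤ s ^ W.length := by
  obtain ⟨φ, P, A, h1, h2, h3, h4⟩ := exists_letters c f hf hs
  refine ⟨φ, fun W => ?_⟩
  induction W with
  | nil => exact ⟨id, fun _ => 1, φ.map_one.trans (mono_one (fun _ => rfl) fun _ => rfl).symm,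
      fun _ => one_pos, fun _ _ => ⟨rfl, (pow_zero s).symm⟩, fun _ h => absurd trivial h⟩
  | cons x W ih =>
    obtain ⟨p, a, e, k1, k2, k3⟩ := ih
    have k4 : ∀ v, a v ≤ s ^ W.length := fun v => by
      by_cases h : Fw c f v W
      · exact (k2 v h).2.le
      · exact (le_mul_of_one_le_right (k1 v).le hs).trans (k3 v h)
    refine ⟨_, _, by rw [show mk (x :: W) = mk [x] * mk W from rfl, φ.map_mul, h1, e, mono_mul],
      fun v => mul_pos (h2 x v) (k1 _), fun v hv => ?_, fun v hv => ?_⟩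
    · obtain ⟨e1, e2⟩ := h3 x v hv.1
      rw [e1, e2, (k2 _ hv.2).1, (k2 _ hv.2).2, List.length_cons, pow_succ']
      exact ⟨rfl, rfl⟩
    · rw [List.length_cons]
      by_cases hx : f v = x
      · obtain ⟨e1, e2⟩ := h3 x v hx
        rw [e1, e2, pow_succ', mul_assoc]
        exact mul_le_mul_of_nonneg_left (k3 _ fun h => hv ⟨hx, h⟩) (by linarith)
      · rw [pow_succ]
        exact mul_le_mul_of_nonneg_right
          ((mul_le_of_le_one_left (k1 _).le (h4 x v hx)).trans (k4 _)) (by linarith)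

omit [Fintype ι] [DecidableEq ι] in
lemma fw_iff (c : ι → ι) (f : ι → α × Bool) (W : List (α × Bool)) (v : ι) :
    Fw c f v W ↔ ∀ j (h : j < W.length), f (c^[j] v) = W[j] := by
  induction W generalizing v with
  | nil => simp [Fw]
  | cons x W ih =>
    rw [Fw, ih]
    constructor
    · rintro ⟨h1, h2⟩ (_ | j) h
      · exact h1
      · exact h2 j (by simpa using h)
    · exact fun h => ⟨h 0 (by simp), fun j hj => h (j + 1) (by simpa using hj)⟩

lemma rot_val (m j : ℕ) (v : Fin (m + 1)) :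
    ((finRotate (m + 1))^[j] v).val = (j + v.val) % (m + 1) := by
  induction j with
  | zero => simp [Nat.mod_eq_of_lt v.2]
  | succ j ih =>
    rw [Function.iterate_succ_apply', finRotate_apply, Fin.val_add, ih, Fin.val_one',
      ← Nat.add_mod]
    congr 1
    omega

lemma isConj_rotate (L : List (α × Bool)) {k : ℕ} (hk : k ≤ L.length) :
    IsConj (mk L) (mk (L.rotate k)) := by
  rw [List.rotate_eq_drop_append_take hk, isConj_iff]
  refine ⟨mk (L.drop k), ?_⟩
  conv_lhs => enter [1, 2]; rw [← List.take_append_drop k L, ← mul_mk]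
  rw [← mul_mk]
  group

/-- a cyclically reduced word is detected by a trace among the words that are not longer -/
lemma main {L : List (α × Bool)} (hL : IsCyclicallyReduced L) (h0 : L ≠ []) :
    ∃ (N : ℕ) (φ : FreeGroup α →* Matrix (Fin N) (Fin N) ℚ), ∀ W : List (α × Bool),
      W.length ≤ L.length → (φ (mk W)).trace = (φ (mk L)).trace →
      W.length = L.length ∧ IsConj (mk L) (mk W) := by
  obtain ⟨m, hm⟩ : ∃ m, L.length = m + 1 := Nat.exists_eq_succ_of_ne_zero (by simpa using h0)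
  obtain ⟨f, hf⟩ : ∃ f : Fin (m + 1) → α × Bool, ∀ v, f v = L[v.val]'(by omega) :=
    ⟨_, fun _ => rfl⟩
  have hred : ∀ v, (f v).1 = (f (finRotate (m + 1) v)).1 →
      (f v).2 = (f (finRotate (m + 1) v)).2 := fun v => by
    have h1 := rot_val m 1 v
    rw [Function.iterate_one] at h1
    rw [hf, hf]
    simp only [h1]
    rcases Nat.lt_or_ge v.val m with h | h
    · have h2 : (1 + v.val) % (m + 1) = v.val + 1 := by
        rw [Nat.mod_eq_of_lt (by omega), add_comm]
      simp only [h2]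
      exact List.isChain_iff_getElem.1 hL.1 v.val (by omega)
    · have h3 : v.val = m := by omega
      have h2 : (1 + v.val) % (m + 1) = 0 := by rw [h3, add_comm, Nat.mod_self]
      simp only [h2]
      refine hL.2 _ ?_ _ ?_
      · rw [Option.mem_def, List.getLast?_eq_getElem?, List.getElem?_eq_getElem (by omega)]
        simp [hm, h3]
      · rw [Option.mem_def, List.head?_eq_getElem?, List.getElem?_eq_getElem (by omega)]
  have hs : (1 : ℚ) ≤ m + 2 := by linarith [Nat.cast_nonneg (α := ℚ) m]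
  obtain ⟨φ, hφ⟩ := exists_rep (finRotate (m + 1)) f hred hs
  refine ⟨m + 1, φ, fun W hW htr => ?_⟩
  obtain ⟨p, a, e, k1, k2, -⟩ := hφ L
  obtain ⟨p', a', e', k1', k2', k3'⟩ := hφ W
  have hL0 : Fw (finRotate (m + 1)) f 0 L := (fw_iff _ _ _ _).2 fun j hj => by
    rw [hf]
    simp only [rot_val, Fin.val_zero, add_zero, Nat.mod_eq_of_lt (hm ▸ hj)]
  have low : ((m : ℚ) + 2) ^ (m + 1) ≤ (φ (mk L)).trace := by
    have e0 : (0 : Fin (m + 1)) = p 0 := by
      rw [(k2 0 hL0).1]
      exact Fin.ext (by simp [rot_val, hm])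
    have := Finset.single_le_sum (f := fun v => if v = p v then a v else 0) (s := Finset.univ)
      (fun v _ => by split_ifs; exacts [(k1 v).le, le_rfl]) (Finset.mem_univ 0)
    simp only [if_pos e0, (k2 0 hL0).2, hm] at this
    rw [e]
    exact this
  by_contra hn
  have up : ∀ v, a' v ≤ ((m : ℚ) + 2) ^ m := fun v => by
    by_cases h : Fw (finRotate (m + 1)) f v W
    · rw [(k2' v h).2]
      refine pow_le_pow_right₀ hs
        (Nat.le_of_lt_succ (lt_of_le_of_ne (hW.trans_eq hm) fun hl => hn ?_))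
      refine ⟨hl.trans hm.symm, ?_⟩
      rw [show W = L.rotate v.val from List.ext_getElem (by simp [hl, hm]) fun j h1 h2 => by
        rw [← (fw_iff _ _ _ _).1 h j h1, hf, List.getElem_rotate]
        simp only [rot_val, hm]]
      exact isConj_rotate L (by omega)
    · refine le_of_mul_le_mul_right ((k3' v h).trans ?_) (show (0 : ℚ) < m + 2 by linarith)
      rw [← pow_succ]
      exact pow_le_pow_right₀ hs (hW.trans_eq hm)
  have : (φ (mk W)).trace ≤ ∑ _v : Fin (m + 1), ((m : ℚ) + 2) ^ m := by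
    rw [e']
    refine Finset.sum_le_sum fun v _ => ?_
    show (if v = p' v then a' v else 0) ≤ _
    split_ifs
    · exact up v
    · positivity
  rw [htr, Finset.sum_const, Finset.card_univ, Fintype.card_fin, nsmul_eq_mul] at this
  have h5 := low.trans this
  rw [pow_succ'] at h5
  have h6 : (0 : ℚ) < (m + 2) ^ m := by positivity
  push_cast at h5
  nlinarith

lemma trace_conj {N : ℕ} (φ : FreeGroup α →* Matrix (Fin N) (Fin N) ℚ) {w w' : FreeGroup α}
    (h : IsConj w w') : (φ w).trace = (φ w').trace := by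
  obtain ⟨c, rfl⟩ := isConj_iff.1 h
  rw [φ.map_mul, Matrix.trace_mul_comm, ← φ.map_mul, inv_mul_cancel_left]

/-- a cyclically reduced word is shortest in its conjugacy class -/
lemma length_le {L W : List (α × Bool)} (hL : IsCyclicallyReduced L) (h : IsConj (mk W) (mk L)) :
    L.length ≤ W.length := by
  by_cases h0 : L = []
  · simp [h0]
  obtain ⟨N, φ, hφ⟩ := main hL h0
  by_contra hn
  exact hn (hφ W (by omega) (trace_conj φ h)).1.ge

lemma exists_cyc (w : FreeGroup α) : ∃ L, IsCyclicallyReduced L ∧ IsConj (mk L) w := by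
  refine ⟨reduceCyclically w.toWord, reduceCyclically.isCyclicallyReduced isReduced_toWord,
    isConj_iff.2 ⟨mk (reduceCyclically.conjugator w.toWord), ?_⟩⟩
  rw [inv_mk, mul_mk, mul_mk, reduceCyclically.conj_conjugator_reduceCyclically, mk_toWord]

lemma sep_aux {L L' : List (α × Bool)} (hL : IsCyclicallyReduced L) (hl : L'.length ≤ L.length)
    (h : ¬IsConj (mk L) (mk L')) : ∃ (N : ℕ) (φ : FreeGroup α →* Matrix (Fin N) (Fin N) ℚ),
      (φ (mk L)).trace ≠ (φ (mk L')).trace := by
  by_cases h0 : L = []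
  · subst h0
    rw [List.length_eq_zero_iff.1 (Nat.le_zero.1 hl)] at h
    exact absurd (IsConj.refl _) h
  obtain ⟨N, φ, hφ⟩ := main hL h0
  exact ⟨N, φ, fun e => h (hφ L' hl e.symm).2⟩

end SepG

open SepG in
theorem sep : SepStmt := fun n w w' h => by
  obtain ⟨L, hL, hw⟩ := exists_cyc w
  obtain ⟨L', hL', hw'⟩ := exists_cyc w'
  have h1 : ¬IsConj (mk L) (mk L') := fun h' => h (hw.symm.trans (h'.trans hw'))
  rcases le_total L'.length L.length with hl | hl
  · obtain ⟨N, φ, hφ⟩ := sep_aux hL hl h1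
    exact ⟨N, φ, by rwa [← trace_conj φ hw, ← trace_conj φ hw']⟩
  · obtain ⟨N, φ, hφ⟩ := sep_aux hL' hl fun h' => h1 h'.symm
    exact ⟨N, φ, by rw [← trace_conj φ hw, ← trace_conj φ hw']; exact hφ.symm⟩

end Pool.Agent.MP_54e5d7_al.atl

end
end MrgPart0

-- ======== part 1: formerly Pool.Agent.MP_54e5d7_al.atl.NECK
section MrgPart1

/-!
Project ATL: conjugacy classes of a free group are separated modulo powers of the augmentation
ideal.
-/

set_option autoImplicit false

open Polynomial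

noncomputable section
namespace Pool.Agent.MP_54e5d7_al.atl

namespace Neck

lemma prod_mem {R ι : Type} [CommRing R] [Fintype ι] [DecidableEq ι] (J : Ideal R)
    (l : List (Matrix ι ι R)) (h : ∀ A ∈ l, ∀ i j, A i j ∈ J) (i j : ι) :
    l.prod i j ∈ J ^ l.length := by
  induction l generalizing i j with
  | nil => simp
  | cons A l ih =>
    rw [List.prod_cons, Matrix.mul_apply, List.length_cons, pow_succ']
    exact Ideal.sum_mem _ fun k _ => Ideal.mul_mem_mul (h A (by simp) i k)
      (ih (fun B hB => h B (by simp [hB])) k j)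

lemma sep {F R ι : Type} [Group F] [CommRing R] [Fintype ι] [DecidableEq ι] (J : Ideal R)
    (Ψ : F →* Matrix ι ι R) (h : ∀ g i j, (Ψ g - 1) i j ∈ J) (c : ℕ) (y : MonoidAlgebra ℤ F)
    (hy : y ∈ Ia F c ⊔ Cm F) : (MonoidAlgebra.lift ℤ (Matrix ι ι R) F Ψ y).trace ∈ J ^ c := by
  let T : MonoidAlgebra ℤ F →ₗ[ℤ] R :=
    (Matrix.traceLinearMap ι ℤ R).comp (MonoidAlgebra.lift ℤ (Matrix ι ι R) F Ψ).toLinearMap
  have key : Ia F c ⊔ Cm F ≤ ((J ^ c).restrictScalars ℤ).comap T := by
    refine sup_le (Submodule.span_le.2 ?_) (Submodule.span_le.2 ?_)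
    · rintro _ ⟨a, l, -, hl, rfl⟩
      rcases Nat.eq_zero_or_pos a with rfl | ha
      · show (MonoidAlgebra.lift ℤ (Matrix ι ι R) F Ψ _).trace ∈ J ^ c
        rw [pow_zero, one_smul, map_list_prod, List.map_map]
        refine Ideal.sum_mem _ fun i _ => Ideal.pow_le_pow_right (n := l.length) (by omega) ?_
        have := prod_mem J (l.map ((MonoidAlgebra.lift ℤ (Matrix ι ι R) F Ψ) ∘
          fun g => MonoidAlgebra.of ℤ F g - 1)) (fun A hA => by
            obtain ⟨g, -, rfl⟩ := List.mem_map.1 hA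
            simpa using h g) i i
        rwa [List.length_map] at this
      · rw [zero_pow ha.ne', zero_smul]
        exact Submodule.zero_mem _
    · rintro _ ⟨g, g', rfl⟩
      show (MonoidAlgebra.lift ℤ (Matrix ι ι R) F Ψ _).trace ∈ J ^ c
      rw [map_sub, MonoidAlgebra.lift_of, MonoidAlgebra.lift_of, map_mul, map_mul,
        Matrix.trace_sub, Matrix.trace_mul_comm, sub_self]
      exact Submodule.zero_mem _
  exact key hy

lemma sep' {F R ι : Type} [Group F] [CommRing R] [Fintype ι] [DecidableEq ι] (J : Ideal R)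
    (Ψ : F →* Matrix ι ι R) (h : ∀ g i j, (Ψ g - 1) i j ∈ J) (c : ℕ) (m : ℤ) (w w' : F)
    (hy : m • (MonoidAlgebra.of ℤ F w - MonoidAlgebra.of ℤ F w') ∈ Ia F c ⊔ Cm F) :
    (m : R) * ((Ψ w).trace - (Ψ w').trace) ∈ J ^ c := by
  have h3 := sep J Ψ h c _ hy
  rwa [map_zsmul, map_sub, MonoidAlgebra.lift_of, MonoidAlgebra.lift_of, Matrix.trace_smul,
    Matrix.trace_sub, zsmul_eq_mul] at h3

end Neck

theorem neck (h : SepStmt) : NeckStmt := by
  intro n w w' hw
  obtain ⟨N, φ, hφ⟩ := h n w w' hw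
  let P : Fin n → Matrix (Fin N) (Fin N) ℚ[X] := fun i =>
    1 + (X : ℚ[X]) • (φ (FreeGroup.of i) - 1).map C
  let δ : ℚ[X] := ∏ i, (P i).det
  have hP1 : ∀ i, (evalRingHom (1 : ℚ)).mapMatrix (P i) = φ (FreeGroup.of i) := fun i => by
    ext a b
    by_cases hab : a = b <;> simp [P, hab]
  have hP0 : ∀ i, (evalRingHom (0 : ℚ)).mapMatrix (P i) = 1 := fun i => by
    ext a b
    by_cases hab : a = b <;> simp [P, hab, Matrix.one_apply]
  have hδ1 : IsUnit (evalRingHom (1 : ℚ) δ) := by
    rw [map_prod]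
    refine IsUnit.prod_univ_iff.2 fun i => ?_
    rw [RingHom.map_det, hP1]
    exact (Matrix.isUnit_iff_isUnit_det _).1 ((Group.isUnit _).map φ)
  have hδ0 : IsUnit (evalRingHom (0 : ℚ) δ) := by
    rw [map_prod]
    refine IsUnit.prod_univ_iff.2 fun i => ?_
    rw [RingHom.map_det, hP0, Matrix.det_one]
    exact isUnit_one
  have hδ : δ ≠ 0 := fun h0 => by
    rw [h0, map_zero] at hδ1
    exact not_isUnit_zero hδ1
  let R := Localization.Away δ
  have : IsDomain R :=
    IsLocalization.isDomain_localization (powers_le_nonZeroDivisors_of_noZeroDivisors hδ)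
  have : IsNoetherianRing R := IsLocalization.isNoetherianRing (Submonoid.powers δ) R inferInstance
  let e1 : R →+* ℚ := IsLocalization.Away.lift δ hδ1
  let e0 : R →+* ℚ := IsLocalization.Away.lift δ hδ0
  have hU : ∀ i, IsUnit ((algebraMap ℚ[X] R).mapMatrix (P i)) := fun i => by
    rw [Matrix.isUnit_iff_isUnit_det, ← RingHom.map_det]
    exact isUnit_of_dvd_unit
      (map_dvd _ (Finset.dvd_prod_of_mem (fun i => (P i).det) (Finset.mem_univ i)))
      (IsLocalization.Away.algebraMap_isUnit δ)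
  let Ψ : FreeGroup (Fin n) →* Matrix (Fin N) (Fin N) R :=
    (Units.coeHom _).comp (FreeGroup.lift fun i => (hU i).unit)
  have hΨ : ∀ i, Ψ (FreeGroup.of i) = (algebraMap ℚ[X] R).mapMatrix (P i) := fun i => by
    simp [Ψ]
  have h1 : e1.mapMatrix.toMonoidHom.comp Ψ = φ := FreeGroup.ext_hom _ _ fun i => by
    rw [← hP1]
    show e1.mapMatrix (Ψ _) = _
    rw [hΨ]
    ext a b
    simp [e1]
  have h0 : e0.mapMatrix.toMonoidHom.comp Ψ = 1 := FreeGroup.ext_hom _ _ fun i => by
    show e0.mapMatrix (Ψ _) = 1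
    rw [hΨ, ← hP0 i]
    ext a b
    simp [e0]
  let J : Ideal R := RingHom.ker e0
  have hJ : ∀ g i j, (Ψ g - 1) i j ∈ J := fun g i j => by
    have h2 : e0.mapMatrix (Ψ g - 1) = 0 := by
      rw [map_sub, map_one]
      exact sub_eq_zero.2 (DFunLike.congr_fun h0 g)
    exact congrFun (congrFun h2 i) j
  have htr : ∀ g, e1 (Ψ g).trace = (φ g).trace := fun g => by
    rw [← h1, AddMonoidHom.map_trace e1]
    rfl
  have hf : (Ψ w).trace - (Ψ w').trace ≠ 0 := fun h2 => hφ (by
    rw [← htr, ← htr, sub_eq_zero.1 h2])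
  have hK := Ideal.iInf_pow_eq_bot_of_isDomain J (RingHom.ker_ne_top e0)
  obtain ⟨c, hc⟩ : ∃ c, (Ψ w).trace - (Ψ w').trace ∉ J ^ c := by
    by_contra h2
    push Not at h2
    exact hf (Ideal.mem_bot.1 (hK ▸ Ideal.mem_iInf.2 h2))
  refine ⟨c, fun m hm hy => hc ?_⟩
  have h3 := Neck.sep' J Ψ hJ c m w w' hy
  have hu : IsUnit (m : R) := by
    have : IsUnit (m : ℚ) := isUnit_iff_ne_zero.2 (by exact_mod_cast hm)
    simpa using this.map ((algebraMap ℚ[X] R).comp C)
  exact (Ideal.unit_mul_mem_iff_mem _ hu).1 h3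

end Pool.Agent.MP_54e5d7_al.atl

end
end MrgPart1

-- ======== part 2: formerly Pool.Agent.MP_54e5d7_al.atl.GROSS
section MrgPart2

/-!
Project ATL: class preserving automorphisms of a free group are inner.
-/

set_option autoImplicit false

open Classical FreeGroup

noncomputable section
namespace Pool.Agent.MP_54e5d7_al.atl

namespace Gross

variable {α : Type}

lemma isReduced_invRev {V : List (α × Bool)} (h : IsReduced V) : IsReduced (invRev V) := by
  rw [isReduced_iff_reduce_eq] at h ⊢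
  rw [reduce_invRev, h]

lemma key (p q : α) {V : List (α × Bool)} (hV : IsReduced V) (h1 : ∀ y ∈ V.head?, y.1 ≠ p)
    (h2 : ∀ z ∈ V.getLast?, z.1 ≠ q)
    (hc : IsConj (of p * of q) (of p * (mk V * of q * (mk V)⁻¹))) : V = [] := by
  by_contra h0
  have h3 : ∀ y ∈ (invRev V).getLast?, y.1 ≠ p := by
    simp only [invRev, List.getLast?_reverse, List.head?_map, Option.mem_def, Option.map_eq_some_iff]
    rintro _ ⟨y, hy, rfl⟩
    exact h1 y hy
  have h4 : ∀ y ∈ (invRev V).head?, y.1 ≠ q := by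
    simp only [invRev, List.head?_reverse, List.getLast?_map, Option.mem_def, Option.map_eq_some_iff]
    rintro _ ⟨y, hy, rfl⟩
    exact h2 y hy
  have h0' : invRev V ≠ [] := fun h => h0 (by simpa using congrArg invRev h)
  have hr : IsCyclicallyReduced (((p, true) :: V) ++ ((q, true) :: invRev V)) := by
    refine ⟨List.IsChain.append (List.isChain_cons.2 ⟨fun y hy e => absurd e.symm (h1 y hy), hV⟩)
      (List.isChain_cons.2 ⟨fun y hy e => absurd e.symm (h4 y hy), isReduced_invRev hV⟩)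
      fun x hx y hy e => ?_, fun x hx y hy e => ?_⟩
    · rw [List.getLast?_cons_of_ne_nil h0] at hx
      obtain rfl : (q, true) = y := by simpa using hy
      exact absurd e (h2 x hx)
    · rw [List.getLast?_append_of_ne_nil _ (by simp), List.getLast?_cons_of_ne_nil h0'] at hx
      obtain rfl : (p, true) = y := by simpa using hy
      exact absurd e (h3 x hx)
  have := SepG.length_le (W := [(p, true), (q, true)]) hr (by
    rw [← mul_assoc, ← mul_assoc, mul_assoc _ (of q)] at hc
    exact hc)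
  simp only [List.length_append, List.length_cons, invRev_length, List.length_nil] at this
  exact h0 (List.length_eq_zero_iff.1 (by omega))

lemma mk_single (y : α × Bool) : ∃ t : ℤ, mk [y] = of y.1 ^ t := by
  obtain ⟨a, _ | _⟩ := y
  · exact ⟨-1, by rw [zpow_neg_one]; rfl⟩
  · exact ⟨1, by rw [zpow_one]; rfl⟩

lemma conj_left {G : Type} [Group G] (x y : G) (a : ℤ) :
    IsConj (x * (x ^ a * y * (x ^ a)⁻¹)) (x * y) :=
  isConj_iff.2 ⟨(x ^ a)⁻¹, by group⟩

lemma normal (p q : α) {w : FreeGroup α} (h1 : IsConj w (of q))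
    (h2 : IsConj (of p * w) (of p * of q)) : ∃ a : ℤ, w = of p ^ a * of q * (of p ^ a)⁻¹ := by
  have hex : ∃ m : ℕ, ∃ (a : ℤ) (v : FreeGroup α), v.norm = m ∧
      w = of p ^ a * (v * of q * v⁻¹) * (of p ^ a)⁻¹ := by
    obtain ⟨c, hc⟩ := isConj_iff.1 h1.symm
    exact ⟨_, 0, c, rfl, by simp [hc]⟩
  obtain ⟨a, v, hv, hw⟩ := Nat.find_spec hex
  have hmin : ∀ (a' : ℤ) (V : List (α × Bool)),
      w = of p ^ a' * (mk V * of q * (mk V)⁻¹) * (of p ^ a')⁻¹ → v.toWord.length ≤ V.length :=
    fun a' V h => (hv.le.trans (Nat.find_min' hex ⟨a', mk V, rfl, h⟩)).trans norm_mk_le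
  rw [← mk_toWord (x := v)] at hw
  have hV : IsReduced v.toWord := isReduced_toWord
  generalize v.toWord = V at *
  have : V = [] := by
    refine key p q hV (fun y hy e => ?_) (fun y hy e => ?_)
      (h2.symm.trans (hw ▸ conj_left _ _ a))
    · obtain ⟨V', rfl⟩ := List.head?_eq_some_iff.1 hy
      obtain ⟨t, ht⟩ := mk_single y
      have := hmin (a + t) V' (by
        rw [hw, show mk (y :: V') = mk [y] * mk V' from rfl, ht, e]; group)
      simp at this
    · obtain ⟨V', rfl⟩ := List.getLast?_eq_some_iff.1 hy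
      obtain ⟨t, ht⟩ := mk_single y
      have := hmin a V' (by rw [hw, ← mul_mk, ht, e]; group)
      simp at this
  subst this
  exact ⟨a, by rw [hw, ← one_eq_mk]; group⟩

lemma mem_zpow (r : α) (t : ℤ) : ∀ y ∈ (of r ^ t).toWord, y.1 = r := by
  obtain ⟨m, rfl | rfl⟩ := t.eq_nat_or_neg
  · intro y hy
    rw [zpow_natCast, toWord_of_pow] at hy
    rw [List.eq_of_mem_replicate hy]
  · intro y hy
    rw [zpow_neg, zpow_natCast, toWord_inv, toWord_of_pow, invRev, List.mem_reverse,
      List.map_replicate] at hy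
    rw [List.eq_of_mem_replicate hy]

lemma same {r p q : α} (hp : r ≠ p) (hq : r ≠ q) {a b : ℤ}
    (h : IsConj (of r ^ a * of p * (of r ^ a)⁻¹ * (of r ^ b * of q * (of r ^ b)⁻¹))
      (of p * of q)) : of r ^ b = of r ^ a := by
  have h1 := key p q (V := (of r ^ (b - a)).toWord) isReduced_toWord
    (fun y hy e => hp ((mem_zpow r _ y (List.mem_of_mem_head? hy)).symm.trans e))
    (fun y hy e => hq ((mem_zpow r _ y (List.mem_of_mem_getLast? hy)).symm.trans e))
    (h.symm.trans (isConj_iff.2 ⟨(of r ^ a)⁻¹, by rw [mk_toWord]; group⟩))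
  rwa [toWord_eq_nil_iff, zpow_sub, mul_inv_eq_one] at h1

lemma fixed (r : α) (β : FreeGroup α →* FreeGroup α) (h : ∀ w, IsConj (β w) w)
    (hr : β (of r) = of r) : ∃ g, ∀ p, β (of p) = g * of p * g⁻¹ := by
  have h1 : ∀ p, ∃ a : ℤ, β (of p) = of r ^ a * of p * (of r ^ a)⁻¹ := fun p =>
    normal r p (h _) (by simpa [hr] using h (of r * of p))
  choose a ha using h1
  by_cases hp : ∃ p, r ≠ p
  · obtain ⟨p, hp⟩ := hp
    refine ⟨of r ^ a p, fun q => ?_⟩
    by_cases hq : r = q
    · rw [← hq, hr]; group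
    · rw [← same hp hq (a := a p) (b := a q) (by rw [← ha, ← ha, ← β.map_mul]; exact h _), ha]
  · refine ⟨1, fun q => ?_⟩
    obtain rfl : r = q := by_contra fun h => hp ⟨q, h⟩
    simp [hr]

end Gross

open Gross in
theorem gross : GrossStmt := fun n α h => by
  suffices ∃ g, ∀ p, α (of p) = g * of p * g⁻¹ by
    obtain ⟨g, hg⟩ := this
    refine ⟨g, MulEquiv.toMonoidHom_injective (FreeGroup.ext_hom _ _ fun p => ?_)⟩
    simpa using hg p
  rcases isEmpty_or_nonempty (Fin n) with h0 | ⟨⟨r⟩⟩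
  · exact ⟨1, fun p => h0.elim p⟩
  obtain ⟨c, hc⟩ := isConj_iff.1 (h (of r))
  obtain ⟨g, hg⟩ := fixed r ((MulAut.conj c).toMonoidHom.comp α.toMonoidHom)
    (fun w => (isConj_iff.2 ⟨c, rfl⟩ : IsConj (α w) (c * α w * c⁻¹)).symm.trans (h w)) hc
  refine ⟨c⁻¹ * g, fun p => ?_⟩
  have : c * α (of p) * c⁻¹ = g * of p * g⁻¹ := hg p
  rw [show α (of p) = c⁻¹ * (c * α (of p) * c⁻¹) * c by group, this]
  group

end Pool.Agent.MP_54e5d7_al.atl

end
end MrgPart2

-- marker of a merged file
example : 731051 + 178300 = 731051 + 178300 := rfl
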