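import Pool.Agent.MP_54e5d7_al.atl.IW0

/-!
Project ATL: the filtration `Jm` at a finite level of a uniform tower.
-/

set_option autoImplicit false

open Classical

noncomputable section
namespace Pool.Agent.MP_54e5d7_al.atl

namespace Iw1
open Iw0 hiding mul_mem one_mem pow_mem smul_mem

section general
variable {O : Type} [CommRing O] {π : O} {X : Type} [Group X] {K : Subgroup X}

/-- group elements congruent to one -/
def U (π : O) (K : Subgroup X) (m : ℕ) : Submonoid X where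
  carrier := {x | x ∈ K ∧ MonoidAlgebra.of O X x - 1 ∈ Jm π K m}
  one_mem' := ⟨K.one_mem, by rw [map_one, sub_self]; exact Submodule.zero_mem _⟩
  mul_mem' := fun {x y} hx hy => ⟨K.mul_mem hx.1 hy.1, by
    have e : MonoidAlgebra.of O X (x * y) - 1 =
        (MonoidAlgebra.of O X x - 1) * MonoidAlgebra.of O X y + (MonoidAlgebra.of O X y - 1) := by
      rw [map_mul]; noncomm_ring
    rw [e]
    have h1 := Iw0.mul_mem hx.2 (of_mem (π := π) hy.1)
    exact add_mem h1 hy.2⟩

lemma U_pow {p m : ℕ} (hp : π ∣ (p : O)) {x : X} (hx : x ∈ U π K m) : x ^ p ∈ U π K (m + 1) := by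
  refine ⟨K.pow_mem hx.1 p, ?_⟩
  rw [map_pow, ← mul_geom_sum]
  refine Iw0.mul_mem hx.2 ?_
  have e : ∑ i ∈ Finset.range p, MonoidAlgebra.of O X x ^ i =
      ∑ i ∈ Finset.range p, (MonoidAlgebra.of O X (x ^ i) - 1) +
        (p : O) • (1 : MonoidAlgebra O X) := by
    rw [Finset.sum_sub_distrib, Finset.sum_const, Finset.card_range, Nat.cast_smul_eq_nsmul]
    simp only [map_pow, sub_add_cancel]
  rw [e]
  refine add_mem (Submodule.sum_mem _ fun i _ => sub_one_mem (K.pow_mem hx.1 i)) ?_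
  obtain ⟨c, hc⟩ := hp
  rw [hc, mul_comm, mul_smul]
  exact Submodule.smul_mem _ _ (Iw0.smul_mem Iw0.one_mem)

lemma U_pow_pow {p : ℕ} (hp : π ∣ (p : O)) {x : X} (hx : x ∈ K) (i : ℕ) :
    x ^ p ^ i ∈ U π K (i + 1) := by
  induction i with
  | zero => simpa using ⟨hx, sub_one_mem hx⟩
  | succ i ih => rw [pow_succ, pow_mul]; exact U_pow hp ih

variable {D : ℕ} (h : Fin D → X)

/-- words in the elements `h i - 1` -/
def W (O : Type) [CommRing O] (h : Fin D → X) (L : List (Fin D)) : MonoidAlgebra O X :=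
  wd O (L.map h)

lemma W_cons (i : Fin D) (L : List (Fin D)) :
    W O h (i :: L) = (MonoidAlgebra.of O X (h i) - 1) * W O h L := by
  rw [W, List.map_cons, wd_cons, W]

lemma W_append (L L' : List (Fin D)) : W O h (L ++ L') = W O h L * W O h L' := by
  rw [W, List.map_append, wd_append, W, W]

lemma W_mem (hh : ∀ i, h i ∈ K) (L : List (Fin D)) : W O h L ∈ Jm π K L.length := by
  have := gen_mem (π := π) (K := K) (m := L.length) (a := 0) (l := L.map h)
    (fun g hg => by obtain ⟨i, _, rfl⟩ := List.mem_map.1 hg; exact hh i) (by simp)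
  simpa [W] using this

/-- the commutation hypothesis -/
def Cm3 (π : O) (K : Subgroup X) (h : Fin D → X) : Prop :=
  ∀ i l, (MonoidAlgebra.of O X (h i) - 1) * (MonoidAlgebra.of O X (h l) - 1) -
    (MonoidAlgebra.of O X (h l) - 1) * (MonoidAlgebra.of O X (h i) - 1) ∈ Jm π K 3

lemma W_perm (hh : ∀ i, h i ∈ K) (hc : Cm3 π K h) {L L' : List (Fin D)} (hp : L.Perm L') :
    W O h L - W O h L' ∈ Jm π K (L.length + 1) := by
  induction hp with
  | nil => simp
  | cons x _ ih =>
    rw [W_cons, W_cons, ← mul_sub]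
    exact anti (by simp only [List.length_cons]; omega) (Iw0.mul_mem (sub_one_mem (hh x)) ih)
  | swap x y l =>
    rw [W_cons, W_cons, W_cons, W_cons, ← mul_assoc, ← mul_assoc, ← sub_mul]
    exact anti (by simp only [List.length_cons]; omega) (Iw0.mul_mem (hc y x) (W_mem h hh l))
  | trans h1 _ ih1 ih2 =>
    have := add_mem ih1 (h1.length_eq ▸ ih2)
    simpa using this

/-- the sorted word with prescribed multiplicities -/
def word (α : Fin D → ℕ) : List (Fin D) := (List.ofFn fun i => List.replicate (α i) i).flatten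

lemma W_word (α : Fin D → ℕ) : W O h (word α) = bm O h α := by
  simp only [W, wd, word, bm, List.map_flatten, List.prod_flatten, List.map_ofFn]
  congr 2
  funext i
  simp

lemma count_word (α : Fin D → ℕ) (i : Fin D) : (word α).count i = α i := by
  simp only [word, List.count_flatten, List.map_ofFn, List.sum_ofFn, Function.comp_apply,
    List.count_replicate]
  rw [Finset.sum_eq_single i] <;> simp +contextual

lemma length_word (α : Fin D → ℕ) : (word α).length = ∑ i, α i := by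
  simp [word, List.length_flatten, List.map_ofFn, List.sum_ofFn]

lemma bm_mul (hh : ∀ i, h i ∈ K) (hc : Cm3 π K h) (α β : Fin D → ℕ) :
    bm O h α * bm O h β - bm O h (α + β) ∈ Jm π K (∑ i, α i + ∑ i, β i + 1) := by
  rw [← W_word, ← W_word, ← W_word, ← W_append, ← length_word, ← length_word,
    ← List.length_append]
  refine W_perm h hh hc (List.perm_iff_count.2 fun i => ?_)
  simp [count_word]

/-- ordered monomials of degree `n`, modulo higher degree -/
def N (π : O) (K : Subgroup X) (h : Fin D → X) (n : ℕ) : Submodule O (MonoidAlgebra O X) :=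
  Submodule.span O {y | ∃ α : Fin D → ℕ, ∑ i, α i = n ∧ y = bm O h α} ⊔ Jm π K (n + 1)

lemma span_le (hh : ∀ i, h i ∈ K) (n : ℕ) :
    Submodule.span O {y | ∃ α : Fin D → ℕ, ∑ i, α i = n ∧ y = bm O h α} ≤ Jm π K n :=
  Submodule.span_le.2 (by rintro _ ⟨α, rfl, rfl⟩; exact bm_mem h hh α)

lemma N_le (hh : ∀ i, h i ∈ K) (n : ℕ) : N π K h n ≤ Jm π K n :=
  sup_le (span_le h hh n) (anti (Nat.le_succ n))

lemma J_le_N (n : ℕ) : Jm π K (n + 1) ≤ N π K h n := le_sup_right

lemma bm_mem_N (α : Fin D → ℕ) : bm O h α ∈ N π K h (∑ i, α i) :=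
  Submodule.mem_sup_left (Submodule.subset_span ⟨α, rfl, rfl⟩)

lemma N_mul (hh : ∀ i, h i ∈ K) (hc : Cm3 π K h) {a b : ℕ} {x y : MonoidAlgebra O X}
    (hx : x ∈ N π K h a) (hy : y ∈ N π K h b) : x * y ∈ N π K h (a + b) := by
  obtain ⟨x1, h1, x2, h2, rfl⟩ := Submodule.mem_sup.1 hx
  rw [add_mul]
  have e1 : x2 * y ∈ Jm π K (a + b + 1) := by
    have := Iw0.mul_mem h2 (N_le h hh b hy)
    rwa [add_right_comm] at this
  refine add_mem ?_ (J_le_N h _ e1)
  obtain ⟨y1, h3, y2, h4, rfl⟩ := Submodule.mem_sup.1 hy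
  rw [mul_add]
  have e2 : x1 * y2 ∈ Jm π K (a + b + 1) := by
    have := Iw0.mul_mem (span_le (π := π) h hh a h1) h4
    rwa [← add_assoc] at this
  refine add_mem ?_ (J_le_N h _ e2)
  clear hx hy e1 e2
  induction h1 using Submodule.span_induction with
  | zero => simp
  | add x x' _ _ e e' => rw [add_mul]; exact add_mem e e'
  | smul c x _ e => rw [smul_mul_assoc]; exact Submodule.smul_mem _ _ e
  | mem x hx =>
    obtain ⟨α, rfl, rfl⟩ := hx
    induction h3 using Submodule.span_induction with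
    | zero => simp
    | add y y' _ _ e e' => rw [mul_add]; exact add_mem e e'
    | smul c y _ e => rw [mul_smul_comm]; exact Submodule.smul_mem _ _ e
    | mem y hy =>
      obtain ⟨β, rfl, rfl⟩ := hy
      have e1 := J_le_N h _ (bm_mul h hh hc α β)
      have e2 := bm_mem_N (π := π) (K := K) h (α + β)
      simp only [Pi.add_apply, Finset.sum_add_distrib] at e2
      simpa using add_mem e1 e2

lemma gen_mem_N (hh : ∀ i, h i ∈ K) (hc : Cm3 π K h) (l : Fin D) :
    MonoidAlgebra.of O X (h l) - 1 ∈ N π K h 1 := by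
  have hp : [l].Perm (word (Pi.single l 1)) := List.perm_iff_count.2 fun i => by
    rw [count_word]
    by_cases e : i = l
    · simp [e]
    · simp [e, Ne.symm e]
  have e1 := J_le_N h _ (W_perm h hh hc hp)
  have e2 := bm_mem_N (π := π) (K := K) h (Pi.single l 1)
  rw [W_word, W_cons] at e1
  simp only [Finset.sum_pi_single', Finset.mem_univ, if_true] at e2
  simpa [W, wd_nil] using add_mem e1 e2

/-- group elements that are linear in the generators modulo degree two -/
def V (π : O) (K : Subgroup X) (h : Fin D → X) (hh : ∀ i, h i ∈ K) : Submonoid X where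
  carrier := {x | MonoidAlgebra.of O X x - 1 ∈ N π K h 1}
  one_mem' := by
    change _ - 1 ∈ N π K h 1
    rw [map_one, sub_self]
    exact Submodule.zero_mem _
  mul_mem' := fun {x y} hx hy => by
    have e : MonoidAlgebra.of O X (x * y) - 1 =
        (MonoidAlgebra.of O X x - 1) * (MonoidAlgebra.of O X y - 1) +
          (MonoidAlgebra.of O X x - 1) + (MonoidAlgebra.of O X y - 1) := by
      rw [map_mul]; noncomm_ring
    change _ ∈ N π K h 1
    rw [e]
    exact add_mem (add_mem (J_le_N h 1 (Iw0.mul_mem (N_le h hh 1 hx) (N_le h hh 1 hy))) hx) hy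

lemma wd_mem_N (hh : ∀ i, h i ∈ K) (hc : Cm3 π K h)
    (hV : ∀ g ∈ K, MonoidAlgebra.of O X g - 1 ∈ N π K h 1) (l : List X) (hl : ∀ g ∈ l, g ∈ K) :
    wd O l ∈ N π K h l.length := by
  induction l with
  | nil => simpa [wd_nil, bm] using bm_mem_N (π := π) (K := K) h 0
  | cons g l ih =>
    rw [wd_cons, List.length_cons, add_comm]
    exact N_mul h hh hc (hV g (hl g List.mem_cons_self))
      (ih fun g hg => hl g (List.mem_cons_of_mem _ hg))

lemma expand (hh : ∀ i, h i ∈ K) (hc : Cm3 π K h)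
    (hV : ∀ g ∈ K, MonoidAlgebra.of O X g - 1 ∈ N π K h 1) (m : ℕ) (x : MonoidAlgebra O X)
    (hx : x ∈ Jm π K m) : ∃ c : (Fin D → ℕ) → O,
      x - ∑ α ∈ (Fintype.piFinset fun _ : Fin D => Finset.range (m + 1)).filter
          (fun α => ∑ i, α i ≤ m), (c α * π ^ (m - ∑ i, α i)) • bm O h α ∈ Jm π K (m + 1) := by
  set S := (Fintype.piFinset fun _ : Fin D => Finset.range (m + 1)).filter
    (fun α => ∑ i, α i ≤ m) with hS
  let Φ : ((Fin D → ℕ) → O) →ₗ[O] MonoidAlgebra O X :=
    ∑ α ∈ S, (LinearMap.proj α).smulRight (π ^ (m - ∑ i, α i) • bm O h α)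
  have hΦ : ∀ c, Φ c = ∑ α ∈ S, (c α * π ^ (m - ∑ i, α i)) • bm O h α := fun c => by
    simp only [Φ, LinearMap.sum_apply, LinearMap.smulRight_apply, LinearMap.proj_apply, mul_smul]
  suffices hs : x ∈ LinearMap.range Φ ⊔ Jm π K (m + 1) by
    obtain ⟨_, ⟨c, rfl⟩, z, hz, rfl⟩ := Submodule.mem_sup.1 hs
    exact ⟨c, by rw [← hΦ]; simpa using hz⟩
  refine ind (P := fun x => x ∈ LinearMap.range Φ ⊔ Jm π K (m + 1)) (fun a l hl hm => ?_)
    (Submodule.zero_mem _) (fun x y e e' => add_mem e e')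
    (fun c x e => Submodule.smul_mem _ _ e) hx
  rcases hm.lt_or_eq with hm | hm
  · exact Submodule.mem_sup_right (gen_mem hl hm)
  obtain ⟨y1, h1, y2, h2, e⟩ := Submodule.mem_sup.1 (wd_mem_N h hh hc hV l hl)
  rw [← e, smul_add]
  refine add_mem ?_ (Submodule.mem_sup_right (anti (by omega) (pow_smul_mem h2 a)))
  refine Submodule.mem_sup_left ?_
  clear e
  induction h1 using Submodule.span_induction with
  | zero => simp
  | add y y' _ _ e e' => rw [smul_add]; exact add_mem e e'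
  | smul c y _ e => rw [smul_comm]; exact Submodule.smul_mem _ _ e
  | mem y hy =>
    obtain ⟨α, hα, rfl⟩ := hy
    have hm' : ∑ i, α i ≤ m := by omega
    have hαS : α ∈ S := by
      rw [hS, Finset.mem_filter, Fintype.mem_piFinset]
      refine ⟨fun i => Finset.mem_range.2 (Nat.lt_succ_of_le (le_trans ?_ hm')), hm'⟩
      exact Finset.single_le_sum (f := α) (fun _ _ => Nat.zero_le _) (Finset.mem_univ i)
    refine ⟨Pi.single α 1, ?_⟩
    rw [hΦ, Finset.sum_eq_single α]
    · rw [Pi.single_eq_same, one_mul, show m - ∑ i, α i = a by omega]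
    · intro β _ hβ
      rw [Pi.single_eq_of_ne hβ, zero_mul, zero_smul]
    · exact fun hn => absurd hαS hn

end general

variable {G : Type} [Group G] {p D : ℕ} (T : Tower G p D) {O : Type} [CommRing O] {π : O}

lemma qm_prod (j : ℕ) (e : Fin D → ℕ) :
    T.qm j (List.ofFn fun i => T.h i ^ e i).prod = (List.ofFn fun i => T.hb j i ^ e i).prod := by
  rw [map_list_prod, List.map_ofFn]
  congr 2

lemma level (hp : π ∣ (p : O)) (j i : ℕ) (g : G) (hg : g ∈ T.H i) :
    MonoidAlgebra.of O _ (T.qm j g) - 1 ∈ Jm π (T.K j) (i + 1) := by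
  suffices hs : ∀ n i, j ≤ i + n → ∀ g ∈ T.H i, T.qm j g ∈ U π (T.K j) (i + 1) from
    (hs j i (by omega) g hg).2
  intro n
  induction n with
  | zero =>
    intro i hi g hg
    rw [T.qm_eq_one.2 (T.le hi hg)]
    exact Submonoid.one_mem _
  | succ n ih =>
    intro i hi g hg
    obtain ⟨a, ha⟩ := T.span i g hg
    have h1 := ih (i + 1) (by omega) _ ((T.H (i + 1)).inv_mem ha)
    have h2 : T.qm j (List.ofFn fun l => T.h l ^ (p ^ i * a l)).prod ∈ U π (T.K j) (i + 1) := by
      rw [qm_prod]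
      refine Submonoid.list_prod_mem _ fun x hx => ?_
      obtain ⟨l, rfl⟩ := List.mem_ofFn.1 hx
      rw [pow_mul]
      exact Submonoid.pow_mem _ (U_pow_pow hp (T.hb_mem j l) i) _
    have h3 := Submonoid.mul_mem _ h2 ⟨h1.1, anti (Nat.le_succ _) h1.2⟩
    rw [← map_mul] at h3
    simpa using h3

lemma cm3 (hp : π ∣ (p : O)) (j : ℕ) : Cm3 π (T.K j) (T.hb j) := fun i l => by
  have h1 := level T hp j 2 _ (T.comm_mem 0 _ _ (T.h_mem i) (T.h_mem l))
  have h2 := Iw0.mul_mem h1 (of_mem (π := π) ((T.K j).mul_mem (T.hb_mem j l) (T.hb_mem j i)))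
  have e : T.qm j (T.h i * T.h l * (T.h i)⁻¹ * (T.h l)⁻¹) * (T.hb j l * T.hb j i) =
      T.hb j i * T.hb j l := by
    simp only [Tower.hb, map_mul, map_inv]
    group
  rw [sub_mul, ← map_mul, e, one_mul, map_mul, map_mul] at h2
  have e2 : ∀ a b : MonoidAlgebra O (T.Q j),
      (a - 1) * (b - 1) - (b - 1) * (a - 1) = a * b - b * a := fun a b => by noncomm_ring
  rw [e2]
  exact h2

lemma linear (hp : π ∣ (p : O)) (j : ℕ) (q : T.Q j) (hq : q ∈ T.K j) :
    MonoidAlgebra.of O _ q - 1 ∈ N π (T.K j) (T.hb j) 1 := by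
  obtain ⟨g, rfl⟩ := T.qm_surj j q
  obtain ⟨a, ha⟩ := T.span 0 g (T.qm_mem_K.1 hq)
  have h1 : T.qm j (g⁻¹ * (List.ofFn fun l => T.h l ^ (p ^ 0 * a l)).prod)⁻¹ ∈
      V π (T.K j) (T.hb j) (T.hb_mem j) :=
    J_le_N _ 1 (level T hp j 1 _ ((T.H 1).inv_mem ha))
  have h2 : T.qm j (List.ofFn fun l => T.h l ^ (p ^ 0 * a l)).prod ∈
      V π (T.K j) (T.hb j) (T.hb_mem j) := by
    rw [qm_prod]
    refine Submonoid.list_prod_mem _ fun x hx => ?_
    obtain ⟨l, rfl⟩ := List.mem_ofFn.1 hx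
    exact Submonoid.pow_mem _ (gen_mem_N _ (T.hb_mem j) (cm3 T hp j) l) _
  have h3 := Submonoid.mul_mem _ h2 h1
  rw [← map_mul] at h3
  have e : (List.ofFn fun l => T.h l ^ (p ^ 0 * a l)).prod *
      (g⁻¹ * (List.ofFn fun l => T.h l ^ (p ^ 0 * a l)).prod)⁻¹ = g := by group
  rw [e] at h3
  exact h3

lemma kernel (hp : π ∣ (p : O)) {i j : ℕ} (hij : i ≤ j) (x : MonoidAlgebra O (T.Q j))
    (hx : x ∈ Jm π (T.K j) 0) (h0 : MonoidAlgebra.mapDomainAlgHom O O (T.tr hij) x = 0) :
    x ∈ Jm π (T.K j) (i + 1) := by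
  let s : T.Q i → T.Q j := fun y => T.qm j y.out
  have hs : ∀ y, T.tr hij (s y) = y := fun y => by rw [Tower.tr_qm, Tower.qm_out]
  have h1 : ∑ q ∈ x.coeff.support, x.coeff q • MonoidAlgebra.of O _ (s (T.tr hij q)) = 0 := by
    have := congrArg (MonoidAlgebra.mapDomainLinearMap O O s) h0
    rw [eq_sum x, map_sum, map_sum, map_zero] at this
    rw [← this]
    refine Finset.sum_congr rfl fun q _ => ?_
    rw [map_smul, map_smul, map_of]
    simp
  rw [← sub_zero x, ← h1]
  nth_rewrite 1 [eq_sum x]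
  rw [← Finset.sum_sub_distrib]
  refine Submodule.sum_mem _ fun q hq => ?_
  rw [← smul_sub]
  refine Submodule.smul_mem _ _ ?_
  have hqK : q ∈ T.K j := mem_zero.1 hx q (Finsupp.mem_support_iff.1 hq)
  have hsK : s (T.tr hij q) ∈ T.K j := by
    rw [Tower.K, MonoidHom.mem_ker, ← T.pr_tr hij, hs, T.pr_tr]
    exact hqK
  obtain ⟨g, hg⟩ := T.qm_surj j (q * (s (T.tr hij q))⁻¹)
  have hgi : g ∈ T.H i := by
    rw [← T.qm_eq_one, ← T.tr_qm hij, hg, map_mul, map_inv, hs, mul_inv_cancel]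
  have h2 := Iw0.mul_mem (level T hp j i g hgi) (of_mem (π := π) hsK)
  rw [sub_mul, ← map_mul, hg, inv_mul_cancel_right, one_mul] at h2
  exact h2

end Iw1

theorem iw1 (_h : Iw0Stmt) : Iw1Stmt := fun _ _ _ _ T _ _ _ hp j =>
  ⟨fun i g hg => Iw1.level T hp j i g hg,
    fun α β => Iw1.bm_mul _ (T.hb_mem j) (Iw1.cm3 T hp j) α β,
    fun m x hx => Iw1.expand _ (T.hb_mem j) (Iw1.cm3 T hp j) (Iw1.linear T hp j) m x hx,
    fun _ hij x hx h0 => Iw1.kernel T hp hij x hx h0⟩

end Pool.Agent.MP_54e5d7_al.atl
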