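import Pool.Agent.MP_54e5d7_al.atl.IW0

/-!
Project ATL, row JEN: the theorem of Hall and Jennings from the cyclic extension step.
-/

set_option autoImplicit false

open Classical Module

noncomputable section
namespace Pool.Agent.MP_54e5d7_al.atl
namespace Jen
open Subgroup
open scoped commutatorElement

lemma dim_of_inj {X Y : Type} [Group X] [Group Y] (f : X →* Y) (hf : Function.Injective f)
    (h : Dim Y) : Dim X := by
  intro g hg
  obtain ⟨c, hc⟩ := h (f g) (fun e => hg (hf (by simpa using e)))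
  refine ⟨c, fun m hm hmem => hc m hm ?_⟩
  have key : ∀ y ∈ Ia X c, MonoidAlgebra.mapDomainAlgHom ℤ ℤ f y ∈ Ia Y c := by
    intro y hy
    induction hy using Submodule.span_induction with
    | mem y hy =>
      obtain ⟨a, l, -, hl, rfl⟩ := hy
      refine Submodule.subset_span ⟨a, l.map f, fun _ _ => mem_top _, by simpa using hl, ?_⟩
      rw [map_smul, map_list_prod, List.map_map, List.map_map]
      congr 3
      funext x
      simp only [Function.comp_apply, map_sub, map_one]
      simp [MonoidAlgebra.mapDomainAlgHom_apply]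
    | zero => simp
    | add x y _ _ hx hy => rw [map_add]; exact add_mem hx hy
    | smul a x _ hx => rw [map_smul]; exact Submodule.smul_mem _ _ hx
  have := key _ hmem
  rw [map_smul, map_sub, map_one] at this
  simpa [MonoidAlgebra.mapDomainAlgHom_apply] using this

lemma dim_of_hom (h : JenAStmt) (k : ℕ) : ∀ (X : Type) [Group X] [Group.IsNilpotent X]
    (φ : Fin k → X →* Multiplicative ℤ),
    (∀ (Y : Type) [Group Y] (f : Y →* X), Function.Injective f → (∀ y i, φ i (f y) = 1) →
      Dim Y) → Dim X := by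
  induction k with
  | zero =>
    intro X _ _ φ hφ
    exact hφ X (MonoidHom.id X) (fun _ _ e => e) fun _ i => i.elim0
  | succ k ih =>
    intro X _ _ φ hφ
    refine h X (φ 0) (ih _ (fun i => (φ i.succ).comp (φ 0).ker.subtype) fun Y _ f hf hy => ?_)
    refine hφ Y ((φ 0).ker.subtype.comp f) ((φ 0).ker.subtype_injective.comp hf) fun y i => ?_
    refine Fin.cases ?_ (fun i => hy y i) i
    exact (f y).2

lemma comm_iff {N : Type} [Group N] (T : Subgroup N) [T.Normal] (x g : N) :
    ⁅x, g⁆ ∈ T ↔ Commute (QuotientGroup.mk' T x) (QuotientGroup.mk' T g) := by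
  rw [← commutatorElement_eq_one_iff_commute, ← map_commutatorElement]
  exact (QuotientGroup.eq_one_iff _).symm

lemma comm_gen {N : Type} [Group N] (T : Subgroup N) [T.Normal] {S : Set N} (hS : closure S = ⊤)
    {x : N} (hx : ∀ s ∈ S, ⁅x, s⁆ ∈ T) (g : N) : ⁅x, g⁆ ∈ T := by
  rw [comm_iff]
  have hg : g ∈ closure S := hS ▸ mem_top g
  induction hg using closure_induction with
  | mem s hs => exact (comm_iff T x s).1 (hx s hs)
  | one => rw [map_one]; exact Commute.one_right _
  | mul a b _ _ ha hb => rw [map_mul]; exact ha.mul_right hb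
  | inv a _ ha => rw [map_inv]; exact ha.inv_right

lemma low_fg {N : Type} [Group N] [Group.FG N] (i : ℕ) : ∃ S : Set N, S.Finite ∧
    S ⊆ (⊤ : Subgroup N).lowerCentralSeries i ∧ (⊤ : Subgroup N).lowerCentralSeries i ≤
      closure S ⊔ (⊤ : Subgroup N).lowerCentralSeries (i + 1) := by
  obtain ⟨S₀, h0, hf0⟩ := Group.fg_iff.1 (inferInstance : Group.FG N)
  have hc : ∀ j (x g : N), x ∈ (⊤ : Subgroup N).lowerCentralSeries j →
      ⁅x, g⁆ ∈ (⊤ : Subgroup N).lowerCentralSeries (j + 1) := fun j x g hx => by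
    rw [Subgroup.lowerCentralSeries_succ]
    exact commutator_mem_commutator hx (mem_top g)
  induction i with
  | zero => exact ⟨S₀, hf0, fun _ _ => mem_top _, by rw [h0]; simp⟩
  | succ i ih =>
    obtain ⟨S, hf, h1, h2⟩ := ih
    have hsub : Set.image2 (fun s t : N => ⁅s, t⁆) S S₀ ⊆
        (⊤ : Subgroup N).lowerCentralSeries (i + 1) := by
      rintro _ ⟨s, hs, t, -, rfl⟩
      exact hc i s t (h1 hs)
    refine ⟨Set.image2 (fun s t : N => ⁅s, t⁆) S S₀, hf.image2 _ hf0, hsub, ?_⟩
    set T := closure (Set.image2 (fun s t : N => ⁅s, t⁆) S S₀) ⊔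
      (⊤ : Subgroup N).lowerCentralSeries (i + 1 + 1) with hT
    have hle : T ≤ (⊤ : Subgroup N).lowerCentralSeries (i + 1) :=
      sup_le ((closure_le _).2 hsub) (Subgroup.lowerCentralSeries_antitone _ (Nat.le_succ _))
    have hge : (⊤ : Subgroup N).lowerCentralSeries (i + 1 + 1) ≤ T := le_sup_right
    have : T.Normal := ⟨fun y hy g => by
      have e : g * y * g⁻¹ = ⁅y, g⁆⁻¹ * y := by simp [commutatorElement_def, mul_assoc]
      rw [e]
      exact mul_mem (inv_mem (hge (hc _ y g (hle hy)))) hy⟩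
    have hstep : (⊤ : Subgroup N).lowerCentralSeries i ≤ Subgroup.upperCentralSeriesStep T := by
      refine h2.trans (sup_le ((closure_le _).2 fun s hs => ?_) fun x hx => ?_)
      · refine (Subgroup.mem_upperCentralSeriesStep T s).2 (comm_gen T h0 fun t ht => ?_)
        exact (le_sup_left : _ ≤ T) (subset_closure ⟨s, hs, t, ht, rfl⟩)
      · exact (Subgroup.mem_upperCentralSeriesStep T x).2 fun g => hge (hc _ x g hx)
    rw [Subgroup.lowerCentralSeries_succ, commutator_le]
    intro x hx g _
    exact (Subgroup.mem_upperCentralSeriesStep T x).1 (hstep hx) g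

lemma fg_map {A B : Type} [Group A] [Group B] (f : A →* B) {P : Subgroup A} (h : P.FG) :
    (P.map f).FG := by
  obtain ⟨S, hS, hf⟩ := (fg_iff _).1 h
  exact (fg_iff _).2 ⟨f '' S, by rw [← MonoidHom.map_closure, hS], hf.image _⟩

lemma fg_ext {A B : Type} [Group A] [Group B] (f : A →* B) (P : Subgroup A)
    (h1 : (P.map f).FG) (h2 : (P ⊓ f.ker).FG) : P.FG := by
  obtain ⟨S, hS, hf⟩ := (fg_iff _).1 h1
  have : ∀ s ∈ S, ∃ a ∈ P, f a = s := fun s hs => mem_map.1 (hS ▸ subset_closure hs)
  choose! r hr1 hr2 using this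
  have hle : closure (r '' S) ≤ P := (closure_le _).2 (by rintro _ ⟨s, hs, rfl⟩; exact hr1 s hs)
  have e : P = closure (r '' S) ⊔ (P ⊓ f.ker) := by
    refine le_antisymm (fun x hx => ?_) (sup_le hle inf_le_left)
    have : f x ∈ (closure (r '' S)).map f := by
      rw [MonoidHom.map_closure, Set.image_image, Set.image_congr hr2, Set.image_id', hS]
      exact mem_map_of_mem f hx
    obtain ⟨y, hy, hxy⟩ := this
    rw [← mul_inv_cancel_left y x]
    refine mul_mem (mem_sup_left hy) (mem_sup_right ⟨P.mul_mem (P.inv_mem (hle hy)) hx, ?_⟩)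
    simp [hxy]
  rw [e]
  exact Subgroup.FG.sup ((fg_iff _).2 ⟨_, rfl, hf.image _⟩) h2

lemma fg_comm {A : Type} [CommGroup A] [Group.FG A] (P : Subgroup A) : P.FG := by
  have : Module.Finite ℤ (Additive A) := Module.Finite.iff_addGroup_fg.2 inferInstance
  rw [fg_iff_add_fg, ← AddSubgroup.toIntSubmodule_toAddSubgroup P.toAddSubgroup,
    ← Submodule.fg_iff_addSubgroup_fg]
  exact IsNoetherian.noetherian _

lemma fg_central {Q : Type} [Group Q] {P R : Subgroup Q} (h1 : P ≤ R) (h2 : R ≤ center Q)
    (h : R.FG) : P.FG := by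
  let : CommGroup R := { (inferInstance : Group R) with
    mul_comm := fun a b => Subtype.ext (mem_center_iff.1 (h2 b.2) a) }
  have : Group.FG R := (Group.fg_iff_subgroup_fg R).2 h
  have := fg_map R.subtype (fg_comm (P.subgroupOf R))
  rwa [subgroupOf_map_subtype, inf_eq_left.2 h1] at this

lemma center_fg {N : Type} [Group N] [Group.FG N] [Group.IsNilpotent N] : (center N).FG := by
  obtain ⟨c, hc⟩ := (Subgroup.nilpotent_iff_lowerCentralSeries (G := N)).1 inferInstance
  have key : ∀ i, i ≤ c → (center N ⊓ (⊤ : Subgroup N).lowerCentralSeries i).FG := by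
    intro i hi
    induction hi using Nat.decreasingInduction with
    | self => rw [hc, inf_bot_eq]; exact Subgroup.FG.bot
    | of_succ i _ ih =>
      obtain ⟨S, hf, h1, h2⟩ := low_fg (N := N) i
      refine fg_ext (QuotientGroup.mk' ((⊤ : Subgroup N).lowerCentralSeries (i + 1))) _ ?_ ?_
      · refine fg_central (R := (closure S).map (QuotientGroup.mk' _)) ?_ ?_
          (fg_map _ ((fg_iff _).2 ⟨S, rfl, hf⟩))
        · refine (map_mono (inf_le_right.trans h2)).trans ?_
          rw [Subgroup.map_sup, QuotientGroup.map_mk'_self, sup_bot_eq]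
        · rintro _ ⟨x, hx, rfl⟩
          refine mem_center_iff.2 fun g => ?_
          obtain ⟨g, rfl⟩ := QuotientGroup.mk'_surjective _ g
          refine ((comm_iff _ x g).1 ?_).symm
          rw [Subgroup.lowerCentralSeries_succ]
          exact commutator_mem_commutator ((closure_le _).2 h1 hx) (mem_top g)
      · rwa [QuotientGroup.ker_mk', inf_assoc,
          inf_eq_right.2 (Subgroup.lowerCentralSeries_antitone _ (Nat.le_succ _))]
  simpa using key 0 (Nat.zero_le c)

lemma emb_comm {A : Type} [CommGroup A] [Group.FG A] (ht : ∀ x : A, IsOfFinOrder x → x = 1) :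
    ∃ (ι : Type) (_ : Finite ι) (φ : ι → A →* Multiplicative ℤ), ∀ x, (∀ i, φ i x = 1) → x = 1 := by
  have : Module.Finite ℤ (Additive A) := Module.Finite.iff_addGroup_fg.2 inferInstance
  have : IsMulTorsionFree A := by
    refine ⟨fun n hn a b hab => ?_⟩
    have : (a * b⁻¹) ^ n = 1 := by
      have hab' : a ^ n = b ^ n := hab
      rw [mul_pow, inv_pow, hab', mul_inv_cancel]
    exact mul_inv_eq_one.1 (ht _ (isOfFinOrder_iff_pow_eq_one.2 ⟨n, Nat.pos_of_ne_zero hn, this⟩))
  let b := Module.Free.chooseBasis ℤ (Additive A)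
  refine ⟨_, inferInstance, fun i => AddMonoidHom.toMultiplicativeRight (b.coord i).toAddMonoidHom,
    fun x hx => ?_⟩
  have : Additive.ofMul x = 0 := b.forall_coord_eq_zero_iff.1 fun i => hx i
  exact this

lemma emb {N : Type} [Group N] [Group.FG N] [Group.IsNilpotent N]
    (ht : ∀ x : N, IsOfFinOrder x → x = 1) (i : ℕ) :
    ∃ (ι : Type) (_ : Finite ι) (φ : ι → Subgroup.upperCentralSeries N (i + 1) →* Multiplicative ℤ),
      ∀ x, (∀ a, φ a x = 1) ↔ (x : N) ∈ Subgroup.upperCentralSeries N i := by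
  induction i with
  | zero =>
    rw [zero_add, Subgroup.upperCentralSeries_one]
    let : CommGroup (center N) := { (inferInstance : Group (center N)) with
      mul_comm := fun a b => Subtype.ext (mem_center_iff.1 b.2 a) }
    have : Group.FG (center N) := (Group.fg_iff_subgroup_fg _).2 center_fg
    obtain ⟨ι, hι, φ, hφ⟩ := emb_comm (A := center N) fun x hx =>
      Subtype.ext (ht _ ((center N).subtype.isOfFinOrder hx))
    refine ⟨ι, hι, φ, fun x => ⟨fun h => ?_, fun h a => ?_⟩⟩
    · rw [hφ x h]; exact one_mem _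
    · have : x = 1 := Subtype.ext (by simpa using h)
      rw [this, map_one]
  | succ i ih =>
    obtain ⟨ι, hι, φ, hφ⟩ := ih
    obtain ⟨S, h0, hf⟩ := Group.fg_iff.1 (inferInstance : Group.FG N)
    have : Finite S := hf
    have hc : ∀ j (x g : N), x ∈ Subgroup.upperCentralSeries N (j + 1) →
        ⁅x, g⁆ ∈ Subgroup.upperCentralSeries N j := fun j x g hx =>
      Subgroup.mem_upperCentralSeries_succ_iff.1 hx g
    refine ⟨ι × S, inferInstance, fun a => MonoidHom.mk'
      (fun x => φ a.1 ⟨⁅(x : N), (a.2 : N)⁆, hc _ _ _ x.2⟩) fun x y => ?_, fun x => ?_⟩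
    · have h1 : ⁅⁅(y : N), (a.2 : N)⁆, (x : N)⁆⁻¹ ∈ Subgroup.upperCentralSeries N i :=
        inv_mem (hc _ _ _ (hc _ _ _ y.2))
      have h2 := (hφ ⟨_, Subgroup.upperCentralSeries_mono N (Nat.le_succ i) h1⟩).2 h1 a.1
      rw [mul_comm, ← map_mul, ← one_mul (φ a.1 (_ * _)), ← h2, ← map_mul]
      congr 1
      ext
      simp [commutatorElement_def, mul_assoc]
    · constructor
      · intro h
        refine Subgroup.mem_upperCentralSeries_succ_iff.2 (comm_gen _ h0 fun s hs => ?_)
        exact (hφ ⟨⁅(x : N), s⁆, hc _ _ _ x.2⟩).1 fun a => h (a, ⟨s, hs⟩)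
      · intro h a
        exact (hφ ⟨⁅(x : N), (a.2 : N)⁆, hc _ _ _ x.2⟩).2 (hc _ _ _ h) a.1

end Jen

theorem jen (h : JenAStmt) : JenStmt := by
  intro N _ _ _ ht
  have key : ∀ i, Dim (Subgroup.upperCentralSeries N i) := by
    intro i
    induction i with
    | zero =>
      intro g hg
      exact absurd (Subtype.ext (Subgroup.mem_bot.1 g.2)) hg
    | succ i ih =>
      obtain ⟨ι, hι, φ, hφ⟩ := Jen.emb ht i
      obtain ⟨k, ⟨e⟩⟩ := Finite.exists_equiv_fin ι
      refine Jen.dim_of_hom h k _ (fun j => φ (e.symm j)) fun Y _ f hf hy => ?_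
      have hm : ∀ y, ((Subgroup.subtype _).comp f) y ∈ Subgroup.upperCentralSeries N i :=
        fun y => (hφ (f y)).1 fun a => by simpa using hy y (e a)
      refine Jen.dim_of_inj (((Subgroup.subtype _).comp f).codRestrict _ hm) ?_ ih
      intro y y' hyy
      have h1 := congrArg Subtype.val hyy
      exact hf (Subtype.ext h1)
  obtain ⟨c, hc⟩ := Group.IsNilpotent.nilpotent N
  refine Jen.dim_of_inj ((MonoidHom.id N).codRestrict (Subgroup.upperCentralSeries N c)
    fun x => hc ▸ Subgroup.mem_top _) (fun x y hxy => congrArg Subtype.val hxy) (key c)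

end Pool.Agent.MP_54e5d7_al.atl
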