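import Pool.Agent.MP_54e5d7_al.atl.IW0
import Pool.Agent.MP_54e5d7_al.Final

-- ======== part 0: formerly Pool.Agent.MP_54e5d7_al.atl.QUOT
section MrgPart0

/-!
Project ATL: passage to a quotient by a finite normal subgroup.
-/

set_option autoImplicit false

open scoped InnerProductSpace
open Classical ContinuousLinearMap

noncomputable section
namespace Pool.Agent.MP_54e5d7_al.atl

namespace QuotA

lemma kr_eq {G : Type} [Group G] {m k : ℕ} (A : Matrix (Fin m) (Fin k) (G →₀ ℂ)) :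
    ∃ V : CS (Fin m × G), {x : L2 (Fin m × G) | ∀ (j : Fin k) (g : G),
      ∑ i' : Fin m, (A i' j).sum (fun h c => ev (i', g * h⁻¹) x * c) = 0} = (V : Set _) := by
  obtain ⟨T, -, eT⟩ := exists_matOp A
  refine ⟨kr T, ?_⟩
  ext x
  simp only [← eT, Set.mem_ofPred_eq, SetLike.mem_coe, mem_kr]
  exact ⟨fun h => L2.ext fun p => by simpa using h p.1 p.2, fun h j g => by simp [h]⟩

/-- Weights under a covering with `card N` sheets. -/
lemma wt_cover {Ω Ω' N : Type} [Fintype N] [Nonempty N] (F : Ω → Ω') (j : N → Ω' ↪ Ω)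
    (hF : ∀ n ω', F (j n ω') = ω') (hj : ∀ ω, ∃! n, j n (F ω) = ω)
    (V : CS Ω) (V' : CS Ω')
    (h1 : ∀ x ∈ V, ∃ y ∈ V', ∀ ω, ev ω x = ev (F ω) y)
    (h2 : ∀ y ∈ V', ∀ x, (∀ ω, ev ω x = ev (F ω) y) → x ∈ V) (ω : Ω) :
    (Fintype.card N : ℝ) * wt V ω = wt V' (F ω) := by
  set U : L2 Ω' →L[ℂ] L2 Ω := ∑ n, push (j n) with hU
  have hev : ∀ y ω, ev ω (U y) = ev (F ω) y := fun y ω => by
    obtain ⟨n, hn, hu⟩ := hj ω
    rw [hU, sum_apply, map_sum, Finset.sum_eq_single n]
    · conv_lhs => rw [← hn]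
      rw [ev_push]
    · intro n' _ hne
      refine ev_push_of_not_mem _ _ ?_
      rintro ⟨ω', rfl⟩
      exact hne (hu n' (by rw [hF]))
    · simp
  have hpull : ∀ n y, pull (j n) (U y) = y := fun n y => L2.ext fun ω' => by
    rw [ev_pull, hev, hF]
  have hin : ∀ p y, ⟪U p, U y⟫_ℂ = (Fintype.card N : ℂ) * ⟪p, y⟫_ℂ := fun p y => by
    conv_lhs => rw [hU, sum_apply, sum_inner]
    have : ∀ n, ⟪push (j n) p, U y⟫_ℂ = ⟪p, y⟫_ℂ := fun n => by
      rw [← adjoint_pull, adjoint_inner_left, hpull]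
    simp [← hU, this]
  have hc : (Fintype.card N : ℂ) ≠ 0 := by exact_mod_cast Fintype.card_ne_zero
  set p := pr V' (dl (F ω)) with hp
  have hpr : pr V (dl ω) = (Fintype.card N : ℂ)⁻¹ • U p := by
    refine pr_eq (CS.smul_mem _ (h2 p (pr_mem _ _) _ (hev p))) fun w hw => ?_
    obtain ⟨y, hy, e⟩ := h1 w hw
    have hw' : w = U y := L2.ext fun ω => by rw [e, hev]
    have h3 := pr_inner V' (dl (F ω)) hy
    rw [inner_sub_left, inner_dl] at h3
    rw [inner_sub_left, inner_dl, e, inner_smul_left, hw', hin]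
    simp only [map_inv₀, map_natCast]
    rw [← mul_assoc, inv_mul_cancel₀ hc, one_mul]
    exact h3
  have h4 := ev_pr_dl V ω
  have h5 := ev_pr_dl V' (F ω)
  rw [hpr, map_smul, hev, hp, h5, ← hp, ← hpr] at h4
  have h6 : (Fintype.card N : ℂ) * ((wt V ω : ℝ) : ℂ) = ((wt V' (F ω) : ℝ) : ℂ) := by
    rw [wt, wt, ← h4, smul_eq_mul, ← mul_assoc, mul_inv_cancel₀ hc, one_mul]
  exact_mod_cast h6

end QuotA

open QuotA in
theorem quot_stmt : QuotStmt := by
  intro G G' _ _ f hf hfin d hA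
  rw [atiyah_iff] at hA ⊢
  intro m k A
  haveI : Fintype f.ker := Fintype.ofFinite _
  obtain ⟨s, hs⟩ := hf.hasRightInverse
  let e : G →₀ ℂ := Finsupp.single 1 (Fintype.card f.ker : ℂ) - ∑ n : f.ker, Finsupp.single n.1 1
  have he : ∀ φ : G → ℂ, e.sum (fun h c => φ h * c) =
      φ 1 * Fintype.card f.ker - ∑ n : f.ker, φ n := fun φ => by
    have h0 : ∀ a : G →₀ ℂ, a.sum (fun h c => φ h * c) = Finsupp.linearCombination ℂ φ a :=
      fun a => by simp [Finsupp.linearCombination_apply, mul_comm]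
    rw [h0]
    simp [e, mul_comm]
  let B : Matrix (Fin m) (Fin (k + m)) (G →₀ ℂ) := fun i =>
    Fin.addCases (fun j => (A i j).mapDomain s) fun j => if i = j then e else 0
  obtain ⟨z, hz⟩ := hA m (k + m) B
  obtain ⟨V, hV⟩ := kr_eq B
  obtain ⟨V', hV'⟩ := kr_eq A
  have mV : ∀ x, x ∈ V ↔ (∀ j g, ∑ i, (A i j).sum (fun h c => ev (i, g * (s h)⁻¹) x * c) = 0) ∧
      ∀ i g, ev (i, g) x * Fintype.card f.ker = ∑ n : f.ker, ev (i, g * (n.1)⁻¹) x := fun x => by
    rw [← SetLike.mem_coe, ← hV, Set.mem_ofPred_eq, Fin.forall_fin_add]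
    refine and_congr (forall₂_congr fun j g => ?_) (forall₂_congr fun i g => ?_)
    · have : ∀ i, (B i (Fin.castAdd m j)).sum (fun h c => ev (i, g * h⁻¹) x * c) =
          (A i j).sum (fun h c => ev (i, g * (s h)⁻¹) x * c) := fun i => by
        simp only [B, Fin.addCases_left]
        exact Finsupp.sum_mapDomain_index_inj hs.injective
      simp only [this]
    · rw [Finset.sum_eq_single i]
      · simp only [B, Fin.addCases_right, if_true]
        rw [he fun h => ev (i, g * h⁻¹) x, sub_eq_zero, inv_one, mul_one]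
      · intro i' _ hne
        simp [B, hne]
      · simp
  have mV' : ∀ y, y ∈ V' ↔ ∀ j g, ∑ i, (A i j).sum (fun h c => ev (i, g * h⁻¹) y * c) = 0 :=
    fun y => by rw [← SetLike.mem_coe, ← hV', Set.mem_ofPred_eq]
  let F : Fin m × G → Fin m × G' := fun p => (p.1, f p.2)
  let j : f.ker → (Fin m × G' ↪ Fin m × G) := fun n =>
    ⟨fun p => (p.1, s p.2 * n.1), fun p q h => Prod.ext (Prod.mk.inj h).1
      (hs.injective (mul_right_cancel (Prod.mk.inj h).2))⟩
  have hF : ∀ n p, F (j n p) = p := fun n p => Prod.ext rfl (by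
    change f (s p.2 * n.1) = p.2
    rw [map_mul, hs, MonoidHom.mem_ker.1 n.2, mul_one])
  have hj : ∀ p, ∃! n, j n (F p) = p := fun p => by
    refine ⟨⟨(s (f p.2))⁻¹ * p.2, ?_⟩, Prod.ext rfl (mul_inv_cancel_left _ _), fun n hn => ?_⟩
    · rw [MonoidHom.mem_ker, map_mul, map_inv, hs, inv_mul_cancel]
    · apply Subtype.ext
      have : s (f p.2) * n.1 = p.2 := congrArg Prod.snd hn
      exact eq_inv_mul_of_mul_eq this
  have hc : (Fintype.card f.ker : ℂ) ≠ 0 := by exact_mod_cast Fintype.card_ne_zero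
  have key := wt_cover F j hF hj V V' (fun x hx => ?_) (fun y hy x hx => ?_)
  · refine ⟨z, ?_⟩
    rw [← hz, hV, hV']
    simp only [one_sub_infDist]
    rw [Nat.card_eq_fintype_card, Nat.cast_mul, mul_assoc, Finset.mul_sum _ _ (Fintype.card f.ker : ℝ)]
    congr 1
    refine Finset.sum_congr rfl fun i _ => ?_
    rw [key]
    simp [F]
  · obtain ⟨a1, a2⟩ := (mV x).1 hx
    have inv : ∀ i g g', f g = f g' → ev (i, g) x = ev (i, g') x := fun i g g' h => by
      apply mul_right_cancel₀ hc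
      rw [a2, a2]
      have hm : g'⁻¹ * g ∈ f.ker := by
        rw [MonoidHom.mem_ker, map_mul, map_inv, h, inv_mul_cancel]
      refine (Fintype.sum_equiv (Equiv.mulRight (⟨_, hm⟩ : f.ker)) _ _ fun n => ?_).symm
      congr 2
      simp [mul_assoc]
    refine ⟨pull (j 1) x, (mV' _).2 fun j' g => ?_, fun p => ?_⟩
    · rw [← a1 j' (s g)]
      refine Finset.sum_congr rfl fun i _ => Finsupp.sum_congr fun h _ => ?_
      rw [ev_pull]
      congr 1
      refine inv i _ _ ?_
      change f (s (g * h⁻¹) * (1 : f.ker).1) = _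
      simp [hs _]
    · rw [ev_pull]
      refine inv p.1 p.2 _ ?_
      change _ = f (s (f p.2) * (1 : f.ker).1)
      simp [hs _]
  · refine (mV x).2 ⟨fun j' g => ?_, fun i g => ?_⟩
    · rw [← (mV' y).1 hy j' (f g)]
      refine Finset.sum_congr rfl fun i _ => Finsupp.sum_congr fun h _ => ?_
      rw [hx]
      simp [F, hs _]
    · have : ∀ n : f.ker, ev (i, g * (n.1)⁻¹) x = ev (i, g) x := fun n => by
        rw [hx, hx]
        simp [F, MonoidHom.mem_ker.1 n.2]
      simp [this, mul_comm]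

end Pool.Agent.MP_54e5d7_al.atl

end
end MrgPart0

-- ======== part 1: formerly Pool.Agent.MP_54e5d7_al.atl.JENA
section MrgPart1

/-!
Project ATL, row JENA: dimension subgroups for extensions by an infinite cyclic group.
-/

set_option autoImplicit false

open Classical

noncomputable section
namespace Pool.Agent.MP_54e5d7_al.atl

namespace JenA

variable {M : Type} [Group M]

/-- The weight filtration attached to a family of subgroups. -/
def Fw (Γ : ℕ → Subgroup M) (j : ℕ) : Submodule ℤ (MonoidAlgebra ℤ M) :=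
  Submodule.span ℤ {y | ∃ l : List (M × ℕ), (∀ p ∈ l, p.1 ∈ Γ p.2) ∧
    j ≤ (l.map fun p => p.2 + 1).sum ∧
    y = (l.map fun p => MonoidAlgebra.of ℤ M p.1 - 1).prod}

lemma Fw_anti (Γ : ℕ → Subgroup M) {i j : ℕ} (h : i ≤ j) : Fw Γ j ≤ Fw Γ i :=
  Submodule.span_mono fun _ ⟨l, h1, h2, h3⟩ => ⟨l, h1, h.trans h2, h3⟩

lemma one_mem (Γ : ℕ → Subgroup M) : (1 : MonoidAlgebra ℤ M) ∈ Fw Γ 0 :=
  Submodule.subset_span ⟨[], by simp, by simp, by simp⟩

lemma gen_mem (Γ : ℕ → Subgroup M) {g : M} {w : ℕ} (hg : g ∈ Γ w) :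
    MonoidAlgebra.of ℤ M g - 1 ∈ Fw Γ (w + 1) :=
  Submodule.subset_span ⟨[(g, w)], by simpa using hg, by simp, by simp⟩

lemma mul_mem (Γ : ℕ → Subgroup M) {i j : ℕ} {x y : MonoidAlgebra ℤ M} (hx : x ∈ Fw Γ i)
    (hy : y ∈ Fw Γ j) : x * y ∈ Fw Γ (i + j) := by
  induction hx using Submodule.span_induction with
  | zero => simp
  | add a b _ _ ha hb => rw [add_mul]; exact add_mem ha hb
  | smul c a _ ha => rw [smul_mul_assoc]; exact Submodule.smul_mem _ _ ha
  | mem a ha =>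
    induction hy using Submodule.span_induction with
    | zero => simp
    | add b b' _ _ hb hb' => rw [mul_add]; exact add_mem hb hb'
    | smul c b _ hb => rw [mul_smul_comm]; exact Submodule.smul_mem _ _ hb
    | mem b hb =>
      obtain ⟨l, h1, h2, rfl⟩ := ha
      obtain ⟨l', h1', h2', rfl⟩ := hb
      refine Submodule.subset_span ⟨l ++ l', ?_, ?_, ?_⟩
      · intro p hp
        rcases List.mem_append.1 hp with h | h
        exacts [h1 p h, h1' p h]
      · rw [List.map_append, List.sum_append]; omega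
      · rw [List.map_append, List.prod_append]

lemma prod_mem (Γ : ℕ → Subgroup M) (l : List (M × ℕ)) (h : ∀ p ∈ l, p.1 ∈ Γ p.2) :
    (l.map fun p => MonoidAlgebra.of ℤ M p.1 - 1).prod ∈ Fw Γ (l.map fun p => p.2 + 1).sum :=
  Submodule.subset_span ⟨l, h, le_rfl, rfl⟩

lemma conj_gen (Γ : ℕ → Subgroup M) (φ : M →* M)
    (hφ : ∀ w g, g ∈ Γ w → φ g * g⁻¹ ∈ Γ (w + 1)) {g : M} {w : ℕ} (hg : g ∈ Γ w) :
    MonoidAlgebra.mapDomainAlgHom ℤ ℤ φ (MonoidAlgebra.of ℤ M g - 1) -
      (MonoidAlgebra.of ℤ M g - 1) ∈ Fw Γ (w + 1 + 1) := by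
  have h1 := gen_mem Γ (hφ w g hg)
  have h2 := mul_mem Γ h1 (gen_mem Γ hg)
  have e : MonoidAlgebra.mapDomainAlgHom ℤ ℤ φ (MonoidAlgebra.of ℤ M g - 1) -
      (MonoidAlgebra.of ℤ M g - 1) =
      (MonoidAlgebra.of ℤ M (φ g * g⁻¹) - 1) * (MonoidAlgebra.of ℤ M g - 1) +
        (MonoidAlgebra.of ℤ M (φ g * g⁻¹) - 1) := by
    have e1 : MonoidAlgebra.mapDomainAlgHom ℤ ℤ φ (MonoidAlgebra.of ℤ M g) =
        MonoidAlgebra.of ℤ M (φ g * g⁻¹) * MonoidAlgebra.of ℤ M g := by
      rw [← map_mul, inv_mul_cancel_right]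
      simp [MonoidAlgebra.mapDomainAlgHom_apply]
    rw [map_sub, map_one, e1]
    noncomm_ring
  rw [e]
  exact add_mem (Fw_anti Γ (by omega) h2) h1

lemma conj_sub (Γ : ℕ → Subgroup M) (φ : M →* M)
    (hφ : ∀ w g, g ∈ Γ w → φ g * g⁻¹ ∈ Γ (w + 1)) {j : ℕ} {y : MonoidAlgebra ℤ M}
    (hy : y ∈ Fw Γ j) : MonoidAlgebra.mapDomainAlgHom ℤ ℤ φ y - y ∈ Fw Γ (j + 1) := by
  have key : ∀ l : List (M × ℕ), (∀ p ∈ l, p.1 ∈ Γ p.2) →
      MonoidAlgebra.mapDomainAlgHom ℤ ℤ φ (l.map fun p => MonoidAlgebra.of ℤ M p.1 - 1).prod -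
        (l.map fun p => MonoidAlgebra.of ℤ M p.1 - 1).prod ∈
        Fw Γ ((l.map fun p => p.2 + 1).sum + 1) := by
    intro l
    induction l with
    | nil => intro _; simp
    | cons p l ih =>
      intro h
      have hp : p.1 ∈ Γ p.2 := h p (by simp)
      have hl : ∀ q ∈ l, q.1 ∈ Γ q.2 := fun q hq => h q (by simp [hq])
      have h1 := ih hl
      have h2 := prod_mem Γ l hl
      have h3 := conj_gen Γ φ hφ hp
      have h4 := gen_mem Γ hp
      simp only [List.map_cons, List.prod_cons, List.sum_cons, map_mul]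
      set x := MonoidAlgebra.of ℤ M p.1 - 1
      set z := (l.map fun p => MonoidAlgebra.of ℤ M p.1 - 1).prod
      set s := (l.map fun p : M × ℕ => p.2 + 1).sum
      set x' := MonoidAlgebra.mapDomainAlgHom ℤ ℤ φ x
      set z' := MonoidAlgebra.mapDomainAlgHom ℤ ℤ φ z
      have e : x' * z' - x * z = (x' - x) * (z' - z) + (x' - x) * z + x * (z' - z) := by
        noncomm_ring
      rw [e]
      exact add_mem (add_mem (Fw_anti Γ (by omega) (mul_mem Γ h3 h1))
        (Fw_anti Γ (by omega) (mul_mem Γ h3 h2))) (Fw_anti Γ (by omega) (mul_mem Γ h4 h1))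
  induction hy using Submodule.span_induction with
  | zero => simp
  | add a b _ _ ha hb =>
    have := add_mem ha hb
    rw [map_add]
    convert this using 1
    abel
  | smul c a _ ha =>
    rw [map_smul, ← smul_sub]
    exact Submodule.smul_mem _ _ ha
  | mem a ha =>
    obtain ⟨l, h1, h2, rfl⟩ := ha
    exact Fw_anti Γ (by omega) (key l h1)

lemma step (Γ : ℕ → Subgroup M) (φ : M →* M)
    (hφ : ∀ w g, g ∈ Γ w → φ g * g⁻¹ ∈ Γ (w + 1)) {u : M} (hu : u ∈ Γ 0) {j : ℕ}
    {y : MonoidAlgebra ℤ M} (hy : y ∈ Fw Γ j) :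
    MonoidAlgebra.of ℤ M u * MonoidAlgebra.mapDomainAlgHom ℤ ℤ φ y - y ∈ Fw Γ (j + 1) := by
  have h1 := conj_sub Γ φ hφ hy
  have h2 := gen_mem Γ hu
  set y' := MonoidAlgebra.mapDomainAlgHom ℤ ℤ φ y
  set x := MonoidAlgebra.of ℤ M u
  have e : x * y' - y = (x - 1) * (y' - y) + (x - 1) * y + (y' - y) := by noncomm_ring
  rw [e]
  exact add_mem (add_mem (Fw_anti Γ (by omega) (mul_mem Γ h2 h1))
    (Fw_anti Γ (by omega) (mul_mem Γ h2 hy))) h1

lemma Fw_le (Γ : ℕ → Subgroup M) (e : ℕ) (he : ∀ w, e ≤ w → ∀ g ∈ Γ w, g = 1) (c : ℕ) :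
    Fw Γ (c * e + 1) ≤ Ia M c := by
  refine Submodule.span_le.2 ?_
  rintro _ ⟨l, h1, h2, rfl⟩
  by_cases hz : ∃ p ∈ l, e ≤ p.2
  · obtain ⟨p, hp, hw⟩ := hz
    have h0 : (l.map fun p => MonoidAlgebra.of ℤ M p.1 - 1).prod = 0 := by
      refine List.prod_eq_zero (List.mem_map.2 ⟨p, hp, ?_⟩)
      rw [he _ hw _ (h1 p hp), map_one, sub_self]
    rw [h0]
    exact zero_mem _
  · push Not at hz
    have h3 : (l.map fun p => p.2 + 1).sum ≤ l.length * e := by
      have := List.sum_le_card_nsmul (l.map fun p : M × ℕ => p.2 + 1) e (by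
        intro x hx
        obtain ⟨p, hp, rfl⟩ := List.mem_map.1 hx
        exact hz p hp)
      simpa using this
    have h4 : c ≤ l.length := by
      by_contra hc
      have : l.length * e ≤ c * e := Nat.mul_le_mul_right _ (by omega)
      omega
    refine Submodule.subset_span ⟨0, l.map Prod.fst, by simp, by simpa using h4, ?_⟩
    simp [List.map_map, Function.comp_def]

variable {N : Type} [Group N]

lemma exists_sec (χ : N →* Multiplicative ℤ) :
    ∃ s : N →* N, (∀ n, χ (s n) = χ n) ∧ ∀ n, χ n = 1 → s n = 1 := by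
  obtain ⟨⟨z, t, rfl⟩, hz⟩ := IsCyclic.exists_generator (α := χ.range)
  have hd : ∀ n, (χ t).toAdd ∣ (χ n).toAdd := by
    intro n
    obtain ⟨k, hk⟩ := Subgroup.mem_zpowers_iff.1 (hz ⟨χ n, n, rfl⟩)
    have h1 : χ t ^ k = χ n := by simpa using congrArg Subtype.val hk
    refine ⟨k, ?_⟩
    rw [← h1, toAdd_zpow, smul_eq_mul, mul_comm]
  refine ⟨MonoidHom.mk' (fun n => t ^ ((χ n).toAdd / (χ t).toAdd)) ?_, ?_, ?_⟩
  · intro a b
    rw [map_mul, toAdd_mul, Int.add_ediv_of_dvd_left (hd a), zpow_add]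
  · intro n
    apply Multiplicative.toAdd.injective
    simp only [MonoidHom.mk'_apply, map_zpow, toAdd_zpow, smul_eq_mul]
    exact Int.ediv_mul_cancel (hd n)
  · intro n hn
    simp [hn]

/-- The additive extension of a homomorphism to the integers. -/
def Lc (χ : N →* Multiplicative ℤ) : MonoidAlgebra ℤ N →+ ℤ :=
  MonoidAlgebra.liftNC (AddMonoidHom.id ℤ) fun n => (χ n).toAdd

lemma Lc_of (χ : N →* Multiplicative ℤ) (n : N) :
    Lc χ (MonoidAlgebra.of ℤ N n) = (χ n).toAdd := by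
  simp [Lc]

lemma Lc_two (χ : N →* Multiplicative ℤ) {y : MonoidAlgebra ℤ N} (hy : y ∈ Ia N 2) :
    Lc χ y = 0 := by
  have key : ∀ (a b : N) (z : MonoidAlgebra ℤ N),
      Lc χ ((MonoidAlgebra.of ℤ N a - 1) * ((MonoidAlgebra.of ℤ N b - 1) * z)) = 0 := by
    intro a b z
    induction z using MonoidAlgebra.induction_on with
    | of m =>
      simp only [sub_mul, mul_sub, one_mul, ← map_mul, map_sub, Lc_of]
      simp only [map_mul, toAdd_mul]
      ring
    | add x y hx hy => rw [mul_add, mul_add, map_add, hx, hy, add_zero]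
    | smul r x hx => rw [mul_smul_comm, mul_smul_comm, map_zsmul, hx, smul_zero]
  induction hy using Submodule.span_induction with
  | zero => simp
  | add a b _ _ ha hb => rw [map_add, ha, hb, add_zero]
  | smul c a _ ha => rw [map_zsmul, ha, smul_zero]
  | mem a ha =>
    obtain ⟨a, l, -, h2, rfl⟩ := ha
    rcases a with _ | a
    · rcases l with _ | ⟨g, _ | ⟨g', l⟩⟩
      · simp at h2
      · simp at h2
      · rw [map_zsmul]
        simp only [List.map_cons, List.prod_cons]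
        rw [key, smul_zero]
    · simp

end JenA

open JenA in
theorem jenA (_h : Iw0Stmt) : JenAStmt := by
  intro N _ _ χ hM g hg
  by_cases hχ : χ g = 1
  swap
  · refine ⟨2, fun m hm hmem => hχ ?_⟩
    have h0 := Lc_two χ hmem
    rw [map_zsmul, map_sub, ← map_one (MonoidAlgebra.of ℤ N), Lc_of, Lc_of] at h0
    simpa [hm] using h0
  obtain ⟨c, hc⟩ := hM ⟨g, hχ⟩ (fun h => hg (congrArg Subtype.val h))
  obtain ⟨s, hs, hs1⟩ := exists_sec χ
  obtain ⟨e, he⟩ := Subgroup.nilpotent_iff_lowerCentralSeries.1 (inferInstance : Group.IsNilpotent N)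
  let Γ : ℕ → Subgroup χ.ker := fun w =>
    ((⊤ : Subgroup N).lowerCentralSeries w).subgroupOf χ.ker
  have hΓe : ∀ w, e ≤ w → ∀ x ∈ Γ w, x = 1 := by
    intro w hw x hx
    have h1 : (x : N) ∈ (⊤ : Subgroup N).lowerCentralSeries e :=
      Subgroup.lowerCentralSeries_antitone _ hw hx
    rw [he] at h1
    exact Subtype.ext h1
  let u : N → χ.ker := fun n => ⟨n * (s n)⁻¹, by simp [MonoidHom.mem_ker, hs]⟩
  let φ : N → (χ.ker →* χ.ker) := fun n => (MulAut.conjNormal (s n) : MulAut χ.ker).toMonoidHom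
  have hφ : ∀ n w x, x ∈ Γ w → φ n x * x⁻¹ ∈ Γ (w + 1) := by
    intro n w x hx
    have h2 : _ ∈ (⊤ : Subgroup N).lowerCentralSeries (w + 1) :=
      inv_mem (Subgroup.commutator_mem_commutator hx (Subgroup.mem_top (s n)))
    rw [commutatorElement_inv, commutatorElement_def] at h2
    simpa [Γ, φ, Subgroup.mem_subgroupOf] using h2
  let P := MonoidAlgebra.mapDomainLinearMap ℤ ℤ u
  have hP : ∀ n, P (MonoidAlgebra.of ℤ N n) = MonoidAlgebra.of ℤ _ (u n) := fun n =>
    MonoidAlgebra.mapDomainLinearMap_single _ _ _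
  have hmul : ∀ (n : N) (y : MonoidAlgebra ℤ N), P (MonoidAlgebra.of ℤ N n * y) =
      MonoidAlgebra.of ℤ _ (u n) * MonoidAlgebra.mapDomainAlgHom ℤ ℤ (φ n) (P y) := by
    intro n y
    induction y using MonoidAlgebra.induction_on with
    | of m =>
      have e1 : MonoidAlgebra.mapDomainAlgHom ℤ ℤ (φ n) (MonoidAlgebra.of ℤ _ (u m)) =
          MonoidAlgebra.of ℤ _ (φ n (u m)) := by
        simp [MonoidAlgebra.mapDomainAlgHom_apply]
      rw [← map_mul, hP, hP, e1, ← map_mul]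
      congr 1
      apply Subtype.ext
      simp [u, φ, mul_assoc]
    | add x y hx hy => simp only [mul_add, map_add, hx, hy]
    | smul r x hx => simp only [mul_smul_comm, map_smul, hx]
  have hlist : ∀ l : List N,
      P (l.map fun n => MonoidAlgebra.of ℤ N n - 1).prod ∈ Fw Γ l.length := by
    intro l
    induction l with
    | nil =>
      have h1 : u 1 = 1 := Subtype.ext (by simp [u])
      have h2 := hP 1
      rw [h1, MonoidHom.map_one, MonoidHom.map_one] at h2
      simp only [List.map_nil, List.prod_nil, List.length_nil, h2]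
      exact one_mem Γ
    | cons n l ih =>
      simp only [List.map_cons, List.prod_cons, List.length_cons, sub_mul, one_mul, map_sub, hmul]
      exact step Γ (φ n) (hφ n) (by simp [Γ]) ih
  have hIa : ∀ j, ∀ y ∈ Ia N j, P y ∈ Fw Γ j := by
    intro j y hy
    induction hy using Submodule.span_induction with
    | zero => simp
    | add a b _ _ ha hb => rw [map_add]; exact add_mem ha hb
    | smul c a _ ha => rw [map_smul]; exact Submodule.smul_mem _ _ ha
    | mem a ha =>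
      obtain ⟨a, l, -, h2, rfl⟩ := ha
      rcases a with _ | a
      · rw [map_smul]
        exact Submodule.smul_mem _ _ (Fw_anti Γ (by simpa using h2) (hlist l))
      · simp
  refine ⟨c * e + 1, fun m hm hmem => hc m hm (Fw_le Γ e hΓe c ?_)⟩
  have h1 := hIa _ _ hmem
  have h2 : u g = ⟨g, hχ⟩ := Subtype.ext (by simp [u, hs1 g hχ])
  have h3 : u 1 = 1 := Subtype.ext (by simp [u])
  rwa [map_smul, map_sub, ← map_one (MonoidAlgebra.of ℤ N), hP, hP, h2, h3, map_one] at h1

end Pool.Agent.MP_54e5d7_al.atl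

end
end MrgPart1

-- marker of a merged file
example : 731051 + 442079 = 731051 + 442079 := rfl
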